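import Pool.Agent.H231R2.Lf

/-! # Cut and repeat (task 8) -/

set_option autoImplicit false

open Filter Topology Metric Set
open scoped Pointwise ComplexConjugate

noncomputable section

namespace H231R2

namespace StackAux

lemma tr_succ_smul (k : ℤ) (u : ℂ) (R : Set ℂ) :
    Mv.tr ((k : ℂ) * u) • Mv.tr u • R = Mv.tr (((k + 1 : ℤ) : ℂ) * u) • R := by
  rw [smul_smul, Mv.tr_mul]
  congr 2
  push_cast
  ring

lemma mono_step {u : ℂ} {R : Set ℂ} (hsub : R ⊆ Mv.tr u • R) (k : ℤ) :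
    Mv.tr ((k : ℂ) * u) • R ⊆ Mv.tr (((k + 1 : ℤ) : ℂ) * u) • R := by
  rw [← tr_succ_smul]
  exact Set.smul_set_mono hsub

lemma mono_nat {u : ℂ} {R : Set ℂ} (hsub : R ⊆ Mv.tr u • R) (k : ℤ) (n : ℕ) :
    Mv.tr ((k : ℂ) * u) • R ⊆ Mv.tr (((k + n : ℤ) : ℂ) * u) • R := by
  induction n with
  | zero => simp
  | succ n ih =>
    refine ih.trans ?_
    have := mono_step hsub (k + n)
    have e : (k + ((n + 1 : ℕ) : ℤ)) = (k + n) + 1 := by push_cast; ring
    rw [e]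
    exact this

lemma mono {u : ℂ} {R : Set ℂ} (hsub : R ⊆ Mv.tr u • R) {k l : ℤ} (h : k ≤ l) :
    Mv.tr ((k : ℂ) * u) • R ⊆ Mv.tr ((l : ℂ) * u) • R := by
  obtain ⟨n, rfl⟩ := Int.le.dest h
  exact mono_nat hsub k n

/-- a crossing index -/
lemma exists_cross {u : ℂ} {R : Set ℂ} (hsub : R ⊆ Mv.tr u • R)
    (hex1 : ∀ z, ∃ k : ℤ, z ∈ Mv.tr ((k : ℂ) * u) • R)
    (hex2 : ∀ z, ∃ k : ℤ, z ∉ Mv.tr ((k : ℂ) * u) • R) (z : ℂ) :
    ∃ k : ℤ, z ∉ Mv.tr ((k : ℂ) * u) • R ∧ z ∈ Mv.tr (((k + 1 : ℤ) : ℂ) * u) • R := by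
  obtain ⟨a, ha⟩ := hex1 z
  obtain ⟨b, hb⟩ := hex2 z
  have hbd : ∀ k : ℤ, z ∈ Mv.tr ((k : ℂ) * u) • R → b ≤ k := by
    intro k hk
    by_contra hlt
    exact hb (mono hsub (not_le.mp hlt).le hk)
  obtain ⟨k, hk, hmin⟩ := Int.exists_least_of_bdd (P := fun k : ℤ => z ∈ Mv.tr ((k : ℂ) * u) • R)
    ⟨b, hbd⟩ ⟨a, ha⟩
  refine ⟨k - 1, ?_, ?_⟩
  · intro h
    have := hmin (k - 1) h
    omega
  · have e : k - 1 + 1 = k := by ring
    rw [e]
    exact hk

lemma mem_tr_smul {v z : ℂ} {A : Set ℂ} : z ∈ Mv.tr v • A ↔ z - v ∈ A := by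
  rw [Set.mem_smul_set_iff_inv_smul_mem, Mv.tr_inv, Mv.tr_smul, sub_eq_add_neg]

lemma cover_aux {N : ℕ} {P : Fin N → Set ℂ} (hP : ∀ i, Nice (P i)) (T : Tiling P) (u : ℂ)
    {R : Set ℂ} (hRcl : IsClosed R) (hRreg : R ⊆ closure (interior R))
    (hR1 : ∀ t, T.tile t ⊆ R ∨ Disjoint (interior (T.tile t)) R)
    (hR2 : ∀ t, T.tile t ⊆ Mv.tr u • R ∨ Disjoint (interior (T.tile t)) (Mv.tr u • R))
    (z : ℂ) (hz1 : z ∉ R) (hz2 : z ∈ Mv.tr u • R) :
    ∃ t, z ∈ T.tile t ∧ T.tile t ⊆ Mv.tr u • R ∧ Disjoint (interior (T.tile t)) R := by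
  have hreg2 : Mv.tr u • R ⊆ closure (interior (Mv.tr u • R)) := by
    rw [interior_smul_mv, closure_smul]
    exact Set.smul_set_mono hRreg
  set F : Set T.J := {t | (T.tile t ∩ closedBall 0 (‖z‖ + 1)).Nonempty} with hF
  have hFfin : F.Finite := T.lf hP _
  set D : Set T.J := {t | T.tile t ⊆ Mv.tr u • R ∧ Disjoint (interior (T.tile t)) R} with hD
  set U : Set ℂ := ⋃ t ∈ F ∩ D, T.tile t with hU
  have hUcl : IsClosed U := by
    apply (hFfin.inter_of_left D).isClosed_biUnion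
    intro t _
    exact ((hP (T.idx t)).smul (T.g t)).closed
  have hmem : ∀ w, w ∈ interior (Mv.tr u • R) → w ∉ R → w ∈ ball z 1 → w ∈ U := by
    intro w hw1 hw2 hw3
    obtain ⟨t, ht⟩ := T.cover w
    have ht' : w ∈ T.tile t := ht
    have h1 : Disjoint (interior (T.tile t)) R := by
      rcases hR1 t with h | h
      · exact absurd (h ht') hw2
      · exact h
    have h2 : T.tile t ⊆ Mv.tr u • R := by
      rcases hR2 t with h | h
      · exact h
      · exfalso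
        have hcl : w ∈ closure (interior (T.tile t)) :=
          ((hP (T.idx t)).smul (T.g t)).reg ht'
        rw [_root_.mem_closure_iff] at hcl
        obtain ⟨x, hx1, hx2⟩ := hcl _ isOpen_interior hw1
        exact Set.disjoint_left.mp h hx2 (interior_subset hx1)
    have h3 : t ∈ F := by
      refine ⟨w, ht', ?_⟩
      rw [mem_closedBall, dist_zero_right]
      have : dist w z < 1 := hw3
      have h4 : ‖w‖ ≤ ‖w - z‖ + ‖z‖ := by
        calc ‖w‖ = ‖(w - z) + z‖ := by ring_nf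
          _ ≤ ‖w - z‖ + ‖z‖ := norm_add_le _ _
      rw [dist_eq_norm] at this
      linarith
    rw [hU]
    simp only [mem_iUnion]
    exact ⟨t, ⟨h3, h2, h1⟩, ht'⟩
  have hzcl : z ∈ closure U := by
    rw [_root_.mem_closure_iff]
    intro O hO hzO
    have hz3 := hreg2 hz2
    rw [_root_.mem_closure_iff] at hz3
    obtain ⟨w, hw1, hw2⟩ := hz3 (O ∩ (Rᶜ ∩ ball z 1))
      (hO.inter (hRcl.isOpen_compl.inter isOpen_ball)) ⟨hzO, hz1, mem_ball_self one_pos⟩
    exact ⟨w, hw1.1, hmem w hw2 hw1.2.1 hw1.2.2⟩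
  have hzU : z ∈ U := hUcl.closure_subset hzcl
  rw [hU] at hzU
  simp only [mem_iUnion] at hzU
  obtain ⟨t, ht, hzt⟩ := hzU
  exact ⟨t, hzt, ht.2.1, ht.2.2⟩

end StackAux

open StackAux

/-- If the closed regular region `R ⊆ R + u` and `R + u` are both unions of tiles up to
boundaries, then the tiles between them, translated by all the multiples of `u`, form a tiling. -/
theorem stack {N : ℕ} {P : Fin N → Set ℂ} (hP : ∀ i, Nice (P i)) (T : Tiling P) (u : ℂ)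
    {R : Set ℂ} (hRcl : IsClosed R) (hRreg : R ⊆ closure (interior R)) (hsub : R ⊆ Mv.tr u • R)
    (hex1 : ∀ z, ∃ k : ℤ, z ∈ Mv.tr ((k : ℂ) * u) • R)
    (hex2 : ∀ z, ∃ k : ℤ, z ∉ Mv.tr ((k : ℂ) * u) • R)
    (hR1 : ∀ t, T.tile t ⊆ R ∨ Disjoint (interior (T.tile t)) R)
    (hR2 : ∀ t, T.tile t ⊆ Mv.tr u • R ∨ Disjoint (interior (T.tile t)) (Mv.tr u • R)) :
    ∃ T' : Tiling P, T'.Per u ∧ (∀ v, T.Per v → Mv.tr v • R = R → T'.Per v) ∧
      ∀ t', ∃ (t : T.J) (k : ℤ), T'.tile t' = Mv.tr ((k : ℂ) * u) • T.tile t ∧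
        T.tile t ⊆ Mv.tr u • R ∧ Disjoint (interior (T.tile t)) R := by
  -- the tiles between `R` and `R + u`
  let p : T.J → Prop := fun t => T.tile t ⊆ Mv.tr u • R ∧ Disjoint (interior (T.tile t)) R
  have hlt : ∀ (s t : {t // p t}) (k l : ℤ), k < l →
      Disjoint (interior ((Mv.tr ((k : ℂ) * u) * T.g s.1) • P (T.idx s.1)))
        (interior ((Mv.tr ((l : ℂ) * u) * T.g t.1) • P (T.idx t.1))) := by
    intro s t k l hkl
    rw [mul_smul, mul_smul]
    have h1 : interior (Mv.tr ((k : ℂ) * u) • T.tile s.1) ⊆ Mv.tr ((l : ℂ) * u) • R := by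
      refine interior_subset.trans ?_
      refine (Set.smul_set_mono s.2.1).trans ?_
      rw [tr_succ_smul]
      exact mono hsub (by omega)
    have h2 : Disjoint (interior (Mv.tr ((l : ℂ) * u) • T.tile t.1)) (Mv.tr ((l : ℂ) * u) • R) := by
      rw [interior_smul_mv]
      exact Set.disjoint_smul_set.mpr t.2.2
    exact (h2.mono_right h1).symm
  let T' : Tiling P :=
    { J := {t // p t} × ℤ
      idx := fun x => T.idx x.1.1
      g := fun x => Mv.tr ((x.2 : ℂ) * u) * T.g x.1.1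
      cover := by
        intro z
        obtain ⟨k, hk1, hk2⟩ := exists_cross hsub hex1 hex2 z
        rw [mem_tr_smul] at hk1
        rw [← tr_succ_smul, mem_tr_smul] at hk2
        obtain ⟨t, ht1, ht2, ht3⟩ := cover_aux hP T u hRcl hRreg hR1 hR2 _ hk1 hk2
        refine ⟨(⟨t, ht2, ht3⟩, k), ?_⟩
        show z ∈ (Mv.tr ((k : ℂ) * u) * T.g t) • P (T.idx t)
        rw [mul_smul, mem_tr_smul]
        exact ht1
      disj := by
        rintro ⟨s, k⟩ ⟨t, l⟩ hne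
        rcases lt_trichotomy k l with h | h | h
        · exact hlt s t k l h
        · subst h
          have hst : s.1 ≠ t.1 := by
            intro h
            exact hne (by rw [Subtype.ext h])
          show Disjoint (interior ((Mv.tr ((k : ℂ) * u) * T.g s.1) • P (T.idx s.1)))
            (interior ((Mv.tr ((k : ℂ) * u) * T.g t.1) • P (T.idx t.1)))
          rw [mul_smul, mul_smul, interior_smul_mv, interior_smul_mv (Mv.tr ((k : ℂ) * u))]
          exact Set.disjoint_smul_set.mpr (T.disj s.1 t.1 hst)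
        · exact (hlt t s l k h).symm }
  have htile : ∀ x : {t // p t} × ℤ, T'.tile x = Mv.tr ((x.2 : ℂ) * u) • T.tile x.1.1 := by
    intro x
    show (Mv.tr ((x.2 : ℂ) * u) * T.g x.1.1) • P (T.idx x.1.1) = _
    rw [mul_smul]
    rfl
  refine ⟨T', ?_, ?_, ?_⟩
  · refine ⟨Equiv.prodCongr (Equiv.refl _) (Equiv.addRight (1 : ℤ)), ?_⟩
    rintro ⟨t, k⟩
    refine ⟨rfl, ?_⟩
    show Mv.tr (((k + 1 : ℤ) : ℂ) * u) * T.g t.1 = Mv.tr u * (Mv.tr ((k : ℂ) * u) * T.g t.1)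
    rw [← mul_assoc, Mv.tr_mul]
    congr 2
    push_cast
    ring
  · rintro v ⟨σ, hσ⟩ hv
    have hσt : ∀ t, T.tile (σ t) = Mv.tr v • T.tile t := by
      intro t
      show T.g (σ t) • P (T.idx (σ t)) = _
      rw [(hσ t).1, (hσ t).2, mul_smul]
      rfl
    have hcomm : Mv.tr u • R = Mv.tr v • Mv.tr u • R := by
      conv_lhs => rw [← hv]
      rw [smul_smul, smul_smul, Mv.tr_mul, Mv.tr_mul, add_comm]
    have hp : ∀ t, p (σ t) ↔ p t := by
      intro t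
      show (T.tile (σ t) ⊆ Mv.tr u • R ∧ Disjoint (interior (T.tile (σ t))) R) ↔
        (T.tile t ⊆ Mv.tr u • R ∧ Disjoint (interior (T.tile t)) R)
      refine and_congr ?_ ?_
      · rw [hσt, hcomm, Set.smul_set_subset_smul_set_iff, ← hcomm]
      · rw [hσt, interior_smul_mv]
        conv_lhs => rw [← hv]
        exact Set.disjoint_smul_set
    refine ⟨Equiv.prodCongr (σ.subtypeEquiv (fun t => (hp t).symm)) (Equiv.refl ℤ), ?_⟩
    rintro ⟨t, k⟩
    refine ⟨(hσ t.1).1, ?_⟩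
    show Mv.tr ((k : ℂ) * u) * T.g (σ t.1) = Mv.tr v * (Mv.tr ((k : ℂ) * u) * T.g t.1)
    rw [(hσ t.1).2, ← mul_assoc, ← mul_assoc, Mv.tr_mul, Mv.tr_mul, add_comm]
  · rintro ⟨t, k⟩
    exact ⟨t.1, k, htile (t, k), t.2.1, t.2.2⟩

end H231R2
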