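import Pool.Agent.H231R2.Hull
import Pool.Agent.H231R2.Stack

/-! # The final assembly (task 13) -/

set_option autoImplicit false

open Filter Topology Metric Set
open scoped Pointwise ComplexConjugate

noncomputable section

namespace H231R2
namespace Asm

/-- the height form `y` with `y v = 0`, `y d = 1` -/
lemma exists_form (v d : ℂ) (hvd : yd v d ≠ 0) : ∃ (L : ℂ →ₗ[ℝ] ℝ) (Y : ℝ),
    (∀ z, L z = yd v z / yd v d) ∧ L v = 0 ∧ L d = 1 ∧ 0 ≤ Y ∧ ∀ z, |L z| ≤ Y * ‖z‖ := by
  refine ⟨(yd v d)⁻¹ • (Complex.imLm ∘ₗ LinearMap.mulLeft ℝ (conj v)), ‖v‖ / |yd v d|, ?_, ?_, ?_,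
    by positivity, ?_⟩
  · intro z
    simp only [LinearMap.smul_apply, LinearMap.comp_apply, LinearMap.mulLeft_apply,
      Complex.imLm_coe, smul_eq_mul, yd]
    ring
  · simp only [LinearMap.smul_apply, LinearMap.comp_apply, LinearMap.mulLeft_apply,
      Complex.imLm_coe, smul_eq_mul]
    rw [← Complex.normSq_eq_conj_mul_self, Complex.ofReal_im, mul_zero]
  · simp only [LinearMap.smul_apply, LinearMap.comp_apply, LinearMap.mulLeft_apply,
      Complex.imLm_coe, smul_eq_mul]
    exact inv_mul_cancel₀ hvd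
  · intro z
    simp only [LinearMap.smul_apply, LinearMap.comp_apply, LinearMap.mulLeft_apply,
      Complex.imLm_coe, smul_eq_mul]
    rw [abs_mul, abs_inv, div_mul_eq_mul_div, inv_mul_eq_div]
    gcongr
    refine (Complex.abs_im_le_norm _).trans ?_
    rw [norm_mul, Complex.norm_conj]

/-- a strip modulo `v` is compact -/
lemma exists_shift {v d : ℂ} (hv : v ≠ 0) (hvd : yd v d ≠ 0) (C : ℝ) :
    ∃ C' : ℝ, ∀ q : ℂ, |yd v q / yd v d| ≤ C → ∃ k : ℤ, ‖q + k * v‖ ≤ C' := by
  refine ⟨C * ‖d‖ + ‖v‖, ?_⟩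
  intro q hq
  set b : ℝ := yd v q / yd v d with hb
  have hn : (Complex.normSq v) ≠ 0 := by simpa [Complex.normSq_eq_zero] using hv
  set a : ℝ := (conj v * (q - b * d)).re / Complex.normSq v with ha
  have h1 : (conj v * (q - b * d)).im = 0 := by
    have h2 : (conj v * (q - b * d)).im = yd v q - b * yd v d := by
      simp only [yd, Complex.mul_im, Complex.sub_im, Complex.sub_re, Complex.mul_re,
        Complex.ofReal_re, Complex.ofReal_im]
      ring
    rw [h2, hb, div_mul_cancel₀ _ hvd, sub_self]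
  have h3 : conj v * (q - b * d) = ((a * Complex.normSq v : ℝ) : ℂ) := by
    apply Complex.ext
    · rw [Complex.ofReal_re, ha, div_mul_cancel₀ _ hn]
    · rw [Complex.ofReal_im, h1]
  have h4 : q = b * d + a * v := by
    have h5 : conj v * (q - b * d) = conj v * (a * v) := by
      rw [h3]
      push_cast
      rw [Complex.normSq_eq_conj_mul_self]
      ring
    have h6 : conj v ≠ 0 := by simpa using hv
    have h7 := mul_left_cancel₀ h6 h5
    linear_combination h7
  refine ⟨-⌊a⌋, ?_⟩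
  have h8 : q + ((-⌊a⌋ : ℤ) : ℂ) * v = b * d + ((Int.fract a : ℝ) : ℂ) * v := by
    rw [h4, ← Int.self_sub_floor]
    push_cast
    ring
  rw [h8]
  refine (norm_add_le _ _).trans ?_
  rw [norm_mul, norm_mul, Complex.norm_real, Complex.norm_real, Real.norm_eq_abs, Real.norm_eq_abs,
    abs_of_nonneg (Int.fract_nonneg a)]
  have h9 : Int.fract a * ‖v‖ ≤ 1 * ‖v‖ := by
    gcongr
    exact (Int.fract_lt_one a).le
  have h10 : |b| * ‖d‖ ≤ C * ‖d‖ := by gcongr
  linarith

/-- powers of the period -/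
lemma per_pow {N : ℕ} {P : Fin N → Set ℂ} {T : Tiling P} {v : ℂ} (hT : T.Per v) (k : ℤ)
    (t : T.J) : ∃ t', T.tile t' = Mv.tr (k * v) • T.tile t := by
  obtain ⟨σ, hσ⟩ := hT
  have hnat : ∀ (k : ℕ) (t : T.J), T.tile ((σ ^ k) t) = Mv.tr (k * v) • T.tile t := by
    intro k
    induction k with
    | zero => intro t; simp
    | succ k ih =>
      intro t
      rw [pow_succ', Equiv.Perm.mul_apply]
      have h1 : T.tile (σ ((σ ^ k) t)) = Mv.tr v • T.tile ((σ ^ k) t) := by
        rw [Tiling.tile, Tiling.tile, (hσ _).1, (hσ _).2, mul_smul]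
      rw [h1, ih, ← mul_smul, Mv.tr_mul]
      congr 2
      push_cast
      ring
  obtain ⟨k', rfl | rfl⟩ := k.eq_nat_or_neg
  · exact ⟨(σ ^ k') t, by rw [hnat]; simp⟩
  · refine ⟨(σ ^ k')⁻¹ t, ?_⟩
    have h1 := hnat k' ((σ ^ k')⁻¹ t)
    have h2 : (σ ^ k') ((σ ^ k')⁻¹ t) = t := by simp
    rw [h2] at h1
    rw [h1, ← mul_smul, Mv.tr_mul]
    push_cast
    simp

variable {S : FlexSys} {v : ℂ}

lemma outer_σ (E : Equi S v) {t : S.J} (ht : S.Outer t) : S.Outer (E.σ t) := by
  intro ℓ hℓ hsub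
  refine ht (ℓ.shift E.symm) hℓ ?_
  rw [Leaf.shift_D]
  rw [E.A_σ] at hsub
  have h1 : Mv.tr (-v) • (Mv.tr v • S.A t) = S.A t := by
    rw [← mul_smul, Mv.tr_mul]; simp
  rw [← h1]
  exact Set.smul_set_mono hsub

/-- the cutting region -/
lemma region (E : Equi S v) (hv : v ≠ 0) {D Y : ℝ} (hY : 0 ≤ Y)
    (hD : ∀ t, ∀ x ∈ S.A t, ∀ y ∈ S.A t, dist x y ≤ D) (L : ℂ →ₗ[ℝ] ℝ) (hL : L v = 0)
    (hLY : ∀ z, |L z| ≤ Y * ‖z‖) (c : ℝ) :
    ∃ R : Set ℂ, IsClosed R ∧ R ⊆ closure (interior R) ∧ (∀ z, z ∈ R ↔ z + v ∈ R) ∧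
      (∀ z, L z ≤ c → z ∈ R) ∧ (∀ z ∈ R, L z ≤ c + Y * max D ‖v‖) ∧
      ∀ t, S.hull t ⊆ R ∨ Disjoint (interior (S.hull t)) R := by
  have hLc : Continuous L := L.continuous_of_finiteDimensional
  set I := {u : S.J // (S.hull u ∩ {z | L z ≤ c}).Nonempty} with hI
  set R : Set ℂ := {z | L z ≤ c} ∪ ⋃ i : I, S.hull i.1 with hR
  have hK := hull_bdd E hv hD
  set K := max D ‖v‖ with hKdef
  have hK0 : 0 ≤ K := (norm_nonneg v).trans (le_max_right _ _)
  have hlf : LocallyFinite (fun i : I => S.hull i.1) := by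
    intro x
    refine ⟨ball x 1, ball_mem_nhds _ one_pos, ?_⟩
    refine ((S.lf (‖x‖ + 1 + K)).preimage (f := fun i : I => i.1)
      (Subtype.val_injective.injOn)).subset ?_
    rintro ⟨u, hu⟩ ⟨z, hz, hz2⟩
    obtain ⟨a, ha⟩ := (S.nice u).ne
    have ha' : a ∈ S.A u := interior_subset ha
    refine ⟨a, ha', ?_⟩
    rw [mem_closedBall, dist_zero_right]
    have h1 : dist a z ≤ K := hK u a (subset_hull u ha') z hz
    have h2 : dist z x < 1 := hz2
    rw [dist_eq_norm] at h1 h2
    calc ‖a‖ = ‖(a - z) + (z - x) + x‖ := by ring_nf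
      _ ≤ ‖a - z‖ + ‖z - x‖ + ‖x‖ := norm_add₃_le
      _ ≤ ‖x‖ + 1 + K := by linarith
  refine ⟨R, ?_, ?_, ?_, ?_, ?_, ?_⟩
  · exact (isClosed_le hLc continuous_const).union
      (hlf.isClosed_iUnion fun i => hull_closed E hv i.1)
  · intro z hz
    rcases hz with hz | hz
    · -- the half plane
      have h1 : {z | L z < c} ⊆ interior R := by
        refine interior_maximal ?_ (isOpen_lt hLc continuous_const)
        intro w hw
        have hw' : L w < c := hw
        exact Or.inl hw'.le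
      by_cases hL0 : ∃ e, 0 < L e
      · obtain ⟨e, he⟩ := hL0
        refine closure_mono h1 ?_
        have h2 : Tendsto (fun n : ℕ => z - (1 / ((n : ℝ) + 1)) • e) atTop (𝓝 (z - (0 : ℝ) • e)) := by
          exact tendsto_const_nhds.sub
            ((tendsto_one_div_add_atTop_nhds_zero_nat (𝕜 := ℝ)).smul_const e)
        rw [zero_smul, sub_zero] at h2
        refine mem_closure_of_tendsto h2 (Eventually.of_forall fun n => ?_)
        have h3 : 0 < 1 / ((n : ℝ) + 1) * L e := by positivity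
        have hz' : L z ≤ c := hz
        show L (z - (1 / ((n : ℝ) + 1)) • e) < c
        rw [map_sub, map_smul, smul_eq_mul]
        linarith
      · have h2 : ∀ e, L e = 0 := by
          intro e
          push Not at hL0
          have h3 := hL0 e
          have h4 := hL0 (-e)
          rw [map_neg] at h4
          linarith
        have hz' : L z ≤ c := hz
        have h5 : R = univ := by
          apply Set.eq_univ_of_forall
          intro w
          left
          show L w ≤ c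
          rw [h2] at hz' ⊢
          exact hz'
        rw [h5]; simp
    · obtain ⟨i, hi⟩ := mem_iUnion.1 hz
      have h1 : interior (S.hull i.1) ⊆ interior R :=
        interior_mono ((subset_iUnion (fun i : I => S.hull i.1) i).trans subset_union_right)
      exact closure_mono h1 (hull_reg E hv i.1 hi)
  · have hadd : ∀ (u : S.J) (w : ℂ), w ∈ S.hull u ↔ w + v ∈ S.hull (E.σ u) := by
      intro u w
      rw [hull_σ E, Set.mem_smul_set_iff_inv_smul_mem, Mv.tr_inv, Mv.tr_smul, add_neg_cancel_right]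
    have hLv : ∀ w, L (w + v) = L w := by
      intro w; rw [map_add, hL, add_zero]
    intro z
    constructor
    · rintro (hz | hz)
      · left
        show L (z + v) ≤ c
        rw [hLv]; exact hz
      · right
        obtain ⟨⟨u, w, hw1, hw2⟩, hi⟩ := mem_iUnion.1 hz
        refine mem_iUnion.2 ⟨⟨E.σ u, w + v, (hadd u w).1 hw1, ?_⟩, (hadd u z).1 hi⟩
        show L (w + v) ≤ c
        rw [hLv]; exact hw2
    · rintro (hz | hz)
      · left
        have hz' : L (z + v) ≤ c := hz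
        show L z ≤ c
        rwa [hLv] at hz'
      · right
        obtain ⟨⟨u, w, hw1, hw2⟩, hi⟩ := mem_iUnion.1 hz
        have hu : E.σ (E.σ.symm u) = u := E.σ.apply_symm_apply u
        refine mem_iUnion.2 ⟨⟨E.σ.symm u, w - v, (hadd _ _).2 ?_, ?_⟩, (hadd _ _).2 ?_⟩
        · rw [hu, sub_add_cancel]; exact hw1
        · show L (w - v) ≤ c
          rw [← hLv, sub_add_cancel]; exact hw2
        · show z + v ∈ S.hull (E.σ (E.σ.symm u))
          rw [hu]; exact hi
  · intro z hz
    exact Or.inl hz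
  · rintro z (hz | hz)
    · have hz' : L z ≤ c := hz
      have : 0 ≤ Y * K := mul_nonneg hY hK0
      linarith
    · obtain ⟨⟨u, w, hw1, hw2⟩, hi⟩ := mem_iUnion.1 hz
      have h1 : dist z w ≤ K := hK u z hi w hw1
      rw [dist_eq_norm] at h1
      have h2 : L z = L w + L (z - w) := by rw [← map_add]; congr 1; ring
      have h3 : L (z - w) ≤ Y * K :=
        (le_abs_self _).trans ((hLY _).trans (by gcongr))
      have h4 : L w ≤ c := hw2
      linarith
  · intro t
    by_cases ht : (S.hull t ∩ {z | L z ≤ c}).Nonempty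
    · left
      exact (subset_iUnion (fun i : I => S.hull i.1) ⟨t, ht⟩).trans subset_union_right
    · right
      rw [Set.disjoint_left]
      rintro z hz (hz2 | hz2)
      · exact ht ⟨z, interior_subset hz, hz2⟩
      · obtain ⟨⟨u, hu⟩, hi⟩ := mem_iUnion.1 hz2
        rcases hull_or E hv t u with h1 | h1
        · rw [h1] at ht
          exact ht hu
        · exact Set.disjoint_left.1 h1 hz hi

end Asm

open Asm in
/-- If all outer tiles above some height are in one class, a doubly periodic tiling exists. -/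
theorem assembly {N : ℕ} {P : Fin N → Set ℂ} (hP : ∀ i, Nice (P i)) (T : Tiling P) {v d : ℂ}
    (hv : v ≠ 0) (hT : T.Per v) (S : LimSys T v d) (hvd : yd v d ≠ 0) (M : ℝ)
    (h : ∀ s t, S.toFlexSys.Outer s → S.toFlexSys.Outer t →
      (∃ z ∈ S.A s, M < yd v z / yd v d) → (∃ z ∈ S.A t, M < yd v z / yd v d) →
      S.toFlexSys.eqv s t) :
    ∃ (T' : Tiling P) (u w : ℂ), Indep u w ∧ T'.Per u ∧ T'.Per w := by
  obtain ⟨L, Y, hL, hLv, hLd, hY, hLY⟩ := exists_form v d hvd
  set E := S.equi with hE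
  obtain ⟨r, D, hr, hD0, hb⟩ := bounds hP
  have hDT : ∀ t, ∀ x ∈ T.tile t, ∀ y ∈ T.tile t, dist x y ≤ D := fun t => (hb _ _).2
  have hDS : ∀ t, ∀ x ∈ S.A t, ∀ y ∈ S.A t, dist x y ≤ D := by
    intro t
    rw [S.A_eq]
    exact (hb _ _).2
  simp only [← hL] at h
  -- an outer tile
  obtain ⟨o, ho, hoM⟩ : ∃ o, S.toFlexSys.Outer o ∧ ∃ z ∈ S.A o, M < L z := by
    obtain ⟨u, hu⟩ := S.toFlexSys.cover (((M + 1 : ℝ) : ℂ) * d)
    have h1 : L (((M + 1 : ℝ) : ℂ) * d) = M + 1 := by
      rw [← Complex.real_smul, map_smul, hLd, smul_eq_mul, mul_one]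
    obtain ⟨o, ho, ho2, -⟩ := hull_rep E hv u L (M := M)
      ⟨_, subset_hull u hu, by rw [h1]; linarith⟩
    exact ⟨o, ho, ho2⟩
  have hσo : S.toFlexSys.eqv (E.σ o) o := by
    refine h _ _ (outer_σ E ho) ho ?_ hoM
    obtain ⟨z, hz, hz2⟩ := hoM
    refine ⟨z + v, ?_, ?_⟩
    · rw [E.A_σ, Set.mem_smul_set_iff_inv_smul_mem, Mv.tr_inv, Mv.tr_smul, add_neg_cancel_right]
      exact hz
    · rw [map_add, hLv, add_zero]
      exact hz2
  set β : ℕ → ℂ := fun n => (S.m n o).b with hβ
  have hmo : ∀ᶠ n in (S.U : Filter ℕ), S.m n o = Mv.tr (β n) := by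
    filter_upwards [hσo, E.m_σ o] with n h1 h2
    rw [h1] at h2
    exact Mv.eq_tr_of_a _ (Mv.a_eq_one_of_comm hv h2.symm)
  have hβ0 : Tendsto β S.U (𝓝 0) := (Mv.tendsto_iff.1 (S.m_lim o)).2
  have hLc : Continuous L := L.continuous_of_finiteDimensional
  have hLβ0 : Tendsto (fun n => L (β n)) S.U (𝓝 0) := by
    have := (hLc.tendsto 0).comp hβ0
    rwa [map_zero] at this
  have hLβ1 : ∀ᶠ n in (S.U : Filter ℕ), |L (β n)| < 1 / 4 := by
    have := hLβ0.abs
    rw [abs_zero] at this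
    exact this.eventually_lt_const (by norm_num)
  set c := M + 1 with hc
  obtain ⟨R, hRcl, hRreg, hRv, hRle, hRbd, hRhull⟩ := region E hv hY hDS L hLv hLY c
  set K := max D ‖v‖ with hK
  have hK0 : 0 ≤ K := (norm_nonneg v).trans (le_max_right _ _)
  have hYK : 0 ≤ Y * K := mul_nonneg hY hK0
  have hRvk : ∀ (k : ℤ) (z : ℂ), z ∈ R ↔ z + k * v ∈ R := by
    intro k
    induction k using Int.induction_on with
    | zero => intro z; simp
    | succ i ih =>
      intro z
      rw [ih z, hRv (z + _)]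
      push_cast
      ring_nf
    | pred i ih =>
      intro z
      rw [ih z, hRv (z + ((-(i : ℤ) - 1 : ℤ) : ℂ) * v)]
      push_cast
      ring_nf
  -- bad tiles
  set Bad : ℕ → Set ℂ → Prop := fun n X => ¬ (X ⊆ Mv.tr (β n) • R) ∧
    ¬ Disjoint (interior X) (Mv.tr (β n) • R) with hBad
  have hmemR : ∀ n (z : ℂ), z ∈ Mv.tr (β n) • R ↔ z - β n ∈ R := by
    intro n z
    rw [Set.mem_smul_set_iff_inv_smul_mem, Mv.tr_inv, Mv.tr_smul, sub_eq_add_neg]
  have hBadshift : ∀ n (X : Set ℂ) (k : ℤ), Bad n X → Bad n (Mv.tr (k * v) • X) := by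
    intro n X k hX
    have hR' : Mv.tr (k * v) • (Mv.tr (β n) • R) = Mv.tr (β n) • R := by
      ext z
      rw [Set.mem_smul_set_iff_inv_smul_mem, Mv.tr_inv, Mv.tr_smul, hmemR, hmemR,
        hRvk k (z + -(k * v) - β n)]
      ring_nf
    refine ⟨?_, ?_⟩
    · intro hsub
      rw [← hR'] at hsub
      exact hX.1 (Set.smul_set_subset_smul_set_iff.1 hsub)
    · intro hdis
      rw [interior_smul_mv, ← hR'] at hdis
      exact hX.2 (Set.disjoint_smul_set.1 hdis)
  have claim : ∀ᶠ n : ℕ in (S.U : Filter ℕ), ∀ τ, ¬ Bad n (Mv.tr (-((n : ℂ) * d)) • T.tile τ) := by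
    by_contra hcon
    rw [← Ultrafilter.eventually_not] at hcon
    obtain ⟨C', hC'⟩ := exists_shift hv hvd (|c| + Y * D + Y * K + 1)
    -- choose a bad tile in a bounded region
    have hex : ∀ n : ℕ, ∃ τ : T.J, (|L (β n)| < 1 / 4 ∧
        ¬ ∀ τ, ¬ Bad n (Mv.tr (-((n : ℂ) * d)) • T.tile τ)) →
        Bad n (Mv.tr (-((n : ℂ) * d)) • T.tile τ) ∧
          ((Mv.tr (-((n : ℂ) * d)) • T.tile τ) ∩ closedBall 0 C').Nonempty := by
      intro n
      obtain ⟨τ0, -⟩ := T.cover 0
      by_cases hn : (|L (β n)| < 1 / 4 ∧ ¬ ∀ τ, ¬ Bad n (Mv.tr (-((n : ℂ) * d)) • T.tile τ))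
      · obtain ⟨hn1, hn2⟩ := hn
        push Not at hn2
        obtain ⟨τ, hτ⟩ := hn2
        set X := Mv.tr (-((n : ℂ) * d)) • T.tile τ with hX
        obtain ⟨p, hp1, hp2⟩ := Set.not_subset.1 hτ.1
        obtain ⟨q, hq1, hq2⟩ := Set.not_disjoint_iff.1 hτ.2
        have hq1' : q ∈ X := interior_subset hq1
        have hpq : dist q p ≤ D := by
          rw [hX, Tiling.tile, ← mul_smul] at hq1' hp1
          exact (hb _ _).2 q hq1' p hp1
        rw [hmemR] at hp2 hq2
        have h1 : c < L (p - β n) := by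
          by_contra hcc
          exact hp2 (hRle _ (not_lt.1 hcc))
        have h2 := hRbd _ hq2
        rw [map_sub] at h1 h2
        have h3 : |L (q - p)| ≤ Y * D := (hLY _).trans (by
          rw [dist_eq_norm] at hpq
          gcongr)
        rw [map_sub] at h3
        have h4 := abs_le.1 h3
        have h5 := abs_lt.1 hn1
        have h6 : |L q| ≤ |c| + Y * D + Y * K + 1 := by
          have h7 := neg_abs_le c
          have h8 := le_abs_self c
          have h9 : 0 ≤ Y * D := mul_nonneg hY hD0.le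
          rw [abs_le]
          constructor
          · linarith
          · linarith
        rw [hL] at h6
        obtain ⟨k, hk⟩ := hC' q h6
        obtain ⟨τ', hτ'⟩ := per_pow hT k τ
        have hX' : Mv.tr (-((n : ℂ) * d)) • T.tile τ' = Mv.tr (k * v) • X := by
          rw [hτ', hX, ← mul_smul, ← mul_smul, Mv.tr_mul, Mv.tr_mul, add_comm]
        refine ⟨τ', fun _ => ?_⟩
        rw [hX']
        refine ⟨hBadshift n X k hτ, q + k * v, ?_, ?_⟩
        · rw [Set.mem_smul_set_iff_inv_smul_mem, Mv.tr_inv, Mv.tr_smul, add_neg_cancel_right]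
          exact hq1'
        · simpa using hk
      · exact ⟨τ0, fun h => absurd h hn⟩
    choose τ hτ using hex
    have h1 : ∀ᶠ n : ℕ in (S.U : Filter ℕ), Bad n (Mv.tr (-((n : ℂ) * d)) • T.tile (τ n)) ∧
        ((Mv.tr (-((n : ℂ) * d)) • T.tile (τ n)) ∩ closedBall 0 C').Nonempty := by
      filter_upwards [hLβ1, hcon] with n hn1 hn2
      exact hτ n ⟨hn1, hn2⟩
    obtain ⟨t, ht⟩ := S.tight C' τ (h1.mono fun _ h => h.2)
    have hbad : ∀ᶠ n : ℕ in (S.U : Filter ℕ), Bad n (S.m n t • S.A t) := by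
      filter_upwards [ht, h1] with n hn hn2
      rw [hn.2]
      exact hn2.1
    by_cases htM : ∃ z ∈ S.toFlexSys.hull t, M < L z
    · obtain ⟨o', ho', ho'M, hsub⟩ := hull_rep E hv t L htM
      have hoo : S.toFlexSys.eqv o' o := h _ _ ho' ho ho'M hoM
      obtain ⟨n, h1, h2, h3, h4⟩ := (hsub.and (hoo.and (hmo.and hbad))).exists
      have h5 : S.m n t • S.A t ⊆ Mv.tr (β n) • S.toFlexSys.hull t := by
        rw [h2, h3] at h1
        exact h1
      rcases hRhull t with h6 | h6
      · exact h4.1 (h5.trans (Set.smul_set_mono h6))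
      · refine h4.2 ?_
        have h7 : interior (S.m n t • S.A t) ⊆ Mv.tr (β n) • interior (S.toFlexSys.hull t) := by
          rw [← interior_smul_mv]
          exact interior_mono h5
        exact Disjoint.mono_left h7 (Set.disjoint_smul_set.2 h6)
    · push Not at htM
      -- the tile is low
      obtain ⟨B, hB⟩ := (S.nice t).bdd.exists_norm_le
      have hclose : ∀ᶠ n : ℕ in (S.U : Filter ℕ), ∀ z ∈ S.A t, L (S.m n t • z) < M + 1 / 2 := by
        have ha : Tendsto (fun n => ‖(S.m n t).a - 1‖ * |B| + ‖(S.m n t).b‖) S.U (𝓝 0) := by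
          have h1 := (Mv.tendsto_iff.1 (S.m_lim t)).1
          have h2 := (Mv.tendsto_iff.1 (S.m_lim t)).2
          have h3 := ((h1.sub_const 1).norm.mul_const |B|).add h2.norm
          simpa using h3
        have ha2 : ∀ᶠ n : ℕ in (S.U : Filter ℕ),
            ‖(S.m n t).a - 1‖ * |B| + ‖(S.m n t).b‖ < 1 / (2 * (Y + 1)) :=
          ha.eventually_lt_const (by positivity)
        filter_upwards [ha2] with n hn z hz
        have h1 : S.m n t • z = z + ((S.m n t).a - 1) * z + (S.m n t).b := by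
          rw [Mv.smul_def]; ring
        have h2 : L (S.m n t • z) = L z + L (((S.m n t).a - 1) * z + (S.m n t).b) := by
          rw [h1, ← map_add]; congr 1; ring
        have h3 : ‖((S.m n t).a - 1) * z + (S.m n t).b‖ < 1 / (2 * (Y + 1)) := by
          refine lt_of_le_of_lt (norm_add_le _ _) (lt_of_le_of_lt ?_ hn)
          rw [norm_mul]
          have h4 : ‖z‖ ≤ |B| := (hB z hz).trans (le_abs_self B)
          gcongr
        have h4 : |L (((S.m n t).a - 1) * z + (S.m n t).b)| < 1 / 2 := by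
          refine lt_of_le_of_lt (hLY _) ?_
          have h5 : Y * ‖((S.m n t).a - 1) * z + (S.m n t).b‖ ≤ Y * (1 / (2 * (Y + 1))) := by
            gcongr
          refine lt_of_le_of_lt h5 ?_
          rw [mul_one_div, div_lt_div_iff₀ (by positivity) (by norm_num)]
          linarith
        have h5 := htM z (subset_hull t hz)
        have h6 := (abs_lt.1 h4).2
        rw [h2]
        linarith
      obtain ⟨n, h1, h2, h3⟩ := (hclose.and (hLβ1.and hbad)).exists
      refine h3.1 ?_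
      rintro _ ⟨z, hz, rfl⟩
      show S.m n t • z ∈ _
      rw [hmemR]
      apply hRle
      have h4 := h1 z hz
      have h5 := (abs_lt.1 h2).1
      rw [map_sub]
      linarith
  -- choose two good indices
  obtain ⟨n, hn1, hn2⟩ := (claim.and hLβ1).exists
  have hlarge : ∀ᶠ n' : ℕ in (S.U : Filter ℕ), (n : ℝ) + Y * K + 2 ≤ (n' : ℝ) :=
    S.hU (tendsto_natCast_atTop_atTop.eventually_ge_atTop _)
  obtain ⟨n', hn1', hn2', hn3⟩ := (claim.and (hLβ1.and hlarge)).exists
  set u : ℂ := (β n' + n' * d) - (β n + n * d) with hu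
  have hLnd : ∀ k : ℕ, L ((k : ℂ) * d) = k := by
    intro k
    have h1 : ((k : ℂ) * d) = ((k : ℝ)) • d := by rw [Complex.real_smul]; push_cast; rfl
    rw [h1, map_smul, hLd, smul_eq_mul, mul_one]
  have hLu : Y * K + 1 ≤ L u := by
    rw [hu, map_sub, map_add, map_add, hLnd, hLnd]
    have h1 := abs_lt.1 hn2
    have h2 := abs_lt.1 hn2'
    linarith
  have hLupos : 0 < L u := by linarith
  set R0 : Set ℂ := Mv.tr (β n + n * d) • R with hR0
  have hmemR0 : ∀ z, z ∈ R0 ↔ z - (β n + n * d) ∈ R := by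
    intro z
    rw [hR0, Set.mem_smul_set_iff_inv_smul_mem, Mv.tr_inv, Mv.tr_smul, sub_eq_add_neg]
  have hmemk : ∀ (w z : ℂ) , z ∈ Mv.tr w • R0 ↔ z - w - (β n + n * d) ∈ R := by
    intro w z
    rw [Set.mem_smul_set_iff_inv_smul_mem, Mv.tr_inv, Mv.tr_smul, hmemR0, ← sub_eq_add_neg]
  have hLku : ∀ (k : ℤ), L ((k : ℂ) * u) = k * L u := by
    intro k
    have h1 : ((k : ℂ) * u) = ((k : ℝ)) • u := by rw [Complex.real_smul]; push_cast; rfl
    rw [h1, map_smul, smul_eq_mul]
  have huR0 : Mv.tr u • R0 = Mv.tr (β n' + n' * d) • R := by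
    rw [hR0, ← mul_smul, Mv.tr_mul, hu]
    congr 2
    ring
  have hgood : ∀ (k : ℕ), (∀ τ, ¬ Bad k (Mv.tr (-((k : ℂ) * d)) • T.tile τ)) → ∀ t,
      T.tile t ⊆ Mv.tr (β k + k * d) • R ∨ Disjoint (interior (T.tile t)) (Mv.tr (β k + k * d) • R) := by
    intro k hk t
    have h1 := hk t
    have hRk : Mv.tr (β k + k * d) • R = Mv.tr (k * d) • (Mv.tr (β k) • R) := by
      rw [← mul_smul, Mv.tr_mul, add_comm]
    have hTk : T.tile t = Mv.tr (k * d) • (Mv.tr (-((k : ℂ) * d)) • T.tile t) := by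
      rw [← mul_smul, Mv.tr_mul]; simp
    rw [hRk]
    simp only [hBad, not_and_or, not_not] at h1
    rcases h1 with h1 | h1
    · left
      rw [hTk]
      exact Set.smul_set_mono h1
    · right
      rw [hTk, interior_smul_mv]
      exact Set.disjoint_smul_set.2 h1
  have hs1 : IsClosed R0 := by
    rw [hR0]
    exact hRcl.smul _
  have hs2 : R0 ⊆ closure (interior R0) := by
    rw [hR0, interior_smul_mv, closure_smul]
    exact Set.smul_set_mono hRreg
  have hs3 : R0 ⊆ Mv.tr u • R0 := by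
    intro z hz
    rw [hmemk]
    apply hRle
    rw [hmemR0] at hz
    have h1 := hRbd _ hz
    rw [map_sub] at h1
    rw [map_sub, map_sub]
    linarith
  have hs4 : ∀ z, ∃ k : ℤ, z ∈ Mv.tr ((k : ℂ) * u) • R0 := by
    intro z
    obtain ⟨k, hk⟩ := exists_int_gt ((L z - L (β n + n * d) - c) / L u)
    refine ⟨k, ?_⟩
    rw [hmemk]
    apply hRle
    rw [map_sub, map_sub, hLku]
    rw [div_lt_iff₀ hLupos] at hk
    linarith
  have hs5 : ∀ z, ∃ k : ℤ, z ∉ Mv.tr ((k : ℂ) * u) • R0 := by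
    intro z
    obtain ⟨k, hk⟩ := exists_int_lt ((L z - L (β n + n * d) - (c + Y * K)) / L u)
    refine ⟨k, ?_⟩
    rw [hmemk]
    intro h0
    have h1 := hRbd _ h0
    rw [map_sub, map_sub, hLku] at h1
    rw [lt_div_iff₀ hLupos] at hk
    linarith
  obtain ⟨T', hT'u, hT'v, -⟩ := stack hP T u hs1 hs2 hs3 hs4 hs5 (hgood n hn1)
    (by rw [huR0]; exact hgood n' hn1')
  refine ⟨T', u, v, ?_, hT'u, hT'v v hT ?_⟩
  · intro h0
    have h1 : yd v u = 0 := by
      have h2 : (conj v * u).im = -(conj u * v).im := by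
        simp only [Complex.mul_im, Complex.conj_re, Complex.conj_im]; ring
      rw [yd, h2, h0, neg_zero]
    rw [hL, h1, zero_div] at hLupos
    exact lt_irrefl _ hLupos
  · ext z
    rw [hmemk, hmemR0, hRv (z - v - _)]
    ring_nf

end H231R2
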