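import Pool.Agent.H231R2.NC

/-! # Interface discs and the connectivity of the outer tiles (task 11) -/

set_option autoImplicit false

open Filter Topology Metric Set
open scoped Pointwise ComplexConjugate

noncomputable section

namespace H231R2
variable {S : FlexSys}

/-- a circular leaf oriented so that `H ≤ 0` is the disc it bounds -/
def Leaf.IsDisc (ℓ : Leaf S) : Prop := 0 < ℓ.G.κ * ℓ.G.ω

/-- the closed disc bounded by a circular leaf -/
def Leaf.D (ℓ : Leaf S) : Set ℂ := {z | ℓ.H z ≤ 0}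

/-- centre of the circular leaf -/
def Leaf.cen (ℓ : Leaf S) : ℂ := Complex.I * ℓ.G.β / ℓ.G.ω

/-- radius of the circular leaf -/
def Leaf.rad (ℓ : Leaf S) : ℝ := ‖ℓ.z0 - ℓ.cen‖

lemma Leaf.IsDisc.ω_ne {ℓ : Leaf S} (h : ℓ.IsDisc) : ℓ.G.ω ≠ 0 := by
  intro h0
  unfold Leaf.IsDisc at h
  rw [h0, mul_zero] at h
  exact lt_irrefl _ h

lemma Leaf.H_circ {ℓ : Leaf S} (h : ℓ.IsDisc) (z : ℂ) :
    ℓ.H z = ℓ.G.κ * ℓ.G.ω / 2 * (‖z - ℓ.cen‖ ^ 2 - ℓ.rad ^ 2) := by
  unfold Leaf.H Leaf.rad Leaf.cen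
  rw [ℓ.G.F_circ h.ω_ne, ℓ.G.F_circ h.ω_ne]
  ring

lemma Leaf.rad_pos {ℓ : Leaf S} (h : ℓ.IsDisc) : 0 < ℓ.rad := by
  unfold Leaf.rad
  rw [norm_pos_iff]
  intro h0
  apply ℓ.V_ne
  have h1 : ℓ.z0 = ℓ.cen := sub_eq_zero.1 h0
  rw [h1]
  unfold Gen.V Leaf.cen
  have : (ℓ.G.ω : ℂ) ≠ 0 := by exact_mod_cast h.ω_ne
  have h2 : Complex.I * (ℓ.G.ω : ℂ) * (Complex.I * ℓ.G.β / ℓ.G.ω) =
      Complex.I * Complex.I * ℓ.G.β := by
    field_simp
  rw [h2, Complex.I_mul_I]
  ring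

lemma Leaf.H_nonpos_iff {ℓ : Leaf S} (h : ℓ.IsDisc) (z : ℂ) :
    ℓ.H z ≤ 0 ↔ ‖z - ℓ.cen‖ ≤ ℓ.rad := by
  have hk : 0 < ℓ.G.κ * ℓ.G.ω / 2 := half_pos h
  rw [ℓ.H_circ h, ← sq_le_sq₀ (norm_nonneg _) (Leaf.rad_pos h).le, ← sub_nonpos (b := ℓ.rad ^ 2)]
  constructor
  · intro h1
    by_contra h3
    push Not at h3
    have := mul_pos hk h3
    linarith
  · intro h1
    exact mul_nonpos_of_nonneg_of_nonpos hk.le h1

lemma Leaf.H_nonneg_iff {ℓ : Leaf S} (h : ℓ.IsDisc) (z : ℂ) :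
    0 ≤ ℓ.H z ↔ ℓ.rad ≤ ‖z - ℓ.cen‖ := by
  have hk : 0 < ℓ.G.κ * ℓ.G.ω / 2 := half_pos h
  rw [ℓ.H_circ h, ← sq_le_sq₀ (Leaf.rad_pos h).le (norm_nonneg _), ← sub_nonneg (b := ℓ.rad ^ 2)]
  constructor
  · intro h1
    by_contra h3
    push Not at h3
    have := mul_neg_of_pos_of_neg hk h3
    linarith
  · intro h1
    exact mul_nonneg hk.le h1

lemma Leaf.D_eq {ℓ : Leaf S} (h : ℓ.IsDisc) : ℓ.D = closedBall ℓ.cen ℓ.rad := by
  ext z
  rw [mem_closedBall, dist_eq_norm]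
  exact Leaf.H_nonpos_iff h z

lemma Leaf.neg_eq {ℓ : Leaf S} (h : ℓ.IsDisc) : {z | ℓ.H z < 0} = ball ℓ.cen ℓ.rad := by
  ext z
  rw [mem_ball, dist_eq_norm, mem_ofPred_eq, ← not_le, ← not_le, Leaf.H_nonneg_iff h z]

lemma Leaf.zero_eq {ℓ : Leaf S} (h : ℓ.IsDisc) : {z | ℓ.H z = 0} = sphere ℓ.cen ℓ.rad := by
  ext z
  rw [mem_sphere, dist_eq_norm, mem_ofPred_eq]
  constructor
  · intro h1
    exact le_antisymm ((Leaf.H_nonpos_iff h z).1 h1.le) ((Leaf.H_nonneg_iff h z).1 h1.ge)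
  · intro h1
    exact le_antisymm ((Leaf.H_nonpos_iff h z).2 h1.le) ((Leaf.H_nonneg_iff h z).2 h1.ge)

lemma Leaf.interior_D {ℓ : Leaf S} (h : ℓ.IsDisc) : interior ℓ.D = ball ℓ.cen ℓ.rad := by
  rw [Leaf.D_eq h]
  exact interior_closedBall _ (Leaf.rad_pos h).ne'

/-- a sphere contained in a closed ball: the closed ball is contained too -/
lemma closedBall_sub_of_sphere {c c' : ℂ} {r r' : ℝ} (hr : 0 < r)
    (h : sphere c r ⊆ closedBall c' r') : closedBall c r ⊆ closedBall c' r' := by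
  have hconv : convexHull ℝ (sphere c r) ⊆ closedBall c' r' :=
    convexHull_min h (convex_closedBall _ _)
  intro z hz
  apply hconv
  rw [convexHull_sphere_eq_closedBall (F := ℂ) c hr.le]
  exact hz

/-- two interface discs are nested or have disjoint interiors -/
theorem Leaf.nested {ℓ ℓ' : Leaf S} (h : ℓ.IsDisc) (h' : ℓ'.IsDisc) :
    ℓ.D ⊆ ℓ'.D ∨ ℓ'.D ⊆ ℓ.D ∨ Disjoint (interior ℓ.D) (interior ℓ'.D) := by
  have key : ∀ {l l' : Leaf S} (h : l.IsDisc) (h' : l'.IsDisc),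
      l.D ⊆ l'.D ∨ Disjoint (sphere l.cen l.rad) (ball l'.cen l'.rad) := by
    intro l l' h h'
    rcases Leaf.nc_circle l l' h.ω_ne with h1 | h1
    · right
      rw [Set.disjoint_left]
      intro w hw hw'
      rw [← Leaf.zero_eq h] at hw
      rw [← Leaf.neg_eq h'] at hw'
      exact absurd (h1 w hw) (not_le.2 hw')
    · left
      rw [Leaf.D_eq h, Leaf.D_eq h']
      apply closedBall_sub_of_sphere (Leaf.rad_pos h)
      intro w hw
      rw [← Leaf.zero_eq h] at hw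
      rw [← Leaf.D_eq h']
      exact h1 w hw
  rcases key h h' with h1 | h1
  · exact Or.inl h1
  rcases key h' h with h2 | h2
  · exact Or.inr (Or.inl h2)
  -- the ball of `ℓ'` is connected and misses the sphere of `ℓ`
  have hpre : IsPreconnected (ball ℓ'.cen ℓ'.rad) := (convex_ball _ _).isPreconnected
  have hcov : ball ℓ'.cen ℓ'.rad ⊆ ball ℓ.cen ℓ.rad ∪ (closedBall ℓ.cen ℓ.rad)ᶜ := by
    intro w hw
    by_cases hw1 : w ∈ ball ℓ.cen ℓ.rad
    · exact Or.inl hw1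
    · right
      intro hw2
      have : w ∈ sphere ℓ.cen ℓ.rad := by
        rw [mem_ball, not_lt] at hw1
        rw [mem_closedBall] at hw2
        rw [mem_sphere]
        exact le_antisymm hw2 hw1
      exact Set.disjoint_left.1 h1 this hw
  have hdis : Disjoint (ball ℓ.cen ℓ.rad) (closedBall ℓ.cen ℓ.rad)ᶜ := by
    rw [Set.disjoint_compl_right_iff_subset]
    exact ball_subset_closedBall
  rcases hpre.subset_or_subset isOpen_ball isClosed_closedBall.isOpen_compl hdis hcov with h3 | h3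
  · right; left
    rw [Leaf.D_eq h, Leaf.D_eq h', ← closure_ball _ (Leaf.rad_pos h').ne',
      ← closure_ball _ (Leaf.rad_pos h).ne']
    exact closure_mono h3
  · right; right
    rw [Leaf.interior_D h, Leaf.interior_D h', Set.disjoint_left]
    intro w hw hw'
    exact h3 hw' (ball_subset_closedBall hw)

/-- an interface disc contains a tile or its interior is disjoint from it -/
theorem Leaf.in_or_out {ℓ : Leaf S} (h : ℓ.IsDisc) (u : S.J) :
    S.A u ⊆ ℓ.D ∨ (∀ w ∈ S.A u, 0 ≤ ℓ.H w) := by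
  rcases ℓ.side u with h1 | h1
  · exact Or.inr h1
  · exact Or.inl h1

/-- a tile is outer if it is contained in no interface disc -/
def FlexSys.Outer (S : FlexSys) (u : S.J) : Prop := ∀ ℓ : Leaf S, ℓ.IsDisc → ¬ S.A u ⊆ ℓ.D

/-- two discs with circles through the same point (in at most two tiles) are equal -/
lemma Leaf.D_eq_of_common {ℓ ℓ' : Leaf S} (h : ℓ.IsDisc) (h' : ℓ'.IsDisc) {w : ℂ}
    (hNT : S.NT w) (hw : ℓ.H w = 0) (hw' : ℓ'.H w = 0) : ℓ'.D = ℓ.D := by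
  obtain ⟨l, hl, hlz⟩ := Leaf.uniq ℓ ℓ' hNT hw hw'
  have hr := Leaf.rad_pos h
  have hr' := Leaf.rad_pos h'
  set R : ℝ := ℓ.rad + ℓ'.rad + ‖ℓ.cen‖ + ‖ℓ'.cen‖ + 1 with hR
  have hRn : ‖(R : ℂ)‖ = R := by
    rw [Complex.norm_real, Real.norm_eq_abs, abs_of_pos]
    positivity
  have h1 : 0 < ℓ.H (R : ℂ) := by
    rw [← not_le, Leaf.H_nonpos_iff h, not_le]
    have := norm_sub_norm_le (R : ℂ) ℓ.cen
    have h3 := norm_nonneg ℓ'.cen
    rw [hRn] at this
    linarith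
  have h2 : 0 < ℓ'.H (R : ℂ) := by
    rw [← not_le, Leaf.H_nonpos_iff h', not_le]
    have := norm_sub_norm_le (R : ℂ) ℓ'.cen
    have h3 := norm_nonneg ℓ.cen
    rw [hRn] at this
    linarith
  have hlpos : 0 < l := by
    rw [hlz] at h2
    exact (pos_iff_pos_of_mul_pos h2).2 h1
  ext z
  show ℓ'.H z ≤ 0 ↔ ℓ.H z ≤ 0
  rw [hlz]
  constructor
  · intro h3
    by_contra h4
    push Not at h4
    have := mul_pos hlpos h4
    linarith
  · intro h3
    exact mul_nonpos_of_nonneg_of_nonpos hlpos.le h3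

lemma Leaf.disj_case {ℓ ℓ' : Leaf S} (h : ℓ.IsDisc) (h' : ℓ'.IsDisc)
    (hd : Disjoint (interior ℓ.D) (interior ℓ'.D)) {w : ℂ} (hNT : S.NT w) (hw : ℓ.H w = 0)
    (hw' : ℓ'.H w ≤ 0) : ℓ'.D = ℓ.D := by
  rcases hw'.eq_or_lt with h1 | h1
  · exact Leaf.D_eq_of_common h h' hNT hw h1
  · exfalso
    have h2 : w ∈ interior ℓ'.D := by
      rw [Leaf.interior_D h', ← Leaf.neg_eq h']
      exact h1
    have h3 : w ∈ closure (interior ℓ.D) := by
      rw [Leaf.interior_D h, closure_ball _ (Leaf.rad_pos h).ne', ← Leaf.D_eq h]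
      exact hw.le
    obtain ⟨y, hy1, hy2⟩ := mem_closure_iff.1 h3 _ isOpen_interior h2
    exact Set.disjoint_left.1 hd hy2 hy1

/-- If `b` is the tile on the outer side at a point `w` (in at most two tiles) of the boundary
of an interface disc whose other neighbours... : a tile which touches the boundary of a maximal
interface disc from outside at a point in at most two tiles is outer. -/
theorem Leaf.outer_of_max {ℓ : Leaf S} (h : ℓ.IsDisc)
    (hmax : ∀ ℓ' : Leaf S, ℓ'.IsDisc → ℓ.D ⊆ ℓ'.D → ℓ'.D ⊆ ℓ.D)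
    {w : ℂ} (hNT : S.NT w) (hw : ℓ.H w = 0) {b : S.J} (hb : w ∈ S.A b) (hb' : ¬ S.A b ⊆ ℓ.D) :
    S.Outer b := by
  intro ℓ' h' hsub
  rcases Leaf.nested h h' with h1 | h1 | h1
  · exact hb' (hsub.trans (hmax ℓ' h' h1))
  · exact hb' (hsub.trans h1)
  · have := Leaf.disj_case h h' h1 hNT hw (hsub hb)
    rw [this] at hsub
    exact hb' hsub

/-- The discs which touch an outer tile at a point in at most two tiles: the other tiles which
touch such a disc from outside (at such points) are outer. -/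
theorem Leaf.outer_of_outer {ℓ : Leaf S} (h : ℓ.IsDisc) {w w' : ℂ} {a b : S.J}
    (hNT : S.NT w) (hw : ℓ.H w = 0) (ha : w ∈ S.A a) (hao : S.Outer a)
    (hNT' : S.NT w') (hw' : ℓ.H w' = 0) (hb : w' ∈ S.A b) (hb' : ¬ S.A b ⊆ ℓ.D) :
    S.Outer b := by
  intro ℓ' h' hsub
  rcases Leaf.nested h h' with h1 | h1 | h1
  · have h2 : ℓ'.H w ≤ 0 := h1 (show ℓ.H w ≤ 0 from hw.le)
    have h3 : 0 ≤ ℓ'.H w := by
      rcases Leaf.in_or_out h' a with h4 | h4
      · exact absurd h4 (hao ℓ' h')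
      · exact h4 w ha
    have := Leaf.D_eq_of_common h h' hNT hw (le_antisymm h2 h3)
    rw [this] at hsub
    exact hb' hsub
  · exact hb' (hsub.trans h1)
  · have := Leaf.disj_case h h' h1 hNT' hw' (hsub hb)
    rw [this] at hsub
    exact hb' hsub

lemma FlexSys.NT_of_interior {u : S.J} {a : ℂ} (ha : a ∈ interior (S.A u)) : S.NT a := by
  intro s t u' hs ht hu
  left
  exact (S.eq_of_mem_interior ha hs).symm.trans (S.eq_of_mem_interior ha ht)

lemma FlexSys.exists_seg (S : FlexSys) {s t : S.J} (hst : s ≠ t) :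
    ∃ a ∈ interior (S.A s), ∃ b ∈ interior (S.A t),
      ∀ x ∈ Icc (0 : ℝ) 1, S.NT (a + x * (b - a)) := by
  obtain ⟨a, ha⟩ := (S.nice s).ne
  obtain ⟨b0, hb0⟩ := (S.nice t).ne
  have hab : b0 - a ≠ 0 := by
    intro h
    have : b0 = a := sub_eq_zero.1 h
    rw [this] at hb0
    exact Set.disjoint_left.1 (S.disj s t hst) ha hb0
  have hcont : Continuous (fun τ : ℝ => a + (b0 - a) * (1 + Complex.I * τ)) := by fun_prop
  have hev : ∀ᶠ τ : ℝ in 𝓝 0, a + (b0 - a) * (1 + Complex.I * τ) ∈ interior (S.A t) := by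
    have := hcont.tendsto 0
    simp only [Complex.ofReal_zero, mul_zero, add_zero, mul_one, add_sub_cancel] at this
    exact this.eventually (isOpen_interior.mem_nhds hb0)
  obtain ⟨δ, hδ, hball⟩ := Metric.eventually_nhds_iff.1 hev
  set B : Set ℂ := {z | ¬ S.NT z} ∩ closedBall 0 (‖a‖ + ‖b0 - a‖ * (1 + δ)) with hB
  have hfin : B.Finite := S.fin_not_NT _
  set T : Set ℝ := {τ | τ ∈ Ioo 0 δ ∧ ∃ x ∈ Icc (0 : ℝ) 1,
    ¬ S.NT (a + x * ((b0 - a) * (1 + Complex.I * τ)))} with hT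
  have hTfin : T.Finite := by
    have hch : ∀ τ : ℝ, ∃ x : ℝ, τ ∈ T → x ∈ Icc (0 : ℝ) 1 ∧
        ¬ S.NT (a + x * ((b0 - a) * (1 + Complex.I * τ))) := by
      intro τ
      by_cases h : τ ∈ T
      · obtain ⟨x, hx, hx'⟩ := h.2
        exact ⟨x, fun _ => ⟨hx, hx'⟩⟩
      · exact ⟨0, fun h' => absurd h' h⟩
    choose x hx using hch
    refine Set.Finite.of_injOn (f := fun τ => a + x τ * ((b0 - a) * (1 + Complex.I * τ)))
      (t := B) ?_ ?_ hfin
    · intro τ hτ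
      obtain ⟨h1, h2⟩ := hx τ hτ
      refine ⟨h2, ?_⟩
      rw [mem_closedBall, dist_zero_right]
      refine (norm_add_le _ _).trans ?_
      gcongr
      rw [norm_mul, norm_mul, Complex.norm_real, Real.norm_eq_abs, abs_of_nonneg h1.1]
      have h3 : ‖(1 + Complex.I * (τ : ℂ))‖ ≤ 1 + δ := by
        refine (norm_add_le _ _).trans ?_
        rw [norm_one, norm_mul, Complex.norm_I, Complex.norm_real, Real.norm_eq_abs,
          abs_of_pos hτ.1.1, one_mul]
        linarith [hτ.1.2]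
      calc x τ * (‖b0 - a‖ * ‖(1 + Complex.I * (τ : ℂ))‖)
          ≤ 1 * (‖b0 - a‖ * (1 + δ)) := by
            gcongr
            exact h1.2
        _ = _ := one_mul _
    · intro τ hτ τ' hτ' heq
      obtain ⟨h1, h2⟩ := hx τ hτ
      obtain ⟨h1', h2'⟩ := hx τ' hτ'
      simp only [add_right_inj] at heq
      have h3 : (x τ : ℂ) * (1 + Complex.I * τ) = x τ' * (1 + Complex.I * τ') := by
        apply mul_left_cancel₀ hab
        linear_combination heq
      have hre := congrArg Complex.re h3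
      have him := congrArg Complex.im h3
      simp at hre him
      have hx0 : x τ ≠ 0 := by
        intro h0
        apply h2
        rw [h0]
        simp only [Complex.ofReal_zero, zero_mul, add_zero]
        exact FlexSys.NT_of_interior ha
      rw [← hre] at him
      exact mul_left_cancel₀ hx0 him
  obtain ⟨τ, hτ, hτT⟩ := ((Ioo_infinite hδ).sdiff hTfin).nonempty
  refine ⟨a, ha, a + (b0 - a) * (1 + Complex.I * τ), ?_, ?_⟩
  · apply hball
    rw [dist_zero_right, Real.norm_eq_abs, abs_of_pos hτ.1]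
    exact hτ.2
  · intro x hx
    by_contra hcon
    apply hτT
    refine ⟨hτ, x, hx, ?_⟩
    convert hcon using 3
    ring

/-- a tile which contains one side of an edge on which `H` is positive is not in the disc -/
lemma Leaf.not_sub_of_edge {ℓ : Leaf S} {a b : S.J} {w : ℂ} (hw : ℓ.H w = 0)
    (hE : S.Edge ℓ.G a b w) : ¬ S.A a ⊆ ℓ.D := by
  obtain ⟨-, hV, r, hr, hE⟩ := hE
  obtain ⟨y, hy, hFy⟩ := ℓ.G.exists_gt hV hr
  intro hsub
  have h1 : y ∈ S.A a := ((hE y hy).1).2 hFy.le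
  have h2 : ℓ.H y ≤ 0 := hsub h1
  unfold Leaf.H at h2 hw
  linarith

/-- two outer tiles of different classes are separated by a straight leaf -/
theorem conn {s t : S.J} (hs : S.Outer s) (ht : S.Outer t) (hst : ¬ S.eqv s t) :
    ∃ ℓ : Leaf S, ℓ.G.ω = 0 ∧ (∀ w ∈ S.A s, ℓ.H w ≤ 0) ∧ (∀ w ∈ S.A t, 0 ≤ ℓ.H w) := by
  have hne : s ≠ t := by
    rintro rfl
    exact hst (S.eqv_refl s)
  obtain ⟨a, ha, b, hb, hseg⟩ := S.exists_seg hne
  set γ : ℝ → ℂ := fun x => a + x * (b - a) with hγ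
  have hγc : Continuous γ := by
    rw [hγ]
    fun_prop
  have hγ0 : γ 0 = a := by simp [hγ]
  have hγ1 : γ 1 = b := by simp [hγ]
  set Λ : Set ℝ := {x | x ∈ Icc (0 : ℝ) 1 ∧ ∃ u, S.Outer u ∧ S.eqv u s ∧ γ x ∈ S.A u} with hΛ
  have hΛc : IsCompact Λ := by
    obtain ⟨R, hR⟩ := (isCompact_Icc (a := (0 : ℝ)) (b := 1)).image hγc |>.isBounded.subset_closedBall 0
    have hfin : {u | (S.A u ∩ closedBall 0 R).Nonempty}.Finite := S.lf R
    have hcl : IsClosed (⋃ u ∈ ({u | (S.A u ∩ closedBall 0 R).Nonempty} ∩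
        {u | S.Outer u ∧ S.eqv u s}), γ ⁻¹' S.A u) :=
      (hfin.subset inter_subset_left).isClosed_biUnion fun u _ => (S.closed u).preimage hγc
    have hEq : Λ = Icc 0 1 ∩ (⋃ u ∈ ({u | (S.A u ∩ closedBall 0 R).Nonempty} ∩
        {u | S.Outer u ∧ S.eqv u s}), γ ⁻¹' S.A u) := by
      ext x
      constructor
      · rintro ⟨hx, u, hu, hus, hxu⟩
        refine ⟨hx, ?_⟩
        simp only [mem_iUnion]
        exact ⟨u, ⟨⟨γ x, hxu, hR ⟨x, hx, rfl⟩⟩, hu, hus⟩, hxu⟩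
      · rintro ⟨hx, h⟩
        simp only [mem_iUnion] at h
        obtain ⟨u, ⟨-, hu, hus⟩, hxu⟩ := h
        exact ⟨hx, u, hu, hus, hxu⟩
    rw [hEq]
    exact isCompact_Icc.inter_right hcl
  have hΛ0 : (0 : ℝ) ∈ Λ :=
    ⟨⟨le_refl _, zero_le_one⟩, s, hs, S.eqv_refl s, by rw [hγ0]; exact interior_subset ha⟩
  have hmem : sSup Λ ∈ Λ := hΛc.sSup_mem ⟨0, hΛ0⟩
  set x0 : ℝ := sSup Λ with hx0
  have hmax : ∀ x ∈ Λ, x ≤ x0 := fun x hx => le_csSup hΛc.bddAbove hx
  obtain ⟨hx01, s', hs'o, hs's, hq⟩ := hmem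
  set q : ℂ := γ x0 with hqd
  have hx1 : x0 < 1 := by
    rcases hx01.2.eq_or_lt with h | h
    · exfalso
      rw [hqd, h, hγ1] at hq
      have : t = s' := S.eq_of_mem_interior hb hq
      rw [← this] at hs's
      exact hst (FlexSys.eqv.symm hs's)
    · exact h
  have hNTq : S.NT q := hseg x0 hx01
  -- a neighbourhood of `q` cannot be covered by outer tiles of the class of `s`
  have hnocov : ¬ ∀ᶠ z in 𝓝 q, ∃ u, S.Outer u ∧ S.eqv u s ∧ z ∈ S.A u := by
    intro h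
    have h1 : ∀ᶠ x in 𝓝 x0, ∃ u, S.Outer u ∧ S.eqv u s ∧ γ x ∈ S.A u :=
      (hγc.tendsto x0).eventually h
    have h2 : ∀ᶠ x in 𝓝[>] x0, ∃ u, S.Outer u ∧ S.eqv u s ∧ γ x ∈ S.A u :=
      h1.filter_mono nhdsWithin_le_nhds
    have h3 : ∀ᶠ x in 𝓝[>] x0, x ∈ Ioo x0 1 := Ioo_mem_nhdsGT hx1
    obtain ⟨x, hx, hx'⟩ := (h2.and h3).exists
    have : x ∈ Λ := ⟨⟨hx01.1.trans hx'.1.le, hx'.2.le⟩, hx⟩
    exact absurd (hmax x this) (not_le.2 hx'.1)
  have hqint : q ∉ interior (S.A s') := by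
    intro h
    apply hnocov
    filter_upwards [isOpen_interior.mem_nhds h] with z hz
    exact ⟨s', hs'o, hs's, interior_subset hz⟩
  obtain ⟨t', ht's', hqt'⟩ := S.exists_other hqint
  have honly : ∀ u, q ∈ S.A u → u = s' ∨ u = t' := by
    intro u hu
    rcases hNTq s' t' u hq hqt' hu with h | h | h
    · exact absurd h.symm ht's'
    · exact Or.inr h.symm
    · exact Or.inl h.symm
  have ht'ne : ¬ S.eqv s' t' := by
    intro he
    have ht's : S.eqv t' s := FlexSys.eqv.trans (FlexSys.eqv.symm he) hs's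
    by_cases hto : S.Outer t'
    · apply hnocov
      obtain ⟨r, hr, hcov⟩ := S.loc_cov q
      filter_upwards [ball_mem_nhds q hr] with z hz
      obtain ⟨u, hu, hzu⟩ := hcov z hz
      rcases honly u hu with h | h
      · exact ⟨u, by rw [h]; exact hs'o, by rw [h]; exact hs's, hzu⟩
      · exact ⟨u, by rw [h]; exact hto, by rw [h]; exact ht's, hzu⟩
    · unfold FlexSys.Outer at hto
      push Not at hto
      obtain ⟨ℓ, hℓ, hsub⟩ := hto
      have h1 : ℓ.H q ≤ 0 := hsub hqt'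
      have h2 : 0 ≤ ℓ.H q := by
        rcases Leaf.in_or_out hℓ s' with h | h
        · exact absurd h (hs'o ℓ hℓ)
        · exact h q hq
      have h3 : ℓ.H q = 0 := le_antisymm h1 h2
      obtain ⟨a1, b1, ha1, hb1, hE⟩ := ℓ.nt_edge h3 hNTq
      obtain ⟨-, -, r, hr, hE⟩ := hE
      have h4 : q ∈ S.A a1 := ((hE q (mem_ball_self hr)).1).2 le_rfl
      have h5 : q ∈ S.A b1 := ((hE q (mem_ball_self hr)).2).2 le_rfl
      have h6 : ∀ u, q ∈ S.A u → S.eqv u s' := by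
        intro u hu
        rcases honly u hu with h | h
        · rw [h]; exact S.eqv_refl _
        · rw [h]; exact FlexSys.eqv.symm he
      apply ℓ.not_eqv
      exact (FlexSys.eqv.symm ha1).trans ((h6 a1 h4).trans ((FlexSys.eqv.symm (h6 b1 h5)).trans hb1))
  obtain ⟨ℓ, hℓ0, hℓs, hℓt⟩ := Leaf.exists_leaf hNTq hq hqt' ht'ne
  have hHq : ℓ.H q = 0 := by rw [← hℓ0]; exact ℓ.H_z0
  by_cases hω : ℓ.G.ω = 0
  · -- straight leaf
    have hHa : ℓ.H a ≠ 0 := ℓ.ne_of_mem_interior ha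
    have hHb : ℓ.H b ≠ 0 := ℓ.ne_of_mem_interior hb
    have hlin : ∀ x : ℝ, ℓ.H (γ x) = (1 - x) * ℓ.H a + x * ℓ.H b := by
      intro x
      unfold Leaf.H
      rw [ℓ.G.F_lin hω, ℓ.G.F_lin hω, ℓ.G.F_lin hω, ℓ.G.F_lin hω, hγ]
      simp only [Complex.mul_im, Complex.add_im, Complex.add_re, Complex.sub_re, Complex.sub_im,
        Complex.mul_re, Complex.ofReal_re, Complex.ofReal_im]
      ring
    have hx00 : 0 < x0 := by
      rcases hx01.1.eq_or_lt with h | h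
      · exfalso
        have hqa : q = a := by rw [hqd, ← h, hγ0]
        rw [hqa] at hHq
        exact hHa hHq
      · exact h
    have hz := hlin x0
    rw [← hqd, hHq] at hz
    rcases lt_or_gt_of_ne hHa with h | h
    · refine ⟨ℓ, hω, ?_, ?_⟩
      · rcases ℓ.side s with h1 | h1
        · exact absurd (h1 a (interior_subset ha)) (not_le.2 h)
        · exact h1
      · rcases ℓ.side t with h1 | h1
        · exact h1
        · exfalso
          have h2 := h1 b (interior_subset hb)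
          have h3 : ℓ.H b < 0 := lt_of_le_of_ne h2 hHb
          have h4 := mul_pos (sub_pos.2 hx1) (neg_pos.2 h)
          have h5 := mul_pos hx00 (neg_pos.2 h3)
          nlinarith
    · refine ⟨ℓ.flip, hω, ?_, ?_⟩
      · rcases ℓ.side s with h1 | h1
        · intro w hw
          rw [Leaf.flip_H]
          linarith [h1 w hw]
        · exact absurd (h1 a (interior_subset ha)) (not_le.2 h)
      · rcases ℓ.side t with h1 | h1
        · exfalso
          have h2 := h1 b (interior_subset hb)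
          have h3 : 0 < ℓ.H b := lt_of_le_of_ne h2 (Ne.symm hHb)
          have h4 := mul_pos (sub_pos.2 hx1) h
          have h5 := mul_pos hx00 h3
          nlinarith
        · intro w hw
          rw [Leaf.flip_H]
          linarith [h1 w hw]
  · -- circular leaf
    exfalso
    obtain ⟨l, hl, hlq, hls, hlt⟩ : ∃ l : Leaf S, l.IsDisc ∧ l.z0 = q ∧
        ((l.s = s' ∧ l.t = t') ∨ (l.s = t' ∧ l.t = s')) ∧ True := by
      rcases lt_or_gt_of_ne (mul_ne_zero ℓ.G.hκ hω) with h | h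
      · refine ⟨ℓ.flip, ?_, hℓ0, Or.inr ⟨hℓt, hℓs⟩, trivial⟩
        show 0 < -ℓ.G.κ * ℓ.G.ω
        linarith
      · exact ⟨ℓ, h, hℓ0, Or.inl ⟨hℓs, hℓt⟩, trivial⟩
    have hlHq : l.H q = 0 := by rw [← hlq]; exact l.H_z0
    have hlt' : ¬ (l.t = s') := by
      intro h
      -- `A s'` contains points with `H < 0`
      have h1 : ∀ w ∈ S.A s', 0 ≤ l.H w := by
        rcases Leaf.in_or_out hl s' with h1 | h1
        · exact absurd h1 (hs'o l hl)
        · exact h1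
      obtain ⟨-, hV, r, hr, hE⟩ := l.edge
      obtain ⟨y, hy, hFy⟩ := l.G.exists_lt hV hr
      have h2 : y ∈ S.A l.t := ((hE y hy).2).2 hFy.le
      rw [h] at h2
      have h3 := h1 y h2
      unfold Leaf.H at h3
      linarith
    have hlst : l.s = s' ∧ l.t = t' := by
      rcases hls with h | h
      · exact h
      · exact absurd h.2 hlt'
    -- points just after `q` are inside the disc
    obtain ⟨-, hV, r, hr, hE⟩ := l.edge
    rw [hlq] at hE hV
    have hFq : ∀ z, l.G.F q ≤ l.G.F z ↔ 0 ≤ l.H z := by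
      intro z
      unfold Leaf.H
      rw [hlq, sub_nonneg]
    have hafter : ∀ᶠ x in 𝓝[>] x0, l.H (γ x) < 0 := by
      have h1 : ∀ᶠ x in 𝓝[>] x0, γ x ∈ ball q r :=
        ((hγc.tendsto x0).eventually (ball_mem_nhds q hr)).filter_mono nhdsWithin_le_nhds
      have h3 : ∀ᶠ x in 𝓝[>] x0, x ∈ Ioo x0 1 := Ioo_mem_nhdsGT hx1
      filter_upwards [h1, h3] with x hx hx'
      by_contra hcon
      push Not at hcon
      have h4 : γ x ∈ S.A s' := by
        rw [← hlst.1]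
        exact ((hE _ hx).1).2 ((hFq _).2 hcon)
      have : x ∈ Λ := ⟨⟨hx01.1.trans hx'.1.le, hx'.2.le⟩, s', hs'o, hs's, h4⟩
      exact absurd (hmax x this) (not_le.2 hx'.1)
    have h3 : ∀ᶠ x in 𝓝[>] x0, x ∈ Ioo x0 1 := Ioo_mem_nhdsGT hx1
    obtain ⟨x2, hx2H, hx2⟩ := (hafter.and h3).exists
    have hHb : 0 < l.H b := by
      have h1 : 0 ≤ l.H b := by
        rcases Leaf.in_or_out hl t with h1 | h1
        · exact absurd h1 (ht l hl)
        · exact h1 b (interior_subset hb)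
      exact lt_of_le_of_ne h1 (Ne.symm (l.ne_of_mem_interior hb))
    have hcontH : ContinuousOn (fun x => l.H (γ x)) (Icc x2 1) :=
      (l.continuous_H.comp hγc).continuousOn
    have hivt := intermediate_value_Icc hx2.2.le hcontH
    have h0mem : (0 : ℝ) ∈ Icc (l.H (γ x2)) (l.H (γ 1)) := by
      rw [hγ1]
      exact ⟨hx2H.le, hHb.le⟩
    obtain ⟨x3, hx3, hx3H⟩ := hivt h0mem
    have hx3' : x3 ∈ Icc (0 : ℝ) 1 := ⟨hx01.1.trans (hx2.1.le.trans hx3.1), hx3.2⟩
    have hNT3 : S.NT (γ x3) := hseg x3 hx3'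
    obtain ⟨a1, b1, ha1, hb1, hE1⟩ := l.nt_edge hx3H hNT3
    have hnot : ¬ S.A a1 ⊆ l.D := Leaf.not_sub_of_edge hx3H hE1
    have hout : S.Outer a1 := by
      obtain ⟨-, -, r1, hr1, hE2⟩ := hE1
      have hm : γ x3 ∈ S.A a1 := ((hE2 _ (mem_ball_self hr1)).1).2 le_rfl
      exact Leaf.outer_of_outer hl hNTq hlHq hq hs'o hNT3 hx3H hm hnot
    have hx3Λ : x3 ∈ Λ := by
      refine ⟨hx3', a1, hout, ?_, ?_⟩
      · rw [hlst.1] at ha1
        exact ha1.trans hs's
      · obtain ⟨-, -, r1, hr1, hE2⟩ := hE1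
        exact ((hE2 _ (mem_ball_self hr1)).1).2 le_rfl
    have := hmax x3 hx3Λ
    linarith [hx3.1, hx2.1]

end H231R2
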