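import Mathlib

/-!
# Tilings of the plane by topological discs and their limits (MP_ffe3a0_co): definitions

Orientation preserving motions, nice sets, tilings, one parameter groups of motions and
flexible systems (an ultralimit of tilings together with the motions that carry the limit
tiles to the tiles of the approximating tilings).
-/

set_option autoImplicit false

open Filter Topology Metric Set
open scoped Pointwise ComplexConjugate

noncomputable section

namespace H231R2

/-- orientation preserving motions `z ↦ a z + b`, `‖a‖ = 1`, of the plane -/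
@[ext] structure Mv where
  a : ℂ
  b : ℂ
  ha : ‖a‖ = 1

namespace Mv

instance : One Mv := ⟨⟨1, 0, by simp⟩⟩
instance : Mul Mv := ⟨fun g h => ⟨g.a * h.a, g.a * h.b + g.b, by simp [g.ha, h.ha]⟩⟩
instance : Inv Mv := ⟨fun g => ⟨conj g.a, -(conj g.a * g.b), by simpa using g.ha⟩⟩
instance : SMul Mv ℂ := ⟨fun g z => g.a * z + g.b⟩

@[simp] lemma one_a : (1 : Mv).a = 1 := rfl
@[simp] lemma one_b : (1 : Mv).b = 0 := rfl
@[simp] lemma mul_a (g h : Mv) : (g * h).a = g.a * h.a := rfl
@[simp] lemma mul_b (g h : Mv) : (g * h).b = g.a * h.b + g.b := rfl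
@[simp] lemma inv_a (g : Mv) : (g⁻¹).a = conj g.a := rfl
@[simp] lemma inv_b (g : Mv) : (g⁻¹).b = -(conj g.a * g.b) := rfl
lemma smul_def (g : Mv) (z : ℂ) : g • z = g.a * z + g.b := rfl

lemma a_ne (g : Mv) : g.a ≠ 0 := by
  intro h
  have := g.ha
  rw [h] at this
  simp at this

lemma conj_mul_a (g : Mv) : conj g.a * g.a = 1 := by
  rw [← Complex.normSq_eq_conj_mul_self, Complex.normSq_eq_norm_sq, g.ha]; simp

lemma a_mul_conj (g : Mv) : g.a * conj g.a = 1 := by
  rw [mul_comm]; exact g.conj_mul_a

instance : Group Mv :=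
  Group.ofLeftAxioms
    (fun g h k => by ext <;> simp <;> ring)
    (fun g => by ext <;> simp)
    (fun g => by ext <;> simp [conj_mul_a])

instance : MulAction Mv ℂ where
  one_smul z := by simp [smul_def]
  mul_smul g h z := by simp [smul_def]; ring

/-- translation by `v` -/
def tr (v : ℂ) : Mv := ⟨1, v, by simp⟩

@[simp] lemma tr_a (v : ℂ) : (tr v).a = 1 := rfl
@[simp] lemma tr_b (v : ℂ) : (tr v).b = v := rfl
@[simp] lemma tr_smul (v z : ℂ) : tr v • z = z + v := by simp [smul_def]
lemma tr_mul (v w : ℂ) : tr v * tr w = tr (v + w) := by ext <;> simp [add_comm]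
@[simp] lemma tr_zero : tr 0 = 1 := by ext <;> simp
lemma tr_inv (v : ℂ) : (tr v)⁻¹ = tr (-v) := by
  rw [inv_eq_iff_mul_eq_one, tr_mul]; simp

lemma eq_tr_of_a (g : Mv) (h : g.a = 1) : g = tr g.b := by ext <;> simp [h]

/-- a motion commuting with a nontrivial translation is a translation -/
lemma a_eq_one_of_comm {g : Mv} {v : ℂ} (hv : v ≠ 0) (h : tr v * g * (tr v)⁻¹ = g) : g.a = 1 := by
  have h1 : tr v * g = g * tr v := by
    rw [mul_inv_eq_iff_eq_mul] at h; exact h
  have h2 := congrArg Mv.b h1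
  simp at h2
  have h3 : v * 1 = v * g.a := by linear_combination h2
  exact (mul_left_cancel₀ hv h3).symm

instance : TopologicalSpace Mv := TopologicalSpace.induced (fun g => (g.a, g.b)) inferInstance

lemma inducing : IsInducing (fun g : Mv => (g.a, g.b)) := ⟨rfl⟩

lemma continuous_a : Continuous (fun g : Mv => g.a) := continuous_fst.comp inducing.continuous
lemma continuous_b : Continuous (fun g : Mv => g.b) := continuous_snd.comp inducing.continuous

lemma continuous_iff {X : Type*} [TopologicalSpace X] {f : X → Mv} :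
    Continuous f ↔ Continuous (fun x => (f x).a) ∧ Continuous (fun x => (f x).b) := by
  rw [inducing.continuous_iff]
  exact ⟨fun h => ⟨continuous_fst.comp h, continuous_snd.comp h⟩, fun h => h.1.prodMk h.2⟩

lemma tendsto_iff {X : Type*} {l : Filter X} {f : X → Mv} {g : Mv} :
    Tendsto f l (𝓝 g) ↔ Tendsto (fun x => (f x).a) l (𝓝 g.a) ∧
      Tendsto (fun x => (f x).b) l (𝓝 g.b) := by
  rw [inducing.tendsto_nhds_iff]
  exact ⟨fun h => ⟨(continuous_fst.tendsto _).comp h, (continuous_snd.tendsto _).comp h⟩,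
    fun h => h.1.prodMk_nhds h.2⟩

instance : T2Space Mv := by
  refine T2Space.of_injective_continuous (f := fun g : Mv => (g.a, g.b)) ?_ inducing.continuous
  intro g h hgh
  simp only [Prod.mk.injEq] at hgh
  exact Mv.ext hgh.1 hgh.2

instance : IsTopologicalGroup Mv where
  continuous_mul := by
    rw [continuous_iff]
    constructor
    · exact (continuous_a.comp continuous_fst).mul (continuous_a.comp continuous_snd)
    · exact ((continuous_a.comp continuous_fst).mul (continuous_b.comp continuous_snd)).add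
        (continuous_b.comp continuous_fst)
  continuous_inv := by
    rw [continuous_iff]
    constructor
    · exact Complex.continuous_conj.comp continuous_a
    · exact ((Complex.continuous_conj.comp continuous_a).mul continuous_b).neg

instance : ContinuousSMul Mv ℂ where
  continuous_smul := by
    show Continuous (fun p : Mv × ℂ => p.1.a * p.2 + p.1.b)
    exact ((continuous_a.comp continuous_fst).mul continuous_snd).add
        (continuous_b.comp continuous_fst)

instance : IsIsometricSMul Mv ℂ where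
  isometry_smul g := by
    refine Isometry.of_dist_eq ?_
    intro x y
    show dist (g.a * x + g.b) (g.a * y + g.b) = dist x y
    rw [dist_add_right, dist_eq_norm, dist_eq_norm, ← mul_sub, norm_mul, g.ha, one_mul]

end Mv

/-- nice closed sets: what we need to know about closed topological discs -/
structure Nice (P : Set ℂ) : Prop where
  closed : IsClosed P
  bdd : Bornology.IsBounded P
  reg : P ⊆ closure (interior P)
  ne : (interior P).Nonempty
  joined : ∀ p ∈ P, ∀ x ∈ interior P, JoinedIn (insert p (interior P)) p x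
  loc : ∀ q ∈ P, ∀ ε > 0, ∃ δ > 0, ∀ x ∈ P, dist x q < δ →
    ∃ K ⊆ P ∩ ball q ε, IsPreconnected K ∧ x ∈ K ∧ q ∈ K

/-- an indexed tiling by orientation preserving copies of the prototiles `P i` -/
structure Tiling {N : ℕ} (P : Fin N → Set ℂ) where
  J : Type
  idx : J → Fin N
  g : J → Mv
  cover : ∀ z : ℂ, ∃ t, z ∈ g t • P (idx t)
  disj : ∀ s t, s ≠ t → Disjoint (interior (g s • P (idx s))) (interior (g t • P (idx t)))

namespace Tiling
variable {N : ℕ} {P : Fin N → Set ℂ}

/-- the tile with index `t` -/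
def tile (T : Tiling P) (t : T.J) : Set ℂ := T.g t • P (T.idx t)

/-- `T` is (equivariantly) invariant under the translation by `v` -/
def Per (T : Tiling P) (v : ℂ) : Prop :=
  ∃ σ : Equiv.Perm T.J, ∀ t, T.idx (σ t) = T.idx t ∧ T.g (σ t) = Mv.tr v * T.g t

end Tiling

/-- the coordinate transverse to the direction `d` -/
def yd (d z : ℂ) : ℝ := (conj d * z).im

/-- two vectors are not parallel -/
def Indep (u w : ℂ) : Prop := (conj u * w).im ≠ 0

/-- infinitesimal generator `z ↦ i ω z + β` of a one parameter group of motions together with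
a nonzero factor `κ` which scales its first integral -/
structure Gen where
  ω : ℝ
  β : ℂ
  κ : ℝ
  hκ : κ ≠ 0
  hne : ω ≠ 0 ∨ β ≠ 0

/-- `(e^u - 1) / u` -/
def ph (u : ℂ) : ℂ := dslope Complex.exp 0 u

/-- time one map of `z ↦ i ψ z + B` -/
def Ex (ψ : ℝ) (B : ℂ) : Mv :=
  ⟨Complex.exp (ψ * Complex.I), B * ph (ψ * Complex.I), Complex.norm_exp_ofReal_mul_I ψ⟩

namespace Gen

/-- the one parameter group of `G` -/
def Φ (G : Gen) (x : ℝ) : Mv := Ex (x * G.ω) (x * G.β)

/-- the vector field of `G` -/
def V (G : Gen) (z : ℂ) : ℂ := Complex.I * G.ω * z + G.β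

/-- the first integral of `G`, scaled by `κ` -/
def F (G : Gen) (z : ℂ) : ℝ := G.κ * (G.ω / 2 * ‖z‖ ^ 2 - (conj G.β * z).im)

/-- reversed time, same first integral -/
def rev (G : Gen) : Gen := ⟨-G.ω, -G.β, -G.κ, by simpa using G.hκ, by simpa using G.hne⟩

/-- same flow, negated first integral -/
def flip (G : Gen) : Gen := ⟨G.ω, G.β, -G.κ, by simpa using G.hκ, G.hne⟩

/-- `G` and `G'` have the same leaves -/
def Sim (G G' : Gen) : Prop := ∃ l : ℝ, l ≠ 0 ∧ ∀ z w, G'.F z - G'.F w = l * (G.F z - G.F w)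

end Gen

/-- A flexible system: the limit tiles `A t`, an ultrafilter, and motions `m n t` tending to `1`
such that `m n t • A t` are tiles of the `n`-th approximating tiling. -/
structure FlexSys where
  J : Type
  A : J → Set ℂ
  nice : ∀ t, Nice (A t)
  lf : ∀ R : ℝ, {t | (A t ∩ closedBall 0 R).Nonempty}.Finite
  U : Ultrafilter ℕ
  m : ℕ → J → Mv
  m_lim : ∀ t, Tendsto (fun n => m n t) U (𝓝 1)
  disj' : ∀ s t, s ≠ t → ∀ᶠ n in (U : Filter ℕ),
    Disjoint (interior (m n s • A s)) (interior (m n t • A t))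
  cov' : ∀ z : ℂ, ∃ r > 0, ∀ᶠ n in (U : Filter ℕ), ∀ w ∈ ball z r,
    ∃ t, z ∈ A t ∧ w ∈ m n t • A t

namespace FlexSys
variable (S : FlexSys)

/-- motion of `s` seen from `t` -/
def gm (n : ℕ) (t s : S.J) : Mv := (S.m n t)⁻¹ * S.m n s

/-- `s` and `t` move together -/
def eqv (s t : S.J) : Prop := ∀ᶠ n in (S.U : Filter ℕ), S.m n s = S.m n t

/-- `z` lies in at most two tiles -/
def NT (z : ℂ) : Prop := ∀ s t u, z ∈ S.A s → z ∈ S.A t → z ∈ S.A u → s = t ∨ t = u ∨ s = u

/-- near `z` the tile `s` is `{F ≥ F z}` and the tile `t` is `{F ≤ F z}` -/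
def Edge (G : Gen) (s t : S.J) (z : ℂ) : Prop :=
  S.NT z ∧ G.V z ≠ 0 ∧ ∃ r > 0, ∀ w ∈ ball z r,
    (w ∈ S.A s ↔ G.F z ≤ G.F w) ∧ (w ∈ S.A t ↔ G.F w ≤ G.F z)

/-- the relative motion of `s` and `t` belongs to the one parameter group of `G` and is
nontrivial -/
def Rel (G : Gen) (s t : S.J) : Prop :=
  ∃ x : ℕ → ℝ, Tendsto x S.U (𝓝 0) ∧ ∀ᶠ n in (S.U : Filter ℕ), x n ≠ 0 ∧ S.gm n t s = G.Φ (x n)

end FlexSys

end H231R2
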