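import Pool.Agent.H231R2.Defs
import Pool.Agent.Helper486.Topo

/-! # Closed topological discs are nice (task 5) -/

set_option autoImplicit false

open Filter Topology Metric Set
open scoped Pointwise ComplexConjugate

noncomputable section

namespace H231R2

namespace DN

/-- invariance of domain, local form at a point -/
theorem iod_at {F : ℂ → ℂ} {c : ℂ} {r : ℝ} (hr : 0 < r) (hc : ContinuousOn F (closedBall c r))
    (hi : InjOn F (closedBall c r)) : F c ∈ interior (F '' closedBall c r) := by
  have hmap : ∀ z ∈ closedBall (0 : ℂ) r, c + z ∈ closedBall c r := by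
    intro z hz
    rw [mem_closedBall, dist_eq_norm] at *
    simpa using hz
  obtain ⟨m, hm, h⟩ := Pool.Agent.Helper486.Topo.iod (F := fun z => F (c + z)) hr
    (hc.comp (by fun_prop) hmap) (by
      intro x hx y hy hxy
      have := hi (hmap x hx) (hmap y hy) hxy
      exact add_left_cancel this)
  rw [mem_interior]
  refine ⟨ball (F (c + 0)) m, ?_, isOpen_ball, ?_⟩
  · intro y hy
    obtain ⟨z, hz, rfl⟩ := h hy
    exact ⟨c + z, hmap z hz, rfl⟩
  · rw [add_zero]
    exact mem_ball_self hm

end DN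

open DN in
/-- a closed topological disc is nice -/
theorem nice_of_homeo (P : Set ℂ) (h : Nonempty (P ≃ₜ closedBall (0 : ℂ) 1)) : Nice P := by
  classical
  obtain ⟨h⟩ := h
  have hcompB : CompactSpace (closedBall (0 : ℂ) 1) :=
    isCompact_iff_compactSpace.1 (isCompact_closedBall 0 1)
  have hcompP : CompactSpace P := h.symm.compactSpace
  have hP : IsCompact P := isCompact_iff_compactSpace.2 hcompP
  -- the parametrization
  let f : ℂ → ℂ := fun x => if hx : x ∈ closedBall (0 : ℂ) 1 then (h.symm ⟨x, hx⟩ : ℂ) else 0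
  have hf : ∀ x (hx : x ∈ closedBall (0 : ℂ) 1), f x = (h.symm ⟨x, hx⟩ : ℂ) := fun x hx => dif_pos hx
  have hfh : ∀ p : P, f (h p : ℂ) = p := by
    intro p
    rw [hf _ (h p).2]
    simp
  have hfP : ∀ x ∈ closedBall (0 : ℂ) 1, f x ∈ P := by
    intro x hx
    rw [hf x hx]
    exact (h.symm ⟨x, hx⟩).2
  have hfc : ContinuousOn f (closedBall (0 : ℂ) 1) := by
    rw [continuousOn_iff_continuous_domRestrict]
    have : (closedBall (0 : ℂ) 1).domRestrict f = fun x => (h.symm x : ℂ) := by
      funext x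
      exact hf x.1 x.2
    rw [this]
    exact continuous_subtype_val.comp h.symm.continuous
  have hfi : InjOn f (closedBall (0 : ℂ) 1) := by
    intro x hx y hy hxy
    rw [hf x hx, hf y hy] at hxy
    have := h.symm.injective (Subtype.ext hxy)
    exact congrArg Subtype.val this
  -- the inverse
  let g : ℂ → ℂ := fun p => if hp : p ∈ P then (h ⟨p, hp⟩ : ℂ) else 0
  have hg : ∀ p (hp : p ∈ P), g p = (h ⟨p, hp⟩ : ℂ) := fun p hp => dif_pos hp
  have hgc : ContinuousOn g P := by
    rw [continuousOn_iff_continuous_domRestrict]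
    have : P.domRestrict g = fun x => (h x : ℂ) := by
      funext x
      exact hg x.1 x.2
    rw [this]
    exact continuous_subtype_val.comp h.continuous
  have hgi : InjOn g P := by
    intro x hx y hy hxy
    rw [hg x hx, hg y hy] at hxy
    have := h.injective (Subtype.ext hxy)
    exact congrArg Subtype.val this
  have hgB : ∀ p ∈ P, g p ∈ closedBall (0 : ℂ) 1 := by
    intro p hp
    rw [hg p hp]
    exact (h ⟨p, hp⟩).2
  have hfg : ∀ p ∈ P, f (g p) = p := by
    intro p hp
    rw [hg p hp]
    exact hfh ⟨p, hp⟩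
  have hfint : ∀ x ∈ ball (0 : ℂ) 1, f x ∈ interior P := by
    intro x hx
    obtain ⟨r, hr, hrx⟩ := Metric.isOpen_iff.1 isOpen_ball x hx
    have hsub : closedBall x (r / 2) ⊆ closedBall (0 : ℂ) 1 :=
      (closedBall_subset_ball (by linarith)).trans (hrx.trans ball_subset_closedBall)
    have h1 := iod_at (c := x) (r := r / 2) (by linarith) (hfc.mono hsub) (hfi.mono hsub)
    refine interior_mono ?_ h1
    rintro _ ⟨y, hy, rfl⟩
    exact hfP y (hsub hy)
  have hgint : ∀ p ∈ interior P, g p ∈ ball (0 : ℂ) 1 := by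
    intro p hp
    obtain ⟨r, hr, hrx⟩ := Metric.isOpen_iff.1 isOpen_interior p hp
    have hsub : closedBall p (r / 2) ⊆ P :=
      (closedBall_subset_ball (by linarith)).trans (hrx.trans interior_subset)
    have h1 := iod_at (c := p) (r := r / 2) (by linarith) (hgc.mono hsub) (hgi.mono hsub)
    have h2 : g p ∈ interior (closedBall (0 : ℂ) 1) := by
      refine interior_mono ?_ h1
      rintro _ ⟨y, hy, rfl⟩
      exact hgB y (hsub hy)
    rwa [interior_closedBall (0 : ℂ) one_ne_zero] at h2
  refine ⟨hP.isClosed, hP.isBounded, ?_, ⟨f 0, hfint 0 (by simp)⟩, ?_, ?_⟩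
  · intro p hp
    have h1 : g p ∈ closure (ball (0 : ℂ) 1) := by
      rw [closure_ball (0 : ℂ) one_ne_zero]; exact hgB p hp
    have h2 : ContinuousWithinAt f (ball (0 : ℂ) 1) (g p) :=
      (hfc (g p) (hgB p hp)).mono ball_subset_closedBall
    have h3 := h2.mem_closure_image h1
    rw [hfg p hp] at h3
    refine closure_mono ?_ h3
    rintro _ ⟨y, hy, rfl⟩
    exact hfint y hy
  · intro p hp x hx
    have hxP : x ∈ P := interior_subset hx
    have hmem : ∀ t ∈ Icc (0 : ℝ) 1, ((1 - t : ℝ) : ℂ) * g p + ((t : ℝ) : ℂ) * g x ∈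
        closedBall (0 : ℂ) 1 := by
      intro t ht
      have h1 := hgB p hp
      have h2 := hgB x hxP
      rw [mem_closedBall_zero_iff] at *
      calc ‖((1 - t : ℝ) : ℂ) * g p + ((t : ℝ) : ℂ) * g x‖
          ≤ ‖((1 - t : ℝ) : ℂ) * g p‖ + ‖((t : ℝ) : ℂ) * g x‖ := norm_add_le _ _
        _ = (1 - t) * ‖g p‖ + t * ‖g x‖ := by
            rw [norm_mul, norm_mul, Complex.norm_real, Complex.norm_real,
              Real.norm_of_nonneg (by linarith [ht.2]), Real.norm_of_nonneg ht.1]
        _ ≤ (1 - t) * 1 + t * 1 := by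
            have := ht.1
            have := ht.2
            gcongr
        _ = 1 := by ring
    refine JoinedIn.ofLine (f := fun t : ℝ => f (((1 - t : ℝ) : ℂ) * g p + ((t : ℝ) : ℂ) * g x))
      ?_ ?_ ?_ ?_
    · exact hfc.comp (by fun_prop) hmem
    · simp [hfg p hp]
    · simp [hfg x hxP]
    · rintro _ ⟨t, ht, rfl⟩
      rcases ht.1.eq_or_lt with h0 | h0
      · left
        simp only
        rw [← h0]
        simp [hfg p hp]
      · right
        apply hfint
        have h1 := hgB p hp
        have h2 := hgint x hx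
        have ht2 := ht.2
        rw [mem_closedBall_zero_iff] at h1
        rw [mem_ball_zero_iff] at h2 ⊢
        calc ‖((1 - t : ℝ) : ℂ) * g p + ((t : ℝ) : ℂ) * g x‖
            ≤ ‖((1 - t : ℝ) : ℂ) * g p‖ + ‖((t : ℝ) : ℂ) * g x‖ := norm_add_le _ _
          _ = (1 - t) * ‖g p‖ + t * ‖g x‖ := by
              rw [norm_mul, norm_mul, Complex.norm_real, Complex.norm_real,
                Real.norm_of_nonneg (by linarith [ht.2]), Real.norm_of_nonneg ht.1]
          _ < 1 := by
              have h3 : (1 - t) * ‖g p‖ ≤ (1 - t) * 1 := by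
                apply mul_le_mul_of_nonneg_left h1; linarith
              have h4 : t * ‖g x‖ < t * 1 := by
                apply mul_lt_mul_of_pos_left h2 h0
              linarith
  · intro q hq ε hε
    have h1 := hfc (g q) (hgB q hq)
    rw [Metric.continuousWithinAt_iff] at h1
    obtain ⟨η, hη, h1⟩ := h1 ε hε
    have h2 := hgc q hq
    rw [Metric.continuousWithinAt_iff] at h2
    obtain ⟨δ, hδ, h2⟩ := h2 η hη
    refine ⟨δ, hδ, fun x hx hxq => ?_⟩
    refine ⟨f '' (closedBall (0 : ℂ) 1 ∩ ball (g q) η), ?_, ?_, ?_, ?_⟩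
    · rintro _ ⟨y, ⟨hy1, hy2⟩, rfl⟩
      refine ⟨hfP y hy1, ?_⟩
      have h3 := h1 hy1 hy2
      rw [hfg q hq] at h3
      exact h3
    · apply IsPreconnected.image
      · exact ((convex_closedBall (0 : ℂ) 1).inter (convex_ball (g q) η)).isPreconnected
      · exact hfc.mono inter_subset_left
    · exact ⟨g x, ⟨hgB x hx, h2 hx hxq⟩, hfg x hx⟩
    · exact ⟨g q, ⟨hgB q hq, mem_ball_self hη⟩, hfg q hq⟩

end H231R2
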