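import Pool.Agent.H231R2.Local

/-! # Existence of edges: two tiles which slide along each other have a leaf as common boundary -/

set_option autoImplicit false

open Filter Topology Metric Set
open scoped Pointwise ComplexConjugate

noncomputable section

namespace H231R2
namespace FlexSys
variable {S : FlexSys}

/-- step 1: local invariance under the relative motions -/
lemma local_inv {z : ℂ} {s t : S.J} (hz : S.NT z) (hs : z ∈ S.A s) (ht : z ∈ S.A t)
    (hst : s ≠ t) : ∃ r > 0, (∀ w ∈ ball z r, w ∈ S.A s ∨ w ∈ S.A t) ∧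
      ∀ᶠ n in (S.U : Filter ℕ), ∀ w ∈ ball z r, w ∈ S.A s ↔ w ∈ S.gm n t s • S.A s := by
  obtain ⟨r1, hr1, h1⟩ := S.loc_cov z
  obtain ⟨r2, hr2, h2⟩ := S.cov_gm t z
  have hcase : ∀ u, z ∈ S.A u → u = s ∨ u = t := by
    intro u hu
    rcases hz s t u hs ht hu with e | e | e
    · exact absurd e hst
    · exact Or.inr e.symm
    · exact Or.inl e.symm
  refine ⟨min r1 r2, by positivity, ?_, ?_⟩
  · intro w hw
    obtain ⟨u, hu, hu2⟩ := h1 w (ball_subset_ball (min_le_left _ _) hw)
    rcases hcase u hu with rfl | rfl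
    · exact Or.inl hu2
    · exact Or.inr hu2
  · filter_upwards [h2, S.disj_gm t s t hst] with n hn hd w hw
    rw [gm_self, one_smul] at hd
    have hcl : IsClosed (S.gm n t s • S.A s) := (S.closed s).smul _
    constructor
    · intro hws
      by_contra hcon
      have hO : (ball z (min r1 r2) ∩ (S.gm n t s • S.A s)ᶜ) ∈ 𝓝 w :=
        (isOpen_ball.inter hcl.isOpen_compl).mem_nhds ⟨hw, hcon⟩
      have hwi : w ∈ interior (S.A t) := by
        rw [mem_interior_iff_mem_nhds]
        refine Filter.mem_of_superset hO ?_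
        rintro w' ⟨hw', hw''⟩
        obtain ⟨u, hu, hu2⟩ := hn w' (ball_subset_ball (min_le_right _ _) hw')
        rcases hcase u hu with rfl | rfl
        · exact absurd hu2 hw''
        · rwa [gm_self, one_smul] at hu2
      exact hst.symm (S.eq_of_mem_interior hwi hws)
    · intro hws
      by_contra hcon
      have hO : (ball z (min r1 r2) ∩ (S.A s)ᶜ) ∈ 𝓝 w :=
        (isOpen_ball.inter (S.closed s).isOpen_compl).mem_nhds ⟨hw, hcon⟩
      have hwi : w ∈ interior (S.A t) := by
        rw [mem_interior_iff_mem_nhds]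
        refine Filter.mem_of_superset hO ?_
        rintro w' ⟨hw', hw''⟩
        obtain ⟨u, hu, hu2⟩ := h1 w' (ball_subset_ball (min_le_left _ _) hw')
        rcases hcase u hu with rfl | rfl
        · exact absurd hu2 hw''
        · exact hu2
      have := disj_int_of_reg ((S.nice s).smul (S.gm n t s)).reg hd.symm
      exact Set.disjoint_left.1 this hwi hws

/-- step 2: from the flow lemma to one-sidedness -/
lemma one_sided {z : ℂ} {s t : S.J} (hs : z ∈ S.A s) (ht : z ∈ S.A t) (hst : s ≠ t)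
    {G : Gen} {δ : ℝ} (hδ : 0 < δ)
    (hG : ∀ w ∈ ball z δ, ∀ w' ∈ ball z δ, G.F w = G.F w' → w ∈ S.A s → w' ∈ S.A s) :
    G.V z ≠ 0 ∧ ∃ G' : Gen, (G' = G ∨ G' = G.flip) ∧ ∃ r > 0, ∀ w ∈ ball z r,
      (w ∈ S.A s ↔ G'.F z ≤ G'.F w) := by
  obtain ⟨δ', hδ', hloc⟩ := (S.nice s).loc z hs δ hδ
  have hnotint : z ∉ interior (S.A s) := fun h => hst (S.eq_of_mem_interior h ht)
  -- intermediate values
  have hiv : ∀ w ∈ S.A s, dist w z < δ' → ∀ w' ∈ ball z δ,
      G.F w' ∈ uIcc (G.F z) (G.F w) → w' ∈ S.A s := by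
    intro w hw hwd w' hw' hF
    obtain ⟨K, hK, hKc, hwK, hzK⟩ := hloc w hw hwd
    have himg : uIcc (G.F z) (G.F w) ⊆ G.F '' K := by
      have hc : IsPreconnected (G.F '' K) := hKc.image _ G.continuous_F.continuousOn
      have := hc.ordConnected
      exact this.uIcc_subset (mem_image_of_mem _ hzK) (mem_image_of_mem _ hwK)
    obtain ⟨k, hk, hkF⟩ := himg hF
    exact hG k (hK hk).2 w' hw' hkF (hK hk).1
  -- an interior point near z different from z
  have hex : ∀ e > 0, ∃ w ∈ interior (S.A s), w ∈ ball z e ∧ w ≠ z := by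
    intro e he
    obtain ⟨w, hw, hwd⟩ := Metric.mem_closure_iff.1 ((S.nice s).reg hs) e he
    exact ⟨w, hw, by rwa [mem_ball, dist_comm], fun h => hnotint (h ▸ hw)⟩
  have hV : G.V z ≠ 0 := by
    intro hV0
    have hω : G.ω ≠ 0 := by
      intro hω
      rcases G.hne with h | h
      · exact h hω
      · apply h
        simpa [Gen.V, hω] using hV0
    have hc : Complex.I * G.β / G.ω = z := by
      have h1 : Complex.I * G.ω * z + G.β = 0 := hV0
      have h2 : (G.ω : ℂ) ≠ 0 := by exact_mod_cast hω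
      field_simp
      have h3 : Complex.I * (Complex.I * G.ω * z + G.β) = 0 := by rw [h1, mul_zero]
      have h4 : Complex.I * Complex.I = -1 := Complex.I_mul_I
      linear_combination h3 - G.ω * z * h4
    obtain ⟨w, hw, hwd, hwz⟩ := hex δ' hδ'
    have hw0 : 0 < ‖w - z‖ := norm_pos_iff.2 (sub_ne_zero.2 hwz)
    apply hnotint
    rw [mem_interior_iff_mem_nhds]
    refine Filter.mem_of_superset (ball_mem_nhds z (lt_min hδ hw0)) ?_
    intro w' hw'
    have hw'1 : w' ∈ ball z δ := ball_subset_ball (min_le_left _ _) hw'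
    have hw'2 : ‖w' - z‖ < ‖w - z‖ := by
      have := ball_subset_ball (min_le_right _ _) hw'
      rwa [mem_ball, dist_eq_norm] at this
    refine hiv w (interior_subset hw) (by rwa [mem_ball] at hwd) w' hw'1 ?_
    have hFz : G.F z = G.κ * G.ω / 2 * (0 - ‖z‖ ^ 2) := by
      rw [G.F_circ hω, hc, sub_self, norm_zero]; ring
    have hFw : G.F w = G.κ * G.ω / 2 * (‖w - z‖ ^ 2 - ‖z‖ ^ 2) := by rw [G.F_circ hω, hc]
    have hFw' : G.F w' = G.κ * G.ω / 2 * (‖w' - z‖ ^ 2 - ‖z‖ ^ 2) := by rw [G.F_circ hω, hc]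
    have hsq : ‖w' - z‖ ^ 2 ≤ ‖w - z‖ ^ 2 := by gcongr
    rw [mem_uIcc, hFz, hFw, hFw']
    rcases le_total 0 (G.κ * G.ω / 2) with h | h
    · left
      constructor
      · nlinarith [norm_nonneg (w' - z), sq_nonneg ‖w' - z‖]
      · nlinarith
    · right
      constructor
      · nlinarith
      · nlinarith [norm_nonneg (w' - z), sq_nonneg ‖w' - z‖]
  refine ⟨hV, ?_⟩
  -- a point with a different value
  have hVn : ∀ᶠ w in 𝓝 z, G.V w ≠ 0 := G.continuous_V.continuousAt.eventually_ne hV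
  obtain ⟨r', hr', hV'⟩ := Metric.eventually_nhds_iff_ball.1 hVn
  obtain ⟨w0, hw0, hw0d, -⟩ := hex (min δ' r') (lt_min hδ' hr')
  have hw0O : interior (S.A s) ∩ ball z δ' ∈ 𝓝 w0 :=
    (isOpen_interior.inter isOpen_ball).mem_nhds ⟨hw0, ball_subset_ball (min_le_left _ _) hw0d⟩
  obtain ⟨e, he, heb⟩ := Metric.mem_nhds_iff.1 hw0O
  have hV0 : G.V w0 ≠ 0 := hV' w0 (ball_subset_ball (min_le_right _ _) hw0d)
  obtain ⟨wp, hwp, hwp2⟩ := G.exists_gt hV0 he
  obtain ⟨wm, hwm, hwm2⟩ := G.exists_lt hV0 he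
  have hwp3 := heb hwp
  have hwm3 := heb hwm
  -- not both sides
  have hnb : ∀ w1 ∈ S.A s, dist w1 z < δ' → ∀ w2 ∈ S.A s, dist w2 z < δ' →
      G.F w1 < G.F z → G.F z < G.F w2 → False := by
    intro w1 h1 h1d w2 h2 h2d hF1 hF2
    apply hnotint
    rw [mem_interior_iff_mem_nhds]
    have hc : ∀ᶠ w in 𝓝 z, G.F w1 < G.F w ∧ G.F w < G.F w2 :=
      (G.continuous_F.continuousAt.eventually (lt_mem_nhds hF1)).and
        (G.continuous_F.continuousAt.eventually (gt_mem_nhds hF2))
    filter_upwards [hc, ball_mem_nhds z hδ] with w hw hwb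
    rcases le_total (G.F w) (G.F z) with h | h
    · exact hiv w1 h1 h1d w hwb (by rw [mem_uIcc]; right; exact ⟨hw.1.le, h⟩)
    · exact hiv w2 h2 h2d w hwb (by rw [mem_uIcc]; left; exact ⟨h, hw.2.le⟩)
  -- choose the side
  have key : ∀ G' : Gen, (∀ w ∈ S.A s, dist w z < δ' → ∀ w' ∈ ball z δ,
      G'.F w' ∈ uIcc (G'.F z) (G'.F w) → w' ∈ S.A s) →
      (∀ w1 ∈ S.A s, dist w1 z < δ' → ∀ w2 ∈ S.A s, dist w2 z < δ' →
        G'.F w1 < G'.F z → G'.F z < G'.F w2 → False) →
      (∃ w2 ∈ S.A s, dist w2 z < δ' ∧ G'.F z < G'.F w2) →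
      ∃ r > 0, ∀ w ∈ ball z r, (w ∈ S.A s ↔ G'.F z ≤ G'.F w) := by
    rintro G' hiv' hnb' ⟨w2, hw2, hw2d, hF2⟩
    have hc : ∀ᶠ w in 𝓝 z, G'.F w < G'.F w2 :=
      (G'.continuous_F.continuousAt.eventually (gt_mem_nhds hF2))
    obtain ⟨r1, hr1, h1⟩ := Metric.eventually_nhds_iff_ball.1 hc
    refine ⟨min r1 (min δ δ'), by positivity, fun w hw => ?_⟩
    have hwr1 : w ∈ ball z r1 := ball_subset_ball (min_le_left _ _) hw
    have hwδ : w ∈ ball z δ :=
      ball_subset_ball ((min_le_right _ _).trans (min_le_left _ _)) hw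
    have hwδ' : w ∈ ball z δ' :=
      ball_subset_ball ((min_le_right _ _).trans (min_le_right _ _)) hw
    constructor
    · intro hws
      by_contra hcon
      push Not at hcon
      exact hnb' w hws hwδ' w2 hw2 hw2d hcon hF2
    · intro hF
      exact hiv' w2 hw2 hw2d w hwδ (by rw [mem_uIcc]; left; exact ⟨hF, (h1 w hwr1).le⟩)
  rcases lt_trichotomy (G.F z) (G.F w0) with h | h | h
  · refine ⟨G, Or.inl rfl, key G hiv hnb ⟨w0, interior_subset hw0, ?_, h⟩⟩
    have := ball_subset_ball (min_le_left _ _) hw0d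
    rwa [mem_ball] at this
  · refine ⟨G, Or.inl rfl, key G hiv hnb ⟨wp, interior_subset hwp3.1, ?_, by rw [h]; exact hwp2⟩⟩
    exact hwp3.2
  · refine ⟨G.flip, Or.inr rfl, key G.flip ?_ ?_ ⟨w0, interior_subset hw0, ?_, by simpa using h⟩⟩
    · intro w hw hwd w' hw' hF
      refine hiv w hw hwd w' hw' ?_
      simp only [Gen.flip_F, mem_uIcc, neg_le_neg_iff] at hF
      rw [mem_uIcc]
      rcases hF with hF | hF
      · right; exact ⟨hF.2, hF.1⟩
      · left; exact ⟨hF.2, hF.1⟩
    · intro w1 h1 h1d w2 h2 h2d hF1 hF2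
      simp only [Gen.flip_F, neg_lt_neg_iff] at hF1 hF2
      exact hnb w2 h2 h2d w1 h1 h1d hF2 hF1
    · have := ball_subset_ball (min_le_left _ _) hw0d
      rwa [mem_ball] at this

/-- (G): the interface of two tiles with different motions, at a point in no third tile -/
theorem edge_exists {z : ℂ} {s t : S.J} (hz : S.NT z) (hs : z ∈ S.A s) (ht : z ∈ S.A t)
    (hst : ¬ S.eqv s t) : ∃ G : Gen, S.Rel G s t ∧ S.Edge G s t z := by
  have hne : s ≠ t := by
    rintro rfl
    exact hst (S.eqv_refl s)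
  obtain ⟨r, hr, hcov, hinv⟩ := local_inv hz hs ht hne
  have hg1 : ∀ᶠ n in (S.U : Filter ℕ), S.gm n t s ≠ 1 := by
    rw [not_eqv_iff] at hst
    filter_upwards [hst] with n hn h
    rw [gm, inv_mul_eq_one] at h
    exact hn h.symm
  obtain ⟨G0, δ, hδ, hflow⟩ := flow S.U (S.closed s) z hr (fun n => S.gm n t s) (S.gm_lim t s)
    hg1 hinv
  obtain ⟨hV0, G, hGG, r1, hr1, hside⟩ := one_sided hs ht hne hδ hflow
  have hV : G.V z ≠ 0 := by
    rcases hGG with rfl | rfl
    · exact hV0
    · simpa using hV0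
  have hVn : ∀ᶠ w in 𝓝 z, G.V w ≠ 0 := G.continuous_V.continuousAt.eventually_ne hV
  obtain ⟨r2, hr2, hV2⟩ := Metric.eventually_nhds_iff_ball.1 hVn
  -- radius on which everything holds
  set ρ := min (min r r1) r2 with hρ
  have hρ0 : 0 < ρ := by positivity
  have hρr : ball z ρ ⊆ ball z r := ball_subset_ball ((min_le_left _ _).trans (min_le_left _ _))
  have hρr1 : ball z ρ ⊆ ball z r1 := ball_subset_ball ((min_le_left _ _).trans (min_le_right _ _))
  have hρr2 : ball z ρ ⊆ ball z r2 := ball_subset_ball (min_le_right _ _)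
  have hedge : ∀ w ∈ ball z ρ, (w ∈ S.A s ↔ G.F z ≤ G.F w) ∧ (w ∈ S.A t ↔ G.F w ≤ G.F z) := by
    intro w hw
    refine ⟨hside w (hρr1 hw), ?_, ?_⟩
    · intro hwt
      by_contra hcon
      push Not at hcon
      have hwi : w ∈ interior (S.A s) := by
        rw [mem_interior_iff_mem_nhds]
        have hc : ∀ᶠ w' in 𝓝 w, G.F z < G.F w' :=
          G.continuous_F.continuousAt.eventually (lt_mem_nhds hcon)
        filter_upwards [hc, isOpen_ball.mem_nhds hw] with w' h1 h2
        exact (hside w' (hρr1 h2)).2 h1.le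
      exact hne (S.eq_of_mem_interior hwi hwt)
    · intro hF
      have hlt : ∀ w' ∈ ball z ρ, G.F w' < G.F z → w' ∈ S.A t := by
        intro w' hw' hF'
        rcases hcov w' (hρr hw') with h | h
        · exact absurd ((hside w' (hρr1 hw')).1 h) (not_le.2 hF')
        · exact h
      rcases hF.lt_or_eq with h | h
      · exact hlt w hw h
      · -- limit of points with smaller value
        have hcl : w ∈ closure (S.A t) := by
          rw [Metric.mem_closure_iff]
          intro e he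
          obtain ⟨e', he', heb⟩ := Metric.isOpen_iff.1 (isOpen_ball (x := z) (ε := ρ)) w hw
          obtain ⟨w', hw', hF'⟩ := G.exists_lt (hV2 w (hρr2 hw)) (lt_min he he')
          refine ⟨w', hlt w' (heb (ball_subset_ball (min_le_right _ _) hw')) (by rw [← h]; exact hF'), ?_⟩
          rw [dist_comm]
          exact lt_of_lt_of_le hw' (min_le_left _ _)
        rwa [(S.closed t).closure_eq] at hcl
  refine ⟨G, ?_, hz, hV, ρ, hρ0, hedge⟩
  -- exactness
  have hcont : Tendsto (fun x => G.Φ x • z) (𝓝 0) (𝓝 z) := by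
    have := (G.continuous_orbit z).tendsto 0
    simpa using this
  obtain ⟨η, hη, hηb⟩ := Metric.eventually_nhds_iff_ball.1
    (hcont.eventually (ball_mem_nhds z (half_pos hρ0)))
  have hgz : Tendsto (fun n => S.gm n t s • z) S.U (𝓝 z) := by
    have := (S.gm_lim t s).smul (tendsto_const_nhds (x := z))
    simpa using this
  have hleaf : ∀ᶠ n in (S.U : Filter ℕ), ∀ x ∈ Ioo (-η) η,
      G.F (S.gm n t s • G.Φ x • z) = G.F z := by
    filter_upwards [hinv, hgz.eventually (ball_mem_nhds z (half_pos hρ0))] with n hn hgn x hx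
    have hp : G.Φ x • z ∈ ball z (ρ / 2) := hηb x (by
      rw [mem_ball, dist_zero_right, Real.norm_eq_abs, abs_lt]; exact hx)
    set p := G.Φ x • z with hpdef
    have hFp : G.F p = G.F z := by rw [hpdef]; simp
    have hpρ : p ∈ ball z ρ := ball_subset_ball (half_le_self hρ0.le) hp
    have hgp : S.gm n t s • p ∈ ball z ρ := by
      rw [mem_ball] at *
      calc dist (S.gm n t s • p) z ≤ dist (S.gm n t s • p) (S.gm n t s • z)
            + dist (S.gm n t s • z) z := dist_triangle _ _ _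
        _ < ρ / 2 + ρ / 2 := by rw [dist_smul]; gcongr
        _ = ρ := by ring
    have hps : p ∈ S.A s := (hedge p hpρ).1.2 hFp.ge
    have hgps : S.gm n t s • p ∈ S.A s := (hn _ (hρr hgp)).2 (Set.smul_mem_smul_set hps)
    refine le_antisymm ?_ ((hedge _ hgp).1.1 hgps)
    by_contra hcon
    push Not at hcon
    -- then p would be an interior point of A s
    have hWo : ∀ᶠ w in 𝓝 (S.gm n t s • p), w ∈ S.A s ∧ w ∈ ball z ρ := by
      have hc : ∀ᶠ w' in 𝓝 (S.gm n t s • p), G.F z < G.F w' :=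
        G.continuous_F.continuousAt.eventually (lt_mem_nhds hcon)
      filter_upwards [hc, isOpen_ball.mem_nhds hgp] with w' h1 h2
      exact ⟨(hedge w' h2).1.2 h1.le, h2⟩
    have hcs : Tendsto (fun w => S.gm n t s • w) (𝓝 p) (𝓝 (S.gm n t s • p)) :=
      (continuous_const_smul _).continuousAt
    have hpi : p ∈ interior (S.A s) := by
      rw [mem_interior_iff_mem_nhds]
      filter_upwards [hcs.eventually hWo] with w hw
      have := (hn _ (hρr hw.2)).1 hw.1
      rwa [Set.smul_mem_smul_set_iff] at this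
    have hpt : p ∈ S.A t := (hedge p hpρ).2.2 hFp.le
    exact hne (S.eq_of_mem_interior hpi hpt)
  obtain ⟨u, hu, hu2⟩ := G.stab hV hη S.U (fun n => S.gm n t s) (S.gm_lim t s) hleaf
  refine ⟨u, hu, ?_⟩
  filter_upwards [hu2, hg1] with n hn hn1
  refine ⟨?_, hn⟩
  rintro h0
  apply hn1
  rw [hn, h0, Gen.Φ_zero]

/-- (G'): with a prescribed generator -/
theorem edge_of_rel {G : Gen} {z : ℂ} {s t : S.J} (hrel : S.Rel G s t) (hz : S.NT z)
    (hs : z ∈ S.A s) (ht : z ∈ S.A t) : S.Edge G s t z ∨ S.Edge G t s z := by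
  obtain ⟨G', hrel', hE⟩ := edge_exists hz hs ht hrel.not_eqv
  have hsim := hrel'.sim hrel
  obtain ⟨l, hl, hl2⟩ := hsim
  rcases lt_or_gt_of_ne hl with h | h
  · right
    have hsim' : G'.flip.Sim G := ⟨-l, by simpa using hl, fun z w => by
      rw [hl2]; simp; ring⟩
    exact hE.flip.of_sim_pos hsim' (l := -l) (by linarith) (fun z w => by rw [hl2]; simp; ring)
  · left
    exact hE.of_sim_pos ⟨l, hl, hl2⟩ h hl2

/-- the edge persists along connected pieces of a leaf contained in the set of points which are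
in at most two tiles -/
theorem arc {G : Gen} {s t : S.J} (hrel : S.Rel G s t) {Q : Set ℂ} (hQ : IsPreconnected Q)
    (hNT : ∀ q ∈ Q, S.NT q) {c : ℝ} (hF : ∀ q ∈ Q, G.F q = c) {q0 : ℂ} (hq0 : q0 ∈ Q)
    (hE : S.Edge G s t q0) : ∀ q ∈ Q, S.Edge G s t q := by
  classical
  intro q hq
  let f : ℂ → Bool := fun q => decide (S.Edge G s t q)
  have hf : ContinuousOn f Q := by
    intro x hx
    have : ∀ᶠ w in 𝓝[Q] x, f w = f x := by
      by_cases hEx : S.Edge G s t x
      · obtain ⟨r, hr, h⟩ := hEx.near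
        filter_upwards [mem_nhdsWithin_of_mem_nhds (ball_mem_nhds x hr), self_mem_nhdsWithin]
          with w hw hwQ
        have : S.Edge G s t w := h w hw (by rw [hF w hwQ, hF x hx]) (hNT w hwQ)
        simp [f, this, hEx]
      · by_contra hcon
        have hfr : ∃ᶠ w in 𝓝[Q] x, S.Edge G s t w := by
          refine (Filter.not_eventually.1 hcon).mono ?_
          intro w hw
          by_contra hw2
          exact hw (by simp [f, hw2, hEx])
        have hfr' : ∃ᶠ w in 𝓝 x, S.Edge G s t w :=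
          hfr.filter_mono nhdsWithin_le_nhds
        have hxs : x ∈ S.A s := by
          have : x ∈ closure (S.A s) := by
            rw [mem_closure_iff_frequently]
            exact hfr'.mono fun w hw => hw.left
          rwa [(S.closed s).closure_eq] at this
        have hxt : x ∈ S.A t := by
          have : x ∈ closure (S.A t) := by
            rw [mem_closure_iff_frequently]
            exact hfr'.mono fun w hw => hw.right
          rwa [(S.closed t).closure_eq] at this
        rcases edge_of_rel hrel (hNT x hx) hxs hxt with h | h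
        · exact hEx h
        · obtain ⟨r, hr, h2⟩ := h.near
          have h3 : ∀ᶠ w in 𝓝[Q] x, S.Edge G t s w := by
            filter_upwards [mem_nhdsWithin_of_mem_nhds (ball_mem_nhds x hr), self_mem_nhdsWithin]
              with w hw hwQ
            exact h2 w hw (by rw [hF w hwQ, hF x hx]) (hNT w hwQ)
          obtain ⟨w, hw1, hw2⟩ := (hfr.and_eventually h3).exists
          exact hw1.not_flip hw2 rfl
    exact Tendsto.congr' (this.mono fun _ h => h.symm) tendsto_const_nhds
  have h2 : f q = f q0 := hQ.constant hf hq hq0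
  have h3 : f q0 = true := by simp [f, hE]
  rw [h3] at h2
  simpa [f] using h2

/-- version where only membership is known at one point -/
theorem arc' {G : Gen} {s t : S.J} (hrel : S.Rel G s t) {Q : Set ℂ} (hQ : IsPreconnected Q)
    (hNT : ∀ q ∈ Q, S.NT q) {c : ℝ} (hF : ∀ q ∈ Q, G.F q = c) {q0 : ℂ} (hq0 : q0 ∈ Q)
    (hs : q0 ∈ S.A s) (ht : q0 ∈ S.A t) :
    (∀ q ∈ Q, S.Edge G s t q) ∨ (∀ q ∈ Q, S.Edge G t s q) := by
  rcases edge_of_rel hrel (hNT q0 hq0) hs ht with h | h
  · exact Or.inl (arc hrel hQ hNT hF hq0 h)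
  · exact Or.inr (arc hrel.symm hQ hNT hF hq0 h)

end FlexSys
end H231R2
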