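import Pool.Agent.H231R2.Defs
import Pool.Agent.Helper805.CHS.Drawn

/-! # Three nice sets with disjoint interiors share at most two points (task 4) -/

set_option autoImplicit false

open Filter Topology Metric Set
open scoped Pointwise ComplexConjugate

noncomputable section

namespace H231R2

namespace K33

/-- residue -/
def tri (a : Fin 6) : Fin 3 := ⟨(a : ℕ) % 3, Nat.mod_lt _ (by norm_num)⟩

theorem tri_ne_lo {a c : Fin 6} (ha : a < 3) (hc : c < 3) (h : a ≠ c) : tri a ≠ tri c := by
  intro he
  have h1 := congrArg Fin.val he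
  simp only [tri] at h1
  have ha' : (a : ℕ) < 3 := ha
  have hc' : (c : ℕ) < 3 := hc
  exact h (Fin.ext (by omega))

theorem tri_ne_hi {b d : Fin 6} (hb : 3 ≤ b) (hd : 3 ≤ d) (h : b ≠ d) : tri b ≠ tri d := by
  intro he
  have h1 := congrArg Fin.val he
  simp only [tri] at h1
  have hb' : 3 ≤ (b : ℕ) := hb
  have hd' : 3 ≤ (d : ℕ) := hd
  have := b.2
  have := d.2
  exact h (Fin.ext (by omega))

theorem main (X : Fin 3 → Set ℂ) (hX : ∀ i, Nice (X i))
    (hd : ∀ i j, i ≠ j → Disjoint (interior (X i)) (interior (X j))) (pt : Fin 3 → ℂ)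
    (hinj : Function.Injective pt) (hpt : ∀ i j, pt i ∈ X j) : False := by
  have hne := fun i => (hX i).ne
  choose xs hxs using hne
  have hni : ∀ i j, pt i ∉ interior (X j) := by
    intro i j hij
    obtain ⟨k, hk⟩ : ∃ k : Fin 3, j ≠ k := by
      by_cases h : j = 0
      · exact ⟨1, by rw [h]; decide⟩
      · exact ⟨0, h⟩
    have h1 := (hX k).reg (hpt i k)
    rw [_root_.mem_closure_iff] at h1
    obtain ⟨y, hy1, hy2⟩ := h1 _ isOpen_interior hij
    exact Set.disjoint_left.mp (hd j k hk) hy1 hy2
  refine Pool.Agent.Helper805.CHS.VK.k33_joined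
    (fun a => if a < 3 then pt (tri a) else xs (tri a))
    (fun a b => insert (pt (tri a)) (interior (X (tri b)))) ?_ ?_
  · intro a b ha hb
    simp only [if_pos ha, if_neg (not_lt.mpr hb)]
    exact (hX (tri b)).joined _ (hpt _ _) _ (hxs _)
  · intro a b c d ha hb hc hd' hac hbd
    have h1 := tri_ne_lo ha hc hac
    have h2 := tri_ne_hi hb hd' hbd
    rw [Set.disjoint_left]
    rintro x (rfl | hx) (hx' | hx')
    · exact h1 (hinj hx')
    · exact hni _ _ hx'
    · rw [hx'] at hx
      exact hni _ _ hx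
    · exact Set.disjoint_left.mp (hd _ _ h2) hx hx'

end K33

/-- `K_{3,3}` is not planar. -/
theorem three_common {P Q R : Set ℂ} (hP : Nice P) (hQ : Nice Q) (hR : Nice R)
    (hPQ : Disjoint (interior P) (interior Q)) (hQR : Disjoint (interior Q) (interior R))
    (hPR : Disjoint (interior P) (interior R)) {p q r : ℂ} (hpq : p ≠ q) (hqr : q ≠ r)
    (hpr : p ≠ r) (hp : p ∈ P ∩ Q ∩ R) (hq : q ∈ P ∩ Q ∩ R) (hr : r ∈ P ∩ Q ∩ R) : False := by
  refine K33.main ![P, Q, R] ?_ ?_ ![p, q, r] ?_ ?_
  · intro i
    fin_cases i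
    · exact hP
    · exact hQ
    · exact hR
  · intro i j hij
    fin_cases i <;> fin_cases j
    · exact absurd rfl hij
    · exact hPQ
    · exact hPR
    · exact hPQ.symm
    · exact absurd rfl hij
    · exact hQR
    · exact hPR.symm
    · exact hQR.symm
    · exact absurd rfl hij
  · intro i j hij
    fin_cases i <;> fin_cases j
    · rfl
    · exact absurd hij hpq
    · exact absurd hij hpr
    · exact absurd hij hpq.symm
    · rfl
    · exact absurd hij hqr
    · exact absurd hij hpr.symm
    · exact absurd hij hqr.symm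
    · rfl
  · intro i j
    fin_cases i <;> fin_cases j
    · exact hp.1.1
    · exact hp.1.2
    · exact hp.2
    · exact hq.1.1
    · exact hq.1.2
    · exact hq.2
    · exact hr.1.1
    · exact hr.1.2
    · exact hr.2

end H231R2
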