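import Pool.Agent.H231R2.Lf
import Pool.Agent.H231R2.K33

/-! # Basic facts about flexible systems -/

set_option autoImplicit false

open Filter Topology Metric Set
open scoped Pointwise ComplexConjugate

noncomputable section

namespace H231R2
namespace FlexSys
variable (S : FlexSys)

lemma eqv_refl (s : S.J) : S.eqv s s := Eventually.of_forall fun _ => rfl
variable {S}
lemma eqv.symm {s t : S.J} (h : S.eqv s t) : S.eqv t s := h.mono fun _ h => h.symm
lemma eqv.trans {s t u : S.J} (h : S.eqv s t) (h' : S.eqv t u) : S.eqv s u := by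
  filter_upwards [h, h'] with n h h'
  exact h.trans h'
lemma not_eqv_iff {s t : S.J} : ¬ S.eqv s t ↔ ∀ᶠ n in (S.U : Filter ℕ), S.m n s ≠ S.m n t := by
  unfold eqv
  exact Ultrafilter.eventually_not.symm
variable (S)

lemma gm_lim (t s : S.J) : Tendsto (fun n => S.gm n t s) S.U (𝓝 1) := by
  have := ((S.m_lim t).inv).mul (S.m_lim s)
  rw [inv_one, one_mul] at this
  exact this

lemma gm_self (n : ℕ) (t : S.J) : S.gm n t t = 1 := by simp [gm]

lemma gm_mul (n : ℕ) (t s u : S.J) : S.gm n t s * S.gm n s u = S.gm n t u := by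
  simp [gm, mul_assoc]

lemma gm_inv (n : ℕ) (t s : S.J) : (S.gm n t s)⁻¹ = S.gm n s t := by
  simp [gm]

lemma closed (t : S.J) : IsClosed (S.A t) := (S.nice t).closed

/-- finitely many tiles contain a given point -/
lemma fin_mem (z : ℂ) : {t | z ∈ S.A t}.Finite := by
  refine (S.lf ‖z‖).subset ?_
  intro t ht
  exact ⟨z, ht, by simp⟩

/-- near `z` only the tiles containing `z` are seen -/
lemma loc_mem (z : ℂ) : ∃ r > 0, ∀ w ∈ ball z r, ∀ t, w ∈ S.A t → z ∈ S.A t := by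
  have hfin : ({t | (S.A t ∩ closedBall 0 (‖z‖ + 1)).Nonempty} ∩ {t | z ∉ S.A t}).Finite :=
    (S.lf _).subset inter_subset_left
  have hcl : IsClosed (⋃ t ∈ ({t | (S.A t ∩ closedBall 0 (‖z‖ + 1)).Nonempty} ∩ {t | z ∉ S.A t}), S.A t) :=
    hfin.isClosed_biUnion fun t _ => S.closed t
  have hz : z ∈ (⋃ t ∈ ({t | (S.A t ∩ closedBall 0 (‖z‖ + 1)).Nonempty} ∩ {t | z ∉ S.A t}), S.A t)ᶜ := by
    simp only [mem_compl_iff, mem_iUnion, not_exists]
    rintro t ⟨-, h⟩ h2
    exact h h2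
  obtain ⟨r, hr, hrb⟩ := Metric.isOpen_iff.1 hcl.isOpen_compl z hz
  refine ⟨min r 1, by positivity, ?_⟩
  intro w hw t ht
  by_contra hzt
  have hw1 : w ∈ ball z r := ball_subset_ball (min_le_left _ _) hw
  have hw2 : w ∈ ball z 1 := ball_subset_ball (min_le_right _ _) hw
  apply hrb hw1
  simp only [mem_iUnion]
  refine ⟨t, ⟨⟨w, ht, ?_⟩, hzt⟩, ht⟩
  rw [mem_closedBall, dist_zero_right]
  have : ‖w - z‖ < 1 := by rwa [← dist_eq_norm]
  calc ‖w‖ = ‖z + (w - z)‖ := by ring_nf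
    _ ≤ ‖z‖ + ‖w - z‖ := norm_add_le _ _
    _ ≤ ‖z‖ + 1 := by linarith

/-- a finite disjunction along an ultrafilter -/
lemma pigeon {ι : Type*} {s : Set ι} (hs : s.Finite) {p : ι → ℕ → Prop}
    (h : ∀ᶠ n in (S.U : Filter ℕ), ∃ i ∈ s, p i n) : ∃ i ∈ s, ∀ᶠ n in (S.U : Filter ℕ), p i n := by
  have h1 : {n | ∃ i ∈ s, p i n} = ⋃ i ∈ s, {n | p i n} := by
    ext n; simp
  have h2 : (⋃ i ∈ s, {n | p i n}) ∈ S.U := by
    rw [← h1]; exact h
  rw [Ultrafilter.finite_biUnion_mem_iff hs] at h2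
  exact h2

/-- the points near `z` are covered by tiles containing `z` -/
lemma loc_cov (z : ℂ) : ∃ r > 0, ∀ w ∈ ball z r, ∃ t, z ∈ S.A t ∧ w ∈ S.A t := by
  obtain ⟨r, hr, h⟩ := S.cov' z
  refine ⟨r, hr, fun w hw => ?_⟩
  have h1 : ∀ᶠ n in (S.U : Filter ℕ), ∃ t ∈ {t | z ∈ S.A t}, w ∈ S.m n t • S.A t := by
    filter_upwards [h] with n hn
    obtain ⟨t, ht, ht'⟩ := hn w hw
    exact ⟨t, ht, ht'⟩
  obtain ⟨t, ht, h2⟩ := S.pigeon (S.fin_mem z) h1
  refine ⟨t, ht, ?_⟩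
  have h3 : Tendsto (fun n => (S.m n t)⁻¹ • w) S.U (𝓝 ((1 : Mv)⁻¹ • w)) :=
    ((S.m_lim t).inv).smul tendsto_const_nhds
  simp only [inv_one, one_smul] at h3
  refine (S.closed t).mem_of_tendsto h3 ?_
  filter_upwards [h2] with n hn
  rwa [Set.mem_smul_set_iff_inv_smul_mem] at hn

lemma cover (z : ℂ) : ∃ t, z ∈ S.A t := by
  obtain ⟨r, hr, h⟩ := S.loc_cov z
  obtain ⟨t, ht, -⟩ := h z (mem_ball_self hr)
  exact ⟨t, ht⟩

/-- a point in the interior of `A t` is in the interior of the moved tile -/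
lemma mem_interior_ev (t : S.J) {z : ℂ} (hz : z ∈ interior (S.A t)) {g : ℕ → Mv}
    (hg : Tendsto g S.U (𝓝 1)) : ∀ᶠ n in (S.U : Filter ℕ), z ∈ interior (g n • S.A t) := by
  have h3 : Tendsto (fun n => (g n)⁻¹ • z) S.U (𝓝 ((1 : Mv)⁻¹ • z)) :=
    (hg.inv).smul tendsto_const_nhds
  simp only [inv_one, one_smul] at h3
  filter_upwards [h3.eventually (isOpen_interior.mem_nhds hz)] with n hn
  rw [interior_smul_mv, Set.mem_smul_set_iff_inv_smul_mem]
  exact hn

lemma disj (s t : S.J) (h : s ≠ t) : Disjoint (interior (S.A s)) (interior (S.A t)) := by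
  rw [Set.disjoint_left]
  intro z hs ht
  have h1 := S.mem_interior_ev s hs (S.m_lim s)
  have h2 := S.mem_interior_ev t ht (S.m_lim t)
  obtain ⟨n, hn1, hn2, hn3⟩ := (h1.and (h2.and (S.disj' s t h))).exists
  exact Set.disjoint_left.1 hn3 hn1 hn2

lemma disj_int (s t : S.J) (h : s ≠ t) : Disjoint (interior (S.A s)) (S.A t) :=
  disj_int_of_reg (S.nice t).reg (S.disj s t h)

/-- disjointness of moved tiles, seen from another tile -/
lemma disj_gm (o s t : S.J) (h : s ≠ t) : ∀ᶠ n in (S.U : Filter ℕ),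
    Disjoint (interior (S.gm n o s • S.A s)) (interior (S.gm n o t • S.A t)) := by
  filter_upwards [S.disj' s t h] with n hn
  rw [gm, gm, mul_smul, mul_smul, interior_smul_mv, interior_smul_mv ((S.m n o)⁻¹)]
  exact Set.disjoint_smul_set.2 hn

/-- the cover property seen from a tile `o` -/
lemma cov_gm (o : S.J) (z : ℂ) : ∃ r > 0, ∀ᶠ n in (S.U : Filter ℕ), ∀ w ∈ ball z r,
    ∃ t, z ∈ S.A t ∧ w ∈ S.gm n o t • S.A t := by
  obtain ⟨r, hr, h⟩ := S.cov' z
  refine ⟨r / 2, by positivity, ?_⟩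
  have h3 : Tendsto (fun n => S.m n o • z) S.U (𝓝 ((1 : Mv) • z)) :=
    (S.m_lim o).smul tendsto_const_nhds
  rw [one_smul] at h3
  filter_upwards [h, h3.eventually (ball_mem_nhds z (half_pos hr))] with n hn hn2 w hw
  have hw2 : S.m n o • w ∈ ball z r := by
    rw [mem_ball] at *
    calc dist (S.m n o • w) z ≤ dist (S.m n o • w) (S.m n o • z) + dist (S.m n o • z) z :=
          dist_triangle _ _ _
      _ < r / 2 + r / 2 := by rw [dist_smul]; gcongr
      _ = r := by ring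
  obtain ⟨t, ht, ht2⟩ := hn _ hw2
  refine ⟨t, ht, ?_⟩
  rw [gm, mul_smul, Set.mem_smul_set_iff_inv_smul_mem, inv_inv]
  exact ht2

/-- a point of a tile which is not interior lies in another tile -/
lemma exists_other {s : S.J} {z : ℂ} (hz : z ∉ interior (S.A s)) : ∃ t, t ≠ s ∧ z ∈ S.A t := by
  obtain ⟨r, hr, h⟩ := S.loc_cov z
  by_contra hcon
  push Not at hcon
  apply hz
  rw [mem_interior_iff_mem_nhds]
  refine Filter.mem_of_superset (ball_mem_nhds z hr) ?_
  intro w hw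
  obtain ⟨t, ht, ht2⟩ := h w hw
  have : t = s := by
    by_contra hts
    exact hcon t hts ht
  rwa [this] at ht2

lemma eq_of_mem_interior {s t : S.J} {z : ℂ} (hs : z ∈ interior (S.A s)) (ht : z ∈ S.A t) :
    s = t := by
  by_contra h
  exact Set.disjoint_left.1 (S.disj_int s t h) hs ht

end FlexSys
end H231R2
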