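import Pool.Agent.H231R2.GenLeaf

/-! # The flow lemma (task 3) -/

set_option autoImplicit false

open Filter Topology Metric Set
open scoped Pointwise ComplexConjugate

noncomputable section

namespace H231R2

/-- Local statement: points near `z` with the same value of `F` lie on a short piece of orbit. -/
private lemma local_orbit (G : Gen) (z : ℂ) {ρ : ℝ} (hρ : 0 < ρ) :
    ∃ δ > 0, ∀ w ∈ ball z δ, ∀ w' ∈ ball z δ, G.F w = G.F w' →
      ∃ x : ℝ, w' = G.Φ x • w ∧ ∀ y : ℝ, |y| ≤ |x| → G.Φ y • w ∈ ball z ρ := by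
  by_cases hz : G.V z = 0
  · -- `z` is the centre of the rotations
    have hω : G.ω ≠ 0 := by
      intro h0
      have hβ : G.β ≠ 0 := by
        rcases G.hne with h | h
        · exact absurd h0 h
        · exact h
      apply hβ
      simpa [Gen.V, h0] using hz
    have hωC : (G.ω : ℂ) ≠ 0 := by exact_mod_cast hω
    have hc : Complex.I * G.β / G.ω = z := by
      have h1 : Complex.I * G.ω * z + G.β = 0 := hz
      have h2 : G.β = -(Complex.I * G.ω * z) := by linear_combination h1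
      rw [h2]
      field_simp
      linear_combination (-z) * Complex.I_sq
    refine ⟨ρ, hρ, ?_⟩
    intro w hw w' hw' hF
    have hnorm : ∀ (y : ℝ) (v : ℂ), ‖G.Φ y • v - z‖ = ‖v - z‖ := by
      intro y v
      rw [G.Φ_circ hω, hc]
      have : z + Complex.exp ((y * G.ω : ℝ) * Complex.I) * (v - z) - z
          = Complex.exp ((y * G.ω : ℝ) * Complex.I) * (v - z) := by ring
      rw [this, norm_mul, Complex.norm_exp_ofReal_mul_I, one_mul]
    have heq : ‖w - z‖ = ‖w' - z‖ := by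
      rw [G.F_circ hω, G.F_circ hω, hc] at hF
      have h3 : G.κ * G.ω / 2 ≠ 0 := by
        have := G.hκ
        positivity
      have h4 := mul_left_cancel₀ h3 hF
      have h5 : ‖w - z‖ ^ 2 = ‖w' - z‖ ^ 2 := by linarith
      exact (pow_left_inj₀ (norm_nonneg _) (norm_nonneg _) (by norm_num)).1 h5
    have hball : ∀ y : ℝ, G.Φ y • w ∈ ball z ρ := by
      intro y
      rw [mem_ball, dist_eq_norm, hnorm, ← dist_eq_norm]
      exact hw
    by_cases hwz : w = z
    · have : w' = z := by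
        rw [hwz, sub_self, norm_zero] at heq
        have := norm_eq_zero.1 heq.symm
        linear_combination this
      refine ⟨0, ?_, fun y _ => hball y⟩
      rw [Gen.Φ_zero, one_smul, this, hwz]
    · have hwz' : w - z ≠ 0 := sub_ne_zero.2 hwz
      set θ : ℝ := Complex.arg ((w' - z) / (w - z)) with hθ
      have hn1 : ‖(w' - z) / (w - z)‖ = 1 := by
        rw [norm_div, ← heq, div_self (norm_ne_zero_iff.2 hwz')]
      have hexp : Complex.exp (θ * Complex.I) = (w' - z) / (w - z) := by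
        have := Complex.norm_mul_exp_arg_mul_I ((w' - z) / (w - z))
        rw [hn1] at this
        simpa using this
      refine ⟨θ / G.ω, ?_, fun y _ => hball y⟩
      rw [G.Φ_circ hω, hc]
      have h6 : θ / G.ω * G.ω = θ := by field_simp
      rw [h6, hexp]
      field_simp
      ring
  · have hcont : ContinuousAt (fun p : ℝ × ℂ => G.Φ p.1 • p.2) (0, z) := by
      apply Continuous.continuousAt
      exact (G.continuous_Φ.comp continuous_fst).smul continuous_snd
    have h0 : (fun p : ℝ × ℂ => G.Φ p.1 • p.2) (0, z) = z := by simp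
    have hev : ∀ᶠ p in 𝓝 ((0 : ℝ), z), G.Φ p.1 • p.2 ∈ ball z ρ := by
      have := hcont.eventually (p := fun v => v ∈ ball z ρ)
        (by rw [h0]; exact ball_mem_nhds z hρ)
      exact this
    rw [Metric.eventually_nhds_iff] at hev
    obtain ⟨ε, hε, hev⟩ := hev
    obtain ⟨δ, hδ, hleaf⟩ := G.leaf_local hz hε
    refine ⟨min δ ε, lt_min hδ hε, ?_⟩
    intro w hw w' hw' hF
    have hw1 := ball_subset_ball (min_le_left δ ε) hw
    have hw2 := ball_subset_ball (min_le_left δ ε) hw'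
    have hw3 := ball_subset_ball (min_le_right δ ε) hw
    obtain ⟨x, hx, hxw⟩ := hleaf w hw1 w' hw2 hF
    refine ⟨x, hxw, ?_⟩
    intro y hy
    apply hev (y := (y, w))
    rw [Prod.dist_eq]
    apply max_lt
    · rw [Real.dist_eq]
      simpa using lt_of_le_of_lt hy hx
    · exact hw3

private lemma Ex_nat (ψ : ℝ) (B : ℂ) (j : ℕ) : (Ex ψ B) ^ j = Ex (j * ψ) ((j : ℝ) * B) := by
  induction j with
  | zero => simp [Ex_zero]
  | succ k ih =>
    have := Ex_add (k : ℝ) 1 ψ B
    rw [pow_succ, ih]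
    simp only [one_mul, Complex.ofReal_one] at this
    rw [← this]
    push_cast
    rfl

private lemma Ex_neg (ψ : ℝ) (B : ℂ) : Ex (-ψ) (-B) = (Ex ψ B)⁻¹ := by
  have := Ex_add (-1 : ℝ) 1 ψ B
  rw [eq_inv_iff_mul_eq_one]
  simp at this
  rw [← this]
  exact Ex_zero

/-- A closed set which near `z` is invariant under nontrivial motions tending to `1` is, near `z`,
a union of leaves of a one parameter group. -/
theorem flow (U : Ultrafilter ℕ) {X : Set ℂ} (hX : IsClosed X) (z : ℂ) {ρ : ℝ} (hρ : 0 < ρ)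
    (g : ℕ → Mv) (hg : Tendsto g U (𝓝 1)) (hg1 : ∀ᶠ n in (U : Filter ℕ), g n ≠ 1)
    (hinv : ∀ᶠ n in (U : Filter ℕ), ∀ w ∈ ball z ρ, w ∈ X ↔ w ∈ g n • X) :
    ∃ G : Gen, ∃ δ > 0, ∀ w ∈ ball z δ, ∀ w' ∈ ball z δ, G.F w = G.F w' → w ∈ X → w' ∈ X := by
  obtain ⟨ψ, B, hψ, hB, hgE⟩ := exists_log U g hg
  set v : ℕ → ℝ × ℂ := fun n => (ψ n, B n) with hv
  have hv0 : Tendsto v U (𝓝 0) := by
    exact hψ.prodMk_nhds hB
  have hN0 : Tendsto (fun n => ‖v n‖) U (𝓝 0) := by
    have := hv0.norm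
    simpa using this
  have hNpos : ∀ᶠ n in (U : Filter ℕ), 0 < ‖v n‖ := by
    filter_upwards [hg1, hgE] with n h1 h2
    rw [norm_pos_iff]
    intro h3
    apply h1
    have h4 : ψ n = 0 := congrArg Prod.fst h3
    have h5 : B n = 0 := congrArg Prod.snd h3
    rw [h2, h4, h5, Ex_zero]
  set u : ℕ → ℝ × ℂ := fun n => (‖v n‖)⁻¹ • v n with hu
  have hus : ∀ᶠ n in (U : Filter ℕ), u n ∈ sphere (0 : ℝ × ℂ) 1 := by
    filter_upwards [hNpos] with n hn
    rw [mem_sphere_zero_iff_norm, hu]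
    simp only [norm_smul, norm_inv, norm_norm]
    exact inv_mul_cancel₀ hn.ne'
  obtain ⟨p, hp, hup⟩ := (isCompact_sphere (0 : ℝ × ℂ) 1).ultrafilter_le_nhds (U.map u)
    (by
      rw [le_principal_iff]
      exact hus)
  have hup' : Tendsto u U (𝓝 p) := hup
  have hp0 : p ≠ 0 := by
    intro h
    rw [h] at hp
    simp at hp
  have hne : p.1 ≠ 0 ∨ p.2 ≠ 0 := by
    by_contra hcon
    push Not at hcon
    exact hp0 (Prod.ext hcon.1 hcon.2)
  set G : Gen := ⟨p.1, p.2, 1, one_ne_zero, hne⟩ with hG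
  -- the continuous family
  have hEc : Continuous (fun q : ℝ × (ℝ × ℂ) => Ex (q.1 * q.2.1) ((q.1 : ℂ) * q.2.2)) := by
    have h1 : Continuous (fun q : ℝ × (ℝ × ℂ) => ((q.1 * q.2.1, (q.1 : ℂ) * q.2.2) : ℝ × ℂ)) := by
      fun_prop
    exact continuous_Ex.comp h1
  have hEp : ∀ y : ℝ, Ex (y * p.1) ((y : ℂ) * p.2) = G.Φ y := fun y => rfl
  obtain ⟨δ, hδ, hloc⟩ := local_orbit G z hρ
  refine ⟨G, δ, hδ, ?_⟩
  intro w hw w' hw' hF hwX
  obtain ⟨x, hxw, hxb⟩ := hloc w hw w' hw' hF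
  -- the sign of `x`
  obtain ⟨s, hs, hsx⟩ : ∃ s : ℝ, (s = 1 ∨ s = -1) ∧ s * |x| = x := by
    rcases le_total 0 x with h | h
    · exact ⟨1, Or.inl rfl, by rw [abs_of_nonneg h, one_mul]⟩
    · exact ⟨-1, Or.inr rfl, by rw [abs_of_nonpos h]; ring⟩
  have hsabs : |s| = 1 := by rcases hs with h | h <;> simp [h]
  -- tube lemma
  have htube : ∀ᶠ n in (U : Filter ℕ), ∀ y : ℝ, |y| ≤ |x| →
      Ex (y * (u n).1) ((y : ℂ) * (u n).2) • w ∈ ball z ρ := by
    have hopen : IsOpen {q : ℝ × (ℝ × ℂ) |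
        Ex (q.1 * q.2.1) ((q.1 : ℂ) * q.2.2) • w ∈ ball z ρ} := by
      apply isOpen_ball.preimage
      exact hEc.smul continuous_const
    have hsub : (closedBall (0 : ℝ) |x|) ×ˢ ({p} : Set (ℝ × ℂ)) ⊆ {q : ℝ × (ℝ × ℂ) |
        Ex (q.1 * q.2.1) ((q.1 : ℂ) * q.2.2) • w ∈ ball z ρ} := by
      rintro ⟨y, p'⟩ ⟨hy, hp'⟩
      simp only [mem_singleton_iff] at hp'
      subst hp'
      have hy' : |y| ≤ |x| := by simpa using hy
      exact hxb y hy'
    obtain ⟨A, W, hA, hW, hCA, hpW, hAW⟩ :=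
      generalized_tube_lemma (isCompact_closedBall (0 : ℝ) |x|) isCompact_singleton hopen hsub
    have hWp : W ∈ 𝓝 p := hW.mem_nhds (hpW (mem_singleton p))
    have hAW' : ∀ y : ℝ, y ∈ A → ∀ q : ℝ × ℂ, q ∈ W →
        Ex (y * q.1) ((y : ℂ) * q.2) • w ∈ ball z ρ := by
      intro y hy q hq
      have h := hAW (Set.mk_mem_prod hy hq)
      rw [Set.mem_ofPred_eq] at h
      exact h
    filter_upwards [hup' hWp] with n hn y hy
    have hyC : y ∈ A := hCA (by simpa using hy)
    have hn' : u n ∈ W := hn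
    exact hAW' y hyC (u n) hn'
  -- the number of steps
  set k : ℕ → ℕ := fun n => ⌊|x| / ‖v n‖⌋₊ with hk
  have hkN : Tendsto (fun n => s * (k n * ‖v n‖)) U (𝓝 x) := by
    have h1 : Tendsto (fun n => (k n : ℝ) * ‖v n‖) U (𝓝 |x|) := by
      have hlow : Tendsto (fun n => |x| - ‖v n‖) U (𝓝 |x|) := by
        have := (tendsto_const_nhds (x := |x|) (f := (U : Filter ℕ))).sub hN0
        simpa using this
      refine tendsto_of_tendsto_of_tendsto_of_le_of_le' hlow tendsto_const_nhds ?_ ?_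
      · filter_upwards [hNpos] with n hn
        have h2 : |x| / ‖v n‖ < (k n : ℝ) + 1 := Nat.lt_floor_add_one _
        rw [div_lt_iff₀ hn] at h2
        linarith
      · filter_upwards [hNpos] with n hn
        have h2 : (k n : ℝ) ≤ |x| / ‖v n‖ := Nat.floor_le (by positivity)
        rwa [le_div_iff₀ hn] at h2
    have h3 := h1.const_mul s
    rwa [hsx] at h3
  -- the iterates
  have hmem : ∀ᶠ n in (U : Filter ℕ),
      Ex ((s * (k n * ‖v n‖)) * (u n).1) (((s * (k n * ‖v n‖) : ℝ) : ℂ) * (u n).2) • w ∈ X := by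
    filter_upwards [hinv, hgE, hNpos, htube] with n h1 h2 h3 h4
    -- one step
    have hstep : ∀ q ∈ X, q ∈ ball z ρ → Ex (s * ψ n) (s * B n) • q ∈ ball z ρ →
        Ex (s * ψ n) (s * B n) • q ∈ X := by
      intro q hq hqb hqb'
      rcases hs with h | h
      · rw [h] at hqb' ⊢
        simp only [one_mul, Complex.ofReal_one, ← h2] at hqb' ⊢
        rw [h1 _ hqb']
        exact Set.smul_mem_smul_set hq
      · rw [h] at hqb' ⊢
        simp only [neg_mul, one_mul, Complex.ofReal_neg, Complex.ofReal_one, Ex_neg,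
          ← h2] at hqb' ⊢
        rw [h1 _ hqb] at hq
        exact Set.mem_smul_set_iff_inv_smul_mem.1 hq
    have hvu1 : ψ n = ‖v n‖ * (u n).1 := by
      have : (u n).1 = (‖v n‖)⁻¹ * ψ n := rfl
      rw [this, ← mul_assoc, mul_inv_cancel₀ h3.ne', one_mul]
    have hvu2 : B n = ((‖v n‖ : ℝ) : ℂ) * (u n).2 := by
      have : (u n).2 = (‖v n‖)⁻¹ • B n := rfl
      rw [this, Complex.real_smul, ← mul_assoc, ← Complex.ofReal_mul, mul_inv_cancel₀ h3.ne',
        Complex.ofReal_one, one_mul]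
    have hpow : ∀ j : ℕ, (Ex (s * ψ n) (s * B n)) ^ j =
        Ex ((s * (j * ‖v n‖)) * (u n).1) (((s * (j * ‖v n‖) : ℝ) : ℂ) * (u n).2) := by
      intro j
      rw [Ex_nat]
      congr 1
      · conv_lhs => rw [hvu1]
        ring
      · conv_lhs => rw [hvu2]
        push_cast
        ring
    have hall : ∀ j : ℕ, j ≤ k n → (Ex (s * ψ n) (s * B n)) ^ j • w ∈ ball z ρ := by
      intro j hj
      rw [hpow]
      apply h4
      rw [abs_mul, hsabs, one_mul, abs_of_nonneg (by positivity)]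
      have h5 : (k n : ℝ) ≤ |x| / ‖v n‖ := Nat.floor_le (by positivity)
      rw [le_div_iff₀ h3] at h5
      have h6 : (j : ℝ) * ‖v n‖ ≤ (k n : ℝ) * ‖v n‖ := by
        apply mul_le_mul_of_nonneg_right _ h3.le
        exact_mod_cast hj
      linarith
    have hind : ∀ j : ℕ, j ≤ k n → (Ex (s * ψ n) (s * B n)) ^ j • w ∈ X := by
      intro j
      induction j with
      | zero => intro _; simpa using hwX
      | succ i ih =>
        intro hi
        have h7 := ih (by omega)
        have h8 := hall i (by omega)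
        have h9 := hall (i + 1) hi
        rw [pow_succ', mul_smul] at h9 ⊢
        exact hstep _ h7 h8 h9
    have := hind (k n) le_rfl
    rwa [hpow] at this
  have hlim : Tendsto (fun n => Ex ((s * (k n * ‖v n‖)) * (u n).1)
      (((s * (k n * ‖v n‖) : ℝ) : ℂ) * (u n).2) • w) U (𝓝 (G.Φ x • w)) := by
    have h1 : Tendsto (fun n => ((s * (k n * ‖v n‖), u n) : ℝ × (ℝ × ℂ))) U (𝓝 (x, p)) :=
      hkN.prodMk_nhds hup'
    have h2 : Continuous (fun q : ℝ × (ℝ × ℂ) => Ex (q.1 * q.2.1) ((q.1 : ℂ) * q.2.2) • w) :=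
      hEc.smul continuous_const
    have h3 := (h2.tendsto (x, p)).comp h1
    rw [← hEp]
    simp only [Function.comp_def] at h3
    exact h3
  rw [hxw]
  exact hX.mem_of_tendsto hlim hmem

end H231R2
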