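import Pool.Agent.H231R2.Defs

/-! # Basic facts about one parameter groups of motions (task 1) -/

set_option autoImplicit false

open Filter Topology Metric Set
open scoped Pointwise ComplexConjugate

noncomputable section

namespace H231R2

lemma ph_zero : ph 0 = 1 := by
  rw [ph, dslope_same, Complex.deriv_exp, Complex.exp_zero]

/-- `u * ph u = exp u - 1` (all `u`) -/
lemma mul_ph (u : ℂ) : u * ph u = Complex.exp u - 1 := by
  have h := sub_smul_dslope Complex.exp 0 u
  rw [sub_zero, smul_eq_mul, Complex.exp_zero] at h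
  exact h

lemma continuous_ph : Continuous ph := by
  rw [← continuousOn_univ]
  have h := continuousOn_dslope (f := Complex.exp) (a := 0) (s := Set.univ) Filter.univ_mem
  exact h.2 ⟨Complex.continuous_exp.continuousOn, Complex.differentiableAt_exp⟩

lemma continuous_Ex : Continuous (fun p : ℝ × ℂ => Ex p.1 p.2) := by
  rw [Mv.continuous_iff]
  constructor
  · show Continuous (fun p : ℝ × ℂ => Complex.exp (p.1 * Complex.I))
    fun_prop
  · show Continuous (fun p : ℝ × ℂ => p.2 * ph (p.1 * Complex.I))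
    refine continuous_snd.mul (continuous_ph.comp ?_)
    fun_prop

lemma Ex_zero : Ex 0 0 = 1 := by
  ext <;> simp [Ex]

lemma Ex_eq_one_imp {ψ : ℝ} {B : ℂ} (h : Ex ψ B = 1) (hψ : |ψ| < 1) : ψ = 0 ∧ B = 0 := by
  have ha : Complex.exp (ψ * Complex.I) = 1 := congrArg Mv.a h
  have hb : B * ph (ψ * Complex.I) = 0 := congrArg Mv.b h
  have hψ0 : ψ = 0 := by
    rw [Complex.exp_eq_one_iff] at ha
    obtain ⟨n, hn⟩ := ha
    have h1 : (ψ : ℂ) = n * (2 * Real.pi) := by
      have h2 : (ψ : ℂ) * Complex.I = (n * (2 * Real.pi)) * Complex.I := by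
        rw [hn]; ring
      exact mul_right_cancel₀ Complex.I_ne_zero h2
    have h2 : ψ = n * (2 * Real.pi) := by exact_mod_cast h1
    by_cases hn0 : n = 0
    · rw [h2, hn0]; simp
    · exfalso
      have h3 : (1 : ℝ) ≤ |(n : ℝ)| := by
        have := Int.one_le_abs hn0
        exact_mod_cast this
      rw [h2, abs_mul, abs_of_pos (by positivity : (0 : ℝ) < 2 * Real.pi)] at hψ
      have h4 := Real.pi_gt_three
      nlinarith
  refine ⟨hψ0, ?_⟩
  rw [hψ0] at hb
  simpa [ph_zero] using hb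

/-- group law of the one parameter groups -/
lemma Ex_add (x y ψ : ℝ) (B : ℂ) :
    Ex ((x + y) * ψ) (((x + y : ℝ) : ℂ) * B) = Ex (x * ψ) (x * B) * Ex (y * ψ) (y * B) := by
  by_cases hψ : ψ = 0
  · subst hψ
    ext
    · simp [Ex]
    · simp [Ex, ph_zero]; ring
  · have hψ' : (ψ : ℂ) ≠ 0 := by exact_mod_cast hψ
    ext
    · simp only [Ex, Mv.mul_a]
      rw [← Complex.exp_add]
      congr 1
      push_cast
      ring
    · simp only [Ex, Mv.mul_b]
      have h1 := mul_ph (((x + y) * ψ : ℝ) * Complex.I)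
      have h2 := mul_ph ((x * ψ : ℝ) * Complex.I)
      have h3 := mul_ph ((y * ψ : ℝ) * Complex.I)
      have h4 : Complex.exp (((x + y) * ψ : ℝ) * Complex.I) =
          Complex.exp ((x * ψ : ℝ) * Complex.I) * Complex.exp ((y * ψ : ℝ) * Complex.I) := by
        rw [← Complex.exp_add]
        congr 1
        push_cast
        ring
      rw [h4] at h1
      have h5 : (ψ : ℂ) * Complex.I ≠ 0 := mul_ne_zero hψ' Complex.I_ne_zero
      apply mul_left_cancel₀ h5
      push_cast at h1 h2 h3 ⊢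
      linear_combination B * h1 - B * h2 - B * Complex.exp (x * ψ * Complex.I) * h3

/-- motions tending to `1` have logarithms tending to `0` -/
lemma exists_log (U : Ultrafilter ℕ) (g : ℕ → Mv) (hg : Tendsto g U (𝓝 1)) :
    ∃ (ψ : ℕ → ℝ) (B : ℕ → ℂ), Tendsto ψ U (𝓝 0) ∧ Tendsto B U (𝓝 0) ∧
      ∀ᶠ n in (U : Filter ℕ), g n = Ex (ψ n) (B n) := by
  obtain ⟨ha, hb⟩ := Mv.tendsto_iff.1 hg
  simp only [Mv.one_a, Mv.one_b] at ha hb
  set ψ : ℕ → ℝ := fun n => Complex.arg (g n).a with hψ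
  have hψ0 : Tendsto ψ U (𝓝 0) := by
    have h1 : ContinuousAt Complex.arg 1 := Complex.continuousAt_arg (by simp [Complex.slitPlane])
    have h2 := h1.tendsto.comp ha
    rw [Complex.arg_one] at h2
    exact h2
  have hph : Tendsto (fun n => ph (ψ n * Complex.I)) U (𝓝 1) := by
    have h1 : Continuous (fun x : ℝ => ph (x * Complex.I)) := by
      refine continuous_ph.comp ?_
      fun_prop
    have h2 := (h1.tendsto 0).comp hψ0
    simp only [Complex.ofReal_zero, zero_mul, ph_zero] at h2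
    exact h2
  refine ⟨ψ, fun n => (g n).b / ph (ψ n * Complex.I), hψ0, ?_, ?_⟩
  · have h3 : Tendsto (fun n => (g n).b / ph (ψ n * Complex.I)) U (𝓝 (0 / 1)) :=
      hb.div hph one_ne_zero
    rwa [zero_div] at h3
  · have hne : ∀ᶠ n in (U : Filter ℕ), ph (ψ n * Complex.I) ≠ 0 := hph.eventually_ne one_ne_zero
    filter_upwards [hne] with n hn
    ext
    · show (g n).a = Complex.exp (ψ n * Complex.I)
      have := Complex.norm_mul_exp_arg_mul_I (g n).a
      rw [(g n).ha, Complex.ofReal_one, one_mul] at this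
      exact this.symm
    · show (g n).b = (g n).b / ph (ψ n * Complex.I) * ph (ψ n * Complex.I)
      rw [div_mul_cancel₀ _ hn]

namespace Gen
variable (G : Gen)

@[simp] lemma Φ_zero : G.Φ 0 = 1 := by
  simp [Gen.Φ, Ex_zero]

lemma Φ_add (x y : ℝ) : G.Φ (x + y) = G.Φ x * G.Φ y := Ex_add x y G.ω G.β

lemma Φ_neg (x : ℝ) : G.Φ (-x) = (G.Φ x)⁻¹ := by
  rw [eq_inv_iff_mul_eq_one, ← Φ_add]
  simp

lemma continuous_Φ : Continuous G.Φ := by
  have h : Continuous (fun x : ℝ => ((x * G.ω, (x : ℂ) * G.β) : ℝ × ℂ)) := by fun_prop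
  exact continuous_Ex.comp h

lemma continuous_orbit (z : ℂ) : Continuous (fun x => G.Φ x • z) :=
  G.continuous_Φ.smul continuous_const

lemma continuous_F : Continuous G.F := by
  unfold Gen.F
  have h : Continuous (fun z : ℂ => (conj G.β * z).im) :=
    Complex.continuous_im.comp (continuous_const.mul continuous_id)
  have h2 : Continuous (fun z : ℂ => ‖z‖ ^ 2) := continuous_norm.pow 2
  exact continuous_const.mul ((continuous_const.mul h2).sub h)

lemma continuous_V : Continuous G.V := by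
  unfold Gen.V
  fun_prop

/-- rotations: explicit form -/
lemma Φ_circ (h : G.ω ≠ 0) (x : ℝ) (z : ℂ) :
    G.Φ x • z = Complex.I * G.β / G.ω +
      Complex.exp ((x * G.ω : ℝ) * Complex.I) * (z - Complex.I * G.β / G.ω) := by
  have hC : (G.ω : ℂ) ≠ 0 := by exact_mod_cast h
  have h1 := mul_ph ((x * G.ω : ℝ) * Complex.I)
  show Complex.exp ((x * G.ω : ℝ) * Complex.I) * z +
    (x : ℂ) * G.β * ph ((x * G.ω : ℝ) * Complex.I) = _
  have h2 : (x : ℂ) * ph ((x * G.ω : ℝ) * Complex.I) =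
      -Complex.I / G.ω * (Complex.exp ((x * G.ω : ℝ) * Complex.I) - 1) := by
    rw [← h1]
    push_cast
    field_simp
    linear_combination ((x : ℂ) * ph (x * G.ω * Complex.I)) * Complex.I_sq
  have h3 : (x : ℂ) * G.β * ph ((x * G.ω : ℝ) * Complex.I) =
      G.β * (-Complex.I / G.ω * (Complex.exp ((x * G.ω : ℝ) * Complex.I) - 1)) := by
    rw [← h2]; ring
  rw [h3]
  field_simp
  ring

/-- rotations: first integral -/
lemma F_circ (h : G.ω ≠ 0) (z : ℂ) :
    G.F z = G.κ * G.ω / 2 * (‖z - Complex.I * G.β / G.ω‖ ^ 2 - ‖Complex.I * G.β / G.ω‖ ^ 2) := by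
  have h1 : ∀ w : ℂ, ‖w‖ ^ 2 = w.re ^ 2 + w.im ^ 2 := by
    intro w
    rw [← Complex.normSq_eq_norm_sq, Complex.normSq_apply]; ring
  have hre : (Complex.I * G.β / G.ω).re = -G.β.im / G.ω := by
    rw [Complex.div_ofReal_re]; simp
  have him : (Complex.I * G.β / G.ω).im = G.β.re / G.ω := by
    rw [Complex.div_ofReal_im]; simp
  unfold Gen.F
  rw [h1, h1, h1, Complex.sub_re, Complex.sub_im, hre, him]
  simp only [Complex.mul_im, Complex.conj_re, Complex.conj_im]
  field_simp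
  ring

lemma Φ_lin' (h : G.ω = 0) (x : ℝ) : G.Φ x = Mv.tr (x * G.β) := by
  unfold Gen.Φ
  rw [h]
  ext <;> simp [Ex, ph_zero]

/-- translations: explicit form -/
lemma Φ_lin (h : G.ω = 0) (x : ℝ) (z : ℂ) : G.Φ x • z = z + x * G.β := by
  rw [G.Φ_lin' h, Mv.tr_smul]

/-- translations: first integral -/
lemma F_lin (h : G.ω = 0) (z : ℂ) : G.F z = -G.κ * (conj G.β * z).im := by
  unfold Gen.F
  rw [h]; ring

@[simp] lemma F_Φ (x : ℝ) (z : ℂ) : G.F (G.Φ x • z) = G.F z := by
  by_cases h : G.ω = 0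
  · rw [G.F_lin h, G.F_lin h, G.Φ_lin h]
    simp only [Complex.mul_im, Complex.add_re, Complex.add_im, Complex.conj_re, Complex.conj_im,
      Complex.mul_re, Complex.ofReal_re, Complex.ofReal_im]
    ring
  · rw [G.F_circ h, G.F_circ h, G.Φ_circ h, add_sub_cancel_left, norm_mul,
      Complex.norm_exp_ofReal_mul_I, one_mul]

lemma V_Φ (x : ℝ) (z : ℂ) : G.V (G.Φ x • z) = (G.Φ x).a * G.V z := by
  have h1 := mul_ph ((x * G.ω : ℝ) * Complex.I)
  show Complex.I * G.ω * (Complex.exp ((x * G.ω : ℝ) * Complex.I) * z +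
    (x : ℂ) * G.β * ph ((x * G.ω : ℝ) * Complex.I)) + G.β =
    Complex.exp ((x * G.ω : ℝ) * Complex.I) * (Complex.I * G.ω * z + G.β)
  push_cast at h1 ⊢
  linear_combination G.β * h1

lemma V_Φ_ne {z : ℂ} (h : G.V z ≠ 0) (x : ℝ) : G.V (G.Φ x • z) ≠ 0 := by
  rw [G.V_Φ]
  exact mul_ne_zero (Mv.a_ne _) h

@[simp] lemma rev_Φ (x : ℝ) : G.rev.Φ x = G.Φ (-x) := by
  unfold Gen.Φ Gen.rev
  simp

@[simp] lemma rev_F (z : ℂ) : G.rev.F z = G.F z := by
  unfold Gen.F Gen.rev
  simp
  ring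

@[simp] lemma rev_V (z : ℂ) : G.rev.V z = -G.V z := by
  unfold Gen.V Gen.rev
  simp
  ring

@[simp] lemma flip_Φ (x : ℝ) : G.flip.Φ x = G.Φ x := rfl

@[simp] lemma flip_F (z : ℂ) : G.flip.F z = -G.F z := by
  unfold Gen.F Gen.flip
  ring

@[simp] lemma flip_V (z : ℂ) : G.flip.V z = G.V z := rfl

end Gen

end H231R2
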