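import Pool.Agent.H231R2.GenBasic

/-! # Leaves of one parameter groups of motions (task 2) -/

set_option autoImplicit false

open Filter Topology Metric Set
open scoped Pointwise ComplexConjugate

noncomputable section

namespace H231R2

private lemma trig_const {ω A B K c a b : ℝ} (hω : ω ≠ 0) (hab : a < b)
    (h : ∀ x ∈ Ioo a b, K + A * Real.cos (x * ω) + B * Real.sin (x * ω) = c) :
    A = 0 ∧ B = 0 ∧ K = c := by
  set x₀ := (a + b) / 2 with hx₀
  set h₀ := min ((b - a) / 4) (1 / |ω|) with hh₀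
  have hωpos : 0 < |ω| := abs_pos.2 hω
  have hpos : 0 < h₀ := lt_min (by linarith) (by positivity)
  have hle : h₀ ≤ (b - a) / 4 := min_le_left _ _
  have hle2 : h₀ * |ω| ≤ 1 := by
    have : h₀ ≤ 1 / |ω| := min_le_right _ _
    rwa [le_div_iff₀ hωpos] at this
  have e0 := h x₀ ⟨by linarith, by linarith⟩
  have e1 := h (x₀ + h₀) ⟨by linarith, by linarith⟩
  have e2 := h (x₀ - h₀) ⟨by linarith, by linarith⟩
  rw [add_mul, Real.cos_add, Real.sin_add] at e1
  rw [sub_mul, Real.cos_sub, Real.sin_sub] at e2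
  have hsin : Real.sin (h₀ * ω) ≠ 0 := by
    intro h0
    have h1 : Real.sin (h₀ * |ω|) = 0 := by
      rcases abs_choice ω with h2 | h2
      · rw [h2]; exact h0
      · rw [h2, mul_neg, Real.sin_neg, h0, neg_zero]
    have h2 : 0 < Real.sin (h₀ * |ω|) :=
      Real.sin_pos_of_pos_of_lt_pi (by positivity) (by linarith [Real.pi_gt_three])
    linarith
  have hcos : Real.cos (h₀ * ω) ≠ 1 := by
    intro h1
    apply hsin
    have h2 := Real.sin_sq_add_cos_sq (h₀ * ω)
    rw [h1] at h2
    have h3 : Real.sin (h₀ * ω) ^ 2 = 0 := by linarith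
    exact pow_eq_zero_iff (two_ne_zero) |>.1 h3
  have hQ : -A * Real.sin (x₀ * ω) + B * Real.cos (x₀ * ω) = 0 := by
    have h3 : Real.sin (h₀ * ω) * (-A * Real.sin (x₀ * ω) + B * Real.cos (x₀ * ω)) = 0 := by
      linear_combination (e1 - e2) / 2
    exact (mul_eq_zero.1 h3).resolve_left hsin
  have hP : A * Real.cos (x₀ * ω) + B * Real.sin (x₀ * ω) = 0 := by
    have h3 : (1 - Real.cos (h₀ * ω)) * (A * Real.cos (x₀ * ω) + B * Real.sin (x₀ * ω)) = 0 := by
      linear_combination e0 - (e1 + e2) / 2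
    exact (mul_eq_zero.1 h3).resolve_left (sub_ne_zero.2 hcos.symm)
  have hsc := Real.sin_sq_add_cos_sq (x₀ * ω)
  have hA : A = 0 := by
    linear_combination (-A) * hsc + Real.cos (x₀ * ω) * hP - Real.sin (x₀ * ω) * hQ
  have hB : B = 0 := by
    linear_combination (-B) * hsc + Real.sin (x₀ * ω) * hP + Real.cos (x₀ * ω) * hQ
  refine ⟨hA, hB, ?_⟩
  rw [hA, hB] at e0
  linarith

private lemma quad_const {A B K c a b : ℝ} (hab : a < b)
    (h : ∀ x ∈ Ioo a b, K + A * x + B * x ^ 2 = c) : A = 0 ∧ B = 0 ∧ K = c := by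
  set x₀ := (a + b) / 2 with hx₀
  set h₀ := (b - a) / 4 with hh₀
  have hpos : 0 < h₀ := by linarith
  have e0 := h x₀ ⟨by linarith, by linarith⟩
  have e1 := h (x₀ + h₀) ⟨by linarith, by linarith⟩
  have e2 := h (x₀ - h₀) ⟨by linarith, by linarith⟩
  have hB : B = 0 := by
    have h3 : h₀ ^ 2 * B = 0 := by linear_combination (e1 + e2 - 2 * e0) / 2
    exact (mul_eq_zero.1 h3).resolve_left (by positivity)
  rw [hB] at e0 e1 e2
  have hA : A = 0 := by
    have h3 : h₀ * A = 0 := by linear_combination (e1 - e2) / 2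
    exact (mul_eq_zero.1 h3).resolve_left hpos.ne'
  rw [hA] at e0
  exact ⟨hA, hB, by linarith⟩

private lemma normSq_formula (w : ℂ) : ‖w‖ ^ 2 = w.re ^ 2 + w.im ^ 2 := by
  rw [← Complex.normSq_eq_norm_sq, Complex.normSq_apply]; ring

namespace Gen
variable (G : Gen)

/-- centre of the rotations -/
private def cen (G : Gen) : ℂ := Complex.I * G.β / G.ω

private lemma V_cen (h : G.ω ≠ 0) (z : ℂ) : G.V z = Complex.I * G.ω * (z - cen G) := by
  have hC : (G.ω : ℂ) ≠ 0 := by exact_mod_cast h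
  unfold Gen.V cen
  field_simp
  linear_combination G.β * Complex.I_sq

private lemma ne_cen (h : G.ω ≠ 0) {z : ℂ} (hz : G.V z ≠ 0) : z - cen G ≠ 0 := by
  intro h0
  apply hz
  rw [G.V_cen h, h0, mul_zero]

private lemma V_lin (h : G.ω = 0) (z : ℂ) : G.V z = G.β := by
  simp [Gen.V, h]

private lemma beta_ne (h : G.ω = 0) : G.β ≠ 0 := by
  rcases G.hne with h1 | h1
  · exact absurd h h1
  · exact h1

/-- the time from `z` to `w` -/
private def tm (z w : ℂ) : ℝ :=
  if G.ω = 0 then (conj G.β * (w - z)).re / ‖G.β‖ ^ 2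
  else Complex.arg ((w - cen G) / (z - cen G)) / G.ω

private lemma real_multiple {β v : ℂ} (hβ : β ≠ 0) (h : (conj β * v).im = 0) :
    v = (((conj β * v).re / ‖β‖ ^ 2 : ℝ) : ℂ) * β := by
  have h1 : ((conj β * v).re : ℂ) = conj β * v := by
    apply Complex.ext
    · simp
    · rw [Complex.ofReal_im, h]
  have h2 : (‖β‖ : ℂ) ^ 2 = conj β * β := by
    rw [← Complex.normSq_eq_conj_mul_self, Complex.normSq_eq_norm_sq]
    push_cast
    rfl
  have h3 : conj β ≠ 0 := by simpa using hβ
  push_cast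
  rw [h1, h2]
  field_simp

private lemma exp_arg {q : ℂ} (hq : ‖q‖ = 1) : Complex.exp (Complex.arg q * Complex.I) = q := by
  have := Complex.norm_mul_exp_arg_mul_I q
  rwa [hq, Complex.ofReal_one, one_mul] at this

private lemma eq_tm {z w : ℂ} (hz : G.V z ≠ 0) (h : G.F w = G.F z) :
    w = G.Φ (G.tm z w) • z := by
  by_cases hω : G.ω = 0
  · have hβ := G.beta_ne hω
    have hκ := G.hκ
    rw [G.F_lin hω, G.F_lin hω] at h
    have h1 : (conj G.β * (w - z)).im = 0 := by
      have h2 := mul_left_cancel₀ (neg_ne_zero.2 hκ) h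
      rw [mul_sub, Complex.sub_im, h2, sub_self]
    have h2 := real_multiple hβ h1
    rw [G.Φ_lin hω, tm, if_pos hω, ← h2]
    ring
  · have hκ := G.hκ
    have hzc := G.ne_cen hω hz
    rw [G.F_circ hω, G.F_circ hω] at h
    have h1 : G.κ * G.ω / 2 ≠ 0 := by positivity
    have h2 := mul_left_cancel₀ h1 h
    have h3 : ‖w - cen G‖ = ‖z - cen G‖ := by
      have h5 : ‖w - cen G‖ ^ 2 = ‖z - cen G‖ ^ 2 := by
        unfold cen
        linarith
      exact (pow_left_inj₀ (norm_nonneg _) (norm_nonneg _) (by norm_num)).1 h5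
    have h4 : ‖(w - cen G) / (z - cen G)‖ = 1 := by
      rw [norm_div, h3, div_self (norm_ne_zero_iff.2 hzc)]
    rw [G.Φ_circ hω, tm, if_neg hω]
    have h6 : Complex.arg ((w - cen G) / (z - cen G)) / G.ω * G.ω =
        Complex.arg ((w - cen G) / (z - cen G)) := by field_simp
    rw [h6, exp_arg h4]
    have h7 : Complex.I * G.β / G.ω = cen G := rfl
    rw [h7, div_mul_cancel₀ _ hzc]
    ring

/-- Near a point which is not fixed, two points with the same value of `F` lie on the same orbit,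
with small time. -/
lemma leaf_local {z : ℂ} (hz : G.V z ≠ 0) {ε : ℝ} (hε : 0 < ε) :
    ∃ δ > 0, ∀ w ∈ ball z δ, ∀ w' ∈ ball z δ, G.F w = G.F w' →
      ∃ x : ℝ, |x| < ε ∧ w' = G.Φ x • w := by
  have htm : ContinuousAt (fun p : ℂ × ℂ => G.tm p.1 p.2) (z, z) := by
    by_cases hω : G.ω = 0
    · have : (fun p : ℂ × ℂ => G.tm p.1 p.2) =
          fun p => (conj G.β * (p.2 - p.1)).re / ‖G.β‖ ^ 2 := by
        funext p; rw [tm, if_pos hω]
      rw [this]
      apply Continuous.continuousAt
      refine Continuous.div_const ?_ _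
      exact Complex.continuous_re.comp (continuous_const.mul (continuous_snd.sub continuous_fst))
    · have : (fun p : ℂ × ℂ => G.tm p.1 p.2) =
          fun p => Complex.arg ((p.2 - cen G) / (p.1 - cen G)) / G.ω := by
        funext p; rw [tm, if_neg hω]
      rw [this]
      have hzc := G.ne_cen hω hz
      have h1 : ContinuousAt (fun p : ℂ × ℂ => (p.2 - cen G) / (p.1 - cen G)) (z, z) := by
        apply ContinuousAt.div
        · exact (continuous_snd.sub continuous_const).continuousAt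
        · exact (continuous_fst.sub continuous_const).continuousAt
        · exact hzc
      have h2 : ContinuousAt Complex.arg ((fun p : ℂ × ℂ => (p.2 - cen G) / (p.1 - cen G)) (z, z)) := by
        simp only
        rw [div_self hzc]
        exact Complex.continuousAt_arg (by simp [Complex.slitPlane])
      exact (ContinuousAt.comp (f := fun p : ℂ × ℂ => (p.2 - cen G) / (p.1 - cen G)) h2 h1).div_const _
  have htm0 : G.tm z z = 0 := by
    by_cases hω : G.ω = 0
    · rw [tm, if_pos hω]; simp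
    · rw [tm, if_neg hω, div_self (G.ne_cen hω hz)]; simp
  have hev1 : ∀ᶠ p in 𝓝 (z, z), |G.tm p.1 p.2| < ε := by
    have h1 : ∀ᶠ t in 𝓝 (0 : ℝ), |t| < ε := by
      have := ball_mem_nhds (0 : ℝ) hε
      filter_upwards [this] with t ht
      simpa using ht
    have h2 : Tendsto (fun p : ℂ × ℂ => G.tm p.1 p.2) (𝓝 (z, z)) (𝓝 0) := by
      have := htm.tendsto
      simpa only [htm0] using this
    exact h2.eventually h1
  have hev2 : ∀ᶠ p in 𝓝 (z, z), G.V p.1 ≠ 0 := by
    have h1 : ContinuousAt (fun p : ℂ × ℂ => G.V p.1) (z, z) :=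
      (G.continuous_V.comp continuous_fst).continuousAt
    exact h1.eventually_ne hz
  have hev := hev1.and hev2
  rw [Metric.eventually_nhds_iff] at hev
  obtain ⟨δ, hδ, hev⟩ := hev
  refine ⟨δ, hδ, ?_⟩
  intro w hw w' hw' hF
  have hd : dist (w, w') (z, z) < δ := by
    rw [Prod.dist_eq]
    exact max_lt hw hw'
  obtain ⟨h1, h2⟩ := hev hd
  exact ⟨G.tm w w', h1, G.eq_tm h2 hF.symm⟩

/-- The whole level set is one orbit. -/
lemma leaf_global {z w : ℂ} (hz : G.V z ≠ 0) (h : G.F w = G.F z) : ∃ x : ℝ, w = G.Φ x • z :=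
  ⟨G.tm z w, G.eq_tm hz h⟩

private lemma F_normal (z : ℂ) (t : ℝ) :
    G.F (z + t * (Complex.I * G.V z)) = G.F z - G.κ * ‖G.V z‖ ^ 2 * (t - G.ω / 2 * t ^ 2) := by
  unfold Gen.F
  rw [normSq_formula, normSq_formula, normSq_formula]
  simp only [Gen.V, Complex.mul_im, Complex.conj_re, Complex.conj_im, Complex.add_re,
    Complex.add_im, Complex.mul_re, Complex.I_re, Complex.I_im, Complex.ofReal_re,
    Complex.ofReal_im]
  ring

/-- Values of `F` near `F z` are attained near `z`. -/
lemma exists_value {z : ℂ} (hz : G.V z ≠ 0) {ε : ℝ} (hε : 0 < ε) :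
    ∃ δ > 0, ∀ c, |c - G.F z| < δ → ∃ w ∈ ball z ε, G.F w = c := by
  have hκ := G.hκ
  have hVpos : 0 < ‖G.V z‖ := norm_pos_iff.2 hz
  set t₀ : ℝ := min (ε / (2 * ‖G.V z‖)) (1 / (|G.ω| + 1)) with ht₀
  have ht₀pos : 0 < t₀ := by
    apply lt_min
    · positivity
    · positivity
  have ht1 : t₀ * ‖G.V z‖ < ε := by
    have h1 : t₀ ≤ ε / (2 * ‖G.V z‖) := min_le_left _ _
    rw [le_div_iff₀ (by positivity)] at h1
    nlinarith
  have ht2 : t₀ * |G.ω| ≤ 1 := by
    have h1 : t₀ ≤ 1 / (|G.ω| + 1) := min_le_right _ _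
    rw [le_div_iff₀ (by positivity)] at h1
    nlinarith
  have hωle : G.ω * t₀ ≤ 1 := by
    have := le_abs_self G.ω
    nlinarith
  have hωge : -1 ≤ G.ω * t₀ := by
    have := neg_abs_le G.ω
    nlinarith
  refine ⟨|G.κ| * ‖G.V z‖ ^ 2 * (t₀ / 2), by positivity, ?_⟩
  intro c hc
  -- solve `t - ω/2 t^2 = s`
  set s : ℝ := (G.F z - c) / (G.κ * ‖G.V z‖ ^ 2) with hs
  have hs1 : |s| ≤ t₀ / 2 := by
    rw [hs, abs_div, abs_mul, abs_of_nonneg (by positivity : (0 : ℝ) ≤ ‖G.V z‖ ^ 2),
      div_le_iff₀ (by positivity)]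
    rw [abs_sub_comm] at hc
    linarith
  have hcont : ContinuousOn (fun t : ℝ => t - G.ω / 2 * t ^ 2) (Icc (-t₀) t₀) := by
    fun_prop
  have hivt := intermediate_value_Icc (by linarith : -t₀ ≤ t₀) hcont
  have hsI : s ∈ Icc (-t₀ - G.ω / 2 * (-t₀) ^ 2) (t₀ - G.ω / 2 * t₀ ^ 2) := by
    rw [abs_le] at hs1
    constructor
    · nlinarith
    · nlinarith
  obtain ⟨t, ht, hts⟩ := hivt hsI
  simp only at hts
  refine ⟨z + t * (Complex.I * G.V z), ?_, ?_⟩
  · rw [mem_ball, dist_eq_norm, add_sub_cancel_left, norm_mul, norm_mul, Complex.norm_I, one_mul,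
      Complex.norm_real, Real.norm_eq_abs]
    have : |t| ≤ t₀ := abs_le.2 ht
    nlinarith
  · rw [F_normal, hts, hs]
    field_simp
    ring

lemma exists_gt {z : ℂ} (hz : G.V z ≠ 0) {ε : ℝ} (hε : 0 < ε) :
    ∃ w ∈ ball z ε, G.F z < G.F w := by
  obtain ⟨δ, hδ, h⟩ := G.exists_value hz hε
  obtain ⟨w, hw, hFw⟩ := h (G.F z + δ / 2) (by
    rw [add_sub_cancel_left, abs_of_pos (by positivity)]; linarith)
  exact ⟨w, hw, by rw [hFw]; linarith⟩

lemma exists_lt {z : ℂ} (hz : G.V z ≠ 0) {ε : ℝ} (hε : 0 < ε) :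
    ∃ w ∈ ball z ε, G.F w < G.F z := by
  obtain ⟨δ, hδ, h⟩ := G.exists_value hz hε
  obtain ⟨w, hw, hFw⟩ := h (G.F z - δ / 2) (by
    rw [sub_sub_cancel_left, abs_neg, abs_of_pos (by positivity)]; linarith)
  exact ⟨w, hw, by rw [hFw]; linarith⟩

lemma Φ_inj_near : ∃ ε > 0, ∀ x y : ℝ, |x| < ε → |y| < ε → G.Φ x = G.Φ y → x = y := by
  refine ⟨1 / (2 * (|G.ω| + 1)), by positivity, ?_⟩
  intro x y hx hy h
  have h1 : G.Φ (x - y) = 1 := by
    rw [sub_eq_add_neg, G.Φ_add, G.Φ_neg, h, mul_inv_cancel]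
  have h2 : |(x - y) * G.ω| < 1 := by
    rw [abs_mul]
    rw [lt_div_iff₀ (by positivity)] at hx hy
    have h3 : |x - y| ≤ |x| + |y| := abs_sub _ _
    have h4 := abs_nonneg G.ω
    have h5 : |x - y| * |G.ω| ≤ (|x| + |y|) * |G.ω| := mul_le_mul_of_nonneg_right h3 h4
    have h6 := abs_nonneg x
    have h7 := abs_nonneg y
    nlinarith
  obtain ⟨h3, h4⟩ := Ex_eq_one_imp h1 h2
  rcases G.hne with h5 | h5
  · have := (mul_eq_zero.1 h3).resolve_right h5
    linarith
  · have := (mul_eq_zero.1 h4).resolve_right h5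
    have h6 : x - y = 0 := by exact_mod_cast this
    linarith

lemma orbit_inj_near {p : ℂ} (hp : G.V p ≠ 0) :
    ∃ ε > 0, ∀ x y : ℝ, |x| < ε → |y| < ε → G.Φ x • p = G.Φ y • p → x = y := by
  obtain ⟨ε, hε, h⟩ := G.Φ_inj_near
  refine ⟨ε, hε, ?_⟩
  intro x y hx hy hxy
  apply h x y hx hy
  have h1 := congrArg G.V hxy
  rw [G.V_Φ, G.V_Φ] at h1
  have ha : (G.Φ x).a = (G.Φ y).a := mul_right_cancel₀ hp h1
  have h2 : (G.Φ x).a * p + (G.Φ x).b = (G.Φ y).a * p + (G.Φ y).b := hxy
  rw [ha] at h2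
  exact Mv.ext ha (add_left_cancel h2)

/-- `F ∘ g - F` is an affine function -/
private lemma F_smul (g : Mv) (z : ℂ) :
    G.F (g • z) = G.F z + ((G.κ : ℂ) * (G.ω * g.a * conj g.b + Complex.I * conj G.β * (g.a - 1)) * z).re
      + G.F g.b := by
  have h1 : g.a.re ^ 2 + g.a.im ^ 2 = 1 := by
    rw [← normSq_formula, g.ha]; norm_num
  have h2 : g • z = g.a * z + g.b := rfl
  unfold Gen.F
  rw [h2, normSq_formula, normSq_formula, normSq_formula]
  simp only [Complex.mul_im, Complex.conj_re, Complex.conj_im, Complex.add_re,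
    Complex.add_im, Complex.mul_re, Complex.I_re, Complex.I_im, Complex.ofReal_re,
    Complex.ofReal_im, Complex.sub_re, Complex.sub_im, Complex.one_re, Complex.one_im]
  linear_combination (G.κ * G.ω / 2 * (z.re ^ 2 + z.im ^ 2)) * h1

private lemma re_exp_mul (θ : ℝ) (q : ℂ) :
    (q * Complex.exp (θ * Complex.I)).re = q.re * Real.cos θ + (-q.im) * Real.sin θ := by
  rw [Complex.mul_re, Complex.exp_ofReal_mul_I_re, Complex.exp_ofReal_mul_I_im]
  ring

/-- Motions tending to `1` which map a piece of the leaf through `p` to the leaf through `p`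
belong to the one parameter group of `G`. -/
lemma stab {p : ℂ} (hp : G.V p ≠ 0) {δ : ℝ} (hδ : 0 < δ) (U : Ultrafilter ℕ) (g : ℕ → Mv)
    (hg : Tendsto g U (𝓝 1))
    (h : ∀ᶠ n in (U : Filter ℕ), ∀ x ∈ Ioo (-δ) δ, G.F (g n • G.Φ x • p) = G.F p) :
    ∃ u : ℕ → ℝ, Tendsto u U (𝓝 0) ∧ ∀ᶠ n in (U : Filter ℕ), g n = G.Φ (u n) := by
  have hκ := G.hκ
  obtain ⟨ha, hb⟩ := Mv.tendsto_iff.1 hg
  simp only [Mv.one_a, Mv.one_b] at ha hb
  by_cases hω : G.ω = 0
  · have hβ := G.beta_ne hω
    refine ⟨fun n => (conj G.β * (g n).b).re / ‖G.β‖ ^ 2, ?_, ?_⟩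
    · have h1 : Continuous (fun b : ℂ => (conj G.β * b).re / ‖G.β‖ ^ 2) :=
        (Complex.continuous_re.comp (continuous_const.mul continuous_id)).div_const _
      have h2 := (h1.tendsto 0).comp hb
      simp only [mul_zero, Complex.zero_re, zero_div] at h2
      exact h2
    · have hare : ∀ᶠ n in (U : Filter ℕ), 0 < (g n).a.re := by
        have h1 := (Complex.continuous_re.tendsto 1).comp ha
        rw [Complex.one_re] at h1
        exact h1.eventually (lt_mem_nhds one_pos)
      filter_upwards [h, hare] with n hn hre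
      have hq := quad_const (K := G.F p + ((G.κ : ℂ) * (G.ω * (g n).a * conj (g n).b +
          Complex.I * conj G.β * ((g n).a - 1)) * p).re + G.F (g n).b)
        (A := ((G.κ : ℂ) * (G.ω * (g n).a * conj (g n).b +
          Complex.I * conj G.β * ((g n).a - 1)) * G.β).re) (B := 0) (c := G.F p)
        (a := -δ) (b := δ) (by linarith) (by
          intro x hx
          have h1 := hn x hx
          rw [G.F_smul, G.F_Φ, G.Φ_lin hω, mul_add, Complex.add_re] at h1
          have h2 : ((G.κ : ℂ) * (G.ω * (g n).a * conj (g n).b +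
            Complex.I * conj G.β * ((g n).a - 1)) * (x * G.β)).re =
            ((G.κ : ℂ) * (G.ω * (g n).a * conj (g n).b +
            Complex.I * conj G.β * ((g n).a - 1)) * G.β).re * x := by
            have h3 : (G.κ : ℂ) * (G.ω * (g n).a * conj (g n).b +
              Complex.I * conj G.β * ((g n).a - 1)) * (x * G.β) =
              ((G.κ : ℂ) * (G.ω * (g n).a * conj (g n).b +
              Complex.I * conj G.β * ((g n).a - 1)) * G.β) * (x : ℝ) := by ring
            rw [h3, Complex.re_mul_ofReal]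
          rw [h2] at h1
          linarith)
      obtain ⟨hA, -, hK⟩ := hq
      have him : (g n).a.im = 0 := by
        have h1 : ((G.κ : ℂ) * (G.ω * (g n).a * conj (g n).b +
          Complex.I * conj G.β * ((g n).a - 1)) * G.β).re =
          -(G.κ * (G.β.re ^ 2 + G.β.im ^ 2)) * (g n).a.im := by
          rw [hω]
          simp only [Complex.mul_im, Complex.conj_re, Complex.conj_im, Complex.add_re,
            Complex.add_im, Complex.mul_re, Complex.I_re, Complex.I_im, Complex.ofReal_re,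
            Complex.ofReal_im, Complex.sub_re, Complex.sub_im, Complex.one_re, Complex.one_im]
          ring
        rw [h1] at hA
        have h2 : G.β.re ^ 2 + G.β.im ^ 2 ≠ 0 := by
          rw [← normSq_formula]
          exact pow_ne_zero 2 (norm_ne_zero_iff.2 hβ)
        exact (mul_eq_zero.1 hA).resolve_left (neg_ne_zero.2 (mul_ne_zero hκ h2))
      have ha1 : (g n).a = 1 := by
        have h1 : (g n).a.re ^ 2 + (g n).a.im ^ 2 = 1 := by
          rw [← normSq_formula, (g n).ha]; norm_num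
        rw [him] at h1
        have h2 : (g n).a.re = 1 := by nlinarith
        exact Complex.ext (by simpa using h2) (by simpa using him)
      have hb0 : (conj G.β * (g n).b).im = 0 := by
        have h1 : G.F (g n).b = 0 := by
          rw [ha1, hω] at hK
          simp only [Complex.ofReal_zero, zero_mul, sub_self, mul_zero, add_zero,
            Complex.zero_re] at hK
          linarith
        rw [G.F_lin hω] at h1
        exact (mul_eq_zero.1 h1).resolve_left (neg_ne_zero.2 hκ)
      rw [G.Φ_lin' hω, ← real_multiple hβ hb0]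
      exact Mv.eq_tr_of_a _ ha1
  · have hωC : (G.ω : ℂ) ≠ 0 := by exact_mod_cast hω
    have hpc := G.ne_cen hω hp
    refine ⟨fun n => Complex.arg (g n).a / G.ω, ?_, ?_⟩
    · have h1 : ContinuousAt Complex.arg 1 := Complex.continuousAt_arg (by simp [Complex.slitPlane])
      have h2 := (h1.tendsto.comp ha).div_const G.ω
      rw [Complex.arg_one, zero_div] at h2
      exact h2
    · filter_upwards [h] with n hn
      set lam : ℂ := (G.κ : ℂ) * (G.ω * (g n).a * conj (g n).b +
          Complex.I * conj G.β * ((g n).a - 1)) with hlam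
      have hq := trig_const (K := G.F p + (lam * cen G).re + G.F (g n).b)
        (A := (lam * (p - cen G)).re) (B := -(lam * (p - cen G)).im) (c := G.F p)
        (a := -δ) (b := δ) hω (by linarith) (by
          intro x hx
          have h1 := hn x hx
          rw [G.F_smul, G.F_Φ, G.Φ_circ hω, ← hlam] at h1
          have h2 : (lam * (Complex.I * G.β / G.ω + Complex.exp ((x * G.ω : ℝ) * Complex.I) *
              (p - Complex.I * G.β / G.ω))).re = (lam * cen G).re +
              ((lam * (p - cen G)).re * Real.cos (x * G.ω) +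
                -(lam * (p - cen G)).im * Real.sin (x * G.ω)) := by
            rw [← re_exp_mul, ← Complex.add_re]
            congr 1
            unfold cen
            ring
          rw [h2] at h1
          linarith)
      obtain ⟨hA, hB, -⟩ := hq
      have hl0 : lam * (p - cen G) = 0 := by
        apply Complex.ext
        · simpa using hA
        · have : (lam * (p - cen G)).im = 0 := by linarith
          simpa using this
      have hl : lam = 0 := (mul_eq_zero.1 hl0).resolve_right hpc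
      have hl' : G.ω * (g n).a * conj (g n).b + Complex.I * conj G.β * ((g n).a - 1) = 0 := by
        rw [hlam] at hl
        have : (G.κ : ℂ) ≠ 0 := by exact_mod_cast hκ
        exact (mul_eq_zero.1 hl).resolve_left this
      -- conjugate
      have hl2 := congrArg (starRingEnd ℂ) hl'
      simp only [map_add, map_mul, map_sub, Complex.conj_ofReal, Complex.conj_conj,
        Complex.conj_I, map_one, map_zero] at hl2
      have haa := (g n).a_mul_conj
      -- `b = c (1 - a)`
      have hb1 : (g n).b = cen G * (1 - (g n).a) := by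
        have h1 : (G.ω : ℂ) * (g n).b = Complex.I * G.β * (1 - (g n).a) := by
          linear_combination (g n).a * hl2 - (G.ω * (g n).b - Complex.I * G.β) * haa
        unfold cen
        field_simp
        linear_combination h1
      have hexp : Complex.exp ((Complex.arg (g n).a / G.ω * G.ω : ℝ) * Complex.I) = (g n).a := by
        rw [div_mul_cancel₀ _ hω]
        exact exp_arg (g n).ha
      apply Mv.ext
      · show (g n).a = Complex.exp ((Complex.arg (g n).a / G.ω * G.ω : ℝ) * Complex.I)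
        exact hexp.symm
      · have h1 := G.Φ_circ hω (Complex.arg (g n).a / G.ω) 0
        rw [hexp] at h1
        have h2 : G.Φ (Complex.arg (g n).a / G.ω) • (0 : ℂ) = (G.Φ (Complex.arg (g n).a / G.ω)).b := by
          rw [Mv.smul_def, mul_zero, zero_add]
        rw [← h2, h1, hb1]
        unfold cen
        ring

private lemma sim_of_scale {G G' : Gen} {m : ℝ} (hm : m ≠ 0) (h1 : G'.ω = m * G.ω)
    (h2 : G'.β = m * G.β) : G.Sim G' := by
  have hκ := G.hκ
  have hκ' := G'.hκ
  refine ⟨G'.κ * m / G.κ, by positivity, ?_⟩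
  intro z w
  unfold Gen.F
  rw [h1, h2]
  have h3 : ∀ z : ℂ, (conj ((m : ℂ) * G.β) * z).im = m * (conj G.β * z).im := by
    intro z
    rw [map_mul, Complex.conj_ofReal, mul_assoc, Complex.im_ofReal_mul]
  rw [h3, h3]
  field_simp

private lemma scale_of_sim {G G' : Gen} (h : G.Sim G') :
    ∃ m : ℝ, m ≠ 0 ∧ G'.ω = m * G.ω ∧ G'.β = m * G.β := by
  obtain ⟨l, hl, h⟩ := h
  have hκ := G.hκ
  have hκ' := G'.hκ
  have h0 : ∀ z, G'.F z = l * G.F z := by
    intro z
    have h1 := h z 0
    have h2 : ∀ G : Gen, G.F 0 = 0 := by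
      intro G
      unfold Gen.F
      simp
    rw [h2, h2, sub_zero, sub_zero] at h1
    exact h1
  have e1 := h0 1
  have e2 := h0 (-1)
  have e3 := h0 Complex.I
  unfold Gen.F at e1 e2 e3
  simp only [norm_one, norm_neg, Complex.norm_I, one_pow, mul_one, mul_neg, Complex.neg_im,
    Complex.conj_im, Complex.mul_im, Complex.conj_re, Complex.I_re, Complex.I_im, mul_zero,
    add_zero] at e1 e2 e3
  refine ⟨l * G.κ / G'.κ, by positivity, ?_, ?_⟩
  · field_simp
    linarith
  · have h5 : G'.ω * G'.κ = l * G.κ * G.ω := by linarith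
    apply Complex.ext
    · rw [Complex.re_ofReal_mul]
      field_simp
      linarith
    · rw [Complex.im_ofReal_mul]
      field_simp
      linarith

private lemma a_eq_one_of_ω {G : Gen} {x : ℝ} (h : G.ω = 0) : (G.Φ x).a = 1 := by
  rw [G.Φ_lin' h, Mv.tr_a]

private lemma a_ne_one {G : Gen} {x : ℝ} (h1 : G.Φ x ≠ 1) (h : G.ω ≠ 0) : (G.Φ x).a ≠ 1 := by
  intro ha
  apply h1
  have ha' : Complex.exp ((x * G.ω : ℝ) * Complex.I) = 1 := ha
  apply Mv.ext
  · exact ha
  · have h2 := G.Φ_circ h x 0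
    rw [Mv.smul_def, mul_zero, zero_add, ha'] at h2
    rw [h2, Mv.one_b]
    ring

private lemma fix_cen {G : Gen} {x : ℝ} (h : G.ω ≠ 0) :
    (G.Φ x).a * cen G + (G.Φ x).b = cen G := by
  have h2 := G.Φ_circ h x (cen G)
  rw [Mv.smul_def] at h2
  rw [h2]
  unfold cen
  ring

private lemma sim_of_cen {G G' : Gen} (h : G.ω ≠ 0) (h' : G'.ω ≠ 0) (hc : cen G = cen G') :
    G.Sim G' := by
  have hC : (G.ω : ℂ) ≠ 0 := by exact_mod_cast h
  have hC' : (G'.ω : ℂ) ≠ 0 := by exact_mod_cast h'
  refine sim_of_scale (m := G'.ω / G.ω) (by positivity) (by field_simp) ?_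
  unfold cen at hc
  push_cast
  have h3 : Complex.I * (G'.β * G.ω) = Complex.I * (G'.ω * G.β) := by
    field_simp at hc
    linear_combination (-Complex.I) * hc
  have h4 := mul_left_cancel₀ Complex.I_ne_zero h3
  field_simp
  linear_combination h4

/-- A nontrivial motion determines the leaves of its one parameter group. -/
lemma sim_of_Φ_eq {G G' : Gen} {x y : ℝ} (h : G.Φ x = G'.Φ y) (h1 : G.Φ x ≠ 1) : G.Sim G' := by
  have h1' : G'.Φ y ≠ 1 := by rw [← h]; exact h1
  by_cases hω : G.ω = 0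
  · have hω' : G'.ω = 0 := by
      by_contra hcon
      have h2 := a_ne_one h1' hcon
      rw [← h, a_eq_one_of_ω hω] at h2
      exact h2 rfl
    rw [G.Φ_lin' hω] at h h1
    rw [G'.Φ_lin' hω'] at h h1'
    have h2 : (x : ℂ) * G.β = y * G'.β := congrArg Mv.b h
    have hx : x ≠ 0 := by
      rintro rfl
      simp at h1
    have hy : y ≠ 0 := by
      rintro rfl
      simp at h1'
    have hyC : (y : ℂ) ≠ 0 := by exact_mod_cast hy
    refine sim_of_scale (m := x / y) (by positivity) (by rw [hω, hω', mul_zero]) ?_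
    push_cast
    field_simp
    linear_combination (-1 : ℂ) * h2
  · have hω' : G'.ω ≠ 0 := by
      intro hcon
      have h2 := a_ne_one h1 hω
      rw [h, a_eq_one_of_ω hcon] at h2
      exact h2 rfl
    apply sim_of_cen hω hω'
    have e1 := fix_cen (x := x) hω
    have e2 := fix_cen (x := y) hω'
    rw [← h] at e2
    have e3 : ((G.Φ x).a - 1) * (cen G - cen G') = 0 := by linear_combination e1 - e2
    have e4 := (mul_eq_zero.1 e3).resolve_left (sub_ne_zero.2 (a_ne_one h1 hω))
    exact sub_eq_zero.1 e4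

/-- moreover the times are then proportional near `0` -/
lemma sim_scale {G G' : Gen} (h : G.Sim G') : ∃ l : ℝ, l ≠ 0 ∧ ∀ x, G.Φ x = G'.Φ (l * x) := by
  obtain ⟨m, hm, h1, h2⟩ := scale_of_sim h
  refine ⟨m⁻¹, inv_ne_zero hm, ?_⟩
  intro x
  unfold Gen.Φ
  rw [h1, h2]
  have hmC : (m : ℂ) ≠ 0 := by exact_mod_cast hm
  congr 1
  · field_simp
  · push_cast
    field_simp

lemma Sim.symm {G G' : Gen} (h : G.Sim G') : G'.Sim G := by
  obtain ⟨l, hl, h⟩ := h
  refine ⟨l⁻¹, inv_ne_zero hl, ?_⟩
  intro z w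
  rw [h z w, ← mul_assoc, inv_mul_cancel₀ hl, one_mul]

lemma Sim.V_ne {G G' : Gen} (h : G.Sim G') {z : ℂ} (hz : G.V z ≠ 0) : G'.V z ≠ 0 := by
  obtain ⟨m, hm, h1, h2⟩ := scale_of_sim h
  have h3 : G'.V z = m * G.V z := by
    unfold Gen.V
    rw [h1, h2]
    push_cast
    ring
  rw [h3]
  have hmC : (m : ℂ) ≠ 0 := by exact_mod_cast hm
  exact mul_ne_zero hmC hz

/-- value of `G1.F` at `A + e B`, `‖e‖ = 1` -/
private lemma F_add_unit (G1 : Gen) (A B e : ℂ) (he : ‖e‖ = 1) :
    G1.F (A + e * B) = G1.κ * (G1.ω / 2 * (‖A‖ ^ 2 + ‖B‖ ^ 2) - (conj G1.β * A).im) +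
      ((G1.κ : ℂ) * (G1.ω * conj A + Complex.I * conj G1.β) * B * e).re := by
  have h1 : e.re ^ 2 + e.im ^ 2 = 1 := by
    rw [← normSq_formula, he]; norm_num
  unfold Gen.F
  rw [normSq_formula, normSq_formula, normSq_formula]
  simp only [Complex.mul_im, Complex.conj_re, Complex.conj_im, Complex.add_re,
    Complex.add_im, Complex.mul_re, Complex.I_re, Complex.I_im, Complex.ofReal_re,
    Complex.ofReal_im]
  linear_combination (G1.κ * G1.ω / 2 * (B.re ^ 2 + B.im ^ 2)) * h1

private lemma F_add_real (G1 : Gen) (A B : ℂ) (x : ℝ) :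
    G1.F (A + x * B) = G1.F A + ((G1.κ : ℂ) * (G1.ω * conj A + Complex.I * conj G1.β) * B).re * x
      + G1.κ * G1.ω / 2 * ‖B‖ ^ 2 * x ^ 2 := by
  unfold Gen.F
  rw [normSq_formula, normSq_formula, normSq_formula]
  simp only [Complex.mul_im, Complex.conj_re, Complex.conj_im, Complex.add_re,
    Complex.add_im, Complex.mul_re, Complex.I_re, Complex.I_im, Complex.ofReal_re,
    Complex.ofReal_im]
  ring

/-- A first integral which is constant on an interval of (a moved copy of) an orbit is constant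
on the whole of it. -/
lemma const_extend (G G1 : Gen) (g : Mv) (p : ℂ) {a b c : ℝ} (hab : a < b)
    (h : ∀ x ∈ Ioo a b, G1.F (g • G.Φ x • p) = c) : ∀ x, G1.F (g • G.Φ x • p) = c := by
  by_cases hω : G.ω = 0
  · have key : ∀ x : ℝ, g • G.Φ x • p = (g.a * p + g.b) + x * (g.a * G.β) := by
      intro x
      rw [G.Φ_lin hω, Mv.smul_def]
      ring
    obtain ⟨hA, hB, hK⟩ := quad_const hab (fun x hx => by
      have := h x hx
      rw [key, F_add_real] at this
      exact this)
    intro x
    rw [key, F_add_real, hA, hB, hK]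
    ring
  · have key : ∀ x : ℝ, g • G.Φ x • p = (g.a * cen G + g.b) +
        Complex.exp ((x * G.ω : ℝ) * Complex.I) * (g.a * (p - cen G)) := by
      intro x
      rw [G.Φ_circ hω, Mv.smul_def]
      unfold cen
      ring
    have key2 : ∀ x : ℝ, G1.F (g • G.Φ x • p) = G1.κ * (G1.ω / 2 * (‖g.a * cen G + g.b‖ ^ 2 +
        ‖g.a * (p - cen G)‖ ^ 2) - (conj G1.β * (g.a * cen G + g.b)).im) +
        ((G1.κ : ℂ) * (G1.ω * conj (g.a * cen G + g.b) + Complex.I * conj G1.β) *
          (g.a * (p - cen G))).re * Real.cos (x * G.ω) +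
        -((G1.κ : ℂ) * (G1.ω * conj (g.a * cen G + g.b) + Complex.I * conj G1.β) *
          (g.a * (p - cen G))).im * Real.sin (x * G.ω) := by
      intro x
      rw [key, F_add_unit _ _ _ _ (Complex.norm_exp_ofReal_mul_I _), re_exp_mul]
      ring
    obtain ⟨hA, hB, hK⟩ := trig_const hω hab (fun x hx => by
      have := h x hx
      rw [key2] at this
      exact this)
    intro x
    rw [key2, hA, hB, hK]
    ring

lemma sim_of_const {G G1 : Gen} {p : ℂ} (hp : G.V p ≠ 0) {δ : ℝ} (hδ : 0 < δ)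
    (h : ∀ x ∈ Ioo (-δ) δ, G1.F (G.Φ x • p) = G1.F p) : G.Sim G1 := by
  have hκ1 := G1.hκ
  by_cases hω : G.ω = 0
  · have hβ := G.beta_ne hω
    obtain ⟨hA, hB, -⟩ := quad_const (a := -δ) (b := δ) (by linarith) (fun x hx => by
      have := h x hx
      rw [G.Φ_lin hω, F_add_real] at this
      exact this)
    have hω1 : G1.ω = 0 := by
      have h1 : ‖G.β‖ ^ 2 ≠ 0 := pow_ne_zero 2 (norm_ne_zero_iff.2 hβ)
      have h2 := (mul_eq_zero.1 hB).resolve_right h1
      have h3 : G1.κ * G1.ω = 0 := by linarith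
      exact (mul_eq_zero.1 h3).resolve_left hκ1
    have him : (conj G.β * G1.β).im = 0 := by
      rw [hω1] at hA
      simp only [Complex.mul_im, Complex.conj_re, Complex.conj_im, Complex.add_re,
        Complex.add_im, Complex.mul_re, Complex.I_re, Complex.I_im, Complex.ofReal_re,
        Complex.ofReal_im] at hA ⊢
      have h3 : G1.κ * (G.β.re * G1.β.im + -G.β.im * G1.β.re) = 0 := by linarith
      exact (mul_eq_zero.1 h3).resolve_left hκ1
    have h4 := real_multiple hβ him
    have hβ1 := G1.beta_ne hω1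
    refine sim_of_scale (m := (conj G.β * G1.β).re / ‖G.β‖ ^ 2) ?_ (by rw [hω, hω1, mul_zero]) h4
    intro h0
    rw [h0] at h4
    simp at h4
    exact hβ1 h4
  · have key2 : ∀ x : ℝ, G1.F (G.Φ x • p) = G1.κ * (G1.ω / 2 * (‖cen G‖ ^ 2 +
        ‖p - cen G‖ ^ 2) - (conj G1.β * cen G).im) +
        ((G1.κ : ℂ) * (G1.ω * conj (cen G) + Complex.I * conj G1.β) * (p - cen G)).re
          * Real.cos (x * G.ω) +
        -((G1.κ : ℂ) * (G1.ω * conj (cen G) + Complex.I * conj G1.β) * (p - cen G)).im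
          * Real.sin (x * G.ω) := by
      intro x
      rw [G.Φ_circ hω]
      have h7 : Complex.I * G.β / G.ω = cen G := rfl
      rw [h7, F_add_unit _ _ _ _ (Complex.norm_exp_ofReal_mul_I _), re_exp_mul]
      ring
    obtain ⟨hA, hB, -⟩ := trig_const (a := -δ) (b := δ) hω (by linarith) (fun x hx => by
      have := h x hx
      rw [key2] at this
      exact this)
    have h0 : (G1.κ : ℂ) * (G1.ω * conj (cen G) + Complex.I * conj G1.β) * (p - cen G) = 0 := by
      apply Complex.ext
      · simpa using hA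
      · have h1 : ((G1.κ : ℂ) * (G1.ω * conj (cen G) + Complex.I * conj G1.β) *
          (p - cen G)).im = 0 := by linarith
        rw [h1, Complex.zero_im]
    have h1 := (mul_eq_zero.1 h0).resolve_right (G.ne_cen hω hp)
    have h2 : (G1.κ : ℂ) ≠ 0 := by exact_mod_cast hκ1
    have h3 := (mul_eq_zero.1 h1).resolve_left h2
    have h4 := congrArg (starRingEnd ℂ) h3
    simp only [map_add, map_mul, Complex.conj_ofReal, Complex.conj_conj,
      Complex.conj_I, map_zero] at h4
    have hω1 : G1.ω ≠ 0 := by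
      intro h5
      rw [h5] at h4
      have h6 : G1.β = 0 := by
        have h7 : -Complex.I * G1.β = 0 := by simpa using h4
        exact (mul_eq_zero.1 h7).resolve_left (neg_ne_zero.2 Complex.I_ne_zero)
      exact G1.beta_ne h5 h6
    apply sim_of_cen hω hω1
    have hC1 : (G1.ω : ℂ) ≠ 0 := by exact_mod_cast hω1
    have h5 : cen G1 = Complex.I * G1.β / G1.ω := rfl
    rw [h5, eq_div_iff hC1]
    linear_combination h4

end Gen

end H231R2
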