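import Pool.Agent.H231R2.FlexBasic

/-! # Ultralimits of a periodic tiling along a direction (task 7) -/

set_option autoImplicit false

open Filter Topology Metric Set
open scoped Pointwise ComplexConjugate

noncomputable section

namespace H231R2

/-- limit of the tilings `T - n d` along an ultrafilter, with the symmetry induced by the
period `v` of `T` -/
structure LimSys {N : ℕ} {P : Fin N → Set ℂ} (T : Tiling P) (v d : ℂ) extends FlexSys where
  hU : (U : Filter ℕ) ≤ atTop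
  idx : J → Fin N
  gl : J → Mv
  A_eq : ∀ t, A t = gl t • P (idx t)
  /-- the tiles `m n t • A t` are tiles of `T - n d` -/
  src : ℕ → J → T.J
  src_eq : ∀ t, ∀ᶠ n : ℕ in (U : Filter ℕ), m n t • A t = Mv.tr (-((n : ℂ) * d)) • T.tile (src n t)
  /-- every sequence of tiles of `T - n d` which stays in a bounded region is of this form -/
  tight : ∀ (R : ℝ) (τ : ℕ → T.J),
    (∀ᶠ n : ℕ in (U : Filter ℕ), ((Mv.tr (-((n : ℂ) * d)) • T.tile (τ n)) ∩ closedBall 0 R).Nonempty) →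
    ∃ t, ∀ᶠ n : ℕ in (U : Filter ℕ), src n t = τ n ∧
      m n t • A t = Mv.tr (-((n : ℂ) * d)) • T.tile (τ n)
  σ : Equiv.Perm J
  σ_idx : ∀ t, idx (σ t) = idx t
  σ_gl : ∀ t, gl (σ t) = Mv.tr v * gl t
  σ_m : ∀ t, ∀ᶠ n in (U : Filter ℕ), m n (σ t) = Mv.tr v * m n t * (Mv.tr v)⁻¹

namespace LimC
variable {N : ℕ} {P : Fin N → Set ℂ} (T : Tiling P) (d : ℂ) (U : Ultrafilter ℕ)

/-- the motion of the tile `τ n` of `T - n d` -/
def mot (τ : ℕ → T.J) (n : ℕ) : Mv := Mv.tr (-((n : ℂ) * d)) * T.g (τ n)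

/-- bounded sequences of tiles -/
def Bd (τ : ℕ → T.J) : Prop := ∃ R : ℝ, ∀ᶠ n in (U : Filter ℕ), ‖(mot T d τ n).b‖ ≤ R

def setoid : Setoid {τ : ℕ → T.J // Bd T d U τ} where
  r x y := ∀ᶠ n in (U : Filter ℕ), x.1 n = y.1 n
  iseqv := by
    refine ⟨fun x => Eventually.of_forall fun _ => rfl, fun {x y} h => h.mono fun _ h => h.symm, ?_⟩
    intro x y z h h'
    filter_upwards [h, h'] with n h h'
    exact h.trans h'

def J : Type := Quotient (setoid T d U)

def rep (t : J T d U) (n : ℕ) : T.J := (Quotient.out t).1 n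

lemma rep_bd (t : J T d U) : Bd T d U (rep T d U t) := (Quotient.out t).2

lemma rep_inj (s t : J T d U) (h : ∀ᶠ n in (U : Filter ℕ), rep T d U s n = rep T d U t n) :
    s = t := by
  have h1 := Quotient.sound (s := setoid T d U) (a := Quotient.out s) (b := Quotient.out t) h
  have h2 : Quotient.mk (setoid T d U) (Quotient.out s) = s := Quotient.out_eq s
  have h3 : Quotient.mk (setoid T d U) (Quotient.out t) = t := Quotient.out_eq t
  rw [← h2, ← h3]
  exact h1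

lemma rep_mk (x : {τ : ℕ → T.J // Bd T d U τ}) :
    ∀ᶠ n in (U : Filter ℕ), rep T d U (Quotient.mk (setoid T d U) x) n = x.1 n :=
  Quotient.mk_out (s := setoid T d U) x

lemma exists_rep (τ : ℕ → T.J) (h : Bd T d U τ) :
    ∃ t : J T d U, ∀ᶠ n in (U : Filter ℕ), rep T d U t n = τ n :=
  ⟨Quotient.mk (setoid T d U) ⟨τ, h⟩, rep_mk T d U ⟨τ, h⟩⟩

lemma exists_idx (t : J T d U) : ∃ i, ∀ᶠ n in (U : Filter ℕ), T.idx (rep T d U t n) = i := by
  obtain ⟨i, hi⟩ := Ultrafilter.eq_pure_of_finite (U.map (fun n => T.idx (rep T d U t n)))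
  refine ⟨i, ?_⟩
  have : {i} ∈ U.map (fun n => T.idx (rep T d U t n)) := by rw [hi]; simp
  exact this

lemma exists_gl (t : J T d U) : ∃ g : Mv, Tendsto (mot T d (rep T d U t)) U (𝓝 g) := by
  obtain ⟨R, hR⟩ := rep_bd T d U t
  set f := mot T d (rep T d U t)
  have hK : IsCompact ((sphere (0 : ℂ) 1) ×ˢ (closedBall (0 : ℂ) R)) :=
    (isCompact_sphere _ _).prod (isCompact_closedBall _ _)
  have h1 : (U.map (fun n => ((f n).a, (f n).b)) : Filter (ℂ × ℂ)) ≤
      𝓟 ((sphere (0 : ℂ) 1) ×ˢ (closedBall (0 : ℂ) R)) := by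
    rw [le_principal_iff]
    show ∀ᶠ n in (U : Filter ℕ), _
    filter_upwards [hR] with n hn
    simp only [mem_prod, mem_sphere_iff_norm, sub_zero, mem_closedBall, dist_zero_right]
    exact ⟨(f n).ha, hn⟩
  obtain ⟨x, hx, hx2⟩ := hK.ultrafilter_le_nhds _ h1
  have hx1 : ‖x.1‖ = 1 := by
    have := hx.1
    simpa using this
  refine ⟨⟨x.1, x.2, hx1⟩, ?_⟩
  have hx3 : Tendsto (fun n => ((f n).a, (f n).b)) U (𝓝 x) := hx2
  rw [Mv.tendsto_iff]
  exact ⟨(continuous_fst.tendsto _).comp hx3, (continuous_snd.tendsto _).comp hx3⟩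

def idx (t : J T d U) : Fin N := (exists_idx T d U t).choose
lemma idx_spec (t : J T d U) : ∀ᶠ n in (U : Filter ℕ), T.idx (rep T d U t n) = idx T d U t :=
  (exists_idx T d U t).choose_spec
def gl (t : J T d U) : Mv := (exists_gl T d U t).choose
lemma gl_spec (t : J T d U) : Tendsto (mot T d (rep T d U t)) U (𝓝 (gl T d U t)) :=
  (exists_gl T d U t).choose_spec

/-- the limit tiles -/
def A (t : J T d U) : Set ℂ := gl T d U t • P (idx T d U t)

def m (n : ℕ) (t : J T d U) : Mv := mot T d (rep T d U t) n * (gl T d U t)⁻¹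

lemma m_lim (t : J T d U) : Tendsto (fun n => m T d U n t) U (𝓝 1) := by
  have := (gl_spec T d U t).mul (tendsto_const_nhds (x := (gl T d U t)⁻¹))
  rw [mul_inv_cancel] at this
  exact this

lemma src_eq (t : J T d U) : ∀ᶠ n : ℕ in (U : Filter ℕ),
    m T d U n t • A T d U t = Mv.tr (-((n : ℂ) * d)) • T.tile (rep T d U t n) := by
  filter_upwards [idx_spec T d U t] with n hn
  rw [A, m, ← mul_smul, inv_mul_cancel_right, mot, Tiling.tile, mul_smul, hn]

lemma disj' (s t : J T d U) (h : s ≠ t) : ∀ᶠ n in (U : Filter ℕ),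
    Disjoint (interior (m T d U n s • A T d U s)) (interior (m T d U n t • A T d U t)) := by
  have h1 : ∀ᶠ n in (U : Filter ℕ), rep T d U s n ≠ rep T d U t n := by
    rw [Ultrafilter.eventually_not]
    exact fun h2 => h (rep_inj T d U s t h2)
  filter_upwards [h1, src_eq T d U s, src_eq T d U t] with n hn hs ht
  rw [hs, ht, interior_smul_mv, interior_smul_mv]
  exact Set.disjoint_smul_set.2 (T.disj _ _ hn)

/-- limits of sets with disjoint interiors -/
lemma disj_lim {A B : Set ℂ} {f g : ℕ → Mv} (hf : Tendsto f U (𝓝 1)) (hg : Tendsto g U (𝓝 1))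
    (h : ∀ᶠ n in (U : Filter ℕ), Disjoint (interior (f n • A)) (interior (g n • B))) :
    Disjoint (interior A) (interior B) := by
  have key : ∀ {A : Set ℂ} {f : ℕ → Mv} {z : ℂ}, Tendsto f U (𝓝 1) → z ∈ interior A →
      ∀ᶠ n in (U : Filter ℕ), z ∈ interior (f n • A) := by
    intro A f z hf hz
    have h3 : Tendsto (fun n => (f n)⁻¹ • z) U (𝓝 ((1 : Mv)⁻¹ • z)) :=
      (hf.inv).smul tendsto_const_nhds
    simp only [inv_one, one_smul] at h3
    filter_upwards [h3.eventually (isOpen_interior.mem_nhds hz)] with n hn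
    rw [interior_smul_mv, Set.mem_smul_set_iff_inv_smul_mem]
    exact hn
  rw [Set.disjoint_left]
  intro z hs ht
  obtain ⟨n, hn1, hn2, hn3⟩ := ((key hf hs).and ((key hg ht).and h)).exists
  exact Set.disjoint_left.1 hn3 hn1 hn2

lemma disj (s t : J T d U) (h : s ≠ t) :
    Disjoint (interior (A T d U s)) (interior (A T d U t)) :=
  disj_lim U (m_lim T d U s) (m_lim T d U t) (disj' T d U s t h)

lemma exists_bd (hP : ∀ i, Nice (P i)) : ∃ C : ℝ, ∀ i, ∀ x ∈ P i, ‖x‖ ≤ C := by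
  have h1 : ∀ i, ∃ C : ℝ, ∀ x ∈ P i, ‖x‖ ≤ C := fun i => (hP i).bdd.exists_norm_le
  choose C hC using h1
  refine ⟨∑ i, |C i|, ?_⟩
  intro i x hx
  calc ‖x‖ ≤ C i := hC i x hx
    _ ≤ |C i| := le_abs_self _
    _ ≤ ∑ i, |C i| := Finset.single_le_sum (f := fun i => |C i|) (fun _ _ => abs_nonneg _)
        (Finset.mem_univ i)

lemma bd_of_mem (hP : ∀ i, Nice (P i)) (τ : ℕ → T.J) (R : ℝ) (w : ℕ → ℂ)
    (h : ∀ᶠ n : ℕ in (U : Filter ℕ), ‖w n‖ ≤ R ∧ w n ∈ Mv.tr (-((n : ℂ) * d)) • T.tile (τ n)) :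
    Bd T d U τ := by
  obtain ⟨C, hC⟩ := exists_bd hP
  refine ⟨R + C, ?_⟩
  filter_upwards [h] with n hn
  obtain ⟨h1, h2⟩ := hn
  rw [Tiling.tile, ← mul_smul] at h2
  obtain ⟨x, hx, hx2⟩ := h2
  have hx2' : (mot T d τ n).a * x + (mot T d τ n).b = w n := hx2
  have h3 : (mot T d τ n).b = w n - (mot T d τ n).a * x := by rw [← hx2']; ring
  rw [h3]
  calc ‖w n - (mot T d τ n).a * x‖ ≤ ‖w n‖ + ‖(mot T d τ n).a * x‖ := norm_sub_le _ _
    _ = ‖w n‖ + ‖x‖ := by rw [norm_mul, (mot T d τ n).ha, one_mul]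
    _ ≤ R + C := add_le_add h1 (hC _ _ hx)

lemma nice (hP : ∀ i, Nice (P i)) (t : J T d U) : Nice (A T d U t) := (hP _).smul _

lemma lf (hP : ∀ i, Nice (P i)) (R : ℝ) :
    {t | (A T d U t ∩ closedBall 0 R).Nonempty}.Finite := by
  obtain ⟨r, D, hr, hD, h⟩ := bounds hP
  exact locfin (A T d U) hr (fun t => (h (gl T d U t) (idx T d U t)).1)
    (fun t => (h (gl T d U t) (idx T d U t)).2) (disj T d U) R

lemma cov' (hU : (U : Filter ℕ) ≤ atTop) (hP : ∀ i, Nice (P i)) (z : ℂ) :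
    ∃ r > 0, ∀ᶠ n in (U : Filter ℕ), ∀ w ∈ ball z r,
      ∃ t, z ∈ A T d U t ∧ w ∈ m T d U n t • A T d U t := by
  by_contra hcon
  push Not at hcon
  -- the set of points not covered
  set D : ℕ → Set ℂ := fun n => {w | ∀ t, z ∈ A T d U t → w ∉ m T d U n t • A T d U t} with hD
  have h1 : ∀ r > 0, ∀ᶠ n in (U : Filter ℕ), ∃ w ∈ ball z r, w ∈ D n := by
    intro r hr
    exact hcon r hr
  have h2 : ∀ n, ∃ w, (D n).Nonempty → w ∈ D n ∧ dist z w < infDist z (D n) + 1 / (n + 1) := by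
    intro n
    by_cases hn : (D n).Nonempty
    · obtain ⟨w, hw, hw2⟩ := (Metric.infDist_lt_iff (x := z) hn (r := infDist z (D n) + 1 / (n + 1))).1
        (by have : (0 : ℝ) < 1 / ((n : ℝ) + 1) := by positivity
            linarith)
      exact ⟨w, fun _ => ⟨hw, hw2⟩⟩
    · exact ⟨0, fun h => absurd h hn⟩
  choose w hw using h2
  have hwz : Tendsto w U (𝓝 z) := by
    rw [Metric.tendsto_nhds]
    intro ε hε
    have h4 : ∀ᶠ n : ℕ in (U : Filter ℕ), 1 / ((n : ℝ) + 1) < ε / 2 := by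
      apply hU
      exact (tendsto_one_div_add_atTop_nhds_zero_nat (𝕜 := ℝ)).eventually_lt_const (half_pos hε)
    filter_upwards [h4, h1 (ε / 2) (half_pos hε)] with n hn hn2
    obtain ⟨w', hw', hw''⟩ := hn2
    have h5 := (hw n ⟨w', hw''⟩).2
    have h6 : infDist z (D n) ≤ dist z w' := infDist_le_dist_of_mem hw''
    rw [mem_ball, dist_comm] at hw'
    rw [dist_comm]
    linarith
  have hwD : ∀ᶠ n in (U : Filter ℕ), w n ∈ D n := by
    filter_upwards [h1 1 one_pos] with n hn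
    obtain ⟨w', -, hw''⟩ := hn
    exact (hw n ⟨w', hw''⟩).1
  have h7 : ∀ n : ℕ, ∃ t : T.J, w n ∈ Mv.tr (-((n : ℂ) * d)) • T.tile t := by
    intro n
    obtain ⟨t, ht⟩ := T.cover (w n + n * d)
    refine ⟨t, ?_⟩
    rw [Set.mem_smul_set_iff_inv_smul_mem, Mv.tr_inv, neg_neg, Mv.tr_smul]
    exact ht
  choose τ hτ using h7
  have hbd : Bd T d U τ := by
    refine bd_of_mem T d U hP τ (‖z‖ + 1) w ?_
    have h8 := hwz.norm.eventually_lt_const (show ‖z‖ < ‖z‖ + 1 by linarith)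
    filter_upwards [h8] with n hn
    exact ⟨hn.le, hτ n⟩
  obtain ⟨t, ht⟩ := exists_rep T d U τ hbd
  have h9 : ∀ᶠ n in (U : Filter ℕ), w n ∈ m T d U n t • A T d U t := by
    filter_upwards [ht, src_eq T d U t] with n hn hn2
    rw [hn2, hn]
    exact hτ n
  have hzA : z ∈ A T d U t := by
    have h10 : Tendsto (fun n => (m T d U n t)⁻¹ • w n) U (𝓝 ((1 : Mv)⁻¹ • z)) :=
      ((m_lim T d U t).inv).smul hwz
    simp only [inv_one, one_smul] at h10
    refine (nice T d U hP t).closed.mem_of_tendsto h10 ?_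
    filter_upwards [h9] with n hn
    rwa [Set.mem_smul_set_iff_inv_smul_mem] at hn
  obtain ⟨n, hn, hn2⟩ := (h9.and hwD).exists
  exact hn2 t hzA hn

lemma bd_iff (v : ℂ) (σ : Equiv.Perm T.J) (hσ : ∀ t, T.g (σ t) = Mv.tr v * T.g t)
    (τ : ℕ → T.J) : Bd T d U τ ↔ Bd T d U (fun n => σ (τ n)) := by
  have key : ∀ n, (mot T d (fun n => σ (τ n)) n).b = (mot T d τ n).b + v := by
    intro n
    simp only [mot, hσ, Mv.mul_b, Mv.tr_a, Mv.tr_b]
    ring
  constructor
  · rintro ⟨R, hR⟩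
    refine ⟨R + ‖v‖, ?_⟩
    filter_upwards [hR] with n hn
    rw [key]
    exact (norm_add_le _ _).trans (by linarith)
  · rintro ⟨R, hR⟩
    refine ⟨R + ‖v‖, ?_⟩
    filter_upwards [hR] with n hn
    rw [key] at hn
    have : (mot T d τ n).b = ((mot T d τ n).b + v) - v := by ring
    rw [this]
    exact (norm_sub_le _ _).trans (by linarith)

/-- the permutation of the limit tiles induced by a period -/
def σ (v : ℂ) (σ : Equiv.Perm T.J) (hσ : ∀ t, T.g (σ t) = Mv.tr v * T.g t) :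
    Equiv.Perm (J T d U) :=
  Quotient.congr (ra := setoid T d U) (rb := setoid T d U)
    (Equiv.subtypeEquiv (Equiv.arrowCongr (Equiv.refl ℕ) σ) (fun τ => bd_iff T d U v σ hσ τ))
    (by
      intro x y
      show (∀ᶠ n in (U : Filter ℕ), x.1 n = y.1 n) ↔ (∀ᶠ n in (U : Filter ℕ), σ (x.1 n) = σ (y.1 n))
      simp)

lemma rep_σ (v : ℂ) (σ' : Equiv.Perm T.J) (hσ : ∀ t, T.g (σ' t) = Mv.tr v * T.g t)
    (t : J T d U) : ∀ᶠ n in (U : Filter ℕ),
      rep T d U (σ T d U v σ' hσ t) n = σ' (rep T d U t n) := by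
  obtain ⟨x, rfl⟩ := Quotient.exists_rep t
  have h1 := rep_mk T d U x
  have h2 := rep_mk T d U (Equiv.subtypeEquiv (Equiv.arrowCongr (Equiv.refl ℕ) σ')
    (fun τ => bd_iff T d U v σ' hσ τ) x)
  filter_upwards [h1, h2] with n h1 h2
  rw [h1]
  exact h2

end LimC

theorem exists_limSys {N : ℕ} {P : Fin N → Set ℂ} (hP : ∀ i, Nice (P i)) (T : Tiling P)
    (v d : ℂ) (hT : T.Per v) : Nonempty (LimSys T v d) := by
  obtain ⟨σ1, hσ1⟩ := hT
  have hσg : ∀ t, T.g (σ1 t) = Mv.tr v * T.g t := fun t => (hσ1 t).2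
  set U : Ultrafilter ℕ := hyperfilter ℕ with hUdef
  have hU : (U : Filter ℕ) ≤ atTop := Nat.hyperfilter_le_atTop
  have hmot : ∀ t, ∀ᶠ n in (U : Filter ℕ),
      LimC.mot T d (LimC.rep T d U (LimC.σ T d U v σ1 hσg t)) n =
        Mv.tr v * LimC.mot T d (LimC.rep T d U t) n := by
    intro t
    filter_upwards [LimC.rep_σ T d U v σ1 hσg t] with n hn
    rw [LimC.mot, LimC.mot, hn, hσg, ← mul_assoc, ← mul_assoc, Mv.tr_mul, Mv.tr_mul, add_comm]
  have hgl : ∀ t, LimC.gl T d U (LimC.σ T d U v σ1 hσg t) = Mv.tr v * LimC.gl T d U t := by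
    intro t
    have h1 := LimC.gl_spec T d U (LimC.σ T d U v σ1 hσg t)
    have h2 : Tendsto (fun n => Mv.tr v * LimC.mot T d (LimC.rep T d U t) n) U
        (𝓝 (Mv.tr v * LimC.gl T d U t)) :=
      (tendsto_const_nhds).mul (LimC.gl_spec T d U t)
    exact tendsto_nhds_unique (h1.congr' (hmot t)) h2
  refine ⟨{
    J := LimC.J T d U
    A := LimC.A T d U
    nice := LimC.nice T d U hP
    lf := LimC.lf T d U hP
    U := U
    m := LimC.m T d U
    m_lim := LimC.m_lim T d U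
    disj' := LimC.disj' T d U
    cov' := LimC.cov' T d U hU hP
    hU := hU
    idx := LimC.idx T d U
    gl := LimC.gl T d U
    A_eq := fun t => rfl
    src := fun n t => LimC.rep T d U t n
    src_eq := LimC.src_eq T d U
    tight := ?_
    σ := LimC.σ T d U v σ1 hσg
    σ_idx := ?_
    σ_gl := hgl
    σ_m := ?_ }⟩
  · intro R τ hτ
    have hw : ∀ n : ℕ, ∃ w : ℂ, ((Mv.tr (-((n : ℂ) * d)) • T.tile (τ n)) ∩ closedBall 0 R).Nonempty →
        w ∈ (Mv.tr (-((n : ℂ) * d)) • T.tile (τ n)) ∩ closedBall 0 R := by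
      intro n
      by_cases h : ((Mv.tr (-((n : ℂ) * d)) • T.tile (τ n)) ∩ closedBall 0 R).Nonempty
      · obtain ⟨w, hw⟩ := h
        exact ⟨w, fun _ => hw⟩
      · exact ⟨0, fun h' => absurd h' h⟩
    choose w hw using hw
    have hbd : LimC.Bd T d U τ := by
      refine LimC.bd_of_mem T d U hP τ R w ?_
      filter_upwards [hτ] with n hn
      have := hw n hn
      refine ⟨?_, this.1⟩
      simpa using this.2
    obtain ⟨t, ht⟩ := LimC.exists_rep T d U τ hbd
    refine ⟨t, ?_⟩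
    filter_upwards [ht, LimC.src_eq T d U t] with n hn hn2
    refine ⟨hn, ?_⟩
    rw [hn2, hn]
  · intro t
    obtain ⟨n, h1, h2, h3⟩ := ((LimC.idx_spec T d U t).and
      ((LimC.idx_spec T d U (LimC.σ T d U v σ1 hσg t)).and
        (LimC.rep_σ T d U v σ1 hσg t))).exists
    rw [← h1, ← h2, h3]
    exact (hσ1 _).1
  · intro t
    filter_upwards [hmot t] with n hn
    rw [LimC.m, LimC.m, hn, hgl, mul_inv_rev]
    simp only [mul_assoc]

/-- the limit tiling -/
def LimSys.lim {N : ℕ} {P : Fin N → Set ℂ} {T : Tiling P} {v d : ℂ} (S : LimSys T v d) :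
    Tiling P where
  J := S.J
  idx := S.idx
  g := S.gl
  cover := by
    intro z
    obtain ⟨t, ht⟩ := S.toFlexSys.cover z
    exact ⟨t, by rw [← S.A_eq]; exact ht⟩
  disj := by
    intro s t hst
    have := S.toFlexSys.disj s t hst
    rwa [S.A_eq, S.A_eq] at this

lemma LimSys.lim_tile {N : ℕ} {P : Fin N → Set ℂ} {T : Tiling P} {v d : ℂ} (S : LimSys T v d)
    (t : S.J) : S.lim.tile t = S.A t := (S.A_eq t).symm

lemma LimSys.lim_per {N : ℕ} {P : Fin N → Set ℂ} {T : Tiling P} {v d : ℂ} (S : LimSys T v d) :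
    S.lim.Per v := ⟨S.σ, fun t => ⟨S.σ_idx t, S.σ_gl t⟩⟩

/-- A line `yd d = h` in the direction `d` such that every tile of `T` lies on one side of it
has the same property for the limit, together with the motions. -/
lemma LimSys.skel {N : ℕ} {P : Fin N → Set ℂ} {T : Tiling P} {v d : ℂ} (S : LimSys T v d)
    {h : ℝ} (hT : ∀ t, (∀ z ∈ T.tile t, h ≤ yd d z) ∨ (∀ z ∈ T.tile t, yd d z ≤ h)) (u : S.J) :
    (∀ᶠ n in (S.U : Filter ℕ), ∀ z ∈ S.A u, h ≤ yd d (S.m n u • z)) ∨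
    (∀ᶠ n in (S.U : Filter ℕ), ∀ z ∈ S.A u, yd d (S.m n u • z) ≤ h) := by
  have key : ∀ᶠ n in (S.U : Filter ℕ), ∀ z ∈ S.A u, ∃ z' ∈ T.tile (S.src n u),
      yd d (S.m n u • z) = yd d z' := by
    filter_upwards [S.src_eq u] with n hn z hz
    have h1 : S.m n u • z ∈ S.m n u • S.A u := Set.smul_mem_smul_set hz
    rw [hn] at h1
    obtain ⟨z', hz', h2⟩ := h1
    refine ⟨z', hz', ?_⟩
    have h2' : Mv.tr (-((n : ℂ) * d)) • z' = S.m n u • z := h2
    rw [← h2', Mv.tr_smul, yd, yd, mul_add, Complex.add_im]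
    have h3 : conj d * (-((n : ℂ) * d)) = ((-(n * Complex.normSq d) : ℝ) : ℂ) := by
      push_cast
      rw [Complex.normSq_eq_conj_mul_self]
      ring
    rw [h3, Complex.ofReal_im, add_zero]
  have h1 : ∀ᶠ n in (S.U : Filter ℕ), (∀ z ∈ T.tile (S.src n u), h ≤ yd d z) ∨
      (∀ z ∈ T.tile (S.src n u), yd d z ≤ h) := Eventually.of_forall fun n => hT _
  rcases Ultrafilter.eventually_or.1 h1 with h2 | h2
  · left
    filter_upwards [key, h2] with n hn hn2 z hz
    obtain ⟨z', hz', h3⟩ := hn z hz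
    rw [h3]
    exact hn2 z' hz'
  · right
    filter_upwards [key, h2] with n hn hn2 z hz
    obtain ⟨z', hz', h3⟩ := hn z hz
    rw [h3]
    exact hn2 z' hz'

end H231R2
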