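import Pool.Agent.H231R2.Conn
import Pool.Agent.H231R2.Limit

/-! # Equivariance, maximal interface discs and hulls (task 12, helper498) -/

set_option autoImplicit false

open Filter Topology Metric Set
open scoped Pointwise ComplexConjugate

noncomputable section

namespace H231R2

lemma mem_tr_smul {v z : ℂ} {A : Set ℂ} : z ∈ Mv.tr v • A ↔ z - v ∈ A := by
  rw [Set.mem_smul_set_iff_inv_smul_mem, Mv.tr_inv, Mv.tr_smul, sub_eq_add_neg]

/-- a flexible system invariant under the translation by `v` -/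
structure Equi (S : FlexSys) (v : ℂ) where
  σ : Equiv.Perm S.J
  A_σ : ∀ t, S.A (σ t) = Mv.tr v • S.A t
  m_σ : ∀ t, ∀ᶠ n in (S.U : Filter ℕ), S.m n (σ t) = Mv.tr v * S.m n t * (Mv.tr v)⁻¹

def Equi.symm {S : FlexSys} {v : ℂ} (E : Equi S v) : Equi S (-v) where
  σ := E.σ.symm
  A_σ := by
    intro t
    have h := E.A_σ (E.σ.symm t)
    rw [Equiv.apply_symm_apply] at h
    rw [h, ← Mv.tr_inv, inv_smul_smul]
  m_σ := by
    intro t
    have h := E.m_σ (E.σ.symm t)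
    rw [Equiv.apply_symm_apply] at h
    filter_upwards [h] with n hn
    rw [hn, ← Mv.tr_inv]
    group

def LimSys.equi {N : ℕ} {P : Fin N → Set ℂ} {T : Tiling P} {v d : ℂ} (S : LimSys T v d) :
    Equi S.toFlexSys v where
  σ := S.σ
  A_σ := by
    intro t
    rw [S.A_eq, S.A_eq, S.σ_idx, S.σ_gl, mul_smul]
  m_σ := S.σ_m

lemma Equi.eqv_iff {S : FlexSys} {v : ℂ} (E : Equi S v) (s t : S.J) :
    S.eqv (E.σ s) (E.σ t) ↔ S.eqv s t := by
  constructor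
  · intro h
    filter_upwards [h, E.m_σ s, E.m_σ t] with n h1 h2 h3
    rw [h2, h3] at h1
    exact mul_left_cancel (mul_right_cancel h1)
  · intro h
    filter_upwards [h, E.m_σ s, E.m_σ t] with n h1 h2 h3
    rw [h2, h3, h1]

lemma Equi.mem_iff {S : FlexSys} {v : ℂ} (E : Equi S v) (t : S.J) (z : ℂ) :
    z ∈ S.A (E.σ t) ↔ z - v ∈ S.A t := by
  rw [E.A_σ, mem_tr_smul]

/-- the translated generator -/
def Gen.sh (G : Gen) (v : ℂ) : Gen := ⟨G.ω, G.β - Complex.I * G.ω * v, G.κ, G.hκ, by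
  rcases G.hne with h | h
  · exact Or.inl h
  · by_cases hω : G.ω = 0
    · right
      rw [hω]
      simpa using h
    · exact Or.inl hω⟩

lemma Gen.sh_Φ (G : Gen) (v : ℂ) (x : ℝ) :
    (G.sh v).Φ x = Mv.tr v * G.Φ x * (Mv.tr v)⁻¹ := by
  rw [Mv.tr_inv]
  have h := mul_ph ((x * G.ω : ℝ) * Complex.I)
  ext
  · simp [Gen.Φ, Gen.sh, Ex]
  · simp only [Gen.Φ, Gen.sh, Ex, Mv.mul_a, Mv.mul_b, Mv.tr_a, Mv.tr_b, one_mul]
    push_cast at h ⊢
    linear_combination (-v) * h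

lemma Gen.sh_V (G : Gen) (v z : ℂ) : (G.sh v).V (z + v) = G.V z := by
  simp only [Gen.V, Gen.sh]
  ring

lemma Gen.sh_F (G : Gen) (v z w : ℂ) :
    (G.sh v).F (z + v) - (G.sh v).F (w + v) = G.F z - G.F w := by
  simp only [Gen.F, Gen.sh]
  have e : ∀ z : ℂ, ‖z‖ ^ 2 = z.re ^ 2 + z.im ^ 2 := by
    intro z
    rw [← Complex.normSq_eq_norm_sq, Complex.normSq_apply]
    ring
  simp only [e]
  simp
  ring

/-- the translate of a leaf -/
def Leaf.shift {S : FlexSys} {v : ℂ} (E : Equi S v) (ℓ : Leaf S) : Leaf S where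
  G := ⟨ℓ.G.ω, ℓ.G.β - Complex.I * ℓ.G.ω * v, ℓ.G.κ, ℓ.G.hκ, (ℓ.G.sh v).hne⟩
  z0 := ℓ.z0 + v
  s := E.σ ℓ.s
  t := E.σ ℓ.t
  rel := by
    obtain ⟨x, hx, h⟩ := ℓ.rel
    refine ⟨x, hx, ?_⟩
    filter_upwards [h, E.m_σ ℓ.s, E.m_σ ℓ.t] with n h1 h2 h3
    refine ⟨h1.1, ?_⟩
    have h4 := ℓ.G.sh_Φ v (x n)
    have h5 : (⟨ℓ.G.ω, ℓ.G.β - Complex.I * ℓ.G.ω * v, ℓ.G.κ, ℓ.G.hκ, (ℓ.G.sh v).hne⟩ : Gen) =
      ℓ.G.sh v := rfl
    rw [h5, h4, ← h1.2, FlexSys.gm, FlexSys.gm, h2, h3]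
    group
  edge := by
    obtain ⟨hNT, hV, r, hr, h⟩ := ℓ.edge
    have h5 : (⟨ℓ.G.ω, ℓ.G.β - Complex.I * ℓ.G.ω * v, ℓ.G.κ, ℓ.G.hκ, (ℓ.G.sh v).hne⟩ : Gen) =
      ℓ.G.sh v := rfl
    rw [h5]
    refine ⟨?_, ?_, r, hr, ?_⟩
    · intro s t u hs ht hu
      have key : ∀ s : S.J, ℓ.z0 + v ∈ S.A s → ℓ.z0 ∈ S.A (E.σ.symm s) := by
        intro s hs
        have := (E.mem_iff (E.σ.symm s) (ℓ.z0 + v)).mp (by rwa [Equiv.apply_symm_apply])
        simpa using this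
      rcases hNT _ _ _ (key s hs) (key t ht) (key u hu) with h1 | h1 | h1
      · exact Or.inl (E.σ.symm.injective h1)
      · exact Or.inr (Or.inl (E.σ.symm.injective h1))
      · exact Or.inr (Or.inr (E.σ.symm.injective h1))
    · rw [Gen.sh_V]
      exact hV
    · intro w hw
      have hw' : w - v ∈ ball ℓ.z0 r := by
        rw [mem_ball, dist_eq_norm] at hw ⊢
        have : w - v - ℓ.z0 = w - (ℓ.z0 + v) := by ring
        rwa [this]
      obtain ⟨h1, h2⟩ := h _ hw'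
      have h3 := ℓ.G.sh_F v (w - v) ℓ.z0
      rw [sub_add_cancel] at h3
      rw [E.mem_iff, E.mem_iff, h1, h2]
      constructor
      · constructor <;> intro h4 <;> linarith
      · constructor <;> intro h4 <;> linarith

lemma Leaf.shift_H {S : FlexSys} {v : ℂ} (E : Equi S v) (ℓ : Leaf S) (z : ℂ) :
    (ℓ.shift E).H z = ℓ.H (z - v) := by
  have h3 := ℓ.G.sh_F v (z - v) ℓ.z0
  rw [sub_add_cancel] at h3
  exact h3

lemma Leaf.shift_isDisc {S : FlexSys} {v : ℂ} (E : Equi S v) (ℓ : Leaf S) :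
    (ℓ.shift E).IsDisc ↔ ℓ.IsDisc := Iff.rfl

lemma Leaf.shift_D {S : FlexSys} {v : ℂ} (E : Equi S v) (ℓ : Leaf S) :
    (ℓ.shift E).D = Mv.tr v • ℓ.D := by
  ext z
  rw [mem_tr_smul]
  show (ℓ.shift E).H z ≤ 0 ↔ ℓ.H (z - v) ≤ 0
  rw [Leaf.shift_H]

/-- interface discs have radius at most `‖v‖ / 2` -/
theorem Leaf.rad_le {S : FlexSys} {v : ℂ} (E : Equi S v) (hv : v ≠ 0) {ℓ : Leaf S}
    (h : ℓ.IsDisc) : ℓ.rad ≤ ‖v‖ / 2 := by
  have hr := Leaf.rad_pos h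
  have hD := Leaf.D_eq h
  have hsm : Mv.tr v • closedBall ℓ.cen ℓ.rad = closedBall (ℓ.cen + v) ℓ.rad := by
    ext z
    rw [mem_tr_smul, mem_closedBall, mem_closedBall, dist_eq_norm, dist_eq_norm]
    have : z - v - ℓ.cen = z - (ℓ.cen + v) := by ring
    rw [this]
  have hvn : 0 < ‖v‖ := norm_pos_iff.2 hv
  -- a closed ball is not contained in its translate
  have hno : ∀ (c w : ℂ), w ≠ 0 → ¬ (closedBall c ℓ.rad ⊆ closedBall (c + w) ℓ.rad) := by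
    intro c w hw hsub
    have hwn : 0 < ‖w‖ := norm_pos_iff.2 hw
    have h1 : c - ((ℓ.rad / ‖w‖ : ℝ) : ℂ) * w ∈ closedBall c ℓ.rad := by
      rw [mem_closedBall, dist_eq_norm]
      have : c - ((ℓ.rad / ‖w‖ : ℝ) : ℂ) * w - c = -(((ℓ.rad / ‖w‖ : ℝ) : ℂ) * w) := by ring
      rw [this, norm_neg, norm_mul, Complex.norm_real, Real.norm_eq_abs, abs_of_pos (by positivity)]
      field_simp
      exact le_rfl
    have h2 := hsub h1
    rw [mem_closedBall, dist_eq_norm] at h2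
    have : c - ((ℓ.rad / ‖w‖ : ℝ) : ℂ) * w - (c + w) = -(((ℓ.rad / ‖w‖ + 1 : ℝ) : ℂ) * w) := by
      push_cast; ring
    rw [this, norm_neg, norm_mul, Complex.norm_real, Real.norm_eq_abs,
      abs_of_pos (by positivity)] at h2
    have h3 : (ℓ.rad / ‖w‖ + 1) * ‖w‖ = ℓ.rad + ‖w‖ := by field_simp
    rw [h3] at h2
    linarith
  have hsh : (ℓ.shift E).IsDisc := h
  rcases Leaf.nested h hsh with h1 | h1 | h1
  · rw [Leaf.shift_D, hD, hsm] at h1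
    exact absurd h1 (hno _ _ hv)
  · rw [Leaf.shift_D, hD, hsm] at h1
    have h2 := hno (ℓ.cen + v) (-v) (neg_ne_zero.2 hv)
    rw [add_neg_cancel_right] at h2
    exact absurd h1 h2
  · rw [Leaf.shift_D, hD, hsm, interior_closedBall _ hr.ne', interior_closedBall _ hr.ne',
      disjoint_ball_ball_iff hr hr, dist_eq_norm] at h1
    have : ℓ.cen - (ℓ.cen + v) = -v := by ring
    rw [this, norm_neg] at h1
    linarith

lemma Leaf.z0_mem_s {S : FlexSys} (ℓ : Leaf S) : ℓ.z0 ∈ S.A ℓ.s := by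
  obtain ⟨_, _, r, hr, h⟩ := ℓ.edge
  exact (h _ (mem_ball_self hr)).1.2 le_rfl

lemma Leaf.z0_mem_t {S : FlexSys} (ℓ : Leaf S) : ℓ.z0 ∈ S.A ℓ.t := by
  obtain ⟨_, _, r, hr, h⟩ := ℓ.edge
  exact (h _ (mem_ball_self hr)).2.2 le_rfl

/-- at an edge the tile `t` is on the side `H ≤ 0` -/
lemma Leaf.t_sub {S : FlexSys} (ℓ : Leaf S) : ∀ w ∈ S.A ℓ.t, ℓ.H w ≤ 0 := by
  obtain ⟨_, hV, r, hr, h⟩ := ℓ.edge
  rcases ℓ.side ℓ.t with h1 | h1
  · exfalso
    obtain ⟨w, hw, hlt⟩ := ℓ.G.exists_lt hV hr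
    have h2 : w ∈ S.A ℓ.t := (h w hw).2.2 hlt.le
    have h3 := h1 w h2
    simp only [Leaf.H] at h3
    linarith
  · exact h1

/-- two interface discs with the same pair of tiles coincide -/
theorem Leaf.D_eq_of_pair {S : FlexSys} {ℓ ℓ' : Leaf S} (h : ℓ.IsDisc) (h' : ℓ'.IsDisc)
    (hs : ℓ.s = ℓ'.s) (ht : ℓ.t = ℓ'.t) : ℓ.D = ℓ'.D := by
  obtain ⟨x, _, hx⟩ := ℓ.rel
  obtain ⟨y, _, hy⟩ := ℓ'.rel
  rw [← hs, ← ht] at hy
  have hne := FlexSys.not_eqv_iff.1 ℓ.not_eqv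
  obtain ⟨n, h1, h2, h3⟩ := (hx.and (hy.and hne)).exists
  have hΦ : ℓ.G.Φ (x n) = ℓ'.G.Φ (y n) := h1.2.symm.trans h2.2
  have hΦ1 : ℓ.G.Φ (x n) ≠ 1 := by
    rw [← h1.2]
    intro h4
    rw [FlexSys.gm, inv_mul_eq_one] at h4
    exact h3 h4.symm
  obtain ⟨l, hl, hF⟩ := Gen.sim_of_Φ_eq hΦ hΦ1
  have hω : ℓ.G.ω ≠ 0 := by
    intro h0
    have : 0 < ℓ.G.κ * ℓ.G.ω := h
    rw [h0, mul_zero] at this
    exact lt_irrefl _ this
  have hω' : ℓ'.G.ω ≠ 0 := by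
    intro h0
    have : 0 < ℓ'.G.κ * ℓ'.G.ω := h'
    rw [h0, mul_zero] at this
    exact lt_irrefl _ this
  -- same centre
  have hcen : ℓ.cen = ℓ'.cen := by
    have e : ∀ z w : ℂ, ℓ'.G.κ * ℓ'.G.ω / 2 * (‖z - ℓ'.cen‖ ^ 2 - ‖w - ℓ'.cen‖ ^ 2) =
        l * (ℓ.G.κ * ℓ.G.ω / 2) * (‖z - ℓ.cen‖ ^ 2 - ‖w - ℓ.cen‖ ^ 2) := by
      intro z w
      have h4 := hF z w
      rw [Gen.F_circ _ hω, Gen.F_circ _ hω, Gen.F_circ _ hω', Gen.F_circ _ hω'] at h4
      simp only [Leaf.cen]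
      linear_combination h4
    set A := ℓ'.G.κ * ℓ'.G.ω / 2 with hA
    set B := l * (ℓ.G.κ * ℓ.G.ω / 2) with hB
    have hA0 : A ≠ 0 := by
      have : 0 < ℓ'.G.κ * ℓ'.G.ω := h'
      rw [hA]
      positivity
    -- test with z = 2c - w reflections : use the points c ± u around c = ℓ.cen
    have h5 : ∀ u : ℂ, ‖ℓ.cen + u - ℓ'.cen‖ ^ 2 = ‖ℓ.cen - u - ℓ'.cen‖ ^ 2 := by
      intro u
      have h6 := e (ℓ.cen + u) (ℓ.cen - u)
      have h7 : ‖ℓ.cen + u - ℓ.cen‖ = ‖ℓ.cen - u - ℓ.cen‖ := by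
        rw [add_sub_cancel_left]
        have : ℓ.cen - u - ℓ.cen = -u := by ring
        rw [this, norm_neg]
      rw [h7, sub_self, mul_zero] at h6
      rcases mul_eq_zero.mp h6 with h8 | h8
      · exact absurd h8 hA0
      · linarith
    have h6 := h5 (ℓ.cen - ℓ'.cen)
    have e1 : ℓ.cen + (ℓ.cen - ℓ'.cen) - ℓ'.cen = ((2 : ℝ) : ℂ) * (ℓ.cen - ℓ'.cen) := by
      push_cast; ring
    have e2 : ℓ.cen - (ℓ.cen - ℓ'.cen) - ℓ'.cen = 0 := by ring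
    rw [e1, e2, norm_mul, norm_zero, Complex.norm_real, Real.norm_eq_abs,
      abs_of_pos (by norm_num : (0 : ℝ) < 2)] at h6
    have h7 : ‖ℓ.cen - ℓ'.cen‖ = 0 := by
      have := norm_nonneg (ℓ.cen - ℓ'.cen)
      nlinarith
    exact sub_eq_zero.1 (norm_eq_zero.1 h7)
  have hz : ℓ.z0 ∈ ℓ'.D := by
    have h4 := ℓ.z0_mem_t
    rw [ht] at h4
    exact ℓ'.t_sub _ h4
  have hz' : ℓ'.z0 ∈ ℓ.D := by
    have h4 := ℓ'.z0_mem_t
    rw [← ht] at h4
    exact ℓ.t_sub _ h4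
  rw [Leaf.D_eq h'] at hz
  rw [Leaf.D_eq h] at hz'
  rw [mem_closedBall, dist_eq_norm] at hz hz'
  have hrad : ℓ.rad = ℓ'.rad := by
    apply le_antisymm
    · rw [Leaf.rad, hcen]; exact hz
    · rw [Leaf.rad, ← hcen]; exact hz'
  rw [Leaf.D_eq h, Leaf.D_eq h', hcen, hrad]

/-- the union of the tile and of all the interface discs which contain it -/
def FlexSys.hull (S : FlexSys) (u : S.J) : Set ℂ :=
  S.A u ∪ ⋃ (ℓ : Leaf S) (_ : ℓ.IsDisc ∧ S.A u ⊆ ℓ.D), ℓ.D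

variable {S : FlexSys} {v : ℂ}

lemma hull_outer {u : S.J} (hu : S.Outer u) : S.hull u = S.A u := by
  unfold FlexSys.hull
  apply Set.union_eq_self_of_subset_right
  refine Set.iUnion₂_subset fun ℓ hℓ => ?_
  exact absurd hℓ.2 (hu ℓ hℓ.1)

theorem exists_max (E : Equi S v) (hv : v ≠ 0) {u : S.J} (hu : ¬ S.Outer u) :
    ∃ ℓ : Leaf S, ℓ.IsDisc ∧ S.A u ⊆ ℓ.D ∧ S.hull u = ℓ.D ∧
      ∀ ℓ' : Leaf S, ℓ'.IsDisc → ℓ.D ⊆ ℓ'.D → ℓ'.D ⊆ ℓ.D := by
  classical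
  obtain ⟨p, hp⟩ := (S.nice u).ne
  have hpA : p ∈ S.A u := interior_subset hp
  let K : Set S.J := {t | (S.A t ∩ closedBall 0 (‖p‖ + ‖v‖)).Nonempty}
  have hK : K.Finite := S.lf _
  let W : Set (Set ℂ) := {D | ∃ ℓ : Leaf S, ℓ.IsDisc ∧ S.A u ⊆ ℓ.D ∧ D = ℓ.D}
  have hWfin : W.Finite := by
    let f : S.J × S.J → Set ℂ := fun q =>
      if h : ∃ ℓ : Leaf S, ℓ.IsDisc ∧ ℓ.s = q.1 ∧ ℓ.t = q.2 then h.choose.D else ∅
    refine ((hK.prod hK).image f).subset ?_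
    rintro D ⟨ℓ, hℓ, hsub, rfl⟩
    have hz : ‖ℓ.z0‖ ≤ ‖p‖ + ‖v‖ := by
      have h1 : p ∈ closedBall ℓ.cen ℓ.rad := by
        rw [← Leaf.D_eq hℓ]
        exact hsub hpA
      rw [mem_closedBall, dist_eq_norm] at h1
      have h2 := Leaf.rad_le E hv hℓ
      have h3 : ‖ℓ.z0 - ℓ.cen‖ = ℓ.rad := rfl
      calc ‖ℓ.z0‖ = ‖p + ((ℓ.z0 - ℓ.cen) - (p - ℓ.cen))‖ := by ring_nf
        _ ≤ ‖p‖ + ‖(ℓ.z0 - ℓ.cen) - (p - ℓ.cen)‖ := norm_add_le _ _
        _ ≤ ‖p‖ + (‖ℓ.z0 - ℓ.cen‖ + ‖p - ℓ.cen‖) := by gcongr; exact norm_sub_le _ _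
        _ ≤ ‖p‖ + ‖v‖ := by rw [h3]; linarith
    have hmem : ℓ.z0 ∈ closedBall (0 : ℂ) (‖p‖ + ‖v‖) := by
      rw [mem_closedBall, dist_zero_right]; exact hz
    refine ⟨(ℓ.s, ℓ.t), ⟨⟨_, ℓ.z0_mem_s, hmem⟩, ⟨_, ℓ.z0_mem_t, hmem⟩⟩, ?_⟩
    have hex : ∃ ℓ' : Leaf S, ℓ'.IsDisc ∧ ℓ'.s = (ℓ.s, ℓ.t).1 ∧ ℓ'.t = (ℓ.s, ℓ.t).2 :=
      ⟨ℓ, hℓ, rfl, rfl⟩
    simp only [f]
    rw [dif_pos hex]
    exact Leaf.D_eq_of_pair hex.choose_spec.1 hℓ hex.choose_spec.2.1 hex.choose_spec.2.2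
  have hWne : W.Nonempty := by
    unfold FlexSys.Outer at hu
    push Not at hu
    obtain ⟨ℓ, h1, h2⟩ := hu
    exact ⟨ℓ.D, ℓ, h1, h2, rfl⟩
  obtain ⟨D, hD⟩ := hWfin.exists_maximal hWne
  obtain ⟨ℓ, h1, h2, rfl⟩ := hD.1
  have hmax : ∀ ℓ' : Leaf S, ℓ'.IsDisc → ℓ.D ⊆ ℓ'.D → ℓ'.D ⊆ ℓ.D := by
    intro ℓ' h3 h4
    exact hD.2 ⟨ℓ', h3, h2.trans h4, rfl⟩ h4
  refine ⟨ℓ, h1, h2, ?_, hmax⟩
  apply Set.Subset.antisymm
  · refine Set.union_subset h2 (Set.iUnion₂_subset fun ℓ' hℓ' => ?_)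
    rcases Leaf.nested hℓ'.1 h1 with h3 | h3 | h3
    · exact h3
    · exact hmax ℓ' hℓ'.1 h3
    · exfalso
      exact Set.disjoint_left.mp h3 (interior_mono hℓ'.2 hp) (interior_mono h2 hp)
  · intro z hz
    exact Or.inr (Set.mem_iUnion₂.mpr ⟨ℓ, ⟨h1, h2⟩, hz⟩)

lemma subset_hull (u : S.J) : S.A u ⊆ S.hull u := subset_union_left

lemma hull_closed (E : Equi S v) (hv : v ≠ 0) (u : S.J) : IsClosed (S.hull u) := by
  by_cases hu : S.Outer u
  · rw [hull_outer hu]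
    exact S.closed u
  · obtain ⟨ℓ, h1, _, h3, _⟩ := exists_max E hv hu
    rw [h3, Leaf.D_eq h1]
    exact isClosed_closedBall

lemma hull_reg (E : Equi S v) (hv : v ≠ 0) (u : S.J) :
    S.hull u ⊆ closure (interior (S.hull u)) := by
  by_cases hu : S.Outer u
  · rw [hull_outer hu]
    exact (S.nice u).reg
  · obtain ⟨ℓ, h1, _, h3, _⟩ := exists_max E hv hu
    have hr := Leaf.rad_pos h1
    rw [h3, Leaf.D_eq h1, interior_closedBall _ hr.ne', closure_ball _ hr.ne']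

lemma hull_bdd (E : Equi S v) (hv : v ≠ 0) {D : ℝ}
    (hD : ∀ t, ∀ x ∈ S.A t, ∀ y ∈ S.A t, dist x y ≤ D) (u : S.J) :
    ∀ x ∈ S.hull u, ∀ y ∈ S.hull u, dist x y ≤ max D ‖v‖ := by
  by_cases hu : S.Outer u
  · rw [hull_outer hu]
    intro x hx y hy
    exact (hD u x hx y hy).trans (le_max_left _ _)
  · obtain ⟨ℓ, h1, _, h3, _⟩ := exists_max E hv hu
    rw [h3, Leaf.D_eq h1]
    intro x hx y hy
    rw [mem_closedBall] at hx hy
    have h2 := Leaf.rad_le E hv h1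
    calc dist x y ≤ dist x ℓ.cen + dist y ℓ.cen := dist_triangle_right _ _ _
      _ ≤ ‖v‖ := by linarith
      _ ≤ max D ‖v‖ := le_max_right _ _

/-- hulls coincide or have disjoint interiors -/
theorem hull_or (E : Equi S v) (hv : v ≠ 0) (u u' : S.J) :
    S.hull u = S.hull u' ∨ Disjoint (interior (S.hull u)) (S.hull u') := by
  by_cases hu : S.Outer u
  · by_cases hu' : S.Outer u'
    · rw [hull_outer hu, hull_outer hu']
      by_cases h : u = u'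
      · left; rw [h]
      · right; exact S.disj_int u u' h
    · obtain ⟨ℓ, h1, h2, h3, h4⟩ := exists_max E hv hu'
      right
      rw [hull_outer hu, h3, Set.disjoint_left]
      intro w hw hwD
      rcases Leaf.in_or_out h1 u with h5 | h5
      · exact hu ℓ h1 h5
      · have h6 := h5 w (interior_subset hw)
        have h7 : ℓ.H w ≤ 0 := hwD
        exact ℓ.ne_of_mem_interior hw (le_antisymm h7 h6)
  · obtain ⟨ℓ, h1, h2, h3, h4⟩ := exists_max E hv hu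
    have hr := Leaf.rad_pos h1
    by_cases hu' : S.Outer u'
    · right
      rw [hull_outer hu', h3, Set.disjoint_left]
      intro w hw hwA
      rcases Leaf.in_or_out h1 u' with h5 | h5
      · exact hu' ℓ h1 h5
      · have h6 := h5 w hwA
        rw [Leaf.D_eq h1, interior_closedBall _ hr.ne', ← Leaf.neg_eq h1] at hw
        have h7 : ℓ.H w < 0 := hw
        linarith
    · obtain ⟨ℓ', h1', h2', h3', h4'⟩ := exists_max E hv hu'
      have hr' := Leaf.rad_pos h1'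
      rw [h3, h3']
      rcases Leaf.nested h1 h1' with h5 | h5 | h5
      · exact Or.inl (Set.Subset.antisymm h5 (h4 ℓ' h1' h5))
      · exact Or.inl (Set.Subset.antisymm (h4' ℓ h1 h5) h5)
      · right
        refine disj_int_of_reg ?_ h5
        rw [Leaf.D_eq h1', interior_closedBall _ hr'.ne', closure_ball _ hr'.ne']

lemma hull_σ (E : Equi S v) (u : S.J) : S.hull (E.σ u) = Mv.tr v • S.hull u := by
  ext z
  rw [mem_tr_smul]
  simp only [FlexSys.hull, Set.mem_union, Set.mem_iUnion, exists_prop]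
  rw [E.mem_iff]
  constructor
  · rintro (h | ⟨ℓ, ⟨h1, h2⟩, h3⟩)
    · exact Or.inl h
    · right
      refine ⟨ℓ.shift E.symm, ⟨h1, ?_⟩, ?_⟩
      · intro w hw
        show (ℓ.shift E.symm).H w ≤ 0
        rw [Leaf.shift_H, sub_neg_eq_add]
        apply h2
        rw [E.mem_iff, add_sub_cancel_right]
        exact hw
      · show (ℓ.shift E.symm).H (z - v) ≤ 0
        rw [Leaf.shift_H, sub_neg_eq_add, sub_add_cancel]
        exact h3
  · rintro (h | ⟨ℓ, ⟨h1, h2⟩, h3⟩)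
    · exact Or.inl h
    · right
      refine ⟨ℓ.shift E, ⟨h1, ?_⟩, ?_⟩
      · intro w hw
        show (ℓ.shift E).H w ≤ 0
        rw [Leaf.shift_H]
        apply h2
        rwa [← E.mem_iff]
      · show (ℓ.shift E).H z ≤ 0
        rw [Leaf.shift_H]
        exact h3

/-- on a circle, a point in at most two tiles can be found in every open half plane which meets
the disc -/
lemma exists_nt (S : FlexSys) {c : ℂ} {r : ℝ} (hr : 0 < r) (L : ℂ →ₗ[ℝ] ℝ) {M : ℝ}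
    (hM : ∃ z ∈ closedBall c r, M < L z) : ∃ w ∈ sphere c r, M < L w ∧ S.NT w := by
  have hLc : Continuous L := L.continuous_of_finiteDimensional
  have h1 : ∃ z ∈ sphere c r, M < L z := by
    by_contra hcon
    push Not at hcon
    obtain ⟨z, hz, hMz⟩ := hM
    have hconv : Convex ℝ {z : ℂ | L z ≤ M} := convex_halfSpace_le L.isLinear M
    have hsub : convexHull ℝ (sphere c r) ⊆ {z : ℂ | L z ≤ M} :=
      convexHull_min (fun z hz => hcon z hz) hconv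
    rw [convexHull_sphere_eq_closedBall c hr.le] at hsub
    exact absurd (hsub hz) (not_le.2 hMz)
  obtain ⟨z, hz, hMz⟩ := h1
  -- parametrise the circle
  obtain ⟨θ, hθ⟩ : ∃ θ : ℝ, circleMap c r θ = z := by
    have := (range_circleMap c r)
    rw [abs_of_pos hr] at this
    have h2 : z ∈ Set.range (circleMap c r) := by rw [this]; exact hz
    exact h2
  have hopen : ∀ᶠ t in 𝓝 θ, M < L (circleMap c r t) := by
    have h3 : Continuous fun t => L (circleMap c r t) := hLc.comp (continuous_circleMap c r)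
    have h4 : M < L (circleMap c r θ) := by rw [hθ]; exact hMz
    exact h3.continuousAt.eventually (lt_mem_nhds h4)
  obtain ⟨ε, hε, hball⟩ := Metric.eventually_nhds_iff.1 hopen
  set δ := min (ε / 2) 1 with hδ
  have hδ0 : 0 < δ := by rw [hδ]; positivity
  have hδ1 : δ ≤ 1 := min_le_right _ _
  have hδε : δ < ε := (min_le_left _ _).trans_lt (by linarith)
  have hinj : (Set.uIoc θ (θ + δ)).InjOn (circleMap c r) := by
    apply injOn_circleMap_of_abs_sub_le hr.ne'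
    have : θ - (θ + δ) = -δ := by ring
    rw [this, abs_neg, abs_of_pos hδ0]
    have := Real.pi_gt_three
    linarith
  rw [Set.uIoc_of_le (by linarith)] at hinj
  have hinf : (circleMap c r '' Set.Ioc θ (θ + δ)).Infinite :=
    (Set.Ioc_infinite (by linarith)).image hinj
  have hfin := S.fin_not_NT (‖c‖ + r)
  obtain ⟨w, ⟨t, ht, rfl⟩, hnot⟩ := hinf.exists_notMem_finite hfin
  have hsph : circleMap c r t ∈ sphere c r := circleMap_mem_sphere c hr.le t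
  refine ⟨circleMap c r t, hsph, ?_, ?_⟩
  · apply hball
    rw [Real.dist_eq, abs_of_pos (by linarith [ht.1])]
    linarith [ht.2]
  · by_contra hNT
    apply hnot
    refine ⟨hNT, ?_⟩
    rw [mem_closedBall, dist_zero_right]
    rw [mem_sphere, dist_eq_norm] at hsph
    calc ‖circleMap c r t‖ = ‖c + (circleMap c r t - c)‖ := by ring_nf
      _ ≤ ‖c‖ + ‖circleMap c r t - c‖ := norm_add_le _ _
      _ = ‖c‖ + r := by rw [hsph]

/-- The moved tile stays in the hull moved by the motion of an outer tile, which can be chosen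
so that it reaches as high as the hull. Here `L` is any real linear form. -/
theorem hull_rep (E : Equi S v) (hv : v ≠ 0) (u : S.J) (L : ℂ →ₗ[ℝ] ℝ) {M : ℝ}
    (hM : ∃ z ∈ S.hull u, M < L z) :
    ∃ o, S.Outer o ∧ (∃ z ∈ S.A o, M < L z) ∧
      ∀ᶠ n in (S.U : Filter ℕ), S.m n u • S.A u ⊆ S.m n o • S.hull u := by
  by_cases hu : S.Outer u
  · refine ⟨u, hu, ?_, Eventually.of_forall fun n => ?_⟩
    · rwa [hull_outer hu] at hM
    · rw [hull_outer hu]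
  · obtain ⟨ℓ, h1, h2, h3, h4⟩ := exists_max E hv hu
    have hr := Leaf.rad_pos h1
    rw [h3, Leaf.D_eq h1] at hM
    obtain ⟨w, hw, hMw, hNT⟩ := exists_nt S hr L hM
    have hHw : ℓ.H w = 0 := by
      rw [← Leaf.zero_eq h1] at hw
      exact hw
    obtain ⟨a, b, ha, hb, hedge⟩ := ℓ.nt_edge hHw hNT
    obtain ⟨_, hV, r, hr', hloc⟩ := hedge
    have hwa : w ∈ S.A a := (hloc w (mem_ball_self hr')).1.2 le_rfl
    have hnot : ¬ S.A a ⊆ ℓ.D := by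
      intro hsub
      obtain ⟨w', hw', hgt⟩ := ℓ.G.exists_gt hV hr'
      have h5 : w' ∈ S.A a := (hloc w' hw').1.2 hgt.le
      have h6 : ℓ.H w' ≤ 0 := hsub h5
      simp only [Leaf.H] at h6 hHw
      linarith
    refine ⟨a, Leaf.outer_of_max h1 h4 hNT hHw hwa hnot, ⟨w, hwa, hMw⟩, ?_⟩
    have hside := ℓ.side_minus u (fun w hw => h2 hw)
    filter_upwards [hside, ℓ.H_gm, ha] with n hn1 hn2 hn3
    rintro _ ⟨z, hz, rfl⟩
    rw [Set.mem_smul_set_iff_inv_smul_mem, h3]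
    show ℓ.H ((S.m n a)⁻¹ • S.m n u • z) ≤ 0
    rw [hn3]
    have h5 : (S.m n ℓ.s)⁻¹ • S.m n u • z = S.gm n ℓ.s u • z := by
      rw [FlexSys.gm, mul_smul]
    rw [h5, ← hn2, ← mul_smul, S.gm_mul]
    exact hn1 z hz

end H231R2
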