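import Pool.Agent.H231R2.Pass3

/-! # Leaves (complete interfaces between classes of tiles): the API -/

set_option autoImplicit false

open Filter Topology Metric Set
open scoped Pointwise ComplexConjugate

noncomputable section

namespace H231R2

/-- Away from finitely many points in every bounded region, points lie in at most two tiles. -/
theorem FlexSys.fin_not_NT (S : FlexSys) (R : ℝ) : ({z | ¬ S.NT z} ∩ closedBall 0 R).Finite :=
  FlexSys.fin_not_NT' S R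

/-- a leaf: a generator, a base point and two tiles which slide along each other at the base
point -/
structure Leaf (S : FlexSys) where
  G : Gen
  z0 : ℂ
  s : S.J
  t : S.J
  rel : S.Rel G s t
  edge : S.Edge G s t z0

/-- the interior of a nice set is connected -/
lemma Nice.int_preconnected {A : Set ℂ} (hA : Nice A) : IsPreconnected (interior A) := by
  obtain ⟨x, hx⟩ := hA.ne
  refine (IsPathConnected.isConnected ⟨x, hx, fun {y} hy => ?_⟩).isPreconnected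
  have h := hA.joined x (interior_subset hx) y hy
  rwa [Set.insert_eq_of_mem hx] at h

/-- a nice set is on one side of the zero set of a continuous function which does not meet its
interior -/
lemma Nice.one_side {A : Set ℂ} (hA : Nice A) {f : ℂ → ℝ} (hf : Continuous f)
    (h : ∀ w ∈ interior A, f w ≠ 0) : (∀ w ∈ A, 0 ≤ f w) ∨ (∀ w ∈ A, f w ≤ 0) := by
  by_cases hpos : ∃ w1 ∈ interior A, 0 < f w1
  · left
    obtain ⟨w1, hw1, hw1p⟩ := hpos
    have hint : ∀ w ∈ interior A, 0 ≤ f w := by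
      intro w hw
      by_contra hcon
      push Not at hcon
      have himg : IsPreconnected (f '' interior A) := hA.int_preconnected.image _ hf.continuousOn
      obtain ⟨w', hw', hw'0⟩ := himg.ordConnected.out (mem_image_of_mem _ hw)
        (mem_image_of_mem _ hw1) ⟨hcon.le, hw1p.le⟩
      exact h w' hw' hw'0
    intro w hw
    have hcl : IsClosed {w | 0 ≤ f w} := isClosed_le continuous_const hf
    exact hcl.closure_subset_iff.2 hint (hA.reg hw)
  · right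
    push Not at hpos
    intro w hw
    have hcl : IsClosed {w | f w ≤ 0} := isClosed_le hf continuous_const
    exact hcl.closure_subset_iff.2 hpos (hA.reg hw)

namespace Leaf
variable {S : FlexSys} (ℓ : Leaf S)

/-- the carrier is `H = 0`, the side of `s` is `0 ≤ H`, the side of `t` is `H ≤ 0` -/
def H (z : ℂ) : ℝ := ℓ.G.F z - ℓ.G.F ℓ.z0

lemma continuous_H : Continuous ℓ.H := ℓ.G.continuous_F.sub continuous_const

@[simp] lemma H_z0 : ℓ.H ℓ.z0 = 0 := sub_self _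

lemma V_ne : ℓ.G.V ℓ.z0 ≠ 0 := ℓ.edge.2.1

/-- the same leaf with the sides exchanged -/
def flip : Leaf S where
  G := ℓ.G.flip
  z0 := ℓ.z0
  s := ℓ.t
  t := ℓ.s
  rel := ℓ.rel.flip.symm
  edge := ℓ.edge.flip

@[simp] lemma flip_H (z : ℂ) : ℓ.flip.H z = -ℓ.H z := by
  simp only [H, flip, Gen.flip_F]; ring
@[simp] lemma flip_s : ℓ.flip.s = ℓ.t := rfl
@[simp] lemma flip_t : ℓ.flip.t = ℓ.s := rfl
@[simp] lemma flip_z0 : ℓ.flip.z0 = ℓ.z0 := rfl
@[simp] lemma flip_G : ℓ.flip.G = ℓ.G.flip := rfl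

theorem not_eqv : ¬ S.eqv ℓ.s ℓ.t := ℓ.rel.not_eqv

/-- near every point of the carrier there are edges of the leaf -/
lemma edge_near {w : ℂ} (hw : ℓ.H w = 0) {O : Set ℂ} (hO : O ∈ 𝓝 w) :
    ∃ q ∈ O, ∃ s' t', S.eqv s' ℓ.s ∧ S.eqv t' ℓ.t ∧ S.Edge ℓ.G s' t' q ∧ ℓ.H q = 0 := by
  obtain ⟨x, rfl⟩ := ℓ.G.leaf_global ℓ.V_ne (sub_eq_zero.1 hw)
  obtain ⟨δ, hδ, h⟩ := FlexSys.good_all ℓ.rel ℓ.edge x
  have hc : Tendsto (fun x => ℓ.G.Φ x • ℓ.z0) (𝓝 x) (𝓝 (ℓ.G.Φ x • ℓ.z0)) :=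
    (ℓ.G.continuous_orbit ℓ.z0).tendsto x
  have hev : ∀ᶠ y in 𝓝[≠] x, ℓ.G.Φ y • ℓ.z0 ∈ O ∧ |y - x| < δ ∧ y ≠ x := by
    have h1 : ∀ᶠ y in 𝓝[≠] x, |y - x| < δ := by
      apply mem_nhdsWithin_of_mem_nhds
      filter_upwards [ball_mem_nhds x hδ] with y hy
      simpa [Real.dist_eq] using hy
    have h2 : ∀ᶠ y in 𝓝[≠] x, y ≠ x := self_mem_nhdsWithin
    have h3 : ∀ᶠ y in 𝓝[≠] x, ℓ.G.Φ y • ℓ.z0 ∈ O := mem_nhdsWithin_of_mem_nhds (hc hO)
    filter_upwards [h1, h2, h3] with y a b c using ⟨c, a, b⟩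
  obtain ⟨y, h1, h2, h3⟩ := hev.exists
  obtain ⟨s', t', h4, h5, h6⟩ := h y h3 h2
  exact ⟨_, h1, s', t', h4, h5, h6, by simp [H]⟩

/-- interior points of tiles are not on the carrier -/
theorem ne_of_mem_interior {u : S.J} {w : ℂ} (hw : w ∈ interior (S.A u)) : ℓ.H w ≠ 0 := by
  intro h
  obtain ⟨q, hq, s', t', -, -, hE, -⟩ := ℓ.edge_near h (isOpen_interior.mem_nhds hw)
  have h1 := S.eq_of_mem_interior hq hE.left
  have h2 := S.eq_of_mem_interior hq hE.right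
  exact hE.ne (h1.symm.trans h2)

/-- every tile is on one side of the carrier -/
theorem side (u : S.J) : (∀ w ∈ S.A u, 0 ≤ ℓ.H w) ∨ (∀ w ∈ S.A u, ℓ.H w ≤ 0) :=
  (S.nice u).one_side ℓ.continuous_H fun _ hw => ℓ.ne_of_mem_interior hw

theorem not_both (u : S.J) (h : ∀ w ∈ S.A u, 0 ≤ ℓ.H w) (h' : ∀ w ∈ S.A u, ℓ.H w ≤ 0) :
    False := by
  obtain ⟨w, hw⟩ := (S.nice u).ne
  exact ℓ.ne_of_mem_interior hw (le_antisymm (h' w (interior_subset hw)) (h w (interior_subset hw)))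

/-- the sides of the tiles of an edge of the leaf -/
lemma side_of_edge {s' t' : S.J} {q : ℂ} (hE : S.Edge ℓ.G s' t' q) (hq : ℓ.H q = 0) :
    (∀ w ∈ S.A s', 0 ≤ ℓ.H w) ∧ (∀ w ∈ S.A t', ℓ.H w ≤ 0) := by
  obtain ⟨-, hV, r, hr, h⟩ := hE
  constructor
  · rcases ℓ.side s' with h1 | h1
    · exact h1
    · exfalso
      obtain ⟨w, hw, hw2⟩ := ℓ.G.exists_gt hV hr
      have := h1 w ((h w hw).1.2 hw2.le)
      have h3 : ℓ.H w > 0 := by
        simp only [H] at hq ⊢; linarith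
      linarith
  · rcases ℓ.side t' with h1 | h1
    · exfalso
      obtain ⟨w, hw, hw2⟩ := ℓ.G.exists_lt hV hr
      have := h1 w ((h w hw).2.2 hw2.le)
      have h3 : ℓ.H w < 0 := by
        simp only [H] at hq ⊢; linarith
      linarith
    · exact h1

/-- every point of the carrier is in a tile of the class of `s` on the side `0 ≤ H` -/
theorem plus {w : ℂ} (hw : ℓ.H w = 0) :
    ∃ a, S.eqv a ℓ.s ∧ w ∈ S.A a ∧ ∀ w' ∈ S.A a, 0 ≤ ℓ.H w' := by
  obtain ⟨r, hr, h⟩ := S.loc_mem w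
  obtain ⟨q, hq, s', t', hs, -, hE, hq0⟩ := ℓ.edge_near hw (ball_mem_nhds w hr)
  exact ⟨s', hs, h q hq s' hE.left, (ℓ.side_of_edge hE hq0).1⟩

/-- every point of the carrier is in a tile of the class of `t` on the side `H ≤ 0` -/
theorem minus {w : ℂ} (hw : ℓ.H w = 0) :
    ∃ a, S.eqv a ℓ.t ∧ w ∈ S.A a ∧ ∀ w' ∈ S.A a, ℓ.H w' ≤ 0 := by
  obtain ⟨r, hr, h⟩ := S.loc_mem w
  obtain ⟨q, hq, s', t', -, ht, hE, hq0⟩ := ℓ.edge_near hw (ball_mem_nhds w hr)
  exact ⟨t', ht, h q hq t' hE.right, (ℓ.side_of_edge hE hq0).2⟩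

/-- the moved tiles stay on their side of the moved carrier -/
theorem side_plus (u : S.J) (h : ∀ w ∈ S.A u, 0 ≤ ℓ.H w) :
    ∀ᶠ n in (S.U : Filter ℕ), ∀ w ∈ S.A u, 0 ≤ ℓ.H (S.gm n ℓ.t u • w) := by
  -- a bounded region containing the moved tiles
  obtain ⟨w0, hw0⟩ := (S.nice u).ne
  obtain ⟨R, hR⟩ := (S.nice u).bdd.subset_closedBall w0
  have hlim : Tendsto (fun n => S.gm n ℓ.t u • w0) S.U (𝓝 w0) := by
    have := (S.gm_lim ℓ.t u).smul (tendsto_const_nhds (x := w0))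
    simpa using this
  set R' := ‖w0‖ + R + 1 with hR'
  have hbd : ∀ᶠ n in (S.U : Filter ℕ), S.gm n ℓ.t u • S.A u ⊆ closedBall 0 R' := by
    filter_upwards [hlim.eventually (ball_mem_nhds w0 one_pos)] with n hn
    rintro _ ⟨w, hw, rfl⟩
    rw [mem_closedBall]
    have h1 : dist w w0 ≤ R := hR hw
    have h2 : dist (S.gm n ℓ.t u • w) (S.gm n ℓ.t u • w0) ≤ R := by rwa [dist_smul]
    have h3 : dist (S.gm n ℓ.t u • w0) w0 < 1 := hn
    calc dist (S.gm n ℓ.t u • w) 0 ≤ dist (S.gm n ℓ.t u • w) (S.gm n ℓ.t u • w0)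
          + dist (S.gm n ℓ.t u • w0) 0 := dist_triangle _ _ _
      _ ≤ R + (dist (S.gm n ℓ.t u • w0) w0 + dist w0 0) :=
          add_le_add h2 (dist_triangle _ _ _)
      _ ≤ R' := by rw [hR', dist_zero_right]; linarith
  have hB : ({b | (S.A b ∩ closedBall 0 R').Nonempty} ∩ {b | S.eqv b ℓ.t}).Finite :=
    (S.lf R').inter_of_left _
  have hall : ∀ᶠ n in (S.U : Filter ℕ),
      ∀ b ∈ {b | (S.A b ∩ closedBall 0 R').Nonempty} ∩ {b | S.eqv b ℓ.t},
        S.gm n ℓ.t b = 1 ∧ (b ≠ u →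
          Disjoint (interior (S.gm n ℓ.t u • S.A u)) (interior (S.gm n ℓ.t b • S.A b))) := by
    rw [Filter.eventually_all_finite hB]
    rintro b ⟨-, hb⟩
    by_cases hbu : b = u
    · filter_upwards [hb] with n hn
      exact ⟨by rw [FlexSys.gm, hn, inv_mul_cancel], fun h => absurd hbu h⟩
    · filter_upwards [hb, S.disj_gm ℓ.t u b (Ne.symm hbu)] with n hn hn2
      exact ⟨by rw [FlexSys.gm, hn, inv_mul_cancel], fun _ => hn2⟩
  obtain ⟨w1, hw1⟩ := (S.nice u).ne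
  have hH1 : 0 < ℓ.H w1 :=
    lt_of_le_of_ne (h w1 (interior_subset hw1)) (ℓ.ne_of_mem_interior hw1).symm
  have hlim1 : Tendsto (fun n => ℓ.H (S.gm n ℓ.t u • w1)) S.U (𝓝 (ℓ.H w1)) := by
    have h1 : Tendsto (fun n => S.gm n ℓ.t u • w1) S.U (𝓝 w1) := by
      have := (S.gm_lim ℓ.t u).smul (tendsto_const_nhds (x := w1))
      simpa using this
    exact (ℓ.continuous_H.tendsto _).comp h1
  filter_upwards [hbd, hall, hlim1.eventually (lt_mem_nhds hH1)] with n hn1 hn2 hn3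
  have hne : ∀ q ∈ interior (S.gm n ℓ.t u • S.A u), ℓ.H q ≠ 0 := by
    intro q hq hq0
    obtain ⟨b, hb, hqb, hbs⟩ := ℓ.minus hq0
    have hbB : b ∈ {b | (S.A b ∩ closedBall 0 R').Nonempty} ∩ {b | S.eqv b ℓ.t} :=
      ⟨⟨q, hqb, hn1 (interior_subset hq)⟩, hb⟩
    obtain ⟨h1, h2⟩ := hn2 b hbB
    have hbu : b ≠ u := by
      rintro rfl
      exact ℓ.not_both b h hbs
    have h3 := h2 hbu
    rw [h1, one_smul] at h3
    exact Set.disjoint_left.1 (disj_int_of_reg (S.nice b).reg h3) hq hqb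
  rcases ((S.nice u).smul (S.gm n ℓ.t u)).one_side ℓ.continuous_H hne with h1 | h1
  · intro w hw
    exact h1 _ (Set.smul_mem_smul_set hw)
  · exfalso
    have := h1 _ (Set.smul_mem_smul_set (interior_subset hw1))
    linarith

/-- `H` seen from `s` or from `t` is the same -/
theorem H_gm : ∀ᶠ n in (S.U : Filter ℕ), ∀ w, ℓ.H (S.gm n ℓ.t ℓ.s • w) = ℓ.H w := by
  obtain ⟨x, -, hx⟩ := ℓ.rel
  filter_upwards [hx] with n hn w
  rw [hn.2, H, H, Gen.F_Φ]

theorem side_minus (u : S.J) (h : ∀ w ∈ S.A u, ℓ.H w ≤ 0) :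
    ∀ᶠ n in (S.U : Filter ℕ), ∀ w ∈ S.A u, ℓ.H (S.gm n ℓ.t u • w) ≤ 0 := by
  have h1 := ℓ.flip.side_plus u (fun w hw => by rw [flip_H]; linarith [h w hw])
  filter_upwards [h1, ℓ.H_gm] with n hn hn2 w hw
  have h3 := hn w hw
  rw [flip_H, flip_t] at h3
  have h4 : S.gm n ℓ.t u • w = S.gm n ℓ.t ℓ.s • S.gm n ℓ.s u • w := by
    rw [← mul_smul, S.gm_mul]
  rw [h4, hn2]
  linarith

/-- at a point of the carrier in at most two tiles, the two tiles are of the classes of `s` and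
`t` -/
theorem nt_edge {w : ℂ} (hw : ℓ.H w = 0) (hNT : S.NT w) :
    ∃ a b, S.eqv a ℓ.s ∧ S.eqv b ℓ.t ∧ S.Edge ℓ.G a b w := by
  obtain ⟨r, hr, h⟩ := S.loc_mem w
  obtain ⟨q, hq, s', t', hs, ht, hE, hq0⟩ := ℓ.edge_near hw (ball_mem_nhds w hr)
  refine ⟨s', t', hs, ht, ?_⟩
  rcases FlexSys.edge_of_rel (ℓ.rel.congr hs ht) hNT (h q hq s' hE.left) (h q hq t' hE.right)
    with h1 | h1
  · exact h1
  · exfalso
    have h2 := ℓ.side_of_edge hE hq0
    have h3 := ℓ.side_of_edge h1 hw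
    exact ℓ.not_both s' h2.1 h3.2

/-- every contact point of two tiles of different classes in no third tile is on a leaf -/
theorem exists_leaf {w : ℂ} {a b : S.J} (hNT : S.NT w) (ha : w ∈ S.A a) (hb : w ∈ S.A b)
    (hab : ¬ S.eqv a b) : ∃ ℓ : Leaf S, ℓ.z0 = w ∧ ℓ.s = a ∧ ℓ.t = b := by
  obtain ⟨G, hrel, hE⟩ := FlexSys.edge_exists hNT ha hb hab
  exact ⟨⟨G, w, a, b, hrel, hE⟩, rfl, rfl, rfl⟩

/-- through a point in at most two tiles there is at most one leaf -/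
theorem uniq (ℓ ℓ' : Leaf S) {w : ℂ} (hNT : S.NT w) (h : ℓ.H w = 0) (h' : ℓ'.H w = 0) :
    ∃ l : ℝ, l ≠ 0 ∧ ∀ z, ℓ'.H z = l * ℓ.H z := by
  obtain ⟨a, b, ha, hb, hE⟩ := ℓ.nt_edge h hNT
  obtain ⟨a', b', ha', hb', hE'⟩ := ℓ'.nt_edge h' hNT
  have hrel := ℓ.rel.congr ha hb
  have hrel' := ℓ'.rel.congr ha' hb'
  have hsim : ℓ.G.Sim ℓ'.G := by
    have h1 : a' = a ∨ a' = b := by
      rcases hNT a b a' hE.left hE.right hE'.left with e | e | e
      · exact absurd e hE.ne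
      · exact Or.inr e.symm
      · exact Or.inl e.symm
    have h2 : b' = a ∨ b' = b := by
      rcases hNT a b b' hE.left hE.right hE'.right with e | e | e
      · exact absurd e hE.ne
      · exact Or.inr e.symm
      · exact Or.inl e.symm
    rcases h1 with e1 | e1 <;> rcases h2 with e2 | e2
    · exact absurd (e1.trans e2.symm) hE'.ne
    · rw [e1, e2] at hrel'
      exact hrel.sim hrel'
    · rw [e1, e2] at hrel'
      exact hrel.sim hrel'.symm
    · exact absurd (e1.trans e2.symm) hE'.ne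
  obtain ⟨l, hl, hl2⟩ := hsim
  refine ⟨l, hl, fun z => ?_⟩
  have h3 := hl2 z w
  simp only [H] at h h' ⊢
  have e1 : ℓ.G.F w = ℓ.G.F ℓ.z0 := by linarith
  have e2 : ℓ'.G.F w = ℓ'.G.F ℓ'.z0 := by linarith
  rw [← e1, ← e2]
  exact h3

end Leaf

end H231R2
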