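import Pool.Agent.H231R2.Defs

/-! # Local finiteness, motions of nice sets (task 6) -/

set_option autoImplicit false

open Filter Topology Metric Set
open scoped Pointwise ComplexConjugate

noncomputable section

namespace H231R2

lemma interior_smul_mv (g : Mv) (A : Set ℂ) : interior (g • A) = g • interior A :=
  interior_smul g A

lemma Nice.smul {P : Set ℂ} (h : Nice P) (g : Mv) : Nice (g • P) where
  closed := h.closed.smul g
  bdd := h.bdd.smul g
  reg := by
    rw [interior_smul_mv, closure_smul]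
    exact Set.smul_set_mono h.reg
  ne := by
    rw [interior_smul_mv]
    exact h.ne.smul_set
  joined := by
    intro p hp x hx
    rw [interior_smul_mv] at hx ⊢
    obtain ⟨p', hp', rfl⟩ := hp
    obtain ⟨x', hx', rfl⟩ := hx
    obtain ⟨γ, hγ⟩ := h.joined p' hp' x' hx'
    refine ⟨γ.map (continuous_const_smul g), ?_⟩
    intro t
    have := hγ t
    simp only [Path.map_coe, Function.comp_apply]
    rcases this with h1 | h1
    · left
      show g • γ t = g • p'
      rw [h1]
    · right
      exact Set.smul_mem_smul_set h1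
  loc := by
    intro q hq ε hε
    obtain ⟨q', hq', rfl⟩ := hq
    obtain ⟨δ, hδ, H⟩ := h.loc q' hq' ε hε
    refine ⟨δ, hδ, ?_⟩
    intro x hx hxq
    obtain ⟨x', hx', rfl⟩ := hx
    have hd : dist x' q' < δ := by
      have : dist (g • x') (g • q') = dist x' q' := dist_smul g x' q'
      rw [← this]; exact hxq
    obtain ⟨K, hK1, hK2, hK3, hK4⟩ := H x' hx' hd
    refine ⟨g • K, ?_, ?_, Set.smul_mem_smul_set hK3, Set.smul_mem_smul_set hK4⟩
    · intro y hy
      obtain ⟨y', hy', rfl⟩ := hy
      refine ⟨Set.smul_mem_smul_set (hK1 hy').1, ?_⟩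
      have h1 : dist y' q' < ε := (hK1 hy').2
      show dist (g • y') (g • q') < ε
      rw [dist_smul]
      exact h1
    · exact hK2.image _ (continuous_const_smul g).continuousOn

/-- Sets with disjoint interiors which contain a ball of radius `r` and have diameter at most `D`
are locally finite. -/
lemma locfin {J : Type} (A : J → Set ℂ) {r D : ℝ} (hr : 0 < r)
    (hb : ∀ t, ∃ c, ball c r ⊆ A t) (hD : ∀ t, ∀ x ∈ A t, ∀ y ∈ A t, dist x y ≤ D)
    (hdisj : ∀ s t, s ≠ t → Disjoint (interior (A s)) (interior (A t))) (R : ℝ) :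
    {t | (A t ∩ closedBall 0 R).Nonempty}.Finite := by
  choose c hc using hb
  have htb : TotallyBounded (closedBall (0 : ℂ) (R + D)) :=
    (isCompact_closedBall (0 : ℂ) (R + D)).totallyBounded
  obtain ⟨F, hF, hcov⟩ := Metric.totallyBounded_iff.mp htb (r / 2) (half_pos hr)
  have hmem : ∀ t ∈ {t | (A t ∩ closedBall 0 R).Nonempty}, ∃ y ∈ F, c t ∈ ball y (r / 2) := by
    rintro t ⟨x, hx1, hx2⟩
    have h1 : c t ∈ closedBall (0 : ℂ) (R + D) := by
      rw [mem_closedBall] at hx2 ⊢
      have h2 : dist (c t) x ≤ D := hD t _ (hc t (mem_ball_self hr)) _ hx1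
      calc dist (c t) 0 ≤ dist (c t) x + dist x 0 := dist_triangle _ _ _
        _ ≤ D + R := add_le_add h2 hx2
        _ = R + D := add_comm _ _
    have h3 := hcov h1
    simp only [mem_iUnion, exists_prop] at h3
    exact h3
  choose! f hf1 hf2 using hmem
  refine Set.Finite.of_injOn (f := f) (fun t ht => hf1 t ht) ?_ hF
  intro s hs t ht hst
  by_contra hne
  have h1 : dist (c s) (f s) < r / 2 := hf2 s hs
  have h2 : dist (c t) (f t) < r / 2 := hf2 t ht
  rw [hst] at h1
  have h3 : dist (c s) (c t) < r := by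
    calc dist (c s) (c t) ≤ dist (c s) (f t) + dist (f t) (c t) := dist_triangle _ _ _
      _ < r / 2 + r / 2 := by rw [dist_comm (f t)]; exact add_lt_add h1 h2
      _ = r := by ring
  have h4 : c s ∈ interior (A s) := interior_maximal (hc s) isOpen_ball (mem_ball_self hr)
  have h5 : c s ∈ interior (A t) := interior_maximal (hc t) isOpen_ball h3
  exact Set.disjoint_left.mp (hdisj s t hne) h4 h5

/-- uniform inscribed balls and diameters -/
lemma bounds {N : ℕ} {P : Fin N → Set ℂ} (hP : ∀ i, Nice (P i)) :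
    ∃ r D : ℝ, 0 < r ∧ 0 < D ∧ ∀ (g : Mv) (i : Fin N), (∃ c, ball c r ⊆ g • P i) ∧
      ∀ x ∈ g • P i, ∀ y ∈ g • P i, dist x y ≤ D := by
  have h1 : ∀ i, ∃ c, ∃ ε > 0, ball c ε ⊆ P i := by
    intro i
    obtain ⟨x, hx⟩ := (hP i).ne
    obtain ⟨ε, hε, h⟩ := Metric.isOpen_iff.mp isOpen_interior x hx
    exact ⟨x, ε, hε, h.trans interior_subset⟩
  have h2 : ∀ i, ∃ C, ∀ x ∈ P i, ∀ y ∈ P i, dist x y ≤ C := by
    intro i
    obtain ⟨C, hC⟩ := Metric.isBounded_iff.mp (hP i).bdd
    exact ⟨C, fun x hx y hy => hC hx hy⟩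
  choose c ε hε hball using h1
  choose C hC using h2
  have e1 : ∀ᶠ r in 𝓝[>] (0 : ℝ), ∀ i, r ≤ ε i := by
    rw [Filter.eventually_all]
    intro i
    filter_upwards [Ioo_mem_nhdsGT (hε i)] with r hr using hr.2.le
  have e2 : ∀ᶠ D in (atTop : Filter ℝ), ∀ i, C i ≤ D := by
    rw [Filter.eventually_all]
    intro i
    exact eventually_ge_atTop _
  obtain ⟨r, hr1, hr2⟩ := (e1.and self_mem_nhdsWithin).exists
  obtain ⟨D, hD1, hD2⟩ := (e2.and (eventually_gt_atTop 0)).exists
  refine ⟨r, D, hr2, hD2, ?_⟩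
  intro g i
  constructor
  · refine ⟨g • c i, ?_⟩
    rw [← Metric.smul_ball]
    exact Set.smul_set_mono ((ball_subset_ball (hr1 i)).trans (hball i))
  · rintro x ⟨x', hx', rfl⟩ y ⟨y', hy', rfl⟩
    show dist (g • x') (g • y') ≤ D
    rw [dist_smul]
    exact (hC i x' hx' y' hy').trans (hD1 i)

lemma Tiling.lf {N : ℕ} {P : Fin N → Set ℂ} (hP : ∀ i, Nice (P i)) (T : Tiling P) (R : ℝ) :
    {t | (T.tile t ∩ closedBall 0 R).Nonempty}.Finite := by
  obtain ⟨r, D, hr, hD, H⟩ := bounds hP
  exact locfin T.tile hr (fun t => (H (T.g t) (T.idx t)).1) (fun t => (H (T.g t) (T.idx t)).2)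
    T.disj R

/-- A closed set and a nice set whose interiors are disjoint: the interior of the nice set is
disjoint from every regular closed set with disjoint interior. -/
lemma disj_int_of_reg {A B : Set ℂ} (hB : B ⊆ closure (interior B))
    (h : Disjoint (interior A) (interior B)) : Disjoint (interior A) B :=
  (h.closure_right isOpen_interior).mono_right hB

end H231R2
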