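import Pool.Agent.H231R2.FlexBasic
import Pool.Agent.H231R2.Flow

/-! # Local structure of the interface at a point in two tiles -/

set_option autoImplicit false

open Filter Topology Metric Set
open scoped Pointwise ComplexConjugate

noncomputable section

namespace H231R2
namespace FlexSys
variable {S : FlexSys}

theorem fin_not_NT' (S : FlexSys) (R : ℝ) : ({z | ¬ S.NT z} ∩ closedBall 0 R).Finite := by
  classical
  have hfin := S.lf R
  set I := {t | (S.A t ∩ closedBall 0 R).Nonempty} with hI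
  have hsub : ({z | ¬ S.NT z} ∩ closedBall 0 R) ⊆
      ⋃ x ∈ ((I ×ˢ (I ×ˢ I)) ∩ {x : S.J × S.J × S.J | x.1 ≠ x.2.1 ∧ x.2.1 ≠ x.2.2 ∧ x.1 ≠ x.2.2}),
        (S.A x.1 ∩ S.A x.2.1 ∩ S.A x.2.2) := by
    rintro z ⟨hz, hzR⟩
    simp only [mem_setOf_eq, NT, not_forall, not_or] at hz
    obtain ⟨s, t, u, hs, ht, hu, h1, h2, h3⟩ := hz
    simp only [mem_iUnion]
    exact ⟨(s, t, u), ⟨⟨⟨z, hs, hzR⟩, ⟨z, ht, hzR⟩, ⟨z, hu, hzR⟩⟩, h1, h2, h3⟩, ⟨hs, ht⟩, hu⟩
  refine Set.Finite.subset (Set.Finite.biUnion (((hfin.prod (hfin.prod hfin))).inter_of_left _) ?_)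
    hsub
  rintro ⟨s, t, u⟩ ⟨-, h1, h2, h3⟩
  by_contra hinf
  obtain ⟨F, hF, hF3⟩ := (show (S.A s ∩ S.A t ∩ S.A u).Infinite from hinf).exists_subset_card_eq 3
  obtain ⟨p, q, r, hpq, hpr, hqr, rfl⟩ := Finset.card_eq_three.1 hF3
  simp only [Finset.coe_insert, Finset.coe_singleton, Set.insert_subset_iff,
    Set.singleton_subset_iff] at hF
  exact three_common (S.nice s) (S.nice t) (S.nice u) (S.disj s t h1) (S.disj t u h2)
    (S.disj s u h3) hpq hqr hpr hF.1 hF.2.1 hF.2.2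

theorem isolated (S : FlexSys) (p : ℂ) : ∃ δ > 0, ∀ w ∈ ball p δ, w ≠ p → S.NT w := by
  have hfin : (({z | ¬ S.NT z} ∩ closedBall 0 (‖p‖ + 1)) \ {p}).Finite :=
    (S.fin_not_NT' _).diff
  have hp : p ∈ (({z | ¬ S.NT z} ∩ closedBall 0 (‖p‖ + 1)) \ {p})ᶜ := by
    simp
  obtain ⟨r, hr, hrb⟩ := Metric.isOpen_iff.1 hfin.isClosed.isOpen_compl p hp
  refine ⟨min r 1, by positivity, ?_⟩
  intro w hw hwp
  by_contra hN
  have hw1 : w ∈ ball p r := ball_subset_ball (min_le_left _ _) hw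
  have hw2 : w ∈ ball p 1 := ball_subset_ball (min_le_right _ _) hw
  apply hrb hw1
  refine ⟨⟨hN, ?_⟩, hwp⟩
  rw [mem_closedBall, dist_zero_right]
  have : ‖w - p‖ < 1 := by rwa [← dist_eq_norm]
  calc ‖w‖ = ‖p + (w - p)‖ := by ring_nf
    _ ≤ ‖p‖ + ‖w - p‖ := norm_add_le _ _
    _ ≤ ‖p‖ + 1 := by linarith

/-! ### Relations -/

lemma Rel.not_eqv {G : Gen} {s t : S.J} (h : S.Rel G s t) : ¬ S.eqv s t := by
  obtain ⟨x, hx, h⟩ := h
  obtain ⟨ε, hε, hinj⟩ := G.Φ_inj_near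
  intro he
  have h2 : ∀ᶠ n in (S.U : Filter ℕ), |x n| < ε := by
    have := hx.eventually (ball_mem_nhds (0 : ℝ) hε)
    filter_upwards [this] with n hn
    simpa [dist_eq_norm] using hn
  obtain ⟨n, hn1, ⟨hn2, hn3⟩, hn4⟩ := (he.and (h.and h2)).exists
  apply hn2
  apply hinj _ _ hn4 (by simpa using hε)
  rw [← hn3, gm, hn1, Gen.Φ_zero]
  simp

lemma Rel.ne {G : Gen} {s t : S.J} (h : S.Rel G s t) : s ≠ t := by
  intro e
  apply h.not_eqv
  rw [e]
  exact S.eqv_refl t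

lemma Rel.flip {G : Gen} {s t : S.J} (h : S.Rel G s t) : S.Rel G.flip s t := by
  obtain ⟨x, hx, h⟩ := h
  refine ⟨x, hx, ?_⟩
  filter_upwards [h] with n hn
  simpa using hn

lemma Rel.symm {G : Gen} {s t : S.J} (h : S.Rel G s t) : S.Rel G t s := by
  obtain ⟨x, hx, h⟩ := h
  refine ⟨fun n => -x n, by simpa using hx.neg, ?_⟩
  filter_upwards [h] with n hn
  refine ⟨by simpa using hn.1, ?_⟩
  rw [Gen.Φ_neg, ← hn.2, gm_inv]

lemma Rel.rev {G : Gen} {s t : S.J} (h : S.Rel G s t) : S.Rel G.rev s t := by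
  obtain ⟨x, hx, h⟩ := h
  refine ⟨fun n => -x n, by simpa using hx.neg, ?_⟩
  filter_upwards [h] with n hn
  refine ⟨by simpa using hn.1, ?_⟩
  rw [Gen.rev_Φ, neg_neg, hn.2]

lemma Rel.congr {G : Gen} {s t s' t' : S.J} (h : S.Rel G s t) (hs : S.eqv s' s)
    (ht : S.eqv t' t) : S.Rel G s' t' := by
  obtain ⟨x, hx, h⟩ := h
  refine ⟨x, hx, ?_⟩
  filter_upwards [h, hs, ht] with n hn h1 h2
  refine ⟨hn.1, ?_⟩
  rw [gm, h1, h2]
  exact hn.2

lemma Rel.sim {G G' : Gen} {s t : S.J} (h : S.Rel G s t) (h' : S.Rel G' s t) : G.Sim G' := by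
  have hne := h.not_eqv
  obtain ⟨x, hx, h⟩ := h
  obtain ⟨x', hx', h'⟩ := h'
  rw [not_eqv_iff] at hne
  obtain ⟨n, hn, hn', hn1⟩ := (h.and (h'.and hne)).exists
  refine Gen.sim_of_Φ_eq (x := x n) (y := x' n) (by rw [← hn.2, ← hn'.2]) ?_
  rw [← hn.2, gm]
  intro e
  exact hn1 (by rw [inv_mul_eq_one] at e; exact e.symm)

lemma Rel.of_sim {G G' : Gen} {s t : S.J} (h : S.Rel G s t) (h' : G.Sim G') : S.Rel G' s t := by
  obtain ⟨x, hx, h⟩ := h
  obtain ⟨l, hl, hl2⟩ := Gen.sim_scale h'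
  refine ⟨fun n => l * x n, by simpa using hx.const_mul l, ?_⟩
  filter_upwards [h] with n hn
  exact ⟨mul_ne_zero hl hn.1, by rw [hn.2, hl2]⟩

/-! ### Edges -/

lemma Edge.nt {G : Gen} {s t : S.J} {z : ℂ} (h : S.Edge G s t z) : S.NT z := h.1
lemma Edge.V_ne {G : Gen} {s t : S.J} {z : ℂ} (h : S.Edge G s t z) : G.V z ≠ 0 := h.2.1

lemma Edge.left {G : Gen} {s t : S.J} {z : ℂ} (h : S.Edge G s t z) : z ∈ S.A s := by
  obtain ⟨-, -, r, hr, h⟩ := h
  exact (h z (mem_ball_self hr)).1.2 le_rfl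

lemma Edge.right {G : Gen} {s t : S.J} {z : ℂ} (h : S.Edge G s t z) : z ∈ S.A t := by
  obtain ⟨-, -, r, hr, h⟩ := h
  exact (h z (mem_ball_self hr)).2.2 le_rfl

lemma Edge.flip {G : Gen} {s t : S.J} {z : ℂ} (h : S.Edge G s t z) : S.Edge G.flip t s z := by
  obtain ⟨h1, h2, r, hr, h⟩ := h
  refine ⟨h1, by simpa using h2, r, hr, fun w hw => ?_⟩
  obtain ⟨h3, h4⟩ := h w hw
  simp only [Gen.flip_F, neg_le_neg_iff]
  exact ⟨h4, h3⟩

lemma Edge.rev {G : Gen} {s t : S.J} {z : ℂ} (h : S.Edge G s t z) : S.Edge G.rev s t z := by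
  obtain ⟨h1, h2, r, hr, h⟩ := h
  refine ⟨h1, by simpa using h2, r, hr, fun w hw => ?_⟩
  simpa using h w hw

lemma Edge.of_rev {G : Gen} {s t : S.J} {z : ℂ} (h : S.Edge G.rev s t z) : S.Edge G s t z := by
  obtain ⟨h1, h2, r, hr, h⟩ := h
  refine ⟨h1, by simpa using h2, r, hr, fun w hw => ?_⟩
  simpa using h w hw

lemma Edge.ne {G : Gen} {s t : S.J} {z : ℂ} (h : S.Edge G s t z) : s ≠ t := by
  obtain ⟨h1, h2, r, hr, h⟩ := h
  obtain ⟨w, hw, hw2⟩ := G.exists_gt h2 hr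
  rintro rfl
  exact absurd ((h w hw).2.1 ((h w hw).1.2 hw2.le)) (not_le.2 hw2)

/-- the edge persists along the leaf, at nearby points in at most two tiles -/
lemma Edge.near {G : Gen} {s t : S.J} {z : ℂ} (h : S.Edge G s t z) :
    ∃ r > 0, ∀ w ∈ ball z r, G.F w = G.F z → S.NT w → S.Edge G s t w := by
  obtain ⟨h1, h2, r, hr, h⟩ := h
  have hV : ∀ᶠ w in 𝓝 z, G.V w ≠ 0 := G.continuous_V.continuousAt.eventually_ne h2
  obtain ⟨r', hr', hV'⟩ := Metric.eventually_nhds_iff_ball.1 hV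
  refine ⟨min r r', by positivity, fun w hw hF hN => ⟨hN, ?_, ?_⟩⟩
  · exact hV' w (ball_subset_ball (min_le_right _ _) hw)
  · have hw1 : w ∈ ball z r := ball_subset_ball (min_le_left _ _) hw
    obtain ⟨e, he, heb⟩ := Metric.isOpen_iff.1 (isOpen_ball (x := z) (ε := r)) w hw1
    refine ⟨e, he, fun w' hw' => ?_⟩
    rw [hF]
    exact h w' (heb hw')

lemma Edge.not_flip {G : Gen} {s t s' t' : S.J} {z : ℂ} (h : S.Edge G s t z)
    (h' : S.Edge G s' t' z) (e : s = t') : False := by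
  obtain ⟨h1, h2, r, hr, h⟩ := h
  obtain ⟨-, -, r', hr', h'⟩ := h'
  obtain ⟨w, hw, hw2⟩ := G.exists_gt h2 (lt_min hr hr')
  have hw1 : w ∈ ball z r := ball_subset_ball (min_le_left _ _) hw
  have hw3 : w ∈ ball z r' := ball_subset_ball (min_le_right _ _) hw
  subst e
  exact absurd ((h' w hw3).2.1 ((h w hw1).1.2 hw2.le)) (not_le.2 hw2)

/-- the two sides of an edge are determined by the point -/
lemma Edge.unique {G : Gen} {s t s' t' : S.J} {z : ℂ} (h : S.Edge G s t z)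
    (h' : S.Edge G s' t' z) : s = s' ∧ t = t' := by
  have hst := h.ne
  have hst' := h'.ne
  have h1 : s = s' := by
    rcases h.nt s' t' s h'.left h'.right h.left with e | e | e
    · exact absurd e hst'
    · exact (h.not_flip h' e.symm).elim
    · exact e.symm
  refine ⟨h1, ?_⟩
  rcases h.nt s' t' t h'.left h'.right h.right with e | e | e
  · exact absurd e hst'
  · exact e.symm
  · exact absurd (h1.trans e) hst

lemma Edge.of_sim_pos {G G' : Gen} {s t : S.J} {z : ℂ} (h : S.Edge G s t z) (hs : G.Sim G')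
    {l : ℝ} (hl : 0 < l) (hl2 : ∀ z w, G'.F z - G'.F w = l * (G.F z - G.F w)) :
    S.Edge G' s t z := by
  obtain ⟨h1, h2, r, hr, h⟩ := h
  refine ⟨h1, hs.V_ne h2, r, hr, fun w hw => ?_⟩
  have e := hl2 w z
  have h3 := h w hw
  rw [h3.1, h3.2]
  constructor
  · constructor
    · intro h4
      have := mul_nonneg hl.le (sub_nonneg.2 h4)
      linarith
    · intro h4
      by_contra h5
      push Not at h5
      have := mul_pos hl (sub_pos.2 h5)
      nlinarith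
  · constructor
    · intro h4
      have := mul_nonneg hl.le (sub_nonneg.2 h4)
      nlinarith
    · intro h4
      by_contra h5
      push Not at h5
      have := mul_pos hl (sub_pos.2 h5)
      nlinarith

end FlexSys
end H231R2
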