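import Pool.Agent.H231R2.LeafApi

/-! # Leaves do not cross (task 10) -/

set_option autoImplicit false

open Filter Topology Metric Set
open scoped Pointwise ComplexConjugate

noncomputable section

namespace H231R2

/-- a circle or a line `h = 0`, moved by the motions `(k n)⁻¹` tending to `1`, such that the
moved tiles stay on one side of it -/
structure MovingCurve (S : FlexSys) where
  α : ℝ
  γ : ℂ
  δ : ℝ
  k : ℕ → Mv
  k_lim : Tendsto k S.U (𝓝 1)
  side : ∀ u, (∀ᶠ n in (S.U : Filter ℕ), ∀ w ∈ S.A u,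
      0 ≤ α * ‖k n • S.m n u • w‖ ^ 2 + (conj γ * (k n • S.m n u • w)).re + δ) ∨
    (∀ᶠ n in (S.U : Filter ℕ), ∀ w ∈ S.A u,
      α * ‖k n • S.m n u • w‖ ^ 2 + (conj γ * (k n • S.m n u • w)).re + δ ≤ 0)

namespace MovingCurve
variable {S : FlexSys} (K : MovingCurve S)

def h (z : ℂ) : ℝ := K.α * ‖z‖ ^ 2 + (conj K.γ * z).re + K.δ

lemma continuous_h : Continuous K.h := by
  unfold h
  fun_prop

/-- the moved points of a fixed tile tend to the original ones -/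
lemma tendsto_pt (u : S.J) (w : ℂ) :
    Tendsto (fun n => K.k n • S.m n u • w) S.U (𝓝 w) := by
  have h1 : Tendsto (fun n => K.k n • S.m n u • w) S.U (𝓝 ((1 : Mv) • (1 : Mv) • w)) :=
    K.k_lim.smul ((S.m_lim u).smul tendsto_const_nhds)
  simpa using h1

lemma tendsto_h (u : S.J) (w : ℂ) :
    Tendsto (fun n => K.h (K.k n • S.m n u • w)) S.U (𝓝 (K.h w)) :=
  (K.continuous_h.tendsto w).comp (K.tendsto_pt u w)

lemma side_pos {u : S.J} {w : ℂ} (hw : w ∈ S.A u) (hp : 0 < K.h w) :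
    ∀ᶠ n in (S.U : Filter ℕ), ∀ w ∈ S.A u, 0 ≤ K.h (K.k n • S.m n u • w) := by
  rcases K.side u with h1 | h1
  · exact h1
  · exfalso
    have h2 : ∀ᶠ n in (S.U : Filter ℕ), K.h (K.k n • S.m n u • w) ≤ 0 := by
      filter_upwards [h1] with n hn using hn w hw
    exact absurd (le_of_tendsto (K.tendsto_h u w) h2) (not_le.mpr hp)

lemma side_neg {u : S.J} {w : ℂ} (hw : w ∈ S.A u) (hp : K.h w < 0) :
    ∀ᶠ n in (S.U : Filter ℕ), ∀ w ∈ S.A u, K.h (K.k n • S.m n u • w) ≤ 0 := by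
  rcases K.side u with h1 | h1
  · exfalso
    have h2 : ∀ᶠ n in (S.U : Filter ℕ), 0 ≤ K.h (K.k n • S.m n u • w) := by
      filter_upwards [h1] with n hn using hn w hw
    exact absurd (ge_of_tendsto (K.tendsto_h u w) h2) (not_le.mpr hp)
  · exact h1

/-- `w` is a limit of points of the leaf with `h > 0` and of points with `h < 0` -/
def Both (ℓ : Leaf S) (w : ℂ) : Prop :=
  (∀ ρ > 0, ∃ w' ∈ ball w ρ, ℓ.H w' = 0 ∧ 0 < K.h w') ∧
    (∀ ρ > 0, ∃ w' ∈ ball w ρ, ℓ.H w' = 0 ∧ K.h w' < 0)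

lemma Both.zero {K : MovingCurve S} {ℓ : Leaf S} {w : ℂ} (hw : K.Both ℓ w) :
    ∀ᶠ n in (S.U : Filter ℕ), K.h (K.k n • S.m n ℓ.s • w) = 0 ∧
      K.h (K.k n • S.m n ℓ.t • w) = 0 := by
  obtain ⟨ρ, hρ, hloc⟩ := S.loc_mem w
  obtain ⟨w1, hw1, hH1, hp1⟩ := hw.1 ρ hρ
  obtain ⟨w2, hw2, hH2, hp2⟩ := hw.2 ρ hρ
  obtain ⟨a1, ha1, ham1, -⟩ := ℓ.plus hH1
  obtain ⟨b1, hb1, hbm1, -⟩ := ℓ.minus hH1
  obtain ⟨a2, ha2, ham2, -⟩ := ℓ.plus hH2
  obtain ⟨b2, hb2, hbm2, -⟩ := ℓ.minus hH2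
  filter_upwards [ha1, hb1, ha2, hb2, K.side_pos ham1 hp1, K.side_pos hbm1 hp1,
    K.side_neg ham2 hp2, K.side_neg hbm2 hp2] with n e1 e2 e3 e4 s1 s2 s3 s4
  have t1 := s1 w (hloc w1 hw1 a1 ham1)
  have t2 := s2 w (hloc w1 hw1 b1 hbm1)
  have t3 := s3 w (hloc w2 hw2 a2 ham2)
  have t4 := s4 w (hloc w2 hw2 b2 hbm2)
  rw [e1] at t1
  rw [e2] at t2
  rw [e3] at t3
  rw [e4] at t4
  exact ⟨le_antisymm t3 t1, le_antisymm t4 t2⟩

/-- the form of `h` after a motion -/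
lemma h_smul (q : Mv) (z : ℂ) :
    K.h (q • z) = K.α * ‖z‖ ^ 2 + (conj (conj q.a * (2 * K.α * q.b + K.γ)) * z).re +
      (K.α * ‖q.b‖ ^ 2 + (conj K.γ * q.b).re + K.δ) := by
  have ha : q.a.re ^ 2 + q.a.im ^ 2 = 1 := by
    have h1 := q.ha
    have h2 : ‖q.a‖ ^ 2 = 1 := by rw [h1]; norm_num
    rw [← Complex.normSq_eq_norm_sq, Complex.normSq_apply] at h2
    nlinarith [h2]
  unfold h
  rw [Mv.smul_def, ← Complex.normSq_eq_norm_sq, ← Complex.normSq_eq_norm_sq,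
    ← Complex.normSq_eq_norm_sq, Complex.normSq_apply, Complex.normSq_apply, Complex.normSq_apply]
  simp only [Complex.add_re, Complex.add_im, Complex.mul_re, Complex.mul_im, Complex.conj_re,
    Complex.conj_im, Complex.ofReal_re, Complex.ofReal_im, Complex.re_ofNat, Complex.im_ofNat]
  linear_combination (K.α * (z.re ^ 2 + z.im ^ 2)) * ha

end MovingCurve

/-- an affine function with three zeros on a circle vanishes -/
lemma affine_three_zeros {c g z1 z2 z3 : ℂ} {r d : ℝ} (h12 : z1 ≠ z2) (h13 : z1 ≠ z3)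
    (h23 : z2 ≠ z3) (c1 : ‖z1 - c‖ ^ 2 = r ^ 2) (c2 : ‖z2 - c‖ ^ 2 = r ^ 2)
    (c3 : ‖z3 - c‖ ^ 2 = r ^ 2)
    (e1 : (conj g * z1).re + d = 0) (e2 : (conj g * z2).re + d = 0)
    (e3 : (conj g * z3).re + d = 0) : g = 0 ∧ d = 0 := by
  have key : g = 0 := by
    by_contra hg
    have hG : 0 < g.re ^ 2 + g.im ^ 2 := by
      have := Complex.normSq_pos.mpr hg
      rw [Complex.normSq_apply] at this
      nlinarith [this]
    rw [← Complex.normSq_eq_norm_sq, Complex.normSq_apply] at c1 c2 c3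
    simp only [Complex.mul_re, Complex.conj_re, Complex.conj_im, Complex.sub_re,
      Complex.sub_im] at e1 e2 e3 c1 c2 c3
    -- orthogonality
    have o2 : g.re * (z2.re - z1.re) + g.im * (z2.im - z1.im) = 0 := by linarith
    have o3 : g.re * (z3.re - z1.re) + g.im * (z3.im - z1.im) = 0 := by linarith
    set p := z2.re - z1.re with hp
    set p' := z2.im - z1.im with hp'
    set q := z3.re - z1.re with hq
    set q' := z3.im - z1.im with hq'
    set u := z1.re - c.re with hu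
    set u' := z1.im - c.im with hu'
    have k2 : 2 * (u * p + u' * p') + (p ^ 2 + p' ^ 2) = 0 := by
      rw [hu, hu', hp, hp']; nlinarith [c1, c2]
    have k3 : 2 * (u * q + u' * q') + (q ^ 2 + q' ^ 2) = 0 := by
      rw [hu, hu', hq, hq']; nlinarith [c1, c3]
    -- `p = -g.im * y`, `p' = g.re * y` up to the factor `|g|^2`
    set y := g.re * p' - g.im * p with hy
    set x := g.re * q' - g.im * q with hx
    set G := g.re ^ 2 + g.im ^ 2 with hGd
    have P1 : G * p = -g.im * y := by rw [hy, hGd]; linear_combination g.re * o2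
    have P2 : G * p' = g.re * y := by rw [hy, hGd]; linear_combination g.im * o2
    have Q1 : G * q = -g.im * x := by rw [hx, hGd]; linear_combination g.re * o3
    have Q2 : G * q' = g.re * x := by rw [hx, hGd]; linear_combination g.im * o3
    have L2 : y * (2 * (-g.im * u + g.re * u') + y) = 0 := by
      have e : G * (y * (2 * (-g.im * u + g.re * u') + y)) = 0 := by
        have t1 : G * (G * (2 * (u * p + u' * p') + (p ^ 2 + p' ^ 2))) = 0 := by rw [k2]; ring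
        have t2 : G * (G * (2 * (u * p + u' * p') + (p ^ 2 + p' ^ 2))) =
            2 * G * (u * (G * p) + u' * (G * p')) + ((G * p) ^ 2 + (G * p') ^ 2) := by ring
        rw [t2, P1, P2] at t1
        rw [← t1, hGd]
        ring
      rcases mul_eq_zero.mp e with h | h
      · exact absurd h hG.ne'
      · exact h
    have L3 : x * (2 * (-g.im * u + g.re * u') + x) = 0 := by
      have e : G * (x * (2 * (-g.im * u + g.re * u') + x)) = 0 := by
        have t1 : G * (G * (2 * (u * q + u' * q') + (q ^ 2 + q' ^ 2))) = 0 := by rw [k3]; ring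
        have t2 : G * (G * (2 * (u * q + u' * q') + (q ^ 2 + q' ^ 2))) =
            2 * G * (u * (G * q) + u' * (G * q')) + ((G * q) ^ 2 + (G * q') ^ 2) := by ring
        rw [t2, Q1, Q2] at t1
        rw [← t1, hGd]
        ring
      rcases mul_eq_zero.mp e with h | h
      · exact absurd h hG.ne'
      · exact h
    have hy0 : y ≠ 0 := by
      intro h0
      rw [h0] at P1 P2
      apply h12
      have a1 : p = 0 := by
        rcases mul_eq_zero.mp (by linarith : G * p = 0) with h | h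
        · exact absurd h hG.ne'
        · exact h
      have a2 : p' = 0 := by
        rcases mul_eq_zero.mp (by linarith : G * p' = 0) with h | h
        · exact absurd h hG.ne'
        · exact h
      apply Complex.ext <;> linarith
    have hx0 : x ≠ 0 := by
      intro h0
      rw [h0] at Q1 Q2
      apply h13
      have a1 : q = 0 := by
        rcases mul_eq_zero.mp (by linarith : G * q = 0) with h | h
        · exact absurd h hG.ne'
        · exact h
      have a2 : q' = 0 := by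
        rcases mul_eq_zero.mp (by linarith : G * q' = 0) with h | h
        · exact absurd h hG.ne'
        · exact h
      apply Complex.ext <;> linarith
    have hxy : x = y := by
      have a1 := (mul_eq_zero.mp L2).resolve_left hy0
      have a2 := (mul_eq_zero.mp L3).resolve_left hx0
      linarith
    apply h23
    have a1 : p = q := by
      have : G * p = G * q := by rw [P1, Q1, hxy]
      exact mul_left_cancel₀ hG.ne' this
    have a2 : p' = q' := by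
      have : G * p' = G * q' := by rw [P2, Q2, hxy]
      exact mul_left_cancel₀ hG.ne' this
    apply Complex.ext <;> linarith
  refine ⟨key, ?_⟩
  rw [key] at e1
  simpa using e1

namespace Leaf
variable {S : FlexSys} (ℓ : Leaf S)

/-- the centre of a circular leaf -/
def ctr : ℂ := Complex.I * ℓ.G.β / ℓ.G.ω

lemma H_circ_nc (hω : ℓ.G.ω ≠ 0) (z : ℂ) :
    ℓ.H z = ℓ.G.κ * ℓ.G.ω / 2 * (‖z - ℓ.ctr‖ ^ 2 - ‖ℓ.z0 - ℓ.ctr‖ ^ 2) := by
  unfold H ctr
  rw [ℓ.G.F_circ hω, ℓ.G.F_circ hω]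
  ring

lemma H_eq_zero_iff (hω : ℓ.G.ω ≠ 0) (z : ℂ) :
    ℓ.H z = 0 ↔ ‖z - ℓ.ctr‖ ^ 2 = ‖ℓ.z0 - ℓ.ctr‖ ^ 2 := by
  rw [ℓ.H_circ_nc hω]
  have : ℓ.G.κ * ℓ.G.ω / 2 ≠ 0 := by
    have := ℓ.G.hκ
    positivity
  constructor
  · intro h
    rcases mul_eq_zero.mp h with h | h
    · exact absurd h this
    · linarith
  · intro h
    rw [h]; ring

lemma rad_pos_nc (hω : ℓ.G.ω ≠ 0) : 0 < ‖ℓ.z0 - ℓ.ctr‖ := by
  rw [norm_pos_iff]
  intro h
  apply ℓ.V_ne
  have h1 : ℓ.z0 = ℓ.ctr := sub_eq_zero.mp h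
  unfold Gen.V
  rw [h1]
  unfold ctr
  have : (ℓ.G.ω : ℂ) ≠ 0 := by exact_mod_cast hω
  field_simp
  rw [Complex.I_sq]
  ring

lemma H_Φ (x : ℝ) (z : ℂ) : ℓ.H (ℓ.G.Φ x • z) = ℓ.H z := by
  unfold H
  rw [ℓ.G.F_Φ]

end Leaf

lemma affine_on_circle {c z : ℂ} {r : ℝ} (hz : ‖z - c‖ ^ 2 = r ^ 2) (α δ : ℝ) (γ : ℂ) :
    α * ‖z‖ ^ 2 + (conj γ * z).re + δ =
      (conj (γ + 2 * α * c) * z).re + (δ + α * (r ^ 2 - ‖c‖ ^ 2)) := by
  rw [← Complex.normSq_eq_norm_sq, Complex.normSq_apply] at hz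
  rw [← Complex.normSq_eq_norm_sq, ← Complex.normSq_eq_norm_sq, Complex.normSq_apply,
    Complex.normSq_apply]
  simp only [Complex.add_re, Complex.add_im, Complex.mul_re, Complex.mul_im, Complex.conj_re,
    Complex.conj_im, Complex.ofReal_re, Complex.ofReal_im, Complex.re_ofNat, Complex.im_ofNat,
    Complex.sub_re, Complex.sub_im] at *
  linear_combination α * hz

/-- an affine function which takes both signs on a circle has two zeros there, at which it
changes sign -/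
lemma affine_two_zeros {c g : ℂ} {r d : ℝ} (hr : 0 < r) {wp wm : ℂ}
    (hp : ‖wp - c‖ = r) (hm : ‖wm - c‖ = r) (hwp : 0 < (conj g * wp).re + d)
    (hwm : (conj g * wm).re + d < 0) :
    ∃ w1 w2 : ℂ, w1 ≠ w2 ∧ ‖w1 - c‖ = r ∧ ‖w2 - c‖ = r ∧ ∀ w, (w = w1 ∨ w = w2) →
      (∀ ρ > 0, ∃ w' ∈ ball w ρ, ‖w' - c‖ = r ∧ 0 < (conj g * w').re + d) ∧
      (∀ ρ > 0, ∃ w' ∈ ball w ρ, ‖w' - c‖ = r ∧ (conj g * w').re + d < 0) := by
  have hg : g ≠ 0 := by
    intro h
    rw [h] at hwp hwm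
    simp at hwp hwm
    linarith
  have hgn : 0 < ‖g‖ := norm_pos_iff.mpr hg
  set A : ℝ := (conj g * c).re + d with hA
  set B : ℝ := r * ‖g‖ with hB
  have hBpos : 0 < B := mul_pos hr hgn
  have hbound : ∀ w, ‖w - c‖ = r → |(conj g * w).re + d - A| ≤ B := by
    intro w hw
    have e : (conj g * w).re + d - A = (conj g * (w - c)).re := by
      rw [hA, mul_sub, Complex.sub_re]; ring
    rw [e]
    calc |(conj g * (w - c)).re| ≤ ‖conj g * (w - c)‖ := Complex.abs_re_le_norm _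
      _ = B := by rw [norm_mul, hw, RCLike.norm_conj, hB]; ring
  have hAB1 : 0 < A + B := by
    have := (abs_le.mp (hbound wp hp)).2
    linarith
  have hAB2 : A - B < 0 := by
    have := (abs_le.mp (hbound wm hm)).1
    linarith
  have hq1 : -1 ≤ -A / B := by rw [le_div_iff₀ hBpos]; linarith
  have hq2 : -A / B ≤ 1 := by rw [div_le_iff₀ hBpos]; linarith
  have hq1' : -1 < -A / B := by rw [lt_div_iff₀ hBpos]; linarith
  have hq2' : -A / B < 1 := by rw [div_lt_iff₀ hBpos]; linarith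
  set θ := Real.arccos (-A / B) with hθ
  have hcos : Real.cos θ = -A / B := Real.cos_arccos hq1 hq2
  have hθ0 : 0 < θ := Real.arccos_pos.mpr hq2'
  have hθπ : θ < Real.pi := by
    rcases lt_or_eq_of_le (Real.arccos_le_pi (-A / B)) with h | h
    · exact h
    · exfalso
      rw [hθ, h, Real.cos_pi] at hcos
      linarith
  let pt : ℝ → ℂ := fun t => c + r * (g / ‖g‖) * Complex.exp (t * Complex.I)
  have hptc : Continuous pt := by
    show Continuous (fun t : ℝ => c + r * (g / ‖g‖) * Complex.exp (t * Complex.I))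
    fun_prop
  have hptn : ∀ t, ‖pt t - c‖ = r := by
    intro t
    show ‖c + r * (g / ‖g‖) * Complex.exp (t * Complex.I) - c‖ = r
    rw [add_sub_cancel_left, norm_mul, norm_mul, norm_div, Complex.norm_exp_ofReal_mul_I]
    simp only [Complex.norm_real, Real.norm_eq_abs, abs_of_pos hr, abs_norm]
    field_simp
  have hpth : ∀ t, (conj g * pt t).re + d = A + B * Real.cos t := by
    intro t
    show (conj g * (c + r * (g / ‖g‖) * Complex.exp (t * Complex.I))).re + d = _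
    have e1 : conj g * (c + r * (g / ‖g‖) * Complex.exp (t * Complex.I)) =
        conj g * c + ((r * ‖g‖ : ℝ) : ℂ) * Complex.exp (t * Complex.I) := by
      have e2 : conj g * g = ((‖g‖ ^ 2 : ℝ) : ℂ) := by
        rw [mul_comm, Complex.mul_conj, Complex.normSq_eq_norm_sq]
      have e3 : ((‖g‖ : ℝ) : ℂ) ≠ 0 := by exact_mod_cast hgn.ne'
      rw [mul_add]
      congr 1
      have e4 : conj g * (r * (g / ‖g‖) * Complex.exp (t * Complex.I)) =
          (conj g * g) * r / ‖g‖ * Complex.exp (t * Complex.I) := by ring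
      rw [e4, e2]
      push_cast
      field_simp
    rw [e1, Complex.add_re, Complex.re_ofReal_mul, Complex.exp_ofReal_mul_I_re, hA, hB]
    ring
  have hgen : ∀ σ : ℝ, (σ = 1 ∨ σ = -1) →
      (∀ ρ > 0, ∃ w' ∈ ball (pt (σ * θ)) ρ, ‖w' - c‖ = r ∧ 0 < (conj g * w').re + d) ∧
      (∀ ρ > 0, ∃ w' ∈ ball (pt (σ * θ)) ρ, ‖w' - c‖ = r ∧ (conj g * w').re + d < 0) := by
    intro σ hσ
    have hcσ : ∀ t, Real.cos (σ * t) = Real.cos t := by
      intro t
      rcases hσ with h | h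
      · rw [h, one_mul]
      · rw [h, neg_one_mul, Real.cos_neg]
    have hcont : Continuous (fun t : ℝ => pt (σ * t)) := hptc.comp (continuous_const.mul continuous_id)
    constructor
    · intro ρ hρ
      have h1 : ∀ᶠ t in 𝓝[<] θ, pt (σ * t) ∈ ball (pt (σ * θ)) ρ :=
        (hcont.tendsto θ).mono_left nhdsWithin_le_nhds (ball_mem_nhds _ hρ)
      obtain ⟨t, ht1, ht2⟩ := (h1.and (Ioo_mem_nhdsLT hθ0)).exists
      refine ⟨_, ht1, hptn _, ?_⟩
      rw [hpth, hcσ]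
      have h2 : Real.cos θ < Real.cos t :=
        Real.strictAntiOn_cos ⟨ht2.1.le, by linarith [ht2.2]⟩ ⟨hθ0.le, hθπ.le⟩ ht2.2
      rw [hcos, div_lt_iff₀ hBpos] at h2
      linarith
    · intro ρ hρ
      have h1 : ∀ᶠ t in 𝓝[>] θ, pt (σ * t) ∈ ball (pt (σ * θ)) ρ :=
        (hcont.tendsto θ).mono_left nhdsWithin_le_nhds (ball_mem_nhds _ hρ)
      obtain ⟨t, ht1, ht2⟩ := (h1.and (Ioo_mem_nhdsGT hθπ)).exists
      refine ⟨_, ht1, hptn _, ?_⟩
      rw [hpth, hcσ]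
      have h2 : Real.cos t < Real.cos θ :=
        Real.strictAntiOn_cos ⟨hθ0.le, hθπ.le⟩ ⟨by linarith [ht2.1], ht2.2.le⟩ ht2.1
      rw [hcos, lt_div_iff₀ hBpos] at h2
      linarith
  refine ⟨pt θ, pt (-θ), ?_, hptn _, hptn _, ?_⟩
  · intro h
    have h1 : (r * (g / ‖g‖) : ℂ) * Complex.exp (θ * Complex.I) =
        (r * (g / ‖g‖) : ℂ) * Complex.exp (((-θ : ℝ) : ℂ) * Complex.I) := by
      have h2 : c + r * (g / ‖g‖) * Complex.exp (θ * Complex.I) =
          c + r * (g / ‖g‖) * Complex.exp (((-θ : ℝ) : ℂ) * Complex.I) := h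
      exact add_left_cancel h2
    have h3 : (r * (g / ‖g‖) : ℂ) ≠ 0 := by
      have e1 : (r : ℂ) ≠ 0 := by exact_mod_cast hr.ne'
      have e2 : ((‖g‖ : ℝ) : ℂ) ≠ 0 := by exact_mod_cast hgn.ne'
      exact mul_ne_zero e1 (div_ne_zero hg e2)
    have h4 := mul_left_cancel₀ h3 h1
    have h5 := congrArg Complex.im h4
    rw [Complex.exp_ofReal_mul_I_im, Complex.exp_ofReal_mul_I_im, Real.sin_neg] at h5
    have h6 := Real.sin_pos_of_pos_of_lt_pi hθ0 hθπ
    linarith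
  · rintro w (rfl | rfl)
    · have := hgen 1 (Or.inl rfl)
      rwa [one_mul] at this
    · have := hgen (-1) (Or.inr rfl)
      rwa [neg_one_mul] at this

/-- a circular leaf lies on one side of every moving curve -/
theorem nc_circle {S : FlexSys} (K : MovingCurve S) (ℓ : Leaf S) (hω : ℓ.G.ω ≠ 0) :
    (∀ w, ℓ.H w = 0 → 0 ≤ K.h w) ∨ (∀ w, ℓ.H w = 0 → K.h w ≤ 0) := by
  by_contra hcon
  rw [not_or] at hcon
  obtain ⟨hc1, hc2⟩ := hcon
  push Not at hc1 hc2
  obtain ⟨wm, hHm, hm⟩ := hc1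
  obtain ⟨wp, hHp, hp⟩ := hc2
  have hr := ℓ.rad_pos_nc hω
  set c := ℓ.ctr with hc
  set r := ‖ℓ.z0 - c‖ with hrd
  have hcirc : ∀ z, ℓ.H z = 0 ↔ ‖z - c‖ ^ 2 = r ^ 2 := fun z => ℓ.H_eq_zero_iff hω z
  have hcirc' : ∀ z, ℓ.H z = 0 ↔ ‖z - c‖ = r := by
    intro z
    rw [hcirc, sq_eq_sq₀ (norm_nonneg _) hr.le]
  have hform : ∀ z, ℓ.H z = 0 → K.h z =
      (conj (K.γ + 2 * K.α * c) * z).re + (K.δ + K.α * (r ^ 2 - ‖c‖ ^ 2)) := by
    intro z hz
    exact affine_on_circle ((hcirc z).mp hz) K.α K.δ K.γ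
  obtain ⟨w1, w2, hne, hw1, hw2, hB⟩ := affine_two_zeros
    (g := K.γ + 2 * K.α * c) (d := K.δ + K.α * (r ^ 2 - ‖c‖ ^ 2)) hr
    ((hcirc' wp).mp hHp) ((hcirc' wm).mp hHm) (by rw [← hform wp hHp]; exact hp)
    (by rw [← hform wm hHm]; exact hm)
  have hBoth : ∀ w, (w = w1 ∨ w = w2) → K.Both ℓ w := by
    intro w hw
    obtain ⟨h1, h2⟩ := hB w hw
    constructor
    · intro ρ hρ
      obtain ⟨w', ha, hb, hd⟩ := h1 ρ hρ
      have hH := (hcirc' w').mpr hb
      exact ⟨w', ha, hH, by rw [hform w' hH]; exact hd⟩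
    · intro ρ hρ
      obtain ⟨w', ha, hb, hd⟩ := h2 ρ hρ
      have hH := (hcirc' w').mpr hb
      exact ⟨w', ha, hH, by rw [hform w' hH]; exact hd⟩
  obtain ⟨x, hx0, hx⟩ := ℓ.rel
  have hV1 : ℓ.G.V w1 ≠ 0 := by
    intro h
    have hωC : (ℓ.G.ω : ℂ) ≠ 0 := by exact_mod_cast hω
    have h1 : w1 = c := by
      unfold Gen.V at h
      rw [hc]
      unfold Leaf.ctr
      rw [eq_div_iff hωC]
      have h2 : Complex.I * (Complex.I * ↑ℓ.G.ω * w1 + ℓ.G.β) = 0 := by rw [h, mul_zero]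
      have h3 : Complex.I * Complex.I = -1 := Complex.I_mul_I
      linear_combination (-1 : ℂ) * h2 + (ℓ.G.ω * w1) * h3
    rw [h1, sub_self, norm_zero] at hw1
    linarith
  obtain ⟨ε, hε, hinj⟩ := ℓ.G.orbit_inj_near hV1
  have horb : Tendsto (fun n => ℓ.G.Φ (x n) • w1) S.U (𝓝 w1) := by
    have h1 := ((ℓ.G.continuous_orbit w1).tendsto 0).comp hx0
    rw [ℓ.G.Φ_zero, one_smul] at h1
    exact h1
  have hev : ∀ᶠ n in (S.U : Filter ℕ), K.h (K.k n • S.m n ℓ.t • wp) = 0 := by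
    filter_upwards [hx, (hBoth w1 (Or.inl rfl)).zero, (hBoth w2 (Or.inr rfl)).zero,
      hx0.eventually (Ioo_mem_nhds (neg_lt_zero.mpr hε) hε),
      horb.eventually (isOpen_compl_singleton.mem_nhds hne)] with n h1 h2 h3 h4 h5
    have hne1 : ℓ.G.Φ (x n) • w1 ≠ w1 := by
      intro h
      apply h1.1
      apply hinj (x n) 0 (abs_lt.mpr h4) (by simpa using hε)
      rw [h, ℓ.G.Φ_zero, one_smul]
    have hs : S.m n ℓ.s = S.m n ℓ.t * ℓ.G.Φ (x n) := by
      rw [← h1.2]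
      simp [FlexSys.gm]
    have z1 : K.h ((K.k n * S.m n ℓ.t) • w1) = 0 := by rw [mul_smul]; exact h2.2
    have z2 : K.h ((K.k n * S.m n ℓ.t) • w2) = 0 := by rw [mul_smul]; exact h3.2
    have z3 : K.h ((K.k n * S.m n ℓ.t) • (ℓ.G.Φ (x n) • w1)) = 0 := by
      rw [← mul_smul, mul_assoc, ← hs, mul_smul]; exact h2.1
    set q := K.k n * S.m n ℓ.t with hq
    have c1 : ‖w1 - c‖ ^ 2 = r ^ 2 := by rw [hw1]
    have c2 : ‖w2 - c‖ ^ 2 = r ^ 2 := by rw [hw2]
    have c3 : ‖ℓ.G.Φ (x n) • w1 - c‖ ^ 2 = r ^ 2 := by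
      rw [← hcirc, ℓ.H_Φ, hcirc]; exact c1
    have c4 : ‖wp - c‖ ^ 2 = r ^ 2 := (hcirc wp).mp hHp
    rw [K.h_smul, affine_on_circle c1] at z1
    rw [K.h_smul, affine_on_circle c2] at z2
    rw [K.h_smul, affine_on_circle c3] at z3
    obtain ⟨g0, d0⟩ := affine_three_zeros hne (Ne.symm hne1) (Ne.symm h5) c1 c2 c3 z1 z2 z3
    rw [← mul_smul, ← hq, K.h_smul, affine_on_circle c4, g0, d0]
    simp
  have hlim := K.tendsto_h ℓ.t wp
  have h0 : K.h wp = 0 := tendsto_nhds_unique (hlim.congr' hev) tendsto_const_nhds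
  linarith

lemma Leaf.H_line {S : FlexSys} (ℓ : Leaf S) (hω : ℓ.G.ω = 0) (x : ℝ) :
    ℓ.H (ℓ.z0 + x * ℓ.G.β) = 0 := by
  have h := ℓ.H_Φ x ℓ.z0
  rw [ℓ.G.Φ_lin hω, ℓ.H_z0] at h
  exact h

lemma Leaf.line_of_H {S : FlexSys} (ℓ : Leaf S) (hω : ℓ.G.ω = 0) {w : ℂ} (hw : ℓ.H w = 0) :
    ∃ x : ℝ, w = ℓ.z0 + x * ℓ.G.β := by
  have h1 : ℓ.G.F w = ℓ.G.F ℓ.z0 := by
    unfold Leaf.H at hw
    linarith
  obtain ⟨x, hx⟩ := ℓ.G.leaf_global ℓ.V_ne h1
  refine ⟨x, ?_⟩
  rw [hx, ℓ.G.Φ_lin hω]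

/-- a straight leaf lies on one side of every moving line -/
theorem nc_line {S : FlexSys} (K : MovingCurve S) (hα : K.α = 0) (ℓ : Leaf S)
    (hω : ℓ.G.ω = 0) :
    (∀ w, ℓ.H w = 0 → 0 ≤ K.h w) ∨ (∀ w, ℓ.H w = 0 → K.h w ≤ 0) := by
  have hh : ∀ z, K.h z = (conj K.γ * z).re + K.δ := by
    intro z
    unfold MovingCurve.h
    rw [hα]
    ring
  set m : ℝ := (conj K.γ * ℓ.G.β).re with hm
  have hform : ∀ x : ℝ, K.h (ℓ.z0 + x * ℓ.G.β) = K.h ℓ.z0 + x * m := by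
    intro x
    rw [hh, hh, hm]
    have : conj K.γ * (ℓ.z0 + x * ℓ.G.β) = conj K.γ * ℓ.z0 + (x : ℂ) * (conj K.γ * ℓ.G.β) := by
      ring
    rw [this, Complex.add_re, Complex.re_ofReal_mul]
    ring
  by_cases hm0 : m = 0
  · rcases le_total 0 (K.h ℓ.z0) with h | h
    · left
      intro w hw
      obtain ⟨x, rfl⟩ := ℓ.line_of_H hω hw
      rw [hform, hm0, mul_zero, add_zero]
      exact h
    · right
      intro w hw
      obtain ⟨x, rfl⟩ := ℓ.line_of_H hω hw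
      rw [hform, hm0, mul_zero, add_zero]
      exact h
  · exfalso
    set x1 : ℝ := -K.h ℓ.z0 / m with hx1
    set w1 : ℂ := ℓ.z0 + x1 * ℓ.G.β with hw1
    have hw1' : ∀ y : ℝ, K.h (ℓ.z0 + ((x1 + y : ℝ) : ℂ) * ℓ.G.β) = y * m := by
      intro y
      rw [hform, hx1]
      field_simp
      ring
    have hcont : Continuous (fun y : ℝ => ℓ.z0 + ((x1 + y : ℝ) : ℂ) * ℓ.G.β) := by fun_prop
    have hnear : ∀ ρ > 0, ∃ ε > 0, ∀ y : ℝ, |y| < ε →
        ℓ.z0 + ((x1 + y : ℝ) : ℂ) * ℓ.G.β ∈ ball w1 ρ := by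
      intro ρ hρ
      have h1 := Metric.continuous_iff.mp hcont 0 ρ hρ
      obtain ⟨ε, hε, h2⟩ := h1
      refine ⟨ε, hε, ?_⟩
      intro y hy
      have h3 := h2 y (by simpa using hy)
      rw [add_zero] at h3
      exact h3
    have hBoth : K.Both ℓ w1 := by
      constructor
      · intro ρ hρ
        obtain ⟨ε, hε, h⟩ := hnear ρ hρ
        rcases lt_or_gt_of_ne hm0 with hneg | hpos
        · refine ⟨_, h (-(ε / 2)) (by rw [abs_neg, abs_of_pos (by positivity)]; linarith),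
            ℓ.H_line hω _, ?_⟩
          rw [hw1']
          nlinarith
        · refine ⟨_, h (ε / 2) (by rw [abs_of_pos (by positivity)]; linarith),
            ℓ.H_line hω _, ?_⟩
          rw [hw1']
          positivity
      · intro ρ hρ
        obtain ⟨ε, hε, h⟩ := hnear ρ hρ
        rcases lt_or_gt_of_ne hm0 with hneg | hpos
        · refine ⟨_, h (ε / 2) (by rw [abs_of_pos (by positivity)]; linarith),
            ℓ.H_line hω _, ?_⟩
          rw [hw1']
          nlinarith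
        · refine ⟨_, h (-(ε / 2)) (by rw [abs_neg, abs_of_pos (by positivity)]; linarith),
            ℓ.H_line hω _, ?_⟩
          rw [hw1']
          nlinarith
    obtain ⟨x, hx0, hx⟩ := ℓ.rel
    have hev : ∀ᶠ n in (S.U : Filter ℕ),
        (conj K.γ * ((K.k n * S.m n ℓ.t).a * ℓ.G.β)).re = 0 := by
      filter_upwards [hx, hBoth.zero] with n h1 h2
      have hs : S.m n ℓ.s = S.m n ℓ.t * ℓ.G.Φ (x n) := by
        rw [← h1.2]
        simp [FlexSys.gm]
      have z1 : K.h ((K.k n * S.m n ℓ.t) • w1) = 0 := by rw [mul_smul]; exact h2.2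
      have z3 : K.h ((K.k n * S.m n ℓ.t) • (ℓ.G.Φ (x n) • w1)) = 0 := by
        rw [← mul_smul, mul_assoc, ← hs, mul_smul]; exact h2.1
      rw [ℓ.G.Φ_lin hω] at z3
      rw [hh, Mv.smul_def] at z1 z3
      have e : conj K.γ * ((K.k n * S.m n ℓ.t).a * (w1 + x n * ℓ.G.β) + (K.k n * S.m n ℓ.t).b) =
          conj K.γ * ((K.k n * S.m n ℓ.t).a * w1 + (K.k n * S.m n ℓ.t).b) +
          (x n : ℂ) * (conj K.γ * ((K.k n * S.m n ℓ.t).a * ℓ.G.β)) := by ring
      rw [e, Complex.add_re, Complex.re_ofReal_mul] at z3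
      have e2 : x n * (conj K.γ * ((K.k n * S.m n ℓ.t).a * ℓ.G.β)).re = 0 := by linarith
      exact (mul_eq_zero.mp e2).resolve_left h1.1
    have hlim : Tendsto (fun n => (conj K.γ * ((K.k n * S.m n ℓ.t).a * ℓ.G.β)).re) S.U (𝓝 m) := by
      have h1 : Tendsto (fun n => K.k n * S.m n ℓ.t) S.U (𝓝 1) := by
        have := K.k_lim.mul (S.m_lim ℓ.t)
        rwa [one_mul] at this
      have h2 : Continuous (fun g : Mv => (conj K.γ * (g.a * ℓ.G.β)).re) :=
        Complex.continuous_re.comp (continuous_const.mul (Mv.continuous_a.mul continuous_const))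
      have h3 := (h2.tendsto 1).comp h1
      simp only [Mv.one_a, one_mul] at h3
      exact h3
    exact hm0 (tendsto_nhds_unique (hlim.congr' hev) tendsto_const_nhds)

lemma Leaf.moving_aux {S : FlexSys} (ℓ : Leaf S) (z : ℂ) :
    ℓ.G.κ * ℓ.G.ω / 2 * ‖z‖ ^ 2 +
      (conj (-(ℓ.G.κ : ℂ) * (Complex.I * ℓ.G.β)) * z).re + -ℓ.G.F ℓ.z0 = ℓ.H z := by
  unfold Leaf.H
  rw [sub_eq_add_neg]
  congr 1
  unfold Gen.F
  have : (conj (-(ℓ.G.κ : ℂ) * (Complex.I * ℓ.G.β)) * z).re = -(ℓ.G.κ * (conj ℓ.G.β * z).im) := by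
    simp only [Complex.mul_re, Complex.mul_im, Complex.conj_re, Complex.conj_im,
      Complex.neg_re, Complex.neg_im, Complex.ofReal_re, Complex.ofReal_im, Complex.I_re,
      Complex.I_im]
    ring
  rw [this]
  ring

/-- a leaf is a moving curve -/
def Leaf.moving {S : FlexSys} (ℓ : Leaf S) : MovingCurve S where
  α := ℓ.G.κ * ℓ.G.ω / 2
  γ := -(ℓ.G.κ : ℂ) * (Complex.I * ℓ.G.β)
  δ := -ℓ.G.F ℓ.z0
  k := fun n => (S.m n ℓ.t)⁻¹
  k_lim := by
    have := (S.m_lim ℓ.t).inv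
    rwa [inv_one] at this
  side := by
    intro u
    rcases ℓ.side u with h | h
    · left
      filter_upwards [ℓ.side_plus u h] with n hn w hw
      rw [ℓ.moving_aux, ← mul_smul]
      exact hn w hw
    · right
      filter_upwards [ℓ.side_minus u h] with n hn w hw
      rw [ℓ.moving_aux, ← mul_smul]
      exact hn w hw

lemma Leaf.moving_h {S : FlexSys} (ℓ : Leaf S) (z : ℂ) : ℓ.moving.h z = ℓ.H z :=
  ℓ.moving_aux z

/-- a circular leaf lies on one side of every leaf -/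
theorem Leaf.nc_circle {S : FlexSys} (ℓ ℓ' : Leaf S) (hω : ℓ.G.ω ≠ 0) :
    (∀ w, ℓ.H w = 0 → 0 ≤ ℓ'.H w) ∨ (∀ w, ℓ.H w = 0 → ℓ'.H w ≤ 0) := by
  have h := H231R2.nc_circle ℓ'.moving ℓ hω
  simpa only [Leaf.moving_h] using h

/-- an affine function of one real variable of constant sign is constant -/
lemma slope_zero {a m : ℝ} (h : (∀ x : ℝ, 0 ≤ a + x * m) ∨ (∀ x : ℝ, a + x * m ≤ 0)) : m = 0 := by
  by_contra hm
  rcases h with h | h
  · have := h ((-1 - a) / m)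
    rw [div_mul_cancel₀ _ hm] at this
    linarith
  · have := h ((1 - a) / m)
    rw [div_mul_cancel₀ _ hm] at this
    linarith

/-- two straight leaves are parallel -/
theorem Leaf.nc_line {S : FlexSys} (ℓ ℓ' : Leaf S) (hω : ℓ.G.ω = 0) (hω' : ℓ'.G.ω = 0) :
    (conj ℓ.G.β * ℓ'.G.β).im = 0 := by
  have hα : ℓ'.moving.α = 0 := by
    show ℓ'.G.κ * ℓ'.G.ω / 2 = 0
    rw [hω']; ring
  have h := H231R2.nc_line ℓ'.moving hα ℓ hω
  simp only [Leaf.moving_h] at h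
  have hform : ∀ x : ℝ, ℓ'.H (ℓ.z0 + x * ℓ.G.β) =
      ℓ'.H ℓ.z0 + x * (-ℓ'.G.κ * (conj ℓ'.G.β * ℓ.G.β).im) := by
    intro x
    unfold Leaf.H
    rw [ℓ'.G.F_lin hω', ℓ'.G.F_lin hω', ℓ'.G.F_lin hω']
    have : conj ℓ'.G.β * (ℓ.z0 + x * ℓ.G.β) =
        conj ℓ'.G.β * ℓ.z0 + (x : ℂ) * (conj ℓ'.G.β * ℓ.G.β) := by ring
    rw [this, Complex.add_im, Complex.im_ofReal_mul]
    ring
  have hm : -ℓ'.G.κ * (conj ℓ'.G.β * ℓ.G.β).im = 0 := by
    apply slope_zero (a := ℓ'.H ℓ.z0)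
    rcases h with h | h
    · left
      intro x
      rw [← hform]
      exact h _ (ℓ.H_line hω x)
    · right
      intro x
      rw [← hform]
      exact h _ (ℓ.H_line hω x)
  have hm2 : (conj ℓ'.G.β * ℓ.G.β).im = 0 := by
    rcases mul_eq_zero.mp hm with h1 | h1
    · exact absurd (neg_eq_zero.mp h1) ℓ'.G.hκ
    · exact h1
  have e : (conj ℓ.G.β * ℓ'.G.β).im = -(conj ℓ'.G.β * ℓ.G.β).im := by
    simp only [Complex.mul_im, Complex.conj_re, Complex.conj_im]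
    ring
  rw [e, hm2, neg_zero]

/-- the moving line of a fixed separating line -/
def skelCurve {S : FlexSys} (d : ℂ) (h : ℝ)
    (hT : ∀ u, (∀ᶠ n in (S.U : Filter ℕ), ∀ z ∈ S.A u, h ≤ yd d (S.m n u • z)) ∨
      (∀ᶠ n in (S.U : Filter ℕ), ∀ z ∈ S.A u, yd d (S.m n u • z) ≤ h)) : MovingCurve S where
  α := 0
  γ := Complex.I * d
  δ := -h
  k := fun _ => 1
  k_lim := tendsto_const_nhds
  side := by
    have e : ∀ z : ℂ, (0 : ℝ) * ‖z‖ ^ 2 + (conj (Complex.I * d) * z).re + -h = yd d z - h := by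
      intro z
      unfold yd
      simp only [Complex.mul_re, Complex.mul_im, Complex.conj_re, Complex.conj_im, Complex.I_re,
        Complex.I_im]
      ring
    intro u
    rcases hT u with h1 | h1
    · left
      filter_upwards [h1] with n hn w hw
      rw [e, one_smul]
      linarith [hn w hw]
    · right
      filter_upwards [h1] with n hn w hw
      rw [e, one_smul]
      linarith [hn w hw]

lemma skelCurve_h {S : FlexSys} (d : ℂ) (h : ℝ)
    (hT : ∀ u, (∀ᶠ n in (S.U : Filter ℕ), ∀ z ∈ S.A u, h ≤ yd d (S.m n u • z)) ∨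
      (∀ᶠ n in (S.U : Filter ℕ), ∀ z ∈ S.A u, yd d (S.m n u • z) ≤ h)) (z : ℂ) :
    (skelCurve d h hT).h z = yd d z - h := by
  show (0 : ℝ) * ‖z‖ ^ 2 + (conj (Complex.I * d) * z).re + -h = yd d z - h
  unfold yd
  simp only [Complex.mul_re, Complex.mul_im, Complex.conj_re, Complex.conj_im, Complex.I_re,
    Complex.I_im]
  ring

/-- a straight leaf is parallel to every line which separates the tiles of all the
approximating tilings -/
theorem Leaf.nc_skel {S : FlexSys} (ℓ : Leaf S) (hω : ℓ.G.ω = 0) {d : ℂ} (hd : d ≠ 0) {h : ℝ}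
    (hT : ∀ u, (∀ᶠ n in (S.U : Filter ℕ), ∀ z ∈ S.A u, h ≤ yd d (S.m n u • z)) ∨
      (∀ᶠ n in (S.U : Filter ℕ), ∀ z ∈ S.A u, yd d (S.m n u • z) ≤ h)) :
    (conj d * ℓ.G.β).im = 0 := by
  have h1 := H231R2.nc_line (skelCurve d h hT) rfl ℓ hω
  simp only [skelCurve_h] at h1
  have hform : ∀ x : ℝ, yd d (ℓ.z0 + x * ℓ.G.β) - h =
      (yd d ℓ.z0 - h) + x * (conj d * ℓ.G.β).im := by
    intro x
    unfold yd
    have : conj d * (ℓ.z0 + x * ℓ.G.β) = conj d * ℓ.z0 + (x : ℂ) * (conj d * ℓ.G.β) := by ring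
    rw [this, Complex.add_im, Complex.im_ofReal_mul]
    ring
  apply slope_zero (a := yd d ℓ.z0 - h)
  rcases h1 with h1 | h1
  · left
    intro x
    rw [← hform]
    exact h1 _ (ℓ.H_line hω x)
  · right
    intro x
    rw [← hform]
    exact h1 _ (ℓ.H_line hω x)

/-- a circular leaf lies on one side of every line which separates the tiles of all the
approximating tilings -/
theorem Leaf.nc_skel_circle {S : FlexSys} (ℓ : Leaf S) (hω : ℓ.G.ω ≠ 0) {d : ℂ} {h : ℝ}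
    (hT : ∀ u, (∀ᶠ n in (S.U : Filter ℕ), ∀ z ∈ S.A u, h ≤ yd d (S.m n u • z)) ∨
      (∀ᶠ n in (S.U : Filter ℕ), ∀ z ∈ S.A u, yd d (S.m n u • z) ≤ h)) :
    (∀ w, ℓ.H w = 0 → h ≤ yd d w) ∨ (∀ w, ℓ.H w = 0 → yd d w ≤ h) := by
  have h1 := H231R2.nc_circle (skelCurve d h hT) ℓ hω
  simp only [skelCurve_h] at h1
  rcases h1 with h1 | h1
  · left
    intro w hw
    linarith [h1 w hw]
  · right
    intro w hw
    linarith [h1 w hw]

end H231R2
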