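import Pool.Agent.H231R2.EdgeEx

/-! # Interfaces pass through points which are in three or more tiles -/

set_option autoImplicit false

open Filter Topology Metric Set
open scoped Pointwise ComplexConjugate

noncomputable section

namespace H231R2

/-- a finite closed cover of an interval has a member containing a subinterval -/
lemma exists_Ioo_subset {ι : Type*} {s : Set ι} (hs : s.Finite) {Z : ι → Set ℝ}
    (hZ : ∀ i ∈ s, IsClosed (Z i)) :
    ∀ {a b : ℝ}, a < b → (∀ x ∈ Ioo a b, ∃ i ∈ s, x ∈ Z i) →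
      ∃ i ∈ s, ∃ a' b', a ≤ a' ∧ a' < b' ∧ b' ≤ b ∧ Ioo a' b' ⊆ Z i := by
  induction s, hs using Set.Finite.induction_on with
  | empty =>
    intro a b hab h
    obtain ⟨i, hi, -⟩ := h ((a + b) / 2) ⟨by linarith, by linarith⟩
    exact absurd hi (Set.notMem_empty i)
  | @insert i s hi hs ih =>
    intro a b hab h
    by_cases hsub : Ioo a b ⊆ Z i
    · exact ⟨i, Set.mem_insert _ _, a, b, le_rfl, hab, le_rfl, hsub⟩
    · rw [Set.not_subset] at hsub
      obtain ⟨x, hx, hxi⟩ := hsub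
      have hO : Ioo a b ∩ (Z i)ᶜ ∈ 𝓝 x :=
        (isOpen_Ioo.inter (hZ i (Set.mem_insert _ _)).isOpen_compl).mem_nhds ⟨hx, hxi⟩
      obtain ⟨a', b', hx', hsub'⟩ := mem_nhds_iff_exists_Ioo_subset.1 hO
      have hab' : a' < b' := hx'.1.trans hx'.2
      obtain ⟨j, hj, a'', b'', h1, h2, h3, h4⟩ :=
        ih (fun j hj => hZ j (Set.mem_insert_of_mem _ hj)) hab' (by
          intro y hy
          obtain ⟨j, hj, hyj⟩ := h y (hsub' hy).1
          rcases Set.mem_insert_iff.1 hj with rfl | hj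
          · exact absurd hyj (hsub' hy).2
          · exact ⟨j, hj, hyj⟩)
      refine ⟨j, Set.mem_insert_of_mem _ hj, a'', b'', ?_, h2, ?_, h4⟩
      · refine le_trans ?_ h1
        by_contra hcon
        push Not at hcon
        have : (a' + min a b') / 2 ∈ Ioo a' b' := by
          constructor
          · have : a' < min a b' := lt_min hcon hab'
            linarith
          · have : min a b' ≤ b' := min_le_right _ _
            linarith
        have h5 := (hsub' this).1.1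
        have : min a b' ≤ a := min_le_left _ _
        linarith
      · refine le_trans h3 ?_
        by_contra hcon
        push Not at hcon
        have : (b' + max b a') / 2 ∈ Ioo a' b' := by
          constructor
          · have : a' ≤ max b a' := le_max_right _ _
            linarith
          · have : max b a' < b' := max_lt hcon hab'
            linarith
        have h5 := (hsub' this).1.2
        have : b ≤ max b a' := le_max_left _ _
        linarith

namespace FlexSys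
variable {S : FlexSys}

lemma Edge.of_flip {G : Gen} {s t : S.J} {z : ℂ} (h : S.Edge G.flip s t z) : S.Edge G t s z := by
  obtain ⟨h1, h2, r, hr, h⟩ := h
  refine ⟨h1, by simpa using h2, r, hr, fun w hw => ?_⟩
  obtain ⟨h3, h4⟩ := h w hw
  simp only [Gen.flip_F, neg_le_neg_iff] at h3 h4
  exact ⟨h4, h3⟩

lemma mem_Φ_smul {G : Gen} {x : ℝ} {A : Set ℂ} {w : ℂ} :
    w ∈ G.Φ x • A ↔ G.Φ (-x) • w ∈ A := by
  rw [Set.mem_smul_set_iff_inv_smul_mem, Gen.Φ_neg]

/-- two tiles on the same side of the leaf at the same point overlap -/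
lemma overlap {G : Gen} {a b a' b' : S.J} {z z' : ℂ} {x x' : ℝ} (h : S.Edge G a b z)
    (h' : S.Edge G a' b' z') (e : G.Φ x • z = G.Φ x' • z') :
    ¬ Disjoint (interior (G.Φ x • S.A a)) (interior (G.Φ x' • S.A a')) := by
  obtain ⟨-, hV, r, hr, h⟩ := h
  obtain ⟨-, -, r', hr', h'⟩ := h'
  set w0 := G.Φ x • z with hw0
  have hF : G.F w0 = G.F z := by rw [hw0]; simp
  have hF' : G.F w0 = G.F z' := by rw [e]; simp
  obtain ⟨w, hw, hw2⟩ := G.exists_gt (G.V_Φ_ne hV x) (lt_min hr hr')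
  rw [Set.not_disjoint_iff]
  have key : ∀ (x : ℝ) (z : ℂ) (r : ℝ) (A : Set ℂ), w0 = G.Φ x • z → w ∈ ball w0 r →
      (∀ w ∈ ball z r, G.F z ≤ G.F w → w ∈ A) → G.F w0 = G.F z →
      w ∈ interior (G.Φ x • A) := by
    intro x z r A hw0 hw h hF
    rw [mem_interior_iff_mem_nhds]
    have hc : ∀ᶠ w' in 𝓝 w, G.F w0 < G.F w' :=
      G.continuous_F.continuousAt.eventually (lt_mem_nhds hw2)
    filter_upwards [hc, isOpen_ball.mem_nhds hw] with w' h1 h2
    rw [mem_Φ_smul]
    refine h _ ?_ ?_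
    · rw [mem_ball] at h2 ⊢
      rw [hw0] at h2
      have : z = G.Φ (-x) • G.Φ x • z := by
        rw [← mul_smul, ← Gen.Φ_add]; simp
      rw [this, dist_smul]
      exact h2
    · rw [G.F_Φ, ← hF]
      exact h1.le
  refine ⟨w, key x z r _ hw0 (ball_subset_ball (min_le_left _ _) hw)
    (fun w hw => (h w hw).1.2) hF, key x' z' r' _ e (ball_subset_ball (min_le_right _ _) hw)
    (fun w hw => (h' w hw).1.2) hF'⟩

/-- every function to `{neg, zero, pos}` is constant along the ultrafilter -/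
lemma trichotomy (U : Ultrafilter ℕ) (u : ℕ → ℝ) :
    (∀ᶠ n in (U : Filter ℕ), u n < 0) ∨ (∀ᶠ n in (U : Filter ℕ), u n = 0) ∨
      (∀ᶠ n in (U : Filter ℕ), 0 < u n) := by
  have h : ∀ᶠ n in (U : Filter ℕ), u n < 0 ∨ (u n = 0 ∨ 0 < u n) :=
    Eventually.of_forall fun n => lt_trichotomy (u n) 0
  rwa [Ultrafilter.eventually_or, Ultrafilter.eventually_or] at h

/-- local setting near a point `p` which is not fixed by the generator -/
lemma setting (G : Gen) {p : ℂ} (hV : G.V p ≠ 0) :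
    ∃ δ > 0, ∃ η > 0, (∀ w ∈ ball p δ, w ≠ p → S.NT w) ∧
      (∀ w ∈ ball p δ, ∀ t, w ∈ S.A t → p ∈ S.A t) ∧
      (∀ x, |x| < η → G.Φ x • p ∈ ball p (δ / 2)) ∧
      (∀ x y, |x| < η → |y| < η → G.Φ x • p = G.Φ y • p → x = y) ∧
      (∀ x y, |x| < η → |y| < η → G.Φ x = G.Φ y → x = y) := by
  obtain ⟨δ1, h1, hN⟩ := S.isolated p
  obtain ⟨δ2, h2, hM⟩ := S.loc_mem p
  obtain ⟨η1, h3, hI⟩ := G.orbit_inj_near hV
  obtain ⟨η3, h5, hI'⟩ := G.Φ_inj_near
  have hδ : 0 < min δ1 δ2 := lt_min h1 h2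
  have hc : Tendsto (fun x => G.Φ x • p) (𝓝 0) (𝓝 p) := by
    have := (G.continuous_orbit p).tendsto 0
    simpa using this
  obtain ⟨η2, h4, hη2⟩ := Metric.eventually_nhds_iff_ball.1
    (hc.eventually (ball_mem_nhds p (half_pos hδ)))
  refine ⟨min δ1 δ2, hδ, min (min η1 η2) η3, by positivity, ?_, ?_, ?_, ?_, ?_⟩
  · intro w hw hwp
    exact hN w (ball_subset_ball (min_le_left _ _) hw) hwp
  · intro w hw t ht
    exact hM w (ball_subset_ball (min_le_right _ _) hw) t ht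
  · intro x hx
    refine hη2 x ?_
    rw [mem_ball, dist_zero_right, Real.norm_eq_abs]
    exact hx.trans_le ((min_le_left _ _).trans (min_le_right _ _))
  · intro x y hx hy
    exact hI x y (hx.trans_le ((min_le_left _ _).trans (min_le_left _ _)))
      (hy.trans_le ((min_le_left _ _).trans (min_le_left _ _)))
  · intro x y hx hy
    exact hI' x y (hx.trans_le (min_le_right _ _)) (hy.trans_le (min_le_right _ _))

/-- step A–C of the passing lemma: two tiles `l, k` whose common boundary contains, for almost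
all `n`, a moved piece of the orbit -/
lemma q1_abc {G : Gen} {s t : S.J} {p : ℂ} (hV : G.V p ≠ 0) {δ η : ℝ} (hδ : 0 < δ)
    (hM : ∀ w ∈ ball p δ, ∀ t, w ∈ S.A t → p ∈ S.A t)
    (hC : ∀ x, |x| < η → G.Φ x • p ∈ ball p (δ / 2))
    (hη : 0 < η)
    {x : ℕ → ℝ} (hx : Tendsto x S.U (𝓝 0)) (hgm : ∀ᶠ n in (S.U : Filter ℕ), S.gm n t s = G.Φ (x n))
    (hE : ∀ y ∈ Ioo 0 η, S.Edge G s t (G.Φ y • p))
    {a : ℕ → ℝ} (ha : ∀ᶠ n in (S.U : Filter ℕ), x n ≤ a n ∧ a n < 0) :
    ∃ l k, l ≠ s ∧ k ≠ l ∧ ∀ᶠ n in (S.U : Filter ℕ), ∃ a' b', a n ≤ a' ∧ a' < b' ∧ b' ≤ 0 ∧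
      ∀ y ∈ Ioo a' b', (S.gm n t l)⁻¹ • G.Φ y • p ∈ S.A l ∧
        (S.gm n t l)⁻¹ • G.Φ y • p ∈ S.A k := by
  obtain ⟨r1, hr1, hcov⟩ := S.cov_gm t p
  have hcont : Tendsto (fun x => G.Φ x • p) (𝓝 0) (𝓝 p) := by
    have := (G.continuous_orbit p).tendsto 0
    simpa using this
  obtain ⟨η2, hη2, hη2b⟩ := Metric.eventually_nhds_iff_ball.1
    (hcont.eventually (ball_mem_nhds p hr1))
  -- the orbit near time 0 (negative) is in the moved tile s
  have hsmall : ∀ᶠ n in (S.U : Filter ℕ), |x n| < min η η2 := by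
    have := hx.eventually (ball_mem_nhds (0 : ℝ) (lt_min hη hη2))
    filter_upwards [this] with n hn
    simpa [dist_eq_norm] using hn
  have hshift : ∀ (y c : ℝ), G.Φ (-c) • G.Φ y • p = G.Φ (y - c) • p := by
    intro y c
    rw [← mul_smul, ← Gen.Φ_add]
    ring_nf
  -- step A
  have hA : ∀ᶠ n in (S.U : Filter ℕ), ∀ y ∈ Ioo (a n) 0,
      ∃ l ∈ {l | p ∈ S.A l} ∩ {l | l ≠ s}, G.Φ y • p ∈ S.gm n t l • S.A l := by
    filter_upwards [hcov, hsmall, hgm, ha] with n hn hxn hg han y hy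
    have hxy : x n < y := han.1.trans_lt hy.1
    have hx0 : x n < 0 := han.1.trans_lt han.2
    have habs : |x n| = -x n := abs_of_neg hx0
    have h1 : y - x n ∈ Ioo 0 η := by
      refine ⟨by linarith, ?_⟩
      have : |x n| < η := hxn.trans_le (min_le_left _ _)
      rw [habs] at this
      linarith [hy.2]
    have hyabs : |y| < η2 := by
      rw [abs_of_neg hy.2]
      have : |x n| < η2 := hxn.trans_le (min_le_right _ _)
      rw [habs] at this
      linarith
    have hCy : G.Φ y • p ∈ ball p r1 := hη2b y (by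
      rw [mem_ball, dist_zero_right, Real.norm_eq_abs]; exact hyabs)
    obtain ⟨-, -, r, hr, hedge⟩ := hE _ h1
    obtain ⟨r2, hr2, hr2b⟩ := Metric.isOpen_iff.1 (isOpen_ball (x := p) (ε := r1)) _ hCy
    have hfin : ({l | p ∈ S.A l} ∩ {l | l ≠ s}).Finite := (S.fin_mem p).inter_of_left _
    have hcl : IsClosed (⋃ l ∈ ({l | p ∈ S.A l} ∩ {l | l ≠ s}), S.gm n t l • S.A l) :=
      hfin.isClosed_biUnion fun l _ => (S.closed l).smul _
    have hmem : G.Φ y • p ∈ ⋃ l ∈ ({l | p ∈ S.A l} ∩ {l | l ≠ s}), S.gm n t l • S.A l := by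
      rw [← hcl.closure_eq, Metric.mem_closure_iff]
      intro e he
      obtain ⟨w, hw, hwF⟩ := G.exists_lt (G.V_Φ_ne hV y) (lt_min he (lt_min hr hr2))
      obtain ⟨l, hl, hl2⟩ := hn w (hr2b (ball_subset_ball
        ((min_le_right _ _).trans (min_le_right _ _)) hw))
      have hls : l ≠ s := by
        rintro rfl
        rw [hg, mem_Φ_smul] at hl2
        have hb : G.Φ (-x n) • w ∈ ball (G.Φ (y - x n) • p) r := by
          rw [← hshift, mem_ball, dist_smul]
          exact ball_subset_ball ((min_le_right _ _).trans (min_le_left _ _)) hw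
        have := (hedge _ hb).1.1 hl2
        rw [G.F_Φ, G.F_Φ] at this
        rw [G.F_Φ] at hwF
        linarith
      refine ⟨w, ?_, ?_⟩
      · simp only [mem_iUnion]
        exact ⟨l, ⟨hl, hls⟩, hl2⟩
      · rw [dist_comm]
        exact lt_of_lt_of_le hw (min_le_left _ _)
    simp only [mem_iUnion] at hmem
    obtain ⟨l, hl, hl2⟩ := hmem
    exact ⟨l, hl, hl2⟩
  -- step B
  have hB : ∀ᶠ n in (S.U : Filter ℕ), ∃ l ∈ {l | p ∈ S.A l} ∩ {l | l ≠ s},
      ∃ a' b', a n ≤ a' ∧ a' < b' ∧ b' ≤ 0 ∧ ∀ y ∈ Ioo a' b', G.Φ y • p ∈ S.gm n t l • S.A l := by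
    filter_upwards [hA, ha] with n hn han
    obtain ⟨l, hl, a', b', h1, h2, h3, h4⟩ := exists_Ioo_subset
      (s := {l | p ∈ S.A l} ∩ {l | l ≠ s}) ((S.fin_mem p).inter_of_left _)
      (Z := fun l => {y | G.Φ y • p ∈ S.gm n t l • S.A l})
      (fun l _ => ((S.closed l).smul _).preimage (G.continuous_orbit p)) han.2 hn
    exact ⟨l, hl, a', b', h1, h2, h3, h4⟩
  obtain ⟨l, ⟨-, hls⟩, hl⟩ := S.pigeon ((S.fin_mem p).inter_of_left _) hB
  -- step C
  have hgl : ∀ᶠ n in (S.U : Filter ℕ), dist ((S.gm n t l)⁻¹ • p) p < δ / 2 := by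
    have h3 : Tendsto (fun n => (S.gm n t l)⁻¹ • p) S.U (𝓝 ((1 : Mv)⁻¹ • p)) :=
      ((S.gm_lim t l).inv).smul tendsto_const_nhds
    simp only [inv_one, one_smul] at h3
    exact h3.eventually (ball_mem_nhds p (half_pos hδ))
  have hCC : ∀ᶠ n in (S.U : Filter ℕ), ∃ k ∈ {k | p ∈ S.A k} ∩ {k | k ≠ l}, ∃ a' b',
      a n ≤ a' ∧ a' < b' ∧ b' ≤ 0 ∧ ∀ y ∈ Ioo a' b', (S.gm n t l)⁻¹ • G.Φ y • p ∈ S.A l ∧
        (S.gm n t l)⁻¹ • G.Φ y • p ∈ S.A k := by
    filter_upwards [hl, ha, hgl, S.disj_gm t l s hls, hgm, hsmall] with n hn han hgln hdis hg hxn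
    obtain ⟨a', b', h1, h2, h3, h4⟩ := hn
    have hx0 : x n < 0 := han.1.trans_lt han.2
    have habs : |x n| = -x n := abs_of_neg hx0
    have hxη : -x n < η := by rw [← habs]; exact hxn.trans_le (min_le_left _ _)
    have hcovk : ∀ y ∈ Ioo a' b', ∃ k ∈ {k | p ∈ S.A k} ∩ {k | k ≠ l},
        (S.gm n t l)⁻¹ • G.Φ y • p ∈ S.A k := by
      intro y hy
      have hya : a n < y := h1.trans_lt hy.1
      have hy0 : y < 0 := hy.2.trans_le h3
      have hwl : (S.gm n t l)⁻¹ • G.Φ y • p ∈ S.A l := by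
        rw [← Set.mem_smul_set_iff_inv_smul_mem]; exact h4 y hy
      have hnint : (S.gm n t l)⁻¹ • G.Φ y • p ∉ interior (S.A l) := by
        intro hint
        have h5 : G.Φ y • p ∈ interior (S.gm n t l • S.A l) := by
          rw [interior_smul_mv, Set.mem_smul_set_iff_inv_smul_mem]; exact hint
        have h6 : G.Φ y • p ∈ S.gm n t s • S.A s := by
          rw [hg, mem_Φ_smul, hshift]
          refine (hE _ ⟨?_, ?_⟩).left
          · linarith [han.1]
          · linarith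
        exact Set.disjoint_left.1 (disj_int_of_reg ((S.nice s).smul _).reg hdis) h5 h6
      obtain ⟨k, hk, hk2⟩ := S.exists_other hnint
      refine ⟨k, ⟨?_, hk⟩, hk2⟩
      refine hM _ ?_ k hk2
      rw [mem_ball]
      have hyη : |y| < η := by rw [abs_of_neg hy0]; linarith [han.1]
      calc dist ((S.gm n t l)⁻¹ • G.Φ y • p) p
          ≤ dist ((S.gm n t l)⁻¹ • G.Φ y • p) ((S.gm n t l)⁻¹ • p)
            + dist ((S.gm n t l)⁻¹ • p) p := dist_triangle _ _ _
        _ < δ / 2 + δ / 2 := by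
          rw [dist_smul]
          exact add_lt_add (hC y hyη) hgln
        _ = δ := by ring
    obtain ⟨k, hk, a'', b'', h5, h6, h7, h8⟩ := exists_Ioo_subset
      (s := {k | p ∈ S.A k} ∩ {k | k ≠ l}) ((S.fin_mem p).inter_of_left _)
      (Z := fun k => {y | (S.gm n t l)⁻¹ • G.Φ y • p ∈ S.A k})
      (fun k _ => (S.closed k).preimage ((continuous_const_smul _).comp (G.continuous_orbit p)))
      h2 hcovk
    refine ⟨k, hk, a'', b'', h1.trans h5, h6, h7.trans h3, fun y hy => ⟨?_, h8 hy⟩⟩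
    rw [← Set.mem_smul_set_iff_inv_smul_mem]
    exact h4 y ⟨h5.trans_lt hy.1, hy.2.trans_le h7⟩
  obtain ⟨k, ⟨-, hkl⟩, hk⟩ := S.pigeon ((S.fin_mem p).inter_of_left _) hCC
  exact ⟨l, k, hls, hkl, hk⟩

end FlexSys
end H231R2
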