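import Pool.Agent.H231R2.Pass

/-! # Interfaces pass through points which are in three or more tiles, part 2 -/

set_option autoImplicit false

open Filter Topology Metric Set
open scoped Pointwise ComplexConjugate

noncomputable section

namespace H231R2
namespace FlexSys
variable {S : FlexSys}

/-- step D: the two tiles move differently -/
lemma q1_d {G : Gen} {s t : S.J} {p : ℂ} (hrel : S.Rel G s t) {η : ℝ} (hη : 0 < η)
    (hinj : ∀ x y, |x| < η → |y| < η → G.Φ x • p = G.Φ y • p → x = y)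
    {x : ℕ → ℝ} (hx : Tendsto x S.U (𝓝 0)) (hgm : ∀ᶠ n in (S.U : Filter ℕ), S.gm n t s = G.Φ (x n))
    (hE : ∀ y ∈ Ioo 0 η, S.Edge G s t (G.Φ y • p))
    {a : ℕ → ℝ} (ha : ∀ᶠ n in (S.U : Filter ℕ), x n ≤ a n ∧ a n < 0) {l k : S.J} (hls : l ≠ s)
    (hkl : k ≠ l) (h : ∀ᶠ n in (S.U : Filter ℕ), ∃ a' b', a n ≤ a' ∧ a' < b' ∧ b' ≤ 0 ∧
      ∀ y ∈ Ioo a' b', (S.gm n t l)⁻¹ • G.Φ y • p ∈ S.A l ∧
        (S.gm n t l)⁻¹ • G.Φ y • p ∈ S.A k) : ¬ S.eqv l k := by
  intro hlk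
  have hsmall : ∀ᶠ n in (S.U : Filter ℕ), |x n| < η := by
    have := hx.eventually (ball_mem_nhds (0 : ℝ) hη)
    filter_upwards [this] with n hn
    simpa [dist_eq_norm] using hn
  have hshift : ∀ (y c : ℝ), G.Φ (-c) • G.Φ y • p = G.Φ (y - c) • p := by
    intro y c
    rw [← mul_smul, ← Gen.Φ_add]
    ring_nf
  by_cases hks : k = s
  · -- l moves with s
    obtain ⟨n, ⟨a', b', h1, h2, h3, h4⟩, hn1, hn2, hn3, hn4⟩ :=
      (h.and (ha.and (hsmall.and (hgm.and hlk)))).exists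
    have hm : ((a' + b') / 2) ∈ Ioo a' b' := ⟨by linarith, by linarith⟩
    obtain ⟨h5, -⟩ := h4 _ hm
    have hx0 : x n < 0 := hn1.1.trans_lt hn1.2
    have habs : |x n| = -x n := abs_of_neg hx0
    rw [habs] at hn2
    have hgl : S.gm n t l = G.Φ (x n) := by
      rw [← hn3, gm, gm, hn4, hks]
    rw [hgl, ← Gen.Φ_neg, hshift] at h5
    have hy : (a' + b') / 2 - x n ∈ Ioo 0 η := by
      constructor
      · linarith [hn1.1]
      · linarith [hn1.1]
    have hEy := hE _ hy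
    have hlt : l = t := by
      rcases hEy.nt l s t h5 hEy.left hEy.right with e | e | e
      · exact absurd e hls
      · exact absurd e hrel.ne
      · exact e
    apply hrel.not_eqv
    rw [← hks, ← hlt]
    exact hlk.symm
  · obtain ⟨n, ⟨a', b', h1, h2, h3, h4⟩, hn1, hn2, hn3, hn4, hd1, hd2, hd3⟩ :=
      (h.and (ha.and (hsmall.and (hgm.and (hlk.and ((S.disj_gm t s l hls.symm).and
        ((S.disj_gm t l k hkl.symm).and (S.disj_gm t s k (Ne.symm hks))))))))).exists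
    have hx0 : x n < 0 := hn1.1.trans_lt hn1.2
    have habs : |x n| = -x n := abs_of_neg hx0
    rw [habs] at hn2
    have hkg : S.gm n t k = S.gm n t l := by rw [gm, gm, hn4]
    have hy1 : ∀ y ∈ Ioo a' b', G.Φ y • p ∈ S.gm n t s • S.A s ∩ S.gm n t l • S.A l ∩
        S.gm n t k • S.A k := by
      intro y hy
      obtain ⟨h5, h6⟩ := h4 y hy
      refine ⟨⟨?_, ?_⟩, ?_⟩
      · rw [hn3, mem_Φ_smul, hshift]
        refine (hE _ ⟨?_, ?_⟩).left
        · linarith [hn1.1, hy.1]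
        · linarith [hn1.1, hy.2]
      · rw [Set.mem_smul_set_iff_inv_smul_mem]; exact h5
      · rw [hkg, Set.mem_smul_set_iff_inv_smul_mem]; exact h6
    have hyη : ∀ y ∈ Ioo a' b', |y| < η := by
      intro y hy
      rw [abs_of_neg (hy.2.trans_le h3)]
      linarith [hn1.1, hy.1]
    have m1 : a' + (b' - a') / 4 ∈ Ioo a' b' := ⟨by linarith, by linarith⟩
    have m2 : a' + (b' - a') / 2 ∈ Ioo a' b' := ⟨by linarith, by linarith⟩
    have m3 : a' + 3 * (b' - a') / 4 ∈ Ioo a' b' := ⟨by linarith, by linarith⟩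
    refine three_common ((S.nice s).smul _) ((S.nice l).smul _) ((S.nice k).smul _) hd1 hd2 hd3
      ?_ ?_ ?_ (hy1 _ m1) (hy1 _ m2) (hy1 _ m3)
    · intro e
      have := hinj _ _ (hyη _ m1) (hyη _ m2) e
      linarith
    · intro e
      have := hinj _ _ (hyη _ m2) (hyη _ m3) e
      linarith
    · intro e
      have := hinj _ _ (hyη _ m1) (hyη _ m3) e
      linarith

/-- the main step of the passing lemma -/
lemma q1 {G : Gen} {s t : S.J} {p : ℂ} (hrel : S.Rel G s t) (hV : G.V p ≠ 0) {δ η : ℝ}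
    (hδ : 0 < δ) (hη : 0 < η)
    (hN : ∀ w ∈ ball p δ, w ≠ p → S.NT w)
    (hM : ∀ w ∈ ball p δ, ∀ t, w ∈ S.A t → p ∈ S.A t)
    (hC : ∀ x, |x| < η → G.Φ x • p ∈ ball p (δ / 2))
    (hinj : ∀ x y, |x| < η → |y| < η → G.Φ x • p = G.Φ y • p → x = y)
    (hinj' : ∀ x y, |x| < η → |y| < η → G.Φ x = G.Φ y → x = y)
    {x : ℕ → ℝ} (hx : Tendsto x S.U (𝓝 0)) (hgm : ∀ᶠ n in (S.U : Filter ℕ), S.gm n t s = G.Φ (x n))
    (hE : ∀ y ∈ Ioo 0 η, S.Edge G s t (G.Φ y • p))
    {a : ℕ → ℝ} (ha : ∀ᶠ n in (S.U : Filter ℕ), x n ≤ a n ∧ a n < 0) :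
    ∃ (l k : S.J) (u : ℕ → ℝ), l ≠ s ∧ S.Rel G k l ∧
      (∀ y ∈ Ioo (-η) 0, S.Edge G k l (G.Φ y • p)) ∧
      Tendsto u S.U (𝓝 0) ∧ (∀ᶠ n in (S.U : Filter ℕ), S.gm n t l = G.Φ (u n)) ∧
      ∀ᶠ n in (S.U : Filter ℕ), ∃ y ∈ Ioo (a n) 0, G.Φ y • p ∈ S.gm n t l • S.A l := by
  obtain ⟨l, k, hls, hkl, hlk⟩ := q1_abc hV hδ hM hC hη hx hgm hE ha
  have hneq : ¬ S.eqv l k := q1_d hrel hη hinj hx hgm hE ha hls hkl hlk
  have hsmall : ∀ᶠ n in (S.U : Filter ℕ), |x n| < η := by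
    have := hx.eventually (ball_mem_nhds (0 : ℝ) hη)
    filter_upwards [this] with n hn
    simpa [dist_eq_norm] using hn
  have hshift : ∀ (y c : ℝ), G.Φ (-c) • G.Φ y • p = G.Φ (y - c) • p := by
    intro y c
    rw [← mul_smul, ← Gen.Φ_add]
    ring_nf
  have hp0 : G.Φ 0 • p = p := by simp
  -- closeness of the moved orbit to p
  have hclose : ∀ᶠ n in (S.U : Filter ℕ), ∀ y, |y| < η →
      (S.gm n t l)⁻¹ • G.Φ y • p ∈ ball p δ := by
    have h3 : Tendsto (fun n => (S.gm n t l)⁻¹ • p) S.U (𝓝 ((1 : Mv)⁻¹ • p)) :=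
      ((S.gm_lim t l).inv).smul tendsto_const_nhds
    simp only [inv_one, one_smul] at h3
    filter_upwards [h3.eventually (ball_mem_nhds p (half_pos hδ))] with n hgln y hy
    rw [mem_ball]
    calc dist ((S.gm n t l)⁻¹ • G.Φ y • p) p
        ≤ dist ((S.gm n t l)⁻¹ • G.Φ y • p) ((S.gm n t l)⁻¹ • p)
          + dist ((S.gm n t l)⁻¹ • p) p := dist_triangle _ _ _
      _ < δ / 2 + δ / 2 := by
        rw [dist_smul]
        exact add_lt_add (hC y hy) hgln
      _ = δ := by ring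
  -- shrink the interval so that the moved orbit avoids p
  have hlk2 : ∀ᶠ n in (S.U : Filter ℕ), ∃ a' b', a n ≤ a' ∧ a' < b' ∧ b' ≤ 0 ∧ -η < a' ∧
      ∀ y ∈ Ioo a' b', (S.gm n t l)⁻¹ • G.Φ y • p ∈ S.A l ∧
        (S.gm n t l)⁻¹ • G.Φ y • p ∈ S.A k ∧ (S.gm n t l)⁻¹ • G.Φ y • p ≠ p := by
    filter_upwards [hlk, ha, hsmall] with n hn han hxn
    obtain ⟨a', b', h1, h2, h3, h4⟩ := hn
    have hx0 : x n < 0 := han.1.trans_lt han.2
    have habs : |x n| = -x n := abs_of_neg hx0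
    rw [habs] at hxn
    have hyη : ∀ y ∈ Ioo a' b', |y| < η := by
      intro y hy
      rw [abs_of_neg (hy.2.trans_le h3)]
      linarith [han.1, hy.1]
    by_cases hex : ∃ y0 ∈ Ioo a' b', (S.gm n t l)⁻¹ • G.Φ y0 • p = p
    · obtain ⟨y0, hy0, he⟩ := hex
      refine ⟨a', y0, h1, hy0.1, hy0.2.le.trans h3, by linarith [han.1], fun y hy => ?_⟩
      have hy' : y ∈ Ioo a' b' := ⟨hy.1, hy.2.trans hy0.2⟩
      refine ⟨(h4 y hy').1, (h4 y hy').2, ?_⟩
      intro he'
      have : G.Φ y • p = G.Φ y0 • p := smul_left_cancel _ (he'.trans he.symm)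
      have := hinj _ _ (hyη y hy') (hyη y0 hy0) this
      exact absurd this hy.2.ne
    · push Not at hex
      exact ⟨a', b', h1, h2, h3, by linarith [han.1],
        fun y hy => ⟨(h4 y hy).1, (h4 y hy).2, hex y hy⟩⟩
  -- step E : a generator for l, k
  obtain ⟨G1, hrel1⟩ : ∃ G1 : Gen, S.Rel G1 l k := by
    obtain ⟨n, ⟨a', b', h1, h2, h3, h4, h5⟩, hn2⟩ := (hlk2.and hclose).exists
    have hm : ((a' + b') / 2) ∈ Ioo a' b' := ⟨by linarith, by linarith⟩
    obtain ⟨h6, h7, h8⟩ := h5 _ hm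
    have habs : |(a' + b') / 2| < η := by
      rw [abs_of_neg (hm.2.trans_le h3)]
      linarith [hm.1]
    obtain ⟨G1, hG1, -⟩ := edge_exists (hN _ (hn2 _ habs) h8) h6 h7 hneq
    exact ⟨G1, hG1⟩
  -- the first integral of G1 is constant on the moved orbit
  have hconst : ∀ᶠ n in (S.U : Filter ℕ), ∃ c : ℝ, ∃ y0, a n < y0 ∧ y0 < 0 ∧ -η < y0 ∧
      (S.gm n t l)⁻¹ • G.Φ y0 • p ∈ S.A l ∧ (S.gm n t l)⁻¹ • G.Φ y0 • p ∈ S.A k ∧
      (S.gm n t l)⁻¹ • G.Φ y0 • p ≠ p ∧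
      ∀ y, G1.F ((S.gm n t l)⁻¹ • G.Φ y • p) = c := by
    filter_upwards [hlk2, hclose] with n hn hn2
    obtain ⟨a', b', h1, h2, h3, h4, h5⟩ := hn
    have hm : ((a' + b') / 2) ∈ Ioo a' b' := ⟨by linarith, by linarith⟩
    set y0 := (a' + b') / 2 with hy0
    obtain ⟨h6, h7, h8⟩ := h5 _ hm
    have habs : |y0| < η := by
      rw [abs_of_neg (hm.2.trans_le h3)]
      linarith [hm.1]
    set w0 := (S.gm n t l)⁻¹ • G.Φ y0 • p with hw0
    -- near w0 the common points of l and k have the same value of F1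
    have hnear : ∀ᶠ w in 𝓝 w0, w ∈ S.A l → w ∈ S.A k → G1.F w = G1.F w0 := by
      rcases edge_of_rel hrel1 (hN _ (hn2 _ habs) h8) h6 h7 with h | h
      · obtain ⟨-, -, r, hr, h⟩ := h
        filter_upwards [ball_mem_nhds w0 hr] with w hw hwl hwk
        exact le_antisymm ((h w hw).2.1 hwk) ((h w hw).1.1 hwl)
      · obtain ⟨-, -, r, hr, h⟩ := h
        filter_upwards [ball_mem_nhds w0 hr] with w hw hwl hwk
        exact le_antisymm ((h w hw).2.1 hwl) ((h w hw).1.1 hwk)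
    have hct : Tendsto (fun y => (S.gm n t l)⁻¹ • G.Φ y • p) (𝓝 y0) (𝓝 w0) :=
      ((continuous_const_smul _).comp (G.continuous_orbit p)).tendsto y0
    have hev : ∀ᶠ y in 𝓝 y0, G1.F ((S.gm n t l)⁻¹ • G.Φ y • p) = G1.F w0 := by
      filter_upwards [hct.eventually hnear, isOpen_Ioo.mem_nhds hm] with y hy1 hy2
      exact hy1 (h5 y hy2).1 (h5 y hy2).2.1
    obtain ⟨a'', b'', h9, h10⟩ := mem_nhds_iff_exists_Ioo_subset.1 hev
    refine ⟨G1.F w0, y0, h1.trans_lt hm.1, hm.2.trans_le h3, h4.trans hm.1, h6, h7, h8, ?_⟩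
    exact Gen.const_extend G G1 _ p (h9.1.trans h9.2) (fun y hy => h10 hy)
  -- step F : p is on the moved orbit
  have hF : ∀ᶠ n in (S.U : Filter ℕ), ∃ y, |y| < η ∧ (S.gm n t l)⁻¹ • G.Φ y • p = p := by
    by_contra hcon
    rw [← Ultrafilter.eventually_not] at hcon
    have hall : ∀ y ∈ Ioo 0 η, G.Φ y • p ∈ S.A l ∧ G.Φ y • p ∈ S.A k := by
      intro y hy
      have hev : ∀ᶠ n in (S.U : Filter ℕ), (S.gm n t l)⁻¹ • G.Φ y • p ∈ S.A l ∧
          (S.gm n t l)⁻¹ • G.Φ y • p ∈ S.A k := by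
        filter_upwards [hcon, hconst, hclose] with n hn hn2 hn3
        push Not at hn
        obtain ⟨c, y0, h1, h2, h3, h4, h5, h6, h7⟩ := hn2
        have hQ : IsPreconnected ((fun y => (S.gm n t l)⁻¹ • G.Φ y • p) '' Ioo (-η) η) :=
          isPreconnected_Ioo.image _
            ((continuous_const_smul _).comp (G.continuous_orbit p)).continuousOn
        have hNT : ∀ q ∈ ((fun y => (S.gm n t l)⁻¹ • G.Φ y • p) '' Ioo (-η) η), S.NT q := by
          rintro q ⟨y, hy, rfl⟩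
          have : |y| < η := abs_lt.2 hy
          exact hN _ (hn3 y this) (hn y this)
        have hFc : ∀ q ∈ ((fun y => (S.gm n t l)⁻¹ • G.Φ y • p) '' Ioo (-η) η), G1.F q = c := by
          rintro q ⟨y, hy, rfl⟩
          exact h7 y
        have hyI : y ∈ Ioo (-η) η := ⟨by linarith [hy.1], hy.2⟩
        have hy0I : y0 ∈ Ioo (-η) η := ⟨h3, by linarith⟩
        rcases arc' hrel1 hQ hNT hFc (mem_image_of_mem _ hy0I) h4 h5 with h | h
        · have := h _ (mem_image_of_mem _ hyI)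
          exact ⟨this.left, this.right⟩
        · have := h _ (mem_image_of_mem _ hyI)
          exact ⟨this.right, this.left⟩
      have hlim : Tendsto (fun n => (S.gm n t l)⁻¹ • G.Φ y • p) S.U (𝓝 (G.Φ y • p)) := by
        have h3 : Tendsto (fun n => (S.gm n t l)⁻¹ • G.Φ y • p) S.U
            (𝓝 ((1 : Mv)⁻¹ • G.Φ y • p)) := ((S.gm_lim t l).inv).smul tendsto_const_nhds
        simpa only [inv_one, one_smul] using h3
      exact ⟨(S.closed l).mem_of_tendsto hlim (hev.mono fun _ h => h.1),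
        (S.closed k).mem_of_tendsto hlim (hev.mono fun _ h => h.2)⟩
    have hy : η / 2 ∈ Ioo 0 η := ⟨by linarith, by linarith⟩
    have hEy := hE _ hy
    have hlt : l = t := by
      rcases hEy.nt l s t (hall _ hy).1 hEy.left hEy.right with e | e | e
      · exact absurd e hls
      · exact absurd e hrel.ne
      · exact e
    obtain ⟨n, hn⟩ := hcon.exists
    apply hn
    refine ⟨0, by simpa using hη, ?_⟩
    rw [hlt, gm_self]
    simp
  -- step G : G1 is similar to G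
  have hc1 : ∀ᶠ n in (S.U : Filter ℕ), ∀ y, G1.F ((S.gm n t l)⁻¹ • G.Φ y • p) = G1.F p := by
    filter_upwards [hF, hconst] with n hn hn2 y
    obtain ⟨y1, -, hy1⟩ := hn
    obtain ⟨c, y0, -, -, -, -, -, -, h7⟩ := hn2
    rw [h7 y, ← h7 y1, hy1]
  have hF1C : ∀ y, G1.F (G.Φ y • p) = G1.F p := by
    intro y
    have hlim : Tendsto (fun n => (S.gm n t l)⁻¹ • G.Φ y • p) S.U (𝓝 (G.Φ y • p)) := by
      have h3 : Tendsto (fun n => (S.gm n t l)⁻¹ • G.Φ y • p) S.U
          (𝓝 ((1 : Mv)⁻¹ • G.Φ y • p)) := ((S.gm_lim t l).inv).smul tendsto_const_nhds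
      simpa only [inv_one, one_smul] using h3
    have h4 : Tendsto (fun n => G1.F ((S.gm n t l)⁻¹ • G.Φ y • p)) S.U (𝓝 (G1.F (G.Φ y • p))) :=
      (G1.continuous_F.tendsto _).comp hlim
    have h5 : Tendsto (fun n => G1.F ((S.gm n t l)⁻¹ • G.Φ y • p)) S.U (𝓝 (G1.F p)) :=
      tendsto_const_nhds.congr' (hc1.mono fun n hn => (hn y).symm)
    exact tendsto_nhds_unique h4 h5
  have hsim : G.Sim G1 := Gen.sim_of_const hV hη (fun y _ => hF1C y)
  have hrelG : S.Rel G l k := hrel1.of_sim hsim.symm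
  -- step G' : the motion of l belongs to the group of G
  obtain ⟨l0, hl0, hl02⟩ := hsim
  have hstab : ∀ᶠ n in (S.U : Filter ℕ), ∀ y ∈ Ioo (-η) η,
      G.F ((S.gm n t l)⁻¹ • G.Φ y • p) = G.F p := by
    filter_upwards [hc1] with n hn y _
    have h1 := hl02 ((S.gm n t l)⁻¹ • G.Φ y • p) p
    rw [hn y, sub_self] at h1
    have h2 : G.F ((S.gm n t l)⁻¹ • G.Φ y • p) - G.F p = 0 := by
      rcases mul_eq_zero.1 h1.symm with h | h
      · exact absurd h hl0
      · exact h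
    linarith
  have hginv : Tendsto (fun n => (S.gm n t l)⁻¹) S.U (𝓝 1) := by
    simpa using (S.gm_lim t l).inv
  obtain ⟨u', hu', hu'2⟩ := G.stab hV hη S.U (fun n => (S.gm n t l)⁻¹) hginv hstab
  have hu2 : ∀ᶠ n in (S.U : Filter ℕ), S.gm n t l = G.Φ (-u' n) := by
    filter_upwards [hu'2] with n hn
    rw [Gen.Φ_neg, ← hn, inv_inv]
  have hu0 : Tendsto (fun n => -u' n) S.U (𝓝 0) := by simpa using hu'.neg
  -- step H : the opposite ray
  have husmall : ∀ᶠ n in (S.U : Filter ℕ), |x n| + |u' n| < η := by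
    have h1 : Tendsto (fun n => |x n| + |u' n|) S.U (𝓝 (|0| + |0|)) := (hx.abs).add (hu'.abs)
    simp only [abs_zero, add_zero] at h1
    exact h1.eventually (gt_mem_nhds hη)
  have hnegray : IsPreconnected ((fun y => G.Φ y • p) '' Ioo (-η) 0) :=
    isPreconnected_Ioo.image _ (G.continuous_orbit p).continuousOn
  have hnegNT : ∀ q ∈ (fun y => G.Φ y • p) '' Ioo (-η) 0, S.NT q := by
    rintro q ⟨y, hy, rfl⟩
    have hyη : |y| < η := abs_lt.2 ⟨hy.1, hy.2.trans hη⟩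
    refine hN _ (ball_subset_ball (half_le_self hδ.le) (hC y hyη)) ?_
    intro e
    have := hinj y 0 hyη (by simpa using hη) (by rw [hp0]; exact e)
    exact hy.2.ne this
  have hnegF : ∀ q ∈ (fun y => G.Φ y • p) '' Ioo (-η) 0, G.F q = G.F p := by
    rintro q ⟨y, hy, rfl⟩
    simp
  have hEray : ∀ y ∈ Ioo (-η) 0, S.Edge G k l (G.Φ y • p) := by
    obtain ⟨n, ⟨c, y0, h1, h2, h3, h4, h5, h6, -⟩, hn2, hn3, hn4, hn5, hn6⟩ :=
      (hconst.and (hu2.and (husmall.and (ha.and (hgm.and (S.disj_gm t l s hls)))))).exists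
    rw [hn2, ← Gen.Φ_neg, hshift] at h4 h5 h6
    have hx0 : x n < 0 := hn4.1.trans_lt hn4.2
    have hxabs : |x n| = -x n := abs_of_neg hx0
    have hy0u : |y0 - -u' n| < η := by
      calc |y0 - -u' n| ≤ |y0| + |u' n| := by
            have := abs_add_le y0 (u' n); simpa using this
        _ ≤ |x n| + |u' n| := by
            rw [abs_of_neg h2, hxabs]; linarith [hn4.1]
        _ < η := hn3
    rcases lt_trichotomy (y0 - -u' n) 0 with hlt | heq | hgt
    · have hI : y0 - -u' n ∈ Ioo (-η) 0 := ⟨(abs_lt.1 hy0u).1, hlt⟩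
      rcases arc' hrelG hnegray hnegNT hnegF (mem_image_of_mem _ hI) h4 h5 with h | h
      · exfalso
        have hEl := h _ (mem_image_of_mem _ hI)
        have hIs : y0 - x n ∈ Ioo 0 η := by
          constructor
          · linarith [hn4.1]
          · have : |x n| < η := by linarith [abs_nonneg (u' n)]
            rw [hxabs] at this
            linarith
        have hEs := hE _ hIs
        have e : G.Φ (-u' n) • G.Φ (y0 - -u' n) • p = G.Φ (x n) • G.Φ (y0 - x n) • p := by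
          rw [← mul_smul, ← mul_smul, ← Gen.Φ_add, ← Gen.Φ_add]
          ring_nf
        have := overlap hEl hEs e
        rw [← hn2, ← hn5] at this
        exact this hn6
      · intro y hy
        exact h _ (mem_image_of_mem _ hy)
    · exfalso
      apply h6
      rw [heq, hp0]
    · exfalso
      have hI : y0 - -u' n ∈ Ioo 0 η := ⟨hgt, (abs_lt.1 hy0u).2⟩
      have hEy := hE _ hI
      have hlt' : l = t := by
        rcases hEy.nt l s t h4 hEy.left hEy.right with e | e | e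
        · exact absurd e hls
        · exact absurd e hrel.ne
        · exact e
      have h7 : G.Φ (-u' n) = G.Φ 0 := by
        rw [← hn2, hlt', gm_self, Gen.Φ_zero]
      have h8 := hinj' _ _ (by rw [abs_neg]; linarith [abs_nonneg (x n)])
        (by simpa using hη) h7
      rw [h8] at hgt
      linarith
  refine ⟨l, k, fun n => -u' n, hls, hrelG.symm, hEray, hu0, hu2, ?_⟩
  filter_upwards [hconst] with n hn
  obtain ⟨c, y0, h1, h2, h3, h4, -⟩ := hn
  exact ⟨y0, ⟨h1, h2⟩, by rw [Set.mem_smul_set_iff_inv_smul_mem]; exact h4⟩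

end FlexSys
end H231R2
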