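import Pool.Agent.H231R2.Pass2

/-! # Interfaces pass through points which are in three or more tiles, part 3 -/

set_option autoImplicit false

open Filter Topology Metric Set
open scoped Pointwise ComplexConjugate

noncomputable section

namespace H231R2
namespace FlexSys
variable {S : FlexSys}

/-- the tile which slides towards `p` is opposed, beyond `p`, to a tile moving with the other
one -/
lemma pass1 {G : Gen} {s t : S.J} {p : ℂ} (hrel : S.Rel G s t) (hV : G.V p ≠ 0)
    {x : ℕ → ℝ} (hx : Tendsto x S.U (𝓝 0)) (hgm : ∀ᶠ n in (S.U : Filter ℕ), S.gm n t s = G.Φ (x n))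
    (hneg : ∀ᶠ n in (S.U : Filter ℕ), x n < 0) {X : ℝ} (hX : 0 < X)
    (hE : ∀ y ∈ Ioo 0 X, S.Edge G s t (G.Φ y • p)) :
    ∃ δ > 0, ∃ k l, S.eqv l t ∧ S.Rel G k l ∧ ∀ y ∈ Ioo (-δ) 0, S.Edge G k l (G.Φ y • p) := by
  obtain ⟨δ, hδ, η0, hη0, hN, hM, hC, hinj, hinj'⟩ := setting (S := S) G hV
  set η := min η0 X with hηdef
  have hη : 0 < η := lt_min hη0 hX
  have hηη0 : η ≤ η0 := min_le_left _ _
  replace hC : ∀ x, |x| < η → G.Φ x • p ∈ ball p (δ / 2) := fun x hx => hC x (hx.trans_le hηη0)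
  replace hinj : ∀ x y, |x| < η → |y| < η → G.Φ x • p = G.Φ y • p → x = y :=
    fun x y hx hy => hinj x y (hx.trans_le hηη0) (hy.trans_le hηη0)
  replace hinj' : ∀ x y, |x| < η → |y| < η → G.Φ x = G.Φ y → x = y :=
    fun x y hx hy => hinj' x y (hx.trans_le hηη0) (hy.trans_le hηη0)
  replace hE : ∀ y ∈ Ioo 0 η, S.Edge G s t (G.Φ y • p) := fun y hy =>
    hE y ⟨hy.1, hy.2.trans_le (min_le_right _ _)⟩
  obtain ⟨l, k, u, hls, hkl, hray, hu, hgu, -⟩ :=
    q1 hrel hV hδ hη hN hM hC hinj hinj' hx hgm hE (a := x)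
      (hneg.mono fun n hn => ⟨le_rfl, hn⟩)
  have husmall : ∀ᶠ n in (S.U : Filter ℕ), |u n| < η := by
    have := hu.eventually (ball_mem_nhds (0 : ℝ) hη)
    filter_upwards [this] with n hn
    simpa [dist_eq_norm] using hn
  -- if u does not vanish then l ≠ t
  have hlt : (∀ᶠ n in (S.U : Filter ℕ), u n ≠ 0) → l ≠ t := by
    rintro hu0 rfl
    obtain ⟨n, hn1, hn2, hn3⟩ := (hu0.and (hgu.and husmall)).exists
    apply hn1
    refine hinj' _ _ hn3 (by simpa using hη) ?_
    rw [← hn2, gm_self, Gen.Φ_zero]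
  rcases trichotomy S.U u with h | h | h
  · -- u < 0
    exfalso
    have hlt' := hlt (h.mono fun n hn => hn.ne)
    obtain ⟨l', k', u', hls', hkl', hray', -, -, hex⟩ :=
      q1 hrel hV hδ hη hN hM hC hinj hinj' hx hgm hE (a := fun n => max (x n) (u n))
        (by filter_upwards [hneg, h] with n h1 h2 using ⟨le_max_left _ _, max_lt h1 h2⟩)
    have hl : l = l' := by
      have hI : -(η / 2) ∈ Ioo (-η) 0 := ⟨by linarith, by linarith⟩
      exact ((hray _ hI).unique (hray' _ hI)).2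
    subst hl
    obtain ⟨n, ⟨y, hy, hyl⟩, hn2, hn3, hn4⟩ := (hex.and (hgu.and (husmall.and h))).exists
    rw [hn2, mem_Φ_smul, ← mul_smul, ← Gen.Φ_add] at hyl
    have h1 : u n < y := (le_max_right _ _).trans_lt hy.1
    have hI : -u n + y ∈ Ioo 0 η := by
      constructor
      · linarith
      · rw [abs_of_neg hn4] at hn3
        linarith [hy.2]
    have hEy := hE _ hI
    rcases hEy.nt l s t hyl hEy.left hEy.right with e | e | e
    · exact hls e
    · exact hrel.ne e
    · exact hlt' e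
  · -- u = 0
    refine ⟨η, hη, k, l, ?_, hkl, hray⟩
    filter_upwards [h, hgu] with n hn hn2
    rw [hn, Gen.Φ_zero, gm, inv_mul_eq_one] at hn2
    exact hn2.symm
  · -- 0 < u
    exfalso
    have hlt' := hlt (h.mono fun n hn => hn.ne')
    obtain ⟨n, hn1, hn2, hn3, hn4⟩ :=
      (h.and (hgu.and (husmall.and (S.disj_gm t l t hlt')))).exists
    rw [abs_of_pos hn1] at hn3
    have hI1 : u n / 2 ∈ Ioo 0 η := ⟨by linarith, by linarith⟩
    have hI2 : -(u n / 2) ∈ Ioo (-η) 0 := ⟨by linarith, by linarith⟩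
    have hE1 := (hE _ hI1).flip
    have hE2 := (hray _ hI2).flip
    have e : G.flip.Φ (u n) • (G.Φ (-(u n / 2)) • p) = G.flip.Φ 0 • (G.Φ (u n / 2) • p) := by
      rw [Gen.flip_Φ, Gen.flip_Φ, ← mul_smul, ← mul_smul, ← Gen.Φ_add, ← Gen.Φ_add]
      ring_nf
    have := overlap hE2 hE1 e
    rw [Gen.flip_Φ, Gen.flip_Φ, ← hn2, Gen.Φ_zero, ← gm_self S n t] at this
    exact this hn4

/-- the interface passes through `p`, case where `s` slides towards `p` -/
lemma pass_neg {G : Gen} {s t : S.J} {p : ℂ} (hrel : S.Rel G s t) (hV : G.V p ≠ 0)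
    {x : ℕ → ℝ} (hx : Tendsto x S.U (𝓝 0)) (hgm : ∀ᶠ n in (S.U : Filter ℕ), S.gm n t s = G.Φ (x n))
    (hneg : ∀ᶠ n in (S.U : Filter ℕ), x n < 0) {X : ℝ} (hX : 0 < X)
    (hE : ∀ y ∈ Ioo 0 X, S.Edge G s t (G.Φ y • p)) :
    ∃ δ > 0, ∃ k l, S.eqv k s ∧ S.eqv l t ∧ ∀ y ∈ Ioo (-δ) 0, S.Edge G k l (G.Φ y • p) := by
  obtain ⟨δ, hδ, k, l, hlt, hkl, hray⟩ := pass1 hrel hV hx hgm hneg hX hE
  refine ⟨δ, hδ, k, l, ?_, hlt, hray⟩
  obtain ⟨η3, hη3, hinj'⟩ := G.Φ_inj_near
  obtain ⟨y, hy, hgy⟩ := id hkl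
  have hgy' : ∀ᶠ n in (S.U : Filter ℕ), S.gm n t k = G.Φ (y n) := by
    filter_upwards [hgy, hlt] with n h1 h2
    rw [gm, ← h2]
    exact h1.2
  have hsmall : ∀ᶠ n in (S.U : Filter ℕ), |x n| < min η3 (min X δ) ∧ |y n| < min η3 (min X δ) := by
    have hpos : 0 < min η3 (min X δ) := lt_min hη3 (lt_min hX hδ)
    filter_upwards [hx.eventually (ball_mem_nhds (0 : ℝ) hpos),
      hy.eventually (ball_mem_nhds (0 : ℝ) hpos)] with n h1 h2
    exact ⟨by simpa [dist_eq_norm] using h1, by simpa [dist_eq_norm] using h2⟩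
  have hyne : ∀ᶠ n in (S.U : Filter ℕ), y n ≠ 0 := hgy.mono fun n h => h.1
  rcases trichotomy S.U y with h | h | h
  · -- y < 0: reverse
    have hrel' : S.Rel G.rev.flip l k := hkl.rev.flip.symm
    have hV' : G.rev.flip.V p ≠ 0 := by simpa using hV
    have hgm' : ∀ᶠ n in (S.U : Filter ℕ), S.gm n k l = G.rev.flip.Φ (y n) := by
      filter_upwards [hgy] with n hn
      rw [Gen.flip_Φ, Gen.rev_Φ, Gen.Φ_neg, ← hn.2, gm_inv]
    have hE' : ∀ z ∈ Ioo 0 δ, S.Edge G.rev.flip l k (G.rev.flip.Φ z • p) := by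
      intro z hz
      have : S.Edge G k l (G.Φ (-z) • p) := hray (-z) ⟨by linarith [hz.2], by linarith [hz.1]⟩
      rw [Gen.flip_Φ, Gen.rev_Φ]
      exact this.rev.flip
    obtain ⟨δ', hδ', k', l', hlk', -, hray'⟩ := pass1 hrel' hV' hy hgm' h hδ hE'
    -- compare at a point of the positive ray
    set z := min X δ' / 2 with hz
    have hmin : 0 < min X δ' := lt_min hX hδ'
    have hz0 : 0 < z := by rw [hz]; linarith
    have hzX : z < X := by
      have : min X δ' ≤ X := min_le_left _ _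
      rw [hz]; linarith
    have hzδ : z < δ' := by
      have : min X δ' ≤ δ' := min_le_right _ _
      rw [hz]; linarith
    have h1 := hE z ⟨hz0, hzX⟩
    have h2 := hray' (-z) ⟨by linarith, by linarith⟩
    rw [Gen.flip_Φ, Gen.rev_Φ, neg_neg] at h2
    have h3 := h2.of_flip.of_rev
    have h4 := (h1.unique h3).1
    rw [← h4] at hlk'
    exact hlk'.symm
  · exfalso
    obtain ⟨n, hn1, hn2⟩ := (h.and hyne).exists
    exact hn2 hn1
  · -- 0 < y: overlap
    exfalso
    have hks : s ≠ k := by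
      rintro rfl
      obtain ⟨n, hn1, hn2, hn3, hn4, hn5⟩ := (h.and (hneg.and (hgm.and (hgy'.and hsmall)))).exists
      have := hinj' (x n) (y n) (hn5.1.trans_le (min_le_left _ _))
        (hn5.2.trans_le (min_le_left _ _)) (by rw [← hn3, ← hn4])
      linarith
    obtain ⟨n, hn1, hn2, hn3, hn4, hn5, hn6⟩ :=
      (h.and (hneg.and (hgm.and (hgy'.and (hsmall.and (S.disj_gm t s k hks)))))).exists
    have hxa : -x n < X := by
      have := hn5.1.trans_le ((min_le_right _ _).trans (min_le_left _ _))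
      rwa [abs_of_neg hn2] at this
    have hya : y n < δ := by
      have := hn5.2.trans_le ((min_le_right _ _).trans (min_le_right _ _))
      rwa [abs_of_pos hn1] at this
    have hE1 := hE (-x n) ⟨by linarith, hxa⟩
    have hE2 := hray (-y n) ⟨by linarith, by linarith⟩
    have e : G.Φ (x n) • (G.Φ (-x n) • p) = G.Φ (y n) • (G.Φ (-y n) • p) := by
      rw [← mul_smul, ← mul_smul, ← Gen.Φ_add, ← Gen.Φ_add]
      simp
    have := overlap hE1 hE2 e
    rw [← hn3, ← hn4] at this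
    exact this hn6

/-- the interface passes through `p` -/
theorem pass {G : Gen} {s t : S.J} {p : ℂ} (hrel : S.Rel G s t) (hV : G.V p ≠ 0)
    {X : ℝ} (hX : 0 < X) (hE : ∀ y ∈ Ioo 0 X, S.Edge G s t (G.Φ y • p)) :
    ∃ δ > 0, ∃ k l, S.eqv k s ∧ S.eqv l t ∧ ∀ y ∈ Ioo (-δ) 0, S.Edge G k l (G.Φ y • p) := by
  obtain ⟨x, hx, hgm⟩ := id hrel
  have hxne : ∀ᶠ n in (S.U : Filter ℕ), x n ≠ 0 := hgm.mono fun n h => h.1
  rcases trichotomy S.U x with h | h | h
  · exact pass_neg hrel hV hx (hgm.mono fun n hn => hn.2) h hX hE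
  · exfalso
    obtain ⟨n, hn1, hn2⟩ := (h.and hxne).exists
    exact hn2 hn1
  · have hrel' : S.Rel G.flip t s := hrel.flip.symm
    have hV' : G.flip.V p ≠ 0 := by simpa using hV
    obtain ⟨δ, hδ, k, l, hk, hl, hray⟩ := pass_neg hrel' hV' (x := fun n => -x n)
      (by simpa using hx.neg)
      (by
        filter_upwards [hgm] with n hn
        rw [Gen.flip_Φ, Gen.Φ_neg, ← hn.2, gm_inv])
      (h.mono fun n hn => by linarith) hX
      (fun y hy => by rw [Gen.flip_Φ]; exact (hE y hy).flip)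
    refine ⟨δ, hδ, l, k, hl, hk, fun y hy => ?_⟩
    have := hray y hy
    rw [Gen.flip_Φ] at this
    exact this.of_flip

/-- the other direction -/
theorem pass_rev {G : Gen} {s t : S.J} {p : ℂ} (hrel : S.Rel G s t) (hV : G.V p ≠ 0)
    {X : ℝ} (hX : 0 < X) (hE : ∀ y ∈ Ioo (-X) 0, S.Edge G s t (G.Φ y • p)) :
    ∃ δ > 0, ∃ k l, S.eqv k s ∧ S.eqv l t ∧ ∀ y ∈ Ioo 0 δ, S.Edge G k l (G.Φ y • p) := by
  obtain ⟨δ, hδ, k, l, hk, hl, hray⟩ := pass hrel.rev (p := p) (by simpa using hV) hX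
    (fun y hy => by
      rw [Gen.rev_Φ]
      exact (hE (-y) ⟨by linarith [hy.2], by linarith [hy.1]⟩).rev)
  refine ⟨δ, hδ, k, l, hk, hl, fun y hy => ?_⟩
  have := hray (-y) ⟨by linarith [hy.2], by linarith [hy.1]⟩
  rw [Gen.rev_Φ, neg_neg] at this
  exact this.of_rev

/-- the set of times at which the interface is good -/
def Good (S : FlexSys) (G : Gen) (s t : S.J) (z : ℂ) (x : ℝ) : Prop :=
  ∃ δ > 0, ∀ y, y ≠ x → |y - x| < δ →
    ∃ s' t', S.eqv s' s ∧ S.eqv t' t ∧ S.Edge G s' t' (G.Φ y • z)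

/-- the interface is a complete circle or line -/
theorem good_all {G : Gen} {s t : S.J} {z : ℂ} (hrel : S.Rel G s t) (hE : S.Edge G s t z)
    (x : ℝ) : S.Good G s t z x := by
  have hV : ∀ x, G.V (G.Φ x • z) ≠ 0 := fun x => G.V_Φ_ne hE.V_ne x
  have hC := G.continuous_orbit z
  have hshift : ∀ (y c : ℝ), G.Φ y • G.Φ c • z = G.Φ (c + y) • z := by
    intro y c
    rw [← mul_smul, ← Gen.Φ_add, add_comm]
  -- nearby points in time are in at most two tiles
  have hNT : ∀ x, ∃ δ > 0, ∀ y, y ≠ x → |y - x| < δ → S.NT (G.Φ y • z) := by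
    intro x
    obtain ⟨δ, hδ, η, hη, hN, -, hCb, hinj, -⟩ := setting (S := S) G (hV x)
    refine ⟨η, hη, fun y hy hyx => ?_⟩
    have h1 : G.Φ (y - x) • G.Φ x • z = G.Φ y • z := by rw [hshift]; ring_nf
    rw [← h1]
    refine hN _ (ball_subset_ball (half_le_self hδ.le) (hCb _ hyx)) ?_
    intro e
    have := hinj (y - x) 0 hyx (by simpa using hη) (by rw [e]; simp)
    exact hy (by linarith)
  have hopen : IsOpen {x | S.Good G s t z x} := by
    rw [Metric.isOpen_iff]
    rintro x ⟨δ, hδ, h⟩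
    refine ⟨δ, hδ, fun x' hx' => ?_⟩
    rw [mem_ball, Real.dist_eq] at hx'
    by_cases hxx : x' = x
    · rw [hxx]; exact ⟨δ, hδ, h⟩
    · refine ⟨min (δ - |x' - x|) |x' - x|, lt_min (by linarith) (abs_pos.2 (sub_ne_zero.2 hxx)),
        fun y _ hyx => ?_⟩
      refine h y ?_ ?_
      · rintro rfl
        have := hyx.trans_le (min_le_right _ _)
        rw [abs_sub_comm] at this
        exact lt_irrefl _ this
      · calc |y - x| = |(y - x') + (x' - x)| := by ring_nf
          _ ≤ |y - x'| + |x' - x| := abs_add_le _ _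
          _ < δ := by
            have := hyx.trans_le (min_le_left _ _)
            linarith
  have hclosed : IsClosed {x | S.Good G s t z x} := by
    rw [← isOpen_compl_iff, Metric.isOpen_iff]
    intro x hx
    obtain ⟨δ, hδ, hN⟩ := hNT x
    refine ⟨δ, hδ, fun x' hx' => ?_⟩
    rw [mem_ball, Real.dist_eq] at hx'
    intro hgood
    apply hx
    -- a time y0 ≠ x near x with an edge
    obtain ⟨δ', hδ', hg⟩ := hgood
    obtain ⟨y0, hy0x, hy0δ, s', t', hs', ht', hE'⟩ : ∃ y0, y0 ≠ x ∧ |y0 - x| < δ ∧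
        ∃ s' t', S.eqv s' s ∧ S.eqv t' t ∧ S.Edge G s' t' (G.Φ y0 • z) := by
      have hev : ∀ᶠ y in 𝓝[≠] x', |y - x'| < δ' ∧ |y - x| < δ ∧ y ≠ x' ∧ (x' ≠ x → y ≠ x) := by
        have h1 : ∀ᶠ y in 𝓝[≠] x', |y - x'| < δ' := by
          apply mem_nhdsWithin_of_mem_nhds
          filter_upwards [ball_mem_nhds x' hδ'] with y hy
          simpa [Real.dist_eq] using hy
        have h2 : ∀ᶠ y in 𝓝[≠] x', |y - x| < δ := by
          apply mem_nhdsWithin_of_mem_nhds
          have hc : Tendsto (fun y => |y - x|) (𝓝 x') (𝓝 |x' - x|) :=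
            ((continuous_id.sub continuous_const).abs).tendsto x'
          exact hc.eventually (gt_mem_nhds hx')
        have h3 : ∀ᶠ y in 𝓝[≠] x', y ≠ x' := self_mem_nhdsWithin
        have h4 : ∀ᶠ y in 𝓝[≠] x', (x' ≠ x → y ≠ x) := by
          by_cases hxx : x' = x
          · exact Eventually.of_forall fun y h => absurd hxx h
          · apply mem_nhdsWithin_of_mem_nhds
            filter_upwards [isOpen_ne.mem_nhds hxx] with y hy _ using hy
        filter_upwards [h1, h2, h3, h4] with y a b c d using ⟨a, b, c, d⟩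
      obtain ⟨y0, h1, h2, h3, h4⟩ := hev.exists
      refine ⟨y0, ?_, h2, hg y0 h3 h1⟩
      by_cases hxx : x' = x
      · rwa [hxx] at h3
      · exact h4 hxx
    have hrel' := hrel.congr hs' ht'
    rcases lt_or_gt_of_ne hy0x with hlt | hgt
    · -- left side
      have hQ : IsPreconnected ((fun y => G.Φ y • z) '' Ioo (x - δ) x) :=
        isPreconnected_Ioo.image _ hC.continuousOn
      have hall : ∀ q ∈ (fun y => G.Φ y • z) '' Ioo (x - δ) x, S.Edge G s' t' q := by
        refine arc hrel' hQ ?_ (c := G.F z) ?_ (q0 := G.Φ y0 • z) ?_ hE'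
        · rintro q ⟨y, hy, rfl⟩
          exact hN y hy.2.ne (by rw [abs_sub_comm, abs_of_pos] <;> linarith [hy.1, hy.2])
        · rintro q ⟨y, hy, rfl⟩
          simp
        · refine ⟨y0, ⟨?_, hlt⟩, rfl⟩
          rw [abs_sub_comm, abs_of_pos (by linarith)] at hy0δ
          linarith
      obtain ⟨δ2, hδ2, k, l, hk, hl, hray⟩ := pass_rev hrel' (p := G.Φ x • z) (hV x) hδ
        (fun y hy => by
          rw [hshift]
          exact hall _ ⟨x + y, ⟨by linarith [hy.1], by linarith [hy.2]⟩, rfl⟩)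
      refine ⟨min δ δ2, lt_min hδ hδ2, fun y hyx hyδ => ?_⟩
      rcases lt_or_gt_of_ne hyx with h | h
      · refine ⟨s', t', hs', ht', hall _ ⟨y, ⟨?_, h⟩, rfl⟩⟩
        have := hyδ.trans_le (min_le_left _ _)
        rw [abs_sub_comm, abs_of_pos (by linarith)] at this
        linarith
      · refine ⟨k, l, hk.trans hs', hl.trans ht', ?_⟩
        have h3 := hray (y - x) ⟨by linarith, by
          have := hyδ.trans_le (min_le_right _ _)
          rwa [abs_of_pos (by linarith)] at this⟩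
        rw [hshift] at h3
        have e : x + (y - x) = y := by ring
        rwa [e] at h3
    · -- right side
      have hQ : IsPreconnected ((fun y => G.Φ y • z) '' Ioo x (x + δ)) :=
        isPreconnected_Ioo.image _ hC.continuousOn
      have hall : ∀ q ∈ (fun y => G.Φ y • z) '' Ioo x (x + δ), S.Edge G s' t' q := by
        refine arc hrel' hQ ?_ (c := G.F z) ?_ (q0 := G.Φ y0 • z) ?_ hE'
        · rintro q ⟨y, hy, rfl⟩
          exact hN y hy.1.ne' (by rw [abs_of_pos] <;> linarith [hy.1, hy.2])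
        · rintro q ⟨y, hy, rfl⟩
          simp
        · refine ⟨y0, ⟨hgt, ?_⟩, rfl⟩
          rw [abs_of_pos (by linarith)] at hy0δ
          linarith
      obtain ⟨δ2, hδ2, k, l, hk, hl, hray⟩ := pass hrel' (p := G.Φ x • z) (hV x) hδ
        (fun y hy => by
          rw [hshift]
          exact hall _ ⟨x + y, ⟨by linarith [hy.1], by linarith [hy.2]⟩, rfl⟩)
      refine ⟨min δ δ2, lt_min hδ hδ2, fun y hyx hyδ => ?_⟩
      rcases lt_or_gt_of_ne hyx with h | h
      · refine ⟨k, l, hk.trans hs', hl.trans ht', ?_⟩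
        have h3 := hray (y - x) ⟨by
          have := hyδ.trans_le (min_le_right _ _)
          rw [abs_sub_comm, abs_of_pos (by linarith)] at this
          linarith, by linarith⟩
        rw [hshift] at h3
        have e : x + (y - x) = y := by ring
        rwa [e] at h3
      · refine ⟨s', t', hs', ht', hall _ ⟨y, ⟨h, ?_⟩, rfl⟩⟩
        have := hyδ.trans_le (min_le_left _ _)
        rw [abs_of_pos (by linarith)] at this
        linarith
  have h0 : (0 : ℝ) ∈ {x | S.Good G s t z x} := by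
    obtain ⟨r, hr, h⟩ := hE.near
    obtain ⟨δ, hδ, hN⟩ := hNT 0
    have hc : Tendsto (fun x => G.Φ x • z) (𝓝 0) (𝓝 z) := by
      have := hC.tendsto 0
      simpa using this
    obtain ⟨η, hη, hηb⟩ := Metric.eventually_nhds_iff_ball.1 (hc.eventually (ball_mem_nhds z hr))
    refine ⟨min δ η, lt_min hδ hη, fun y hy hyx => ⟨s, t, S.eqv_refl s, S.eqv_refl t, ?_⟩⟩
    refine h _ (hηb y ?_) (by simp) (hN y hy (hyx.trans_le (min_le_left _ _)))
    rw [mem_ball, Real.dist_eq]
    exact hyx.trans_le (min_le_right _ _)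
  have huniv : {x | S.Good G s t z x} = univ := IsClopen.eq_univ ⟨hclosed, hopen⟩ ⟨0, h0⟩
  have : x ∈ {x | S.Good G s t z x} := by rw [huniv]; exact mem_univ _
  exact this

end FlexSys
end H231R2
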