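import Pool.Agent.H231R2.Assembly

/-! # Strips and the main theorem (task 14) -/

set_option autoImplicit false

open Filter Topology Metric Set
open scoped Pointwise ComplexConjugate

noncomputable section

namespace H231R2

/-! ### the coordinate `yd` -/

lemma yd_add (d z w : ℂ) : yd d (z + w) = yd d z + yd d w := by
  simp [yd, mul_add]

lemma yd_sub (d z w : ℂ) : yd d (z - w) = yd d z - yd d w := by
  simp [yd, mul_sub]

lemma yd_neg (d z : ℂ) : yd d (-z) = -yd d z := by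
  simp [yd]

lemma yd_real_mul (d z : ℂ) (x : ℝ) : yd d (x * z) = x * yd d z := by
  unfold yd
  rw [mul_left_comm, Complex.im_ofReal_mul]

lemma continuous_yd (d : ℂ) : Continuous (yd d) := by
  unfold yd
  fun_prop

lemma yd_self (d : ℂ) : yd d d = 0 := by
  simp [yd]; ring

lemma yd_I (d : ℂ) : yd d (Complex.I * d) = ‖d‖ ^ 2 := by
  unfold yd
  rw [← Complex.normSq_eq_norm_sq, Complex.normSq_apply]
  simp

lemma yd_swap (v d : ℂ) : yd v d = -yd d v := by
  simp [yd]; ring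

lemma abs_yd_le (d z : ℂ) : |yd d z| ≤ ‖d‖ * ‖z‖ := by
  unfold yd
  refine (Complex.abs_im_le_norm _).trans ?_
  rw [norm_mul, Complex.norm_conj]

lemma half_closed (d : ℂ) (h : ℝ) : IsClosed {z | yd d z ≤ h} :=
  isClosed_le (continuous_yd d) continuous_const

lemma half_open (d : ℂ) (h : ℝ) : IsOpen {z | yd d z < h} :=
  isOpen_lt (continuous_yd d) continuous_const

lemma half_reg {d : ℂ} (hd : d ≠ 0) (h : ℝ) :
    {z | yd d z ≤ h} ⊆ closure (interior {z | yd d z ≤ h}) := by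
  intro z hz
  have h1 : {z | yd d z < h} ⊆ interior {z | yd d z ≤ h} :=
    interior_maximal (fun w (hw : yd d w < h) => (le_of_lt hw : yd d w ≤ h)) (half_open d h)
  apply closure_mono h1
  rw [Metric.mem_closure_iff]
  intro ε hε
  have hdn : 0 < ‖d‖ := norm_pos_iff.2 hd
  refine ⟨z - ((ε / (2 * ‖d‖) : ℝ) : ℂ) * (Complex.I * d), ?_, ?_⟩
  · show yd d _ < h
    rw [yd_sub, yd_real_mul, yd_I]
    have : 0 < ε / (2 * ‖d‖) * ‖d‖ ^ 2 := by positivity
    have hz' : yd d z ≤ h := hz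
    linarith
  · rw [dist_eq_norm, sub_sub_cancel, norm_mul, norm_mul, Complex.norm_I, one_mul,
      Complex.norm_real, Real.norm_eq_abs, abs_of_pos (by positivity)]
    have : ε / (2 * ‖d‖) * ‖d‖ = ε / 2 := by
      field_simp
    rw [this]
    linarith

lemma tr_smul_half (d u : ℂ) (h : ℝ) :
    Mv.tr u • {z | yd d z ≤ h} = {z | yd d z ≤ h + yd d u} := by
  ext z
  rw [Set.mem_smul_set_iff_inv_smul_mem, Mv.tr_inv, Mv.tr_smul]
  show yd d (z + -u) ≤ h ↔ yd d z ≤ h + yd d u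
  rw [yd_add, yd_neg]
  constructor <;> intro h <;> linarith

lemma interior_disj_half {d : ℂ} (hd : d ≠ 0) {h : ℝ} {A : Set ℂ} (hA : ∀ z ∈ A, h ≤ yd d z) :
    Disjoint (interior A) {z | yd d z ≤ h} := by
  rw [Set.disjoint_left]
  intro z hz hz'
  have h1 : z ∈ closure (interior {z | yd d z ≤ h}) := half_reg hd h hz'
  have h2 : z ∈ closure {z | yd d z < h} := by
    rw [Metric.mem_closure_iff]
    intro ε hε
    have hdn : 0 < ‖d‖ := norm_pos_iff.2 hd
    refine ⟨z - ((ε / (2 * ‖d‖) : ℝ) : ℂ) * (Complex.I * d), ?_, ?_⟩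
    · show yd d _ < h
      rw [yd_sub, yd_real_mul, yd_I]
      have : 0 < ε / (2 * ‖d‖) * ‖d‖ ^ 2 := by positivity
      have hz'' : yd d z ≤ h := hz'
      linarith
    · rw [dist_eq_norm, sub_sub_cancel, norm_mul, norm_mul, Complex.norm_I, one_mul,
        Complex.norm_real, Real.norm_eq_abs, abs_of_pos (by positivity)]
      have : ε / (2 * ‖d‖) * ‖d‖ = ε / 2 := by
        field_simp
      rw [this]
      linarith
  obtain ⟨y, hy1, hy2⟩ := mem_closure_iff.1 h2 _ isOpen_interior hz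
  have := hA y (interior_subset hy1)
  exact absurd hy2 (not_lt.2 this)

variable {N : ℕ} {P : Fin N → Set ℂ}

/-- the line `yd d = h` cuts no tile of `T` -/
def Uncut (T : Tiling P) (d : ℂ) (h : ℝ) : Prop :=
  ∀ t, (∀ z ∈ T.tile t, h ≤ yd d z) ∨ (∀ z ∈ T.tile t, yd d z ≤ h)

lemma tile_nice (hP : ∀ i, Nice (P i)) (T : Tiling P) (t : T.J) :
    (interior (T.tile t)).Nonempty := by
  unfold Tiling.tile
  rw [interior_smul_mv]
  exact (hP _).ne.smul_set

lemma stack_lines (hP : ∀ i, Nice (P i)) (T : Tiling P) {d : ℂ} (hd : d ≠ 0)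
    {h1 h2 : ℝ} (h12 : h1 < h2) (s1 : Uncut T d h1) (s2 : Uncut T d h2) :
    ∃ (T' : Tiling P) (c : ℝ), 0 < c ∧ yd d (c * (Complex.I * d)) = h2 - h1 ∧
      T'.Per (c * (Complex.I * d)) ∧
      (∀ v, T.Per v → yd d v = 0 → T'.Per v) ∧ Uncut T' d h1 := by
  have hdn : 0 < ‖d‖ := norm_pos_iff.2 hd
  set c : ℝ := (h2 - h1) / ‖d‖ ^ 2 with hc
  have hcpos : 0 < c := div_pos (sub_pos.2 h12) (by positivity)
  set u : ℂ := c * (Complex.I * d) with hu
  have hyu : yd d u = h2 - h1 := by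
    rw [hu, yd_real_mul, yd_I, hc]
    field_simp
  have hRu : Mv.tr u • {z | yd d z ≤ h1} = {z | yd d z ≤ h2} := by
    rw [tr_smul_half, hyu]
    congr 1
    ext z
    constructor <;> intro h <;> linarith
  have hRk : ∀ k : ℤ, Mv.tr ((k : ℂ) * u) • {z | yd d z ≤ h1} =
      {z | yd d z ≤ h1 + k * (h2 - h1)} := by
    intro k
    rw [tr_smul_half]
    have : yd d ((k : ℂ) * u) = k * (h2 - h1) := by
      rw [← hyu, ← yd_real_mul]
      norm_num
    rw [this]
  have hδ : 0 < h2 - h1 := sub_pos.2 h12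
  obtain ⟨T', hT1, hT2, hT3⟩ := stack hP T u (R := {z | yd d z ≤ h1}) (half_closed d h1)
    (half_reg hd h1)
    (by rw [hRu]; exact fun z (hz : yd d z ≤ h1) => hz.trans h12.le)
    (by
      intro z
      obtain ⟨k, hk⟩ := exists_int_ge ((yd d z - h1) / (h2 - h1))
      refine ⟨k, ?_⟩
      rw [hRk]
      show yd d z ≤ _
      rw [div_le_iff₀ hδ] at hk
      linarith)
    (by
      intro z
      obtain ⟨k, hk⟩ := exists_int_lt ((yd d z - h1) / (h2 - h1))
      refine ⟨k, ?_⟩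
      rw [hRk]
      show ¬ (yd d z ≤ _)
      rw [lt_div_iff₀ hδ] at hk
      push Not
      linarith)
    (by
      intro t
      rcases s1 t with h | h
      · exact Or.inr (interior_disj_half hd h)
      · exact Or.inl h)
    (by
      intro t
      rw [hRu]
      rcases s2 t with h | h
      · exact Or.inr (interior_disj_half hd h)
      · exact Or.inl h)
  refine ⟨T', c, hcpos, hyu, hT1, ?_, ?_⟩
  · intro v hv hv0
    apply hT2 v hv
    rw [tr_smul_half, hv0, add_zero]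
  · intro t'
    obtain ⟨t, k, hk, hsub, hdis⟩ := hT3 t'
    rw [hRu] at hsub
    have hlow : ∀ z ∈ T.tile t, h1 ≤ yd d z := by
      rcases s1 t with h | h
      · exact h
      · exfalso
        obtain ⟨z, hz⟩ := tile_nice hP T t
        exact Set.disjoint_left.1 hdis hz (h z (interior_subset hz))
    have hmem : ∀ z ∈ T'.tile t', h1 + k * (h2 - h1) ≤ yd d z ∧ yd d z ≤ h2 + k * (h2 - h1) := by
      intro z hz
      rw [hk, Set.mem_smul_set_iff_inv_smul_mem, Mv.tr_inv, Mv.tr_smul] at hz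
      have h3 : yd d (z + -((k : ℂ) * u)) = yd d z - k * (h2 - h1) := by
        rw [yd_add, yd_neg, ← hyu]
        have : yd d ((k : ℂ) * u) = k * yd d u := by
          rw [← yd_real_mul]
          norm_num
        rw [this]
        ring
      have h4 := hlow _ hz
      have h5 : yd d (z + -((k : ℂ) * u)) ≤ h2 := hsub hz
      rw [h3] at h4 h5
      exact ⟨by linarith, by linarith⟩
    rcases le_or_gt 0 k with h | h
    · left
      intro z hz
      have h3 : (0 : ℝ) ≤ k := by exact_mod_cast h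
      have := (hmem z hz).1
      nlinarith
    · right
      intro z hz
      have h3 : (k : ℝ) ≤ -1 := by exact_mod_cast (Int.le_sub_one_of_lt h)
      have := (hmem z hz).2
      nlinarith

/-- two lines parallel to the period which cut no tile -/
theorem two_lines (hP : ∀ i, Nice (P i)) (T : Tiling P) {v : ℂ} (hv : v ≠ 0) (hT : T.Per v)
    {h1 h2 : ℝ} (h12 : h1 < h2)
    (s1 : ∀ t, (∀ z ∈ T.tile t, h1 ≤ yd v z) ∨ (∀ z ∈ T.tile t, yd v z ≤ h1))
    (s2 : ∀ t, (∀ z ∈ T.tile t, h2 ≤ yd v z) ∨ (∀ z ∈ T.tile t, yd v z ≤ h2)) :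
    ∃ (T' : Tiling P) (u w : ℂ), Indep u w ∧ T'.Per u ∧ T'.Per w := by
  obtain ⟨T', c, hc, hyu, hper, hper', -⟩ := stack_lines hP T hv h12 s1 s2
  refine ⟨T', c * (Complex.I * v), v, ?_, hper, hper' v hT (yd_self v)⟩
  unfold Indep
  have h3 : (conj ((c : ℂ) * (Complex.I * v)) * v).im = -(yd v (c * (Complex.I * v))) := by
    have := yd_swap ((c : ℂ) * (Complex.I * v)) v
    unfold yd at this ⊢
    exact this
  rw [h3, hyu]
  intro h
  linarith

/-- repeat the strip between two parallel lines which cut no tile -/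
theorem restack (hP : ∀ i, Nice (P i)) (T : Tiling P) {d : ℂ} (hd : ‖d‖ = 1)
    {h1 h2 : ℝ} (h12 : h1 < h2)
    (s1 : ∀ t, (∀ z ∈ T.tile t, h1 ≤ yd d z) ∨ (∀ z ∈ T.tile t, yd d z ≤ h1))
    (s2 : ∀ t, (∀ z ∈ T.tile t, h2 ≤ yd d z) ∨ (∀ z ∈ T.tile t, yd d z ≤ h2)) :
    ∃ (T' : Tiling P) (w : ℂ), T'.Per w ∧ yd d w = h2 - h1 ∧
      ∀ t, (∀ z ∈ T'.tile t, h1 ≤ yd d z) ∨ (∀ z ∈ T'.tile t, yd d z ≤ h1) := by
  have hd0 : d ≠ 0 := by
    rintro rfl
    simp at hd
  obtain ⟨T', c, hc, hyu, hper, -, hun⟩ := stack_lines hP T hd0 h12 s1 s2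
  exact ⟨T', _, hper, hyu, hun⟩

lemma uncut_lim {T : Tiling P} {v d' : ℂ} (S : LimSys T v d') {d : ℂ} {h : ℝ}
    (H : ∀ u : S.J, (∀ z ∈ S.A u, h ≤ yd d z) ∨ (∀ z ∈ S.A u, yd d z ≤ h)) :
    Uncut S.lim d h := by
  intro u
  have e : S.lim.tile u = S.A u := S.lim_tile u
  rw [e]
  exact H u

/-- a line which separates the tile `u` in all the approximating tilings -/
def Sep (S : FlexSys) (d : ℂ) (h : ℝ) (u : S.J) : Prop :=
  (∀ᶠ n in (S.U : Filter ℕ), ∀ z ∈ S.A u, h ≤ yd d (S.m n u • z)) ∨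
  (∀ᶠ n in (S.U : Filter ℕ), ∀ z ∈ S.A u, yd d (S.m n u • z) ≤ h)

lemma tendsto_yd_m (S : FlexSys) (d : ℂ) (u : S.J) (z : ℂ) :
    Tendsto (fun n => yd d (S.m n u • z)) S.U (𝓝 (yd d z)) := by
  have h3 : Tendsto (fun n => (S.m n u) • z) S.U (𝓝 ((1 : Mv) • z)) :=
    (S.m_lim u).smul tendsto_const_nhds
  rw [one_smul] at h3
  exact ((continuous_yd d).tendsto z).comp h3

lemma ge_of_ev {S : FlexSys} {d : ℂ} {h : ℝ} {u : S.J}
    (H : ∀ᶠ n in (S.U : Filter ℕ), ∀ z ∈ S.A u, h ≤ yd d (S.m n u • z)) :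
    ∀ z ∈ S.A u, h ≤ yd d z := by
  intro z hz
  refine ge_of_tendsto (tendsto_yd_m S d u z) ?_
  filter_upwards [H] with n hn
  exact hn z hz

lemma le_of_ev {S : FlexSys} {d : ℂ} {h : ℝ} {u : S.J}
    (H : ∀ᶠ n in (S.U : Filter ℕ), ∀ z ∈ S.A u, yd d (S.m n u • z) ≤ h) :
    ∀ z ∈ S.A u, yd d z ≤ h := by
  intro z hz
  refine le_of_tendsto (tendsto_yd_m S d u z) ?_
  filter_upwards [H] with n hn
  exact hn z hz

lemma Sep.lim {S : FlexSys} {d : ℂ} {h : ℝ} {u : S.J} (H : Sep S d h u) :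
    (∀ z ∈ S.A u, h ≤ yd d z) ∨ (∀ z ∈ S.A u, yd d z ≤ h) := by
  rcases H with H | H
  · exact Or.inl (ge_of_ev H)
  · exact Or.inr (le_of_ev H)

/-- the first integral of a straight leaf in terms of `yd` -/
lemma Leaf.H_straight {S : FlexSys} {ℓ : Leaf S} (hω : ℓ.G.ω = 0) {d : ℂ} (hd : d ≠ 0)
    (hp : (conj d * ℓ.G.β).im = 0) :
    ∃ c : ℝ, c ≠ 0 ∧ ∀ z, ℓ.H z = c * (yd d z - yd d ℓ.z0) := by
  have hβ : ℓ.G.β ≠ 0 := by
    rcases ℓ.G.hne with h | h
    · exact absurd hω h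
    · exact h
  have hdn : Complex.normSq d ≠ 0 := fun h => hd (Complex.normSq_eq_zero.1 h)
  set b : ℝ := (conj d * ℓ.G.β).re / Complex.normSq d with hb
  have hβb : ℓ.G.β = b * d := by
    have h1 : conj d * ℓ.G.β = ((conj d * ℓ.G.β).re : ℂ) := by
      apply Complex.ext
      · simp
      · rw [hp]; simp
    have h2 : (Complex.normSq d : ℂ) = conj d * d := Complex.normSq_eq_conj_mul_self
    have h3 : ((Complex.normSq d : ℝ) : ℂ) ≠ 0 := by exact_mod_cast hdn
    rw [hb, Complex.ofReal_div, ← h1, h2]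
    rw [h2] at h3
    have h4 : d ≠ 0 := hd
    have h5 : conj d ≠ 0 := by
      intro h
      rw [h, zero_mul] at h3
      exact h3 rfl
    field_simp
  have hb0 : b ≠ 0 := by
    intro h
    rw [h] at hβb
    simp at hβb
    exact hβ hβb
  refine ⟨-ℓ.G.κ * b, mul_ne_zero (neg_ne_zero.2 ℓ.G.hκ) hb0, ?_⟩
  intro z
  have h1 : ∀ z : ℂ, (conj ℓ.G.β * z).im = b * yd d z := by
    intro z
    unfold yd
    rw [hβb, map_mul, Complex.conj_ofReal, mul_assoc, Complex.im_ofReal_mul]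
  unfold Leaf.H
  rw [ℓ.G.F_lin hω, ℓ.G.F_lin hω, h1, h1]
  ring

/-- a straight leaf cuts no tile -/
lemma Leaf.uncut {S : FlexSys} {ℓ : Leaf S} {d : ℂ} {c : ℝ} (hc : c ≠ 0) {g : ℝ}
    (hH : ∀ z, ℓ.H z = c * (yd d z - g)) (u : S.J) :
    (∀ z ∈ S.A u, g ≤ yd d z) ∨ (∀ z ∈ S.A u, yd d z ≤ g) := by
  rcases lt_or_gt_of_ne hc with hc | hc
  · rcases ℓ.side u with h | h
    · right
      intro z hz
      have := h z hz
      rw [hH] at this
      by_contra hcon
      push Not at hcon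
      have := mul_neg_of_neg_of_pos hc (sub_pos.2 hcon)
      linarith
    · left
      intro z hz
      have := h z hz
      rw [hH] at this
      by_contra hcon
      push Not at hcon
      have := mul_pos_of_neg_of_neg hc (sub_neg.2 hcon)
      linarith
  · rcases ℓ.side u with h | h
    · left
      intro z hz
      have := h z hz
      rw [hH] at this
      by_contra hcon
      push Not at hcon
      have := mul_neg_of_pos_of_neg hc (sub_neg.2 hcon)
      linarith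
    · right
      intro z hz
      have := h z hz
      rw [hH] at this
      by_contra hcon
      push Not at hcon
      have := mul_pos hc (sub_pos.2 hcon)
      linarith

/-- two tiles on the same side of a straight leaf are not separated by it -/
lemma Leaf.same_side {S : FlexSys} {ℓ : Leaf S} {d : ℂ} {c : ℝ} {g : ℝ}
    (hH : ∀ z, ℓ.H z = c * (yd d z - g)) {s t : S.J}
    (hs : ∀ w ∈ S.A s, ℓ.H w ≤ 0) (ht : ∀ w ∈ S.A t, 0 ≤ ℓ.H w)
    (h : ((∀ z ∈ S.A s, g ≤ yd d z) ∧ (∀ z ∈ S.A t, g ≤ yd d z)) ∨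
      ((∀ z ∈ S.A s, yd d z ≤ g) ∧ (∀ z ∈ S.A t, yd d z ≤ g))) : False := by
  rcases le_or_gt 0 c with hc | hc
  · rcases h with h | h
    · exact ℓ.not_both s (fun w hw => by
        rw [hH]; exact mul_nonneg hc (sub_nonneg.2 (h.1 w hw))) hs
    · exact ℓ.not_both t ht (fun w hw => by
        rw [hH]; exact mul_nonpos_of_nonneg_of_nonpos hc (sub_nonpos.2 (h.2 w hw)))
  · rcases h with h | h
    · exact ℓ.not_both t ht (fun w hw => by
        rw [hH]; exact mul_nonpos_of_nonpos_of_nonneg hc.le (sub_nonneg.2 (h.2 w hw)))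
    · exact ℓ.not_both s (fun w hw => by
        rw [hH]; exact mul_nonneg_of_nonpos_of_nonpos hc.le (sub_nonpos.2 (h.1 w hw))) hs

/-- a point on a straight leaf (in at most two tiles) is in no interface disc together with one
of its tiles -/
lemma Leaf.outer_of_straight {S : FlexSys} {ℓ : Leaf S} {d : ℂ} (hd : d ≠ 0) {c : ℝ} (hc : c ≠ 0)
    {g : ℝ} (hH : ∀ z, ℓ.H z = c * (yd d z - g)) {p : ℂ} (hp : yd d p = g) (hNT : S.NT p)
    {u : S.J} (hu : p ∈ S.A u) : S.Outer u := by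
  intro ℓ' h' hsub
  have hdn : 0 < ‖d‖ := norm_pos_iff.2 hd
  have h0 : ℓ.H p = 0 := by rw [hH, hp, sub_self, mul_zero]
  have h1 : ℓ'.H p ≤ 0 := hsub hu
  rcases h1.eq_or_lt with h2 | h2
  · -- the circle would contain the line
    obtain ⟨l, hl, hlz⟩ := Leaf.uniq ℓ ℓ' hNT h0 h2
    -- a point of the line far away
    set R : ℝ := (ℓ'.rad + ‖p - ℓ'.cen‖ + 1) / ‖d‖ with hR
    have hr' := Leaf.rad_pos h'
    have hRpos : 0 < R := by positivity
    have h3 : ℓ'.H (p + R * d) = 0 := by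
      rw [hlz, hH, yd_add, yd_real_mul, yd_self, hp]
      ring
    have h4 := (Leaf.H_nonpos_iff h' _).1 h3.le
    have h5 : ‖(R : ℂ) * d‖ = ℓ'.rad + ‖p - ℓ'.cen‖ + 1 := by
      rw [norm_mul, Complex.norm_real, Real.norm_eq_abs, abs_of_pos hRpos, hR]
      field_simp
    have h6 : ‖(R : ℂ) * d‖ ≤ ‖p + R * d - ℓ'.cen‖ + ‖p - ℓ'.cen‖ := by
      calc ‖(R : ℂ) * d‖ = ‖(p + R * d - ℓ'.cen) - (p - ℓ'.cen)‖ := by
            congr 1
            ring
        _ ≤ _ := norm_sub_le _ _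
    linarith
  · -- `p` is inside the circle
    have h3 : ‖p - ℓ'.cen‖ < ℓ'.rad := by
      have : p ∈ ball ℓ'.cen ℓ'.rad := by
        rw [← Leaf.neg_eq h']
        exact h2
      rwa [mem_ball, dist_eq_norm] at this
    have h4 : |yd d p - yd d ℓ'.cen| < ‖d‖ * ℓ'.rad := by
      rw [← yd_sub]
      refine (abs_yd_le _ _).trans_lt ?_
      gcongr
    have hpt : ∀ ε : ℝ, |ε| = 1 → ℓ'.H (ℓ'.cen + ((ε * (ℓ'.rad / ‖d‖) : ℝ) : ℂ) * (Complex.I * d)) = 0 := by
      intro ε hε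
      have : ℓ'.cen + ((ε * (ℓ'.rad / ‖d‖) : ℝ) : ℂ) * (Complex.I * d) ∈ sphere ℓ'.cen ℓ'.rad := by
        rw [mem_sphere, dist_eq_norm, add_sub_cancel_left, norm_mul, norm_mul, Complex.norm_I,
          one_mul, Complex.norm_real, Real.norm_eq_abs, abs_mul, hε, one_mul,
          abs_of_pos (div_pos (Leaf.rad_pos h') hdn)]
        field_simp
      rw [← Leaf.zero_eq h'] at this
      exact this
    have hy : ∀ ε : ℝ, yd d (ℓ'.cen + ((ε * (ℓ'.rad / ‖d‖) : ℝ) : ℂ) * (Complex.I * d)) =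
        yd d ℓ'.cen + ε * (‖d‖ * ℓ'.rad) := by
      intro ε
      rw [yd_add, yd_real_mul, yd_I]
      field_simp
    have hp1 := hpt 1 (by simp)
    have hp2 := hpt (-1) (by simp)
    have hy1 := hy 1
    have hy2 := hy (-1)
    rw [abs_lt, hp] at h4
    have hA : 0 < g - yd d ℓ'.cen + ‖d‖ * ℓ'.rad := by linarith [h4.1]
    have hB : 0 < ‖d‖ * ℓ'.rad - (g - yd d ℓ'.cen) := by linarith [h4.2]
    rcases Leaf.nc_circle ℓ' ℓ h'.ω_ne with h5 | h5
    · have e1 := h5 _ hp1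
      have e2 := h5 _ hp2
      rw [hH, hy1] at e1
      rw [hH, hy2] at e2
      rcases lt_or_gt_of_ne hc with hc | hc
      · have := mul_neg_of_neg_of_pos hc hB
        nlinarith
      · have := mul_pos hc hA
        nlinarith
    · have e1 := h5 _ hp1
      have e2 := h5 _ hp2
      rw [hH, hy1] at e1
      rw [hH, hy2] at e2
      rcases lt_or_gt_of_ne hc with hc | hc
      · have := mul_neg_of_neg_of_pos hc hA
        nlinarith
      · have := mul_pos hc hB
        nlinarith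

lemma Leaf.edge_sides {S : FlexSys} {ℓ : Leaf S} {a b : S.J} {p : ℂ} (hp : ℓ.H p = 0)
    (hE : S.Edge ℓ.G a b p) :
    p ∈ S.A a ∧ p ∈ S.A b ∧ (∀ w ∈ S.A a, 0 ≤ ℓ.H w) ∧ (∀ w ∈ S.A b, ℓ.H w ≤ 0) := by
  obtain ⟨-, hV, r, hr, hE⟩ := hE
  have hpF : ℓ.G.F p = ℓ.G.F ℓ.z0 := by
    unfold Leaf.H at hp
    linarith
  refine ⟨((hE p (mem_ball_self hr)).1).2 le_rfl, ((hE p (mem_ball_self hr)).2).2 le_rfl, ?_, ?_⟩
  · rcases ℓ.side a with h | h
    · exact h
    · exfalso
      obtain ⟨y, hy, hFy⟩ := ℓ.G.exists_gt hV hr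
      have h1 : y ∈ S.A a := ((hE y hy).1).2 hFy.le
      have h2 := h y h1
      unfold Leaf.H at h2
      linarith
  · rcases ℓ.side b with h | h
    · exfalso
      obtain ⟨y, hy, hFy⟩ := ℓ.G.exists_lt hV hr
      have h1 : y ∈ S.A b := ((hE y hy).2).2 hFy.le
      have h2 := h y h1
      unfold Leaf.H at h2
      linarith
    · exact h

lemma exists_NT_line (S : FlexSys) {z0 d : ℂ} (hd : d ≠ 0) : ∃ x : ℝ, S.NT (z0 + x * d) := by
  by_contra hcon
  push Not at hcon
  have hfin := S.fin_not_NT (‖z0‖ + ‖d‖)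
  have : (Icc (0 : ℝ) 1).Finite := by
    refine Set.Finite.of_injOn (f := fun x : ℝ => z0 + x * d) ?_ ?_ hfin
    · intro x hx
      refine ⟨hcon x, ?_⟩
      rw [mem_closedBall, dist_zero_right]
      refine (norm_add_le _ _).trans ?_
      gcongr
      rw [norm_mul, Complex.norm_real, Real.norm_eq_abs, abs_of_nonneg hx.1]
      exact mul_le_of_le_one_left (norm_nonneg _) hx.2
    · intro x _ y _ hxy
      simp only [add_right_inj] at hxy
      exact_mod_cast mul_right_cancel₀ hd hxy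
  exact (Icc_infinite (zero_lt_one (α := ℝ))) this

lemma Equi.outer_σ {S : FlexSys} {w : ℂ} (E : Equi S w) {b : S.J} (hb : S.Outer b) :
    S.Outer (E.σ b) := by
  intro ℓ' h' hsub
  apply hb (ℓ'.shift E.symm) ((Leaf.shift_isDisc E.symm ℓ').2 h')
  rw [Leaf.shift_D]
  intro z hz
  rw [Set.mem_smul_set_iff_inv_smul_mem, Mv.tr_inv, neg_neg]
  apply hsub
  rw [E.A_σ]
  exact Set.smul_mem_smul_set hz

lemma strip_b2_aux {T : Tiling P} {w d : ℂ} (S : LimSys T w d) (hd : ‖d‖ = 1) (hw : 0 < yd d w)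
    {h : ℝ} (hsep : ∀ (k : ℤ) u, Sep S.toFlexSys d (h + k * yd d w) u)
    (hall : ∀ ℓ : Leaf S.toFlexSys, ℓ.G.ω = 0 → ∃ k : ℤ, yd d ℓ.z0 = h + k * yd d w)
    (ℓ : Leaf S.toFlexSys) {c : ℝ} (hc : 0 < c)
    (hH : ∀ z, ℓ.H z = c * (yd d z - h)) : False := by
  have hd0 : d ≠ 0 := by
    rintro rfl
    simp at hd
  set W : ℝ := yd d w with hW
  have hsep0 : ∀ u, Sep S.toFlexSys d h u := fun u => by simpa using hsep 0 u
  have hsep1 : ∀ u, Sep S.toFlexSys d (h + W) u := fun u => by simpa using hsep 1 u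
  have hsepm : ∀ u, Sep S.toFlexSys d (h - W) u := fun u => by
    have := hsep (-1) u
    simpa [sub_eq_add_neg] using this
  have hHpos : ∀ z, 0 ≤ ℓ.H z ↔ h ≤ yd d z := by
    intro z
    rw [hH, mul_nonneg_iff_of_pos_left hc, sub_nonneg]
  have hHneg : ∀ z, ℓ.H z ≤ 0 ↔ yd d z ≤ h := by
    intro z
    rw [hH, ← neg_nonneg, ← mul_neg, mul_nonneg_iff_of_pos_left hc, neg_nonneg, sub_nonpos]
  have hHzero : ∀ z, yd d z = h → ℓ.H z = 0 := by
    intro z hz
    rw [hH, hz, sub_self, mul_zero]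
  -- a point in at most two tiles on the line
  have hz0h : yd d ℓ.z0 = h := by
    have := ℓ.H_z0
    rw [hH] at this
    rcases mul_eq_zero.1 this with h1 | h1
    · exact absurd h1 hc.ne'
    · linarith
  obtain ⟨x, hNT⟩ := exists_NT_line S.toFlexSys (z0 := ℓ.z0) hd0
  set p : ℂ := ℓ.z0 + x * d with hp
  have hph : yd d p = h := by
    rw [hp, yd_add, yd_real_mul, yd_self, hz0h]; ring
  obtain ⟨a, b, has, hbt, hE⟩ := ℓ.nt_edge (hHzero p hph) hNT
  obtain ⟨hpa, hpb, hAa, hAb⟩ := Leaf.edge_sides (hHzero p hph) hE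
  have hao : S.toFlexSys.Outer a := Leaf.outer_of_straight hd0 hc.ne' hH hph hNT hpa
  have hbo : S.toFlexSys.Outer b := Leaf.outer_of_straight hd0 hc.ne' hH hph hNT hpb
  set E : Equi S.toFlexSys w := S.equi with hEdef
  have hσbo : S.toFlexSys.Outer (E.σ b) := E.outer_σ hbo
  -- positions of the two tiles
  have ha1 : ∀ z ∈ S.A a, h ≤ yd d z := fun z hz => (hHpos z).1 (hAa z hz)
  have ha2 : ∀ z ∈ S.A a, yd d z ≤ h + W := by
    rcases (hsep1 a).lim with h1 | h1
    · have := h1 p hpa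
      linarith
    · exact h1
  have hb1 : ∀ z ∈ S.A b, yd d z ≤ h := fun z hz => (hHneg z).1 (hAb z hz)
  have hb2 : ∀ z ∈ S.A b, h - W ≤ yd d z := by
    rcases (hsepm b).lim with h1 | h1
    · exact h1
    · have := h1 p hpb
      linarith
  have hσmem : ∀ u z, z ∈ S.A (E.σ u) ↔ z - w ∈ S.A u := by
    intro u z
    rw [E.A_σ, Set.mem_smul_set_iff_inv_smul_mem, Mv.tr_inv, Mv.tr_smul, sub_eq_add_neg]
  have hσb1 : ∀ z ∈ S.A (E.σ b), yd d z ≤ h + W := by
    intro z hz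
    have := hb1 _ ((hσmem b z).1 hz)
    rw [yd_sub] at this
    linarith
  have hσb2 : ∀ z ∈ S.A (E.σ b), h ≤ yd d z := by
    intro z hz
    have := hb2 _ ((hσmem b z).1 hz)
    rw [yd_sub] at this
    linarith
  -- they are in one class
  have hab : S.toFlexSys.eqv a (E.σ b) := by
    by_contra hne
    obtain ⟨ℓ1, hω1, hs1, ht1⟩ := conn hao hσbo hne
    have hpar : (conj d * ℓ1.G.β).im = 0 := ℓ1.nc_skel hω1 hd0 (h := h) hsep0
    obtain ⟨c1, hc1, hH1⟩ := Leaf.H_straight hω1 hd0 hpar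
    obtain ⟨k, hk⟩ := hall ℓ1 hω1
    apply Leaf.same_side hH1 hs1 ht1
    rw [hk]
    rcases le_or_gt k 0 with h2 | h2
    · left
      have h3 : (k : ℝ) ≤ 0 := by exact_mod_cast h2
      have h4 : h + k * W ≤ h := by nlinarith
      exact ⟨fun z hz => h4.trans (ha1 z hz), fun z hz => h4.trans (hσb2 z hz)⟩
    · right
      have h3 : (1 : ℝ) ≤ k := by exact_mod_cast h2
      have h4 : h + W ≤ h + k * W := by nlinarith
      exact ⟨fun z hz => (ha2 z hz).trans h4, fun z hz => (hσb1 z hz).trans h4⟩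
  have hσσ : ∀ {u u' : S.J}, S.toFlexSys.eqv u u' → S.toFlexSys.eqv (E.σ u) (E.σ u') :=
    fun {u u'} huu => (E.eqv_iff u u').2 huu
  have hst : S.toFlexSys.eqv ℓ.s (E.σ ℓ.t) :=
    (FlexSys.eqv.symm has).trans (hab.trans (hσσ hbt))
  -- the motion of `s` on the two lines
  have ev1 : ∀ q, yd d q = h → ∀ᶠ n in (S.U : Filter ℕ), h ≤ yd d (S.m n ℓ.s • q) := by
    intro q hq
    obtain ⟨a', ha's, hqa', hpl⟩ := ℓ.plus (hHzero q hq)
    rcases hsep0 a' with h1 | h1
    · filter_upwards [h1, ha's] with n hn hn2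
      rw [← hn2]
      exact hn q hqa'
    · exfalso
      exact ℓ.not_both a' hpl (fun z hz => (hHneg z).2 (le_of_ev h1 z hz))
  have ev2 : ∀ q, yd d q = h + W →
      ∀ᶠ n in (S.U : Filter ℕ), yd d (S.m n ℓ.s • q) ≤ h + W := by
    intro q hq
    have hq' : yd d (q - w) = h := by
      rw [yd_sub, hq]
      ring
    obtain ⟨b', hb't, hqb', hmi⟩ := ℓ.minus (hHzero _ hq')
    have hqσ : q ∈ S.A (E.σ b') := (hσmem b' q).2 hqb'
    rcases hsep1 (E.σ b') with h1 | h1
    · exfalso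
      refine ℓ.not_both b' (fun z hz => (hHpos z).2 ?_) hmi
      have h2 : z + w ∈ S.A (E.σ b') := by
        rw [hσmem, add_sub_cancel_right]
        exact hz
      have h3 := ge_of_ev h1 _ h2
      rw [yd_add] at h3
      linarith
    · filter_upwards [h1, hst, hσσ hb't] with n hn hn2 hn3
      rw [hn2, ← hn3]
      exact hn q hqσ
  -- the motion of `s` is a translation
  set X : ℝ := (conj d * w).re with hX
  set ρ : ℝ := |X| + W + 1 with hρ
  have hdd : conj d * d = 1 := by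
    rw [← Complex.normSq_eq_conj_mul_self, Complex.normSq_eq_norm_sq, hd]
    simp
  have key1 : ∀ (g : Mv) (x : ℝ), yd d (g • (ℓ.z0 + x * d)) = yd d (g • ℓ.z0) + x * g.a.im := by
    intro g x
    unfold yd
    rw [Mv.smul_def, Mv.smul_def]
    have : conj d * (g.a * (ℓ.z0 + x * d) + g.b) =
        conj d * (g.a * ℓ.z0 + g.b) + (conj d * d) * (x * g.a) := by ring
    rw [this, hdd, one_mul, Complex.add_im, Complex.im_ofReal_mul]
  have key2 : ∀ (g : Mv) (x : ℝ), yd d (g • (ℓ.z0 + w + x * d)) =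
      yd d (g • ℓ.z0) + (g.a.im * X + g.a.re * W) + x * g.a.im := by
    intro g x
    rw [hX, hW]
    unfold yd
    rw [Mv.smul_def, Mv.smul_def]
    have : conj d * (g.a * (ℓ.z0 + w + x * d) + g.b) =
        conj d * (g.a * ℓ.z0 + g.b) + g.a * (conj d * w) + (conj d * d) * (x * g.a) := by ring
    rw [this, hdd, one_mul, Complex.add_im, Complex.add_im, Complex.im_ofReal_mul,
      Complex.mul_im g.a]
    ring
  have hyq : ∀ x : ℝ, yd d (ℓ.z0 + x * d) = h := by
    intro x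
    rw [yd_add, yd_real_mul, yd_self, hz0h]; ring
  have hyq' : ∀ x : ℝ, yd d (ℓ.z0 + w + x * d) = h + W := by
    intro x
    rw [yd_add, yd_add, yd_real_mul, yd_self, hz0h]; ring
  have hare : ∀ᶠ n in (S.U : Filter ℕ), 0 < (S.m n ℓ.s).a.re := by
    have h1 : Tendsto (fun n => (S.m n ℓ.s).a.re) S.U (𝓝 (1 : Mv).a.re) :=
      (Complex.continuous_re.tendsto _).comp ((Mv.continuous_a.tendsto _).comp (S.m_lim ℓ.s))
    apply h1.eventually (lt_mem_nhds _)
    simp
  have hone : ∀ᶠ n in (S.U : Filter ℕ), (S.m n ℓ.s).a = 1 := by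
    filter_upwards [ev1 _ (hyq ρ), ev1 _ (hyq (-ρ)), ev2 _ (hyq' ρ), ev2 _ (hyq' (-ρ)), hare]
      with n h1 h2 h3 h4 h5
    rw [key1] at h1 h2
    rw [key2] at h3 h4
    set g := S.m n ℓ.s with hg
    set C := yd d (g • ℓ.z0) with hC
    have hnorm : g.a.re ^ 2 + g.a.im ^ 2 = 1 := by
      have h6 := Complex.normSq_eq_norm_sq g.a
      rw [g.ha, Complex.normSq_apply] at h6
      nlinarith
    have him : g.a.im = 0 := by
      by_contra hne
      set t : ℝ := |g.a.im| with ht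
      have htpos : 0 < t := abs_pos.2 hne
      have ht2 : t ^ 2 = g.a.im ^ 2 := sq_abs _
      have ht1 : t ≤ 1 := by nlinarith [sq_nonneg g.a.re]
      have hr1 : g.a.re ≤ 1 := by nlinarith [sq_nonneg g.a.im]
      have hr2 : 1 - g.a.re ≤ t ^ 2 := by nlinarith
      have hXt : -(|X| * t) ≤ g.a.im * X := by
        have := neg_abs_le (g.a.im * X)
        rw [abs_mul] at this
        linarith [mul_comm |X| t]
      have hρt : h + ρ * t ≤ C := by
        rcases abs_cases g.a.im with h6 | h6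
        · rw [ht, h6.1]; linarith
        · rw [ht, h6.1]; linarith
      have hρt' : C + (g.a.im * X + g.a.re * W) + ρ * t ≤ h + W := by
        rcases abs_cases g.a.im with h6 | h6
        · rw [ht, h6.1]; linarith
        · rw [ht, h6.1]; linarith
      have h7 : 2 * ρ * t - |X| * t ≤ W * t ^ 2 := by
        have h8 : W * (1 - g.a.re) ≤ W * t ^ 2 := mul_le_mul_of_nonneg_left hr2 hw.le
        nlinarith
      have h8 : W * t ^ 2 ≤ W * t := by
        apply mul_le_mul_of_nonneg_left _ hw.le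
        nlinarith
      have h9 : (|X| + W + 2) * t ≤ 0 := by
        rw [hρ] at h7
        nlinarith
      have h10 : 0 < (|X| + W + 2) * t := by
        have := abs_nonneg X
        positivity
      linarith
    have hre : g.a.re = 1 := by
      rw [him] at hnorm
      nlinarith
    exact Complex.ext hre him
  apply ℓ.not_eqv
  show ∀ᶠ n in (S.U : Filter ℕ), S.m n ℓ.s = S.m n ℓ.t
  filter_upwards [hone, hst, E.m_σ ℓ.t] with n h1 h2 h3
  rw [h3] at h2
  have h4 := Mv.eq_tr_of_a _ h1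
  have h5 : S.m n ℓ.t = (Mv.tr w)⁻¹ * S.m n ℓ.s * Mv.tr w := by
    rw [h2]
    group
  rw [h5, h4, Mv.tr_inv, Mv.tr_mul, Mv.tr_mul]
  congr 1
  ring

lemma strip_b2 {T : Tiling P} {w d : ℂ} (S : LimSys T w d) (hd : ‖d‖ = 1) (hw : 0 < yd d w)
    {h : ℝ} (hsep : ∀ (k : ℤ) u, Sep S.toFlexSys d (h + k * yd d w) u)
    (hall : ∀ ℓ : Leaf S.toFlexSys, ℓ.G.ω = 0 → ∃ k : ℤ, yd d ℓ.z0 = h + k * yd d w)
    (ℓ : Leaf S.toFlexSys) (hω : ℓ.G.ω = 0) : False := by
  have hd0 : d ≠ 0 := by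
    rintro rfl
    simp at hd
  obtain ⟨k0, hk0⟩ := hall ℓ hω
  have hsep' : ∀ (k : ℤ) u, Sep S.toFlexSys d (yd d ℓ.z0 + k * yd d w) u := by
    intro k u
    have := hsep (k0 + k) u
    rw [hk0]
    push_cast at this
    rw [add_mul, ← add_assoc] at this
    exact this
  have hall' : ∀ ℓ' : Leaf S.toFlexSys, ℓ'.G.ω = 0 →
      ∃ k : ℤ, yd d ℓ'.z0 = yd d ℓ.z0 + k * yd d w := by
    intro ℓ' h'
    obtain ⟨k, hk⟩ := hall ℓ' h'
    refine ⟨k - k0, ?_⟩
    rw [hk, hk0]
    push_cast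
    ring
  have hpar : (conj d * ℓ.G.β).im = 0 :=
    ℓ.nc_skel hω hd0 (h := yd d ℓ.z0) (fun u => by
      have := hsep' 0 u
      simp only [Int.cast_zero, zero_mul, add_zero] at this
      exact this)
  obtain ⟨c, hc, hH⟩ := Leaf.H_straight hω hd0 hpar
  rcases lt_or_gt_of_ne hc with hc | hc
  · refine strip_b2_aux S hd hw hsep' hall' ℓ.flip (c := -c) (by linarith) ?_
    intro z
    rw [Leaf.flip_H, hH]
    ring
  · exact strip_b2_aux S hd hw hsep' hall' ℓ hc hH

lemma tile_perm {T : Tiling P} {w : ℂ} {σ : Equiv.Perm T.J}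
    (hσ : ∀ t, T.idx (σ t) = T.idx t ∧ T.g (σ t) = Mv.tr w * T.g t) (t : T.J) (z : ℂ) :
    z ∈ T.tile (σ t) ↔ z - w ∈ T.tile t := by
  unfold Tiling.tile
  rw [(hσ t).1, (hσ t).2, mul_smul, Set.mem_smul_set_iff_inv_smul_mem (a := Mv.tr w), Mv.tr_inv,
    Mv.tr_smul, sub_eq_add_neg]

lemma uncut_step {T : Tiling P} {w d : ℂ} (hT : T.Per w) (h : ℝ) :
    Uncut T d (h + yd d w) ↔ Uncut T d h := by
  obtain ⟨σ, hσ⟩ := hT
  constructor
  · intro H t
    rcases H (σ t) with h1 | h1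
    · left
      intro z hz
      have := h1 (z + w) ((tile_perm hσ t _).2 (by rwa [add_sub_cancel_right]))
      rw [yd_add] at this
      linarith
    · right
      intro z hz
      have := h1 (z + w) ((tile_perm hσ t _).2 (by rwa [add_sub_cancel_right]))
      rw [yd_add] at this
      linarith
  · intro H t
    obtain ⟨t, rfl⟩ := σ.surjective t
    rcases H t with h1 | h1
    · left
      intro z hz
      have := h1 (z - w) ((tile_perm hσ t _).1 hz)
      rw [yd_sub] at this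
      linarith
    · right
      intro z hz
      have := h1 (z - w) ((tile_perm hσ t _).1 hz)
      rw [yd_sub] at this
      linarith

lemma uncut_int {T : Tiling P} {w d : ℂ} (hT : T.Per w) {h : ℝ} (H : Uncut T d h) (k : ℤ) :
    Uncut T d (h + k * yd d w) := by
  induction k using Int.induction_on with
  | zero => simpa using H
  | succ n ih =>
    have := (uncut_step hT (h + (n : ℤ) * yd d w)).2 ih
    convert this using 1
    push_cast
    ring
  | pred n ih =>
    have e : h + ((-(n : ℤ) : ℤ) : ℝ) * yd d w =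
      (h + ((-(n : ℤ) - 1 : ℤ) : ℝ) * yd d w) + yd d w := by
      push_cast
      ring
    rw [e] at ih
    exact (uncut_step hT _).1 ih

lemma not_thin {r : ℝ} (hr : 0 < r) (hb : ∀ (g : Mv) (i : Fin N), ∃ c, ball c r ⊆ g • P i)
    {T : Tiling P} {w d : ℂ} (hT : T.Per w) (hd : ‖d‖ = 1) (hw : 0 < yd d w)
    (hlt : yd d w < r) {h : ℝ} (H : Uncut T d h) : False := by
  have H1 := (uncut_step hT h).2 H
  set W := yd d w with hW
  obtain ⟨t, ht⟩ := T.cover (((h + W / 2 : ℝ) : ℂ) * (Complex.I * d))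
  have hy : yd d (((h + W / 2 : ℝ) : ℂ) * (Complex.I * d)) = h + W / 2 := by
    rw [yd_real_mul, yd_I, hd]; ring
  have hlow : ∀ z ∈ T.tile t, h ≤ yd d z := by
    rcases H t with h1 | h1
    · exact h1
    · have := h1 _ ht
      rw [hy] at this
      linarith
  have hup : ∀ z ∈ T.tile t, yd d z ≤ h + W := by
    rcases H1 t with h1 | h1
    · have := h1 _ ht
      rw [hy] at this
      linarith
    · exact h1
  obtain ⟨c, hc⟩ := hb (T.g t) (T.idx t)
  set x : ℝ := (W / 2 + r) / 2 with hx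
  have hx0 : 0 < x := by positivity
  have hxr : x < r := by linarith
  have hm : ∀ y : ℝ, |y| < r → c + (y : ℂ) * (Complex.I * d) ∈ T.tile t := by
    intro y hy
    apply hc
    rw [mem_ball, dist_eq_norm, add_sub_cancel_left, norm_mul, norm_mul, Complex.norm_I, hd,
      Complex.norm_real, Real.norm_eq_abs]
    simpa using hy
  have h1 := hup _ (hm x (by rw [abs_of_pos hx0]; exact hxr))
  have h2 := hlow _ (hm (-x) (by rw [abs_neg, abs_of_pos hx0]; exact hxr))
  rw [yd_add, yd_real_mul, yd_I, hd] at h1 h2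
  linarith

/-- a periodic tiling with a line, not parallel to the period, which cuts no tile -/
theorem strip (hP : ∀ i, Nice (P i)) {r : ℝ} (hr : 0 < r)
    (hb : ∀ (g : Mv) (i : Fin N), ∃ c, ball c r ⊆ g • P i) (n : ℕ) :
    ∀ (T : Tiling P) (w d : ℂ) (h : ℝ), T.Per w → ‖d‖ = 1 → 0 < yd d w → yd d w < 2 ^ n * r →
      (∀ t, (∀ z ∈ T.tile t, h ≤ yd d z) ∨ (∀ z ∈ T.tile t, yd d z ≤ h)) →
      ∃ (T' : Tiling P) (u w : ℂ), Indep u w ∧ T'.Per u ∧ T'.Per w := by
  induction n with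
  | zero =>
    intro T w d h hT hd hw hlt hun
    rw [pow_zero, one_mul] at hlt
    exact (not_thin hr hb hT hd hw hlt hun).elim
  | succ n ih =>
    intro T w d h hT hd hw hlt hun
    have hd0 : d ≠ 0 := by
      rintro rfl
      simp at hd
    have hw0 : w ≠ 0 := by
      rintro rfl
      simp [yd] at hw
    obtain ⟨S⟩ := exists_limSys hP T w d hT
    have hsep : ∀ (k : ℤ) u, Sep S.toFlexSys d (h + k * yd d w) u :=
      fun k u => S.skel (uncut_int hT hun k) u
    by_cases hA : ∃ ℓ : Leaf S.toFlexSys, ℓ.G.ω = 0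
    · by_cases hB : ∀ ℓ : Leaf S.toFlexSys, ℓ.G.ω = 0 → ∃ k : ℤ, yd d ℓ.z0 = h + k * yd d w
      · obtain ⟨ℓ, hω⟩ := hA
        exact (strip_b2 S hd hw hsep hB ℓ hω).elim
      · push Not at hB
        obtain ⟨ℓ, hω, hk⟩ := hB
        have hpar : (conj d * ℓ.G.β).im = 0 :=
          ℓ.nc_skel hω hd0 (h := h) (fun u => by
            have := hsep 0 u
            simp only [Int.cast_zero, zero_mul, add_zero] at this
            exact this)
        obtain ⟨c, hc, hH⟩ := Leaf.H_straight hω hd0 hpar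
        set g := yd d ℓ.z0 with hg
        set W := yd d w with hW
        have hlim : ∀ k : ℤ, Uncut S.lim d (h + k * W) := by
          intro k
          exact uncut_lim S fun u => (hsep k u).lim
        have hlg : Uncut S.lim d g := uncut_lim S fun u => Leaf.uncut hc hH u
        set k : ℤ := ⌊(g - h) / W⌋ with hkdef
        have hk1 : h + k * W ≤ g := by
          have := Int.floor_le ((g - h) / W)
          rw [le_div_iff₀ hw] at this
          linarith
        have hk2 : g < h + (k + 1 : ℤ) * W := by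
          have := Int.lt_floor_add_one ((g - h) / W)
          rw [div_lt_iff₀ hw] at this
          push_cast
          linarith
        have hk1' : h + k * W < g := lt_of_le_of_ne hk1 (Ne.symm (hk k))
        have hpow : (2 : ℝ) ^ (n + 1) * r = 2 * (2 ^ n * r) := by ring
        rw [hpow] at hlt
        rcases le_or_gt (g - (h + k * W)) (W / 2) with h3 | h3
        · obtain ⟨T', w', hT', hw', hun'⟩ := restack hP S.lim hd hk1' (hlim k) hlg
          exact ih T' w' d (h + k * W) hT' hd (by rw [hw']; linarith) (by rw [hw']; linarith) hun'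
        · obtain ⟨T', w', hT', hw', hun'⟩ := restack hP S.lim hd hk2 hlg (hlim (k + 1))
          refine ih T' w' d g hT' hd (by rw [hw']; linarith) ?_ hun'
          rw [hw']
          push_cast
          linarith
    · push Not at hA
      refine assembly hP T hw0 hT S ?_ 0 ?_
      · rw [yd_swap]
        exact neg_ne_zero.2 hw.ne'
      · intro s t hs ht _ _
        by_contra hne
        obtain ⟨ℓ, hω, -, -⟩ := conn hs ht hne
        exact hA ℓ hω

lemma exists_radius (hP : ∀ i, Nice (P i)) :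
    ∃ r : ℝ, 0 < r ∧ ∀ (g : Mv) (i : Fin N), ∃ c, ball c r ⊆ g • P i := by
  have h1 : ∀ i, ∃ (c : ℂ) (r : ℝ), 0 < r ∧ ball c r ⊆ P i := by
    intro i
    obtain ⟨c, hc⟩ := (hP i).ne
    obtain ⟨r, hr, hsub⟩ := Metric.isOpen_iff.1 isOpen_interior c hc
    exact ⟨c, r, hr, hsub.trans interior_subset⟩
  choose c r hr hsub using h1
  obtain ⟨r0, hr0, hle⟩ : ∃ r0 : ℝ, 0 < r0 ∧ ∀ i, r0 ≤ r i := by
    rcases Nat.eq_zero_or_pos N with h | h
    · subst h
      exact ⟨1, one_pos, fun i => i.elim0⟩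
    · have : Nonempty (Fin N) := ⟨⟨0, h⟩⟩
      obtain ⟨i0, hi0⟩ := Finite.exists_min r
      exact ⟨r i0, hr i0, hi0⟩
  refine ⟨r0, hr0, fun g i => ⟨g • c i, ?_⟩⟩
  intro z hz
  rw [Set.mem_smul_set_iff_inv_smul_mem]
  apply hsub
  rw [mem_ball] at hz ⊢
  have : dist (g⁻¹ • z) (c i) = dist z (g • c i) := by
    rw [← dist_smul g (g⁻¹ • z) (c i), smul_inv_smul]
  rw [this]
  exact hz.trans_le (hle i)

/-- the main theorem -/
theorem main (N : ℕ) (P : Fin N → Set ℂ) (hP : ∀ i, Nice (P i)) (T : Tiling P) (v : ℂ)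
    (hv : v ≠ 0) (hT : T.Per v) :
    ∃ (T' : Tiling P) (u w : ℂ), Indep u w ∧ T'.Per u ∧ T'.Per w := by
  obtain ⟨S⟩ := exists_limSys hP T v (Complex.I * v) hT
  have hvn : 0 < ‖v‖ := norm_pos_iff.2 hv
  have hvI : yd v (Complex.I * v) = ‖v‖ ^ 2 := yd_I v
  by_cases h1 : ∃ ℓ : Leaf S.toFlexSys, ℓ.G.ω = 0 ∧ (conj v * ℓ.G.β).im ≠ 0
  · -- a straight leaf not parallel to `v`
    obtain ⟨ℓ, hω, hne⟩ := h1
    have hβ : ℓ.G.β ≠ 0 := by
      intro h
      rw [h] at hne
      simp at hne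
    have hβn : 0 < ‖ℓ.G.β‖ := norm_pos_iff.2 hβ
    obtain ⟨r, hr, hb⟩ := exists_radius hP
    have key : ∀ d : ℂ, ‖d‖ = 1 → (conj d * ℓ.G.β).im = 0 → 0 < yd d v →
        ∃ (T' : Tiling P) (u w : ℂ), Indep u w ∧ T'.Per u ∧ T'.Per w := by
      intro d hd hpar hpos
      have hd0 : d ≠ 0 := by
        rintro rfl
        simp at hd
      obtain ⟨c, hc, hH⟩ := Leaf.H_straight hω hd0 hpar
      obtain ⟨n, hn⟩ := pow_unbounded_of_one_lt (yd d v / r) (one_lt_two)
      rw [div_lt_iff₀ hr] at hn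
      exact strip hP hr hb n S.lim v d (yd d ℓ.z0) S.lim_per hd hpos hn
        (uncut_lim S fun u => Leaf.uncut hc hH u)
    set d0 : ℂ := ((‖ℓ.G.β‖⁻¹ : ℝ) : ℂ) * ℓ.G.β with hd0
    have hd0n : ‖d0‖ = 1 := by
      rw [hd0, norm_mul, Complex.norm_real, Real.norm_eq_abs, abs_of_pos (inv_pos.2 hβn)]
      exact inv_mul_cancel₀ hβn.ne'
    have hd0par : (conj d0 * ℓ.G.β).im = 0 := by
      rw [hd0, map_mul, Complex.conj_ofReal, mul_assoc, Complex.im_ofReal_mul]
      have : (conj ℓ.G.β * ℓ.G.β).im = 0 := yd_self _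
      rw [this, mul_zero]
    have hyv : yd d0 v ≠ 0 := by
      rw [yd_swap]
      have : yd v d0 = ‖ℓ.G.β‖⁻¹ * (conj v * ℓ.G.β).im := by
        rw [hd0, yd_real_mul]
        rfl
      rw [this]
      exact neg_ne_zero.2 (mul_ne_zero (inv_ne_zero hβn.ne') hne)
    rcases lt_or_gt_of_ne hyv with h | h
    · apply key (-d0) (by rw [norm_neg]; exact hd0n)
      · rw [map_neg, neg_mul, Complex.neg_im, hd0par, neg_zero]
      · have : yd (-d0) v = -yd d0 v := by simp [yd]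
        rw [this]
        linarith
    · exact key d0 hd0n hd0par h
  · push Not at h1
    -- heights of straight leaves
    by_cases h2 : ∃ ℓ ℓ' : Leaf S.toFlexSys, ℓ.G.ω = 0 ∧ ℓ'.G.ω = 0 ∧ yd v ℓ.z0 < yd v ℓ'.z0
    · obtain ⟨ℓ, ℓ', hω, hω', hlt⟩ := h2
      obtain ⟨c, hc, hH⟩ := Leaf.H_straight hω hv (h1 ℓ hω)
      obtain ⟨c', hc', hH'⟩ := Leaf.H_straight hω' hv (h1 ℓ' hω')
      exact two_lines hP S.lim hv S.lim_per hlt (uncut_lim S fun u => Leaf.uncut hc hH u)
        (uncut_lim S fun u => Leaf.uncut hc' hH' u)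
    · push Not at h2
      obtain ⟨M, hM⟩ : ∃ M : ℝ, ∀ ℓ : Leaf S.toFlexSys, ℓ.G.ω = 0 → yd v ℓ.z0 = M := by
        by_cases h3 : ∃ ℓ : Leaf S.toFlexSys, ℓ.G.ω = 0
        · obtain ⟨ℓ, hω⟩ := h3
          exact ⟨yd v ℓ.z0, fun ℓ' hω' => le_antisymm (h2 ℓ ℓ' hω hω') (h2 ℓ' ℓ hω' hω)⟩
        · push Not at h3
          exact ⟨0, fun ℓ hω => absurd hω (h3 ℓ)⟩
      refine assembly hP T hv hT S ?_ (M / ‖v‖ ^ 2) ?_
      · rw [hvI]
        positivity
      · intro s t hs ht hzs hzt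
        by_contra hne
        obtain ⟨ℓ, hω, hs1, ht1⟩ := conn hs ht hne
        obtain ⟨c, hc, hH⟩ := Leaf.H_straight hω hv (h1 ℓ hω)
        rw [hM ℓ hω] at hH
        rw [hvI] at hzs hzt
        obtain ⟨z, hz, hz1⟩ := hzs
        obtain ⟨z', hz', hz1'⟩ := hzt
        rw [div_lt_div_iff_of_pos_right (by positivity)] at hz1 hz1'
        rcases lt_or_gt_of_ne hc with hc | hc
        · have h4 := ht1 z' hz'
          rw [hH] at h4
          have := mul_neg_of_neg_of_pos hc (sub_pos.2 hz1')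
          linarith
        · have h4 := hs1 z hz
          rw [hH] at h4
          have := mul_pos hc (sub_pos.2 hz1)
          linarith

end H231R2
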