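import Pool.Agent.H231R2.DiskNice
import Pool.Agent.H231R2.Lf

/-! # From tilings of `ℂ` by indexed copies to the frozen statement (task 9, helper143) -/

set_option autoImplicit false

open Filter Topology Metric Set
open scoped Pointwise ComplexConjugate

noncomputable section

namespace H231R2

namespace Tr

theorem equivariant {J : Type} {N : ℕ} (P : Fin N → Set ℂ) (σ : Equiv.Perm J) (τ : Mv)
    (free : ∀ (k : ℤ) (t : J), (σ ^ k) t = t → k = 0) (A : J → Set ℂ)
    (hA : ∀ t, A (σ t) = τ • A t) (h : ∀ t, ∃ i, ∃ g : Mv, A t = g • P i) :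
    ∃ (idx : J → Fin N) (g : J → Mv), (∀ t, A t = g t • P (idx t)) ∧
      ∀ t, idx (σ t) = idx t ∧ g (σ t) = τ * g t := by
  choose idx0 g0 h0 using h
  have hAi : ∀ t, A (σ⁻¹ t) = τ⁻¹ • A t := by
    intro t
    have h1 := hA (σ⁻¹ t)
    rw [show σ (σ⁻¹ t) = t from σ.apply_symm_apply t] at h1
    rw [h1, smul_smul, inv_mul_cancel, one_smul]
  have hAk : ∀ (k : ℤ) t, A ((σ ^ k) t) = τ ^ k • A t := by
    intro k
    induction k using Int.induction_on with
    | zero => intro t; simp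
    | succ k ih =>
      intro t
      rw [zpow_add_one, Equiv.Perm.mul_apply, ih, hA, smul_smul, ← zpow_add_one]
    | pred k ih =>
      intro t
      rw [zpow_sub_one, Equiv.Perm.mul_apply, ih, hAi, smul_smul, ← zpow_sub_one]
  let rep : J → J := fun t => (Quotient.mk (Equiv.Perm.SameCycle.setoid σ) t).out
  have hrep : ∀ t, ∃ k : ℤ, (σ ^ k) (rep t) = t := fun t =>
    Quotient.mk_out (s := Equiv.Perm.SameCycle.setoid σ) t
  choose k hk using hrep
  have hrepσ : ∀ t, rep (σ t) = rep t := by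
    intro t
    change (Quotient.mk (Equiv.Perm.SameCycle.setoid σ) (σ t)).out = _
    congr 1
    apply Quotient.sound
    exact ⟨-1, by simp⟩
  have hkσ : ∀ t, k (σ t) = k t + 1 := by
    intro t
    have h1 := hk (σ t)
    rw [hrepσ] at h1
    have h2 : (σ ^ (1 + k t)) (rep t) = σ t := by
      rw [zpow_add, zpow_one, Equiv.Perm.mul_apply, hk]
    have h3 : (σ ^ (k (σ t) - (1 + k t))) (σ t) = σ t := by
      rw [← h2, ← Equiv.Perm.mul_apply, ← zpow_add, sub_add_cancel, h2]
      exact h1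
    have := free _ _ h3
    linarith
  refine ⟨fun t => idx0 (rep t), fun t => τ ^ (k t) * g0 (rep t), fun t => ?_, fun t => ⟨?_, ?_⟩⟩
  · have h1 := hAk (k t) (rep t)
    rw [hk t, h0 (rep t), smul_smul] at h1
    exact h1
  · simp only [hrepσ]
  · simp only [hrepσ, hkσ]
    rw [add_comm, zpow_add, zpow_one, mul_assoc]

theorem isometry_cases (f : ℂ ≃ᵢ ℂ) :
    ∃ g : Mv, (∀ z, f z = g • z) ∨ (∀ z, f z = g • (conj z : ℂ)) := by
  obtain ⟨a, ha⟩ := linear_isometry_complex f.toRealLinearIsometryEquiv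
  refine ⟨⟨a, f 0, a.norm_coe⟩, ?_⟩
  rcases ha with ha | ha
  · left
    intro z
    have h1 := congrArg (fun L => L z) ha
    simp only [IsometryEquiv.toRealLinearIsometryEquiv_apply, rotation_apply] at h1
    rw [Mv.smul_def]
    exact sub_eq_iff_eq_add.1 h1
  · right
    intro z
    have h1 := congrArg (fun L => L z) ha
    simp only [IsometryEquiv.toRealLinearIsometryEquiv_apply, LinearIsometryEquiv.trans_apply,
      rotation_apply, Complex.conjLIE_apply] at h1
    rw [Mv.smul_def]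
    exact sub_eq_iff_eq_add.1 h1


abbrev E2 : Type := EuclideanSpace ℝ (Fin 2)

/-- coordinates -/
def ce : ℂ ≃ₗᵢ[ℝ] E2 := Complex.orthonormalBasisOneI.repr

/-- the prototiles and their mirror images in `ℂ` -/
def pro {n : ℕ} (P : Fin n → Set E2) : Fin (n + n) → Set ℂ :=
  Fin.addCases (fun i => ce ⁻¹' P i) (fun i => conj ⁻¹' (ce ⁻¹' P i))

@[simp] theorem pro_left {n : ℕ} (P : Fin n → Set E2) (i : Fin n) :
    pro P (Fin.castAdd n i) = ce ⁻¹' P i := Fin.addCases_left i

@[simp] theorem pro_right {n : ℕ} (P : Fin n → Set E2) (i : Fin n) :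
    pro P (Fin.natAdd n i) = conj ⁻¹' (ce ⁻¹' P i) := Fin.addCases_right i

theorem pro_nice {n : ℕ} (P : Fin n → Set E2)
    (hP : ∀ i, Nonempty (P i ≃ₜ Metric.closedBall (0 : E2) 1)) (j : Fin (n + n)) :
    Nice (pro P j) := by
  apply nice_of_homeo
  have hb : Nonempty (closedBall (0 : E2) 1 ≃ₜ closedBall (0 : ℂ) 1) :=
    ⟨(ce.symm.toHomeomorph).sets (by
      ext x
      simp only [LinearIsometryEquiv.coe_toHomeomorph, mem_preimage, mem_closedBall,
        dist_zero_right, LinearIsometryEquiv.norm_map])⟩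
  obtain ⟨b⟩ := hb
  refine Fin.addCases (fun i => ?_) (fun i => ?_) j
  · obtain ⟨h⟩ := hP i
    rw [pro_left]
    have h1 : (ce ⁻¹' P i : Set ℂ) ≃ₜ P i := ce.toHomeomorph.sets rfl
    exact ⟨(h1.trans h).trans b⟩
  · obtain ⟨h⟩ := hP i
    rw [pro_right]
    have h1 : (conj ⁻¹' (ce ⁻¹' P i) : Set ℂ) ≃ₜ P i :=
      (Complex.conjLIE.trans ce).toHomeomorph.sets rfl
    exact ⟨(h1.trans h).trans b⟩

theorem mem_mv_smul {g : Mv} {A : Set ℂ} {z : ℂ} : z ∈ g • A ↔ g⁻¹ • z ∈ A :=
  Set.mem_smul_set_iff_inv_smul_mem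

/-- isometric copies of the prototiles, seen in `ℂ` -/
theorem to_mv {n : ℕ} (P : Fin n → Set E2) (i : Fin n) (g : E2 ≃ᵢ E2) :
    ∃ j, ∃ m : Mv, ce ⁻¹' (g '' P i) = m • pro P j := by
  obtain ⟨m, hm | hm⟩ := isometry_cases
    ((ce.toIsometryEquiv.trans g).trans ce.symm.toIsometryEquiv)
  · refine ⟨Fin.castAdd n i, m, ?_⟩
    rw [pro_left]
    have h1 : ∀ z, ce.symm (g (ce z)) = m • z := hm
    ext z
    constructor
    · rintro ⟨x, hx, hxz⟩
      refine ⟨ce.symm x, by simpa using hx, ?_⟩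
      change m • ce.symm x = z
      rw [← h1, LinearIsometryEquiv.apply_symm_apply, hxz, LinearIsometryEquiv.symm_apply_apply]
    · rintro ⟨y, hy, hyz⟩
      refine ⟨ce y, hy, ?_⟩
      have h2 : m • y = z := hyz
      rw [← h2, ← h1, LinearIsometryEquiv.apply_symm_apply]
  · refine ⟨Fin.natAdd n i, m, ?_⟩
    rw [pro_right]
    have h1 : ∀ z, ce.symm (g (ce z)) = m • (conj z : ℂ) := hm
    ext z
    constructor
    · rintro ⟨x, hx, hxz⟩
      refine ⟨conj (ce.symm x), by simpa using hx, ?_⟩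
      change m • (conj (ce.symm x) : ℂ) = z
      rw [← h1, LinearIsometryEquiv.apply_symm_apply, hxz, LinearIsometryEquiv.symm_apply_apply]
    · rintro ⟨y, hy, hyz⟩
      refine ⟨ce (conj y), hy, ?_⟩
      have h2 : m • y = z := hyz
      have h3 := h1 (conj y)
      rw [Complex.conj_conj, h2] at h3
      rw [← h3, LinearIsometryEquiv.apply_symm_apply]

/-- moved prototiles, seen in `E2` -/
theorem of_mv {n : ℕ} (P : Fin n → Set E2) (j : Fin (n + n)) (m : Mv) :
    ∃ i, ∃ g : E2 ≃ᵢ E2, ce '' (m • pro P j) = g '' P i := by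
  refine Fin.addCases (fun i => ?_) (fun i => ?_) j
  · refine ⟨i, (ce.symm.toIsometryEquiv.trans (IsometryEquiv.constSMul m)).trans
      ce.toIsometryEquiv, ?_⟩
    rw [pro_left]
    ext x
    constructor
    · rintro ⟨z, ⟨y, hy, rfl⟩, rfl⟩
      refine ⟨ce y, hy, ?_⟩
      change ce (m • ce.symm (ce y)) = ce (m • y)
      rw [LinearIsometryEquiv.symm_apply_apply]
    · rintro ⟨y, hy, rfl⟩
      refine ⟨m • ce.symm y, ⟨ce.symm y, by simpa using hy, rfl⟩, rfl⟩
  · refine ⟨i, ((ce.symm.toIsometryEquiv.trans Complex.conjLIE.toIsometryEquiv).trans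
      (IsometryEquiv.constSMul m)).trans ce.toIsometryEquiv, ?_⟩
    rw [pro_right]
    ext x
    constructor
    · rintro ⟨z, ⟨y, hy, rfl⟩, rfl⟩
      refine ⟨ce (conj y), hy, ?_⟩
      change ce (m • (conj (ce.symm (ce (conj y))) : ℂ)) = ce (m • y)
      rw [LinearIsometryEquiv.symm_apply_apply, Complex.conj_conj]
    · rintro ⟨y, hy, rfl⟩
      refine ⟨m • (conj (ce.symm y) : ℂ), ⟨conj (ce.symm y), by simpa using hy, rfl⟩, rfl⟩

/-- a nonempty compact set is not invariant under a nonzero translation -/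
theorem no_inv {A : Set E2} (hc : IsCompact A) (hne : A.Nonempty) {v : E2}
    (h : ∀ x ∈ A, x + v ∈ A) : v = 0 := by
  obtain ⟨x, hx, hmax⟩ := hc.exists_isMaxOn hne
    (f := fun x => inner ℝ x v) (by fun_prop)
  have h1 := hmax (h x hx)
  simp only [mem_ofPred_eq] at h1
  rw [inner_add_left] at h1
  have h2 : inner ℝ v v ≤ 0 := by linarith
  have h3 := real_inner_self_eq_norm_sq v
  have h4 : ‖v‖ ^ 2 ≤ 0 := by rw [← h3]; exact h2
  have h5 : ‖v‖ = 0 := by nlinarith [norm_nonneg v]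
  exact norm_eq_zero.1 h5

theorem indep_lin {u w : ℂ} (h : Indep u w) : LinearIndependent ℝ ![ce u, ce w] := by
  rw [LinearIndependent.pair_iff]
  intro s t hst
  have h1 : s • u + t • w = 0 := by
    apply ce.injective
    rw [map_add, map_smul, map_smul, hst, map_zero]
  have h2 : t = 0 := by
    have h3 := congrArg (fun z => (conj u * z).im) h1
    simp only [mul_add, mul_smul_comm, Complex.add_im, Complex.smul_im, mul_zero,
      Complex.zero_im, smul_eq_mul] at h3
    have h4 : (conj u * u).im = 0 := by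
      rw [← Complex.normSq_eq_conj_mul_self, Complex.ofReal_im]
    rw [h4, mul_zero, zero_add] at h3
    exact (mul_eq_zero.1 h3).resolve_right h
  refine ⟨?_, h2⟩
  rw [h2, zero_smul, add_zero] at h1
  rcases smul_eq_zero.1 h1 with h5 | h5
  · exact h5
  · exfalso
    apply h
    rw [h5]
    simp

/-- the set of tiles of an indexed tiling -/
def tset {n : ℕ} {P : Fin n → Set E2} (T : Tiling (pro P)) : Set (Set E2) :=
  {S | ∃ t : T.J, S = ce '' T.tile t}

theorem tset_per {n : ℕ} {P : Fin n → Set E2} (T : Tiling (pro P)) (u : ℂ) (h : T.Per u)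
    (S : Set E2) : S ∈ tset T ↔ (fun x => x + ce u) '' S ∈ tset T := by
  obtain ⟨σ, hσ⟩ := h
  have h1 : ∀ t, T.tile (σ t) = Mv.tr u • T.tile t := by
    intro t
    unfold Tiling.tile
    rw [(hσ t).1, (hσ t).2, mul_smul]
  have h2 : ∀ t, (fun x => x + ce u) '' (ce '' T.tile t) = ce '' T.tile (σ t) := by
    intro t
    rw [h1]
    ext x
    constructor
    · rintro ⟨_, ⟨z, hz, rfl⟩, rfl⟩
      refine ⟨z + u, ⟨z, hz, by simp⟩, ?_⟩
      rw [map_add]
    · rintro ⟨_, ⟨z, hz, rfl⟩, rfl⟩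
      refine ⟨ce z, ⟨z, hz, rfl⟩, ?_⟩
      simp
  constructor
  · rintro ⟨t, rfl⟩
    exact ⟨σ t, h2 t⟩
  · rintro ⟨t, ht⟩
    refine ⟨σ.symm t, ?_⟩
    have h3 := h2 (σ.symm t)
    rw [σ.apply_symm_apply, ← ht] at h3
    exact (Set.image_injective.2 (add_left_injective (ce u))) h3.symm

end Tr

open Tr in
/-- the frozen statement follows from the main theorem on indexed tilings of `ℂ` -/
theorem transfer
    (main : ∀ (N : ℕ) (P : Fin N → Set ℂ), (∀ i, Nice (P i)) → ∀ (T : Tiling P) (v : ℂ), v ≠ 0 →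
      T.Per v → ∃ (T' : Tiling P) (u w : ℂ), Indep u w ∧ T'.Per u ∧ T'.Per w) :
  ∀ (n : ℕ) (P : Fin n → Set (EuclideanSpace ℝ (Fin 2))),
    (∀ i, Nonempty (P i ≃ₜ Metric.closedBall (0 : EuclideanSpace ℝ (Fin 2)) 1)) →
    (∃ T : Set (Set (EuclideanSpace ℝ (Fin 2))),
      (∀ t ∈ T, ∃ i, ∃ g : EuclideanSpace ℝ (Fin 2) ≃ᵢ EuclideanSpace ℝ (Fin 2),
        t = g '' P i) ∧
      (⋃₀ T = Set.univ) ∧
      (∀ s ∈ T, ∀ t ∈ T, s ≠ t → Disjoint (interior s) (interior t)) ∧
      ∃ v : EuclideanSpace ℝ (Fin 2), v ≠ 0 ∧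
        ∀ t : Set (EuclideanSpace ℝ (Fin 2)), t ∈ T ↔ (fun x => x + v) '' t ∈ T) →
    ∃ T : Set (Set (EuclideanSpace ℝ (Fin 2))),
      (∀ t ∈ T, ∃ i, ∃ g : EuclideanSpace ℝ (Fin 2) ≃ᵢ EuclideanSpace ℝ (Fin 2),
        t = g '' P i) ∧
      (⋃₀ T = Set.univ) ∧
      (∀ s ∈ T, ∀ t ∈ T, s ≠ t → Disjoint (interior s) (interior t)) ∧
      ∃ u w : EuclideanSpace ℝ (Fin 2), LinearIndependent ℝ ![u, w] ∧
        (∀ t : Set (EuclideanSpace ℝ (Fin 2)), t ∈ T ↔ (fun x => x + u) '' t ∈ T) ∧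
        (∀ t : Set (EuclideanSpace ℝ (Fin 2)), t ∈ T ↔ (fun x => x + w) '' t ∈ T) := by
  intro n P hP ⟨T, hT, hcov, hdisj, v, hv, hper⟩
  -- compactness of tiles
  have hcomp : ∀ t ∈ T, IsCompact t ∧ t.Nonempty := by
    intro t ht
    obtain ⟨i, g, rfl⟩ := hT t ht
    obtain ⟨h⟩ := hP i
    have : CompactSpace (P i) := h.symm.compactSpace
    have h1 : IsCompact (P i) := isCompact_iff_compactSpace.2 this
    refine ⟨h1.image g.continuous, ?_⟩
    apply Set.Nonempty.image
    exact ⟨_, (h.symm ⟨0, by simp⟩).2⟩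
  -- the shift
  have himg : ∀ w : EuclideanSpace ℝ (Fin 2), ∀ t : Set (EuclideanSpace ℝ (Fin 2)),
      (fun x => x + w) '' ((fun x => x + -w) '' t) = t := by
    intro w t
    rw [Set.image_image]
    simp
  have himg' : ∀ w : EuclideanSpace ℝ (Fin 2), ∀ t : Set (EuclideanSpace ℝ (Fin 2)),
      (fun x => x + -w) '' ((fun x => x + w) '' t) = t := by
    intro w t
    rw [Set.image_image]
    simp
  let σ : Equiv.Perm T :=
    { toFun := fun t => ⟨(fun x => x + v) '' t.1, (hper t.1).1 t.2⟩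
      invFun := fun t => ⟨(fun x => x + -v) '' t.1, (hper _).2 (by rw [himg]; exact t.2)⟩
      left_inv := fun t => Subtype.ext (himg' v t.1)
      right_inv := fun t => Subtype.ext (himg v t.1) }
  have hσ : ∀ t, (σ t).1 = (fun x => x + v) '' t.1 := fun t => rfl
  have hσi : ∀ t, (σ⁻¹ t).1 = (fun x => x + -v) '' t.1 := fun t => rfl
  have hσk : ∀ (k : ℤ) (t : T), ∀ x ∈ t.1, x + k • v ∈ ((σ ^ k) t).1 := by
    intro k
    induction k using Int.induction_on with
    | zero => intro t x hx; simpa using hx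
    | succ k ih =>
      intro t x hx
      rw [zpow_add_one, Equiv.Perm.mul_apply]
      have h1 := ih (σ t) (x + v) ⟨x, hx, rfl⟩
      have h2 : x + ((k : ℤ) + 1) • v = x + v + (k : ℤ) • v := by
        rw [add_smul, one_smul]; abel
      rw [h2]
      exact h1
    | pred k ih =>
      intro t x hx
      rw [zpow_sub_one, Equiv.Perm.mul_apply]
      have h1 := ih (σ⁻¹ t) (x + -v) ⟨x, hx, rfl⟩
      have h2 : x + (-(k : ℤ) - 1) • v = x + -v + (-(k : ℤ)) • v := by
        rw [sub_smul, one_smul]; abel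
      rw [h2]
      exact h1
  have free : ∀ (k : ℤ) (t : T), (σ ^ k) t = t → k = 0 := by
    intro k t h
    have h1 : k • v = 0 := by
      apply no_inv (hcomp t.1 t.2).1 (hcomp t.1 t.2).2
      intro x hx
      have h2 := hσk k t x hx
      rw [h] at h2
      exact h2
    rw [← Int.cast_smul_eq_zsmul ℝ k v] at h1
    exact_mod_cast (smul_eq_zero.1 h1).resolve_right hv
  obtain ⟨idx, g, hg, hgσ⟩ := equivariant (pro P) σ (Mv.tr (ce.symm v)) free
    (fun t => ce ⁻¹' t.1) (by
      intro t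
      rw [hσ]
      ext z
      constructor
      · rintro ⟨x, hx, hxz⟩
        refine ⟨ce.symm x, by simpa using hx, ?_⟩
        change Mv.tr (ce.symm v) • ce.symm x = z
        rw [Mv.tr_smul, ← map_add]
        have : x + v = ce z := hxz
        rw [this, LinearIsometryEquiv.symm_apply_apply]
      · rintro ⟨y, hy, rfl⟩
        refine ⟨ce y, hy, ?_⟩
        change ce y + v = ce (Mv.tr (ce.symm v) • y)
        rw [Mv.tr_smul, map_add, LinearIsometryEquiv.apply_symm_apply]) (by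
      intro t
      obtain ⟨i, g, h⟩ := hT t.1 t.2
      have := to_mv P i g
      rw [← h] at this
      exact this)
  let T0 : Tiling (pro P) :=
    { J := T
      idx := idx
      g := g
      cover := by
        intro z
        have h1 : ce z ∈ ⋃₀ T := by rw [hcov]; trivial
        obtain ⟨t, ht, hz⟩ := h1
        refine ⟨⟨t, ht⟩, ?_⟩
        rw [← hg]
        exact hz
      disj := by
        intro s t hst
        rw [← hg, ← hg]
        have h1 := hdisj s.1 s.2 t.1 t.2 (fun h => hst (Subtype.ext h))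
        have h2 : ∀ A : Set E2, interior (ce ⁻¹' A) = ce ⁻¹' interior A := fun A =>
          (ce.toHomeomorph.preimage_interior A).symm
        rw [h2, h2]
        exact h1.preimage ce }
  obtain ⟨T', u, w, huw, hu, hw⟩ := main (n + n) (pro P) (pro_nice P hP) T0 (ce.symm v)
    (by simpa using hv) ⟨σ, hgσ⟩
  refine ⟨tset T', ?_, ?_, ?_, ce u, ce w, indep_lin huw, tset_per T' u hu, tset_per T' w hw⟩
  · rintro _ ⟨t, rfl⟩
    exact of_mv P _ _
  · rw [Set.eq_univ_iff_forall]
    intro x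
    obtain ⟨t, ht⟩ := T'.cover (ce.symm x)
    exact ⟨_, ⟨t, rfl⟩, ce.symm x, ht, by simp⟩
  · rintro _ ⟨s, rfl⟩ _ ⟨t, rfl⟩ hst
    have h1 : s ≠ t := by
      rintro rfl
      exact hst rfl
    have h2 : ∀ A : Set ℂ, interior (ce '' A) = ce '' interior A := fun A =>
      (ce.toHomeomorph.image_interior A).symm
    rw [h2, h2]
    exact (Set.disjoint_image_iff ce.injective).2 (T'.disj s t h1)

end H231R2
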